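import Mathlib

/-!
# Taylor series as power series, and positivity of functions with positive real part
-/

set_option autoImplicit false

open Filter Topology Metric Complex Real
open scoped ComplexConjugate

namespace Pool.Agent.R995.BZ

/-- the Taylor series at `0` -/
noncomputable def tay (f : ℂ → ℂ) : PowerSeries ℂ :=
  PowerSeries.mk fun n => iteratedDeriv n f 0 / (n.factorial : ℂ)

variable {f g : ℂ → ℂ}

lemma coeff_tay (n : ℕ) : PowerSeries.coeff n (tay f) = iteratedDeriv n f 0 / (n.factorial : ℂ) := by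
  simp [tay]

lemma tay_mul (hf : AnalyticAt ℂ f 0) (hg : AnalyticAt ℂ g 0) :
    tay (fun z => f z * g z) = tay f * tay g := by
  change tay (f * g) = _
  ext m
  rw [coeff_tay, iteratedDeriv_mul hf.contDiffAt hg.contDiffAt, PowerSeries.coeff_mul,
    Finset.Nat.sum_antidiagonal_eq_sum_range_succ_mk, Finset.sum_div]
  refine Finset.sum_congr rfl fun i hi => ?_
  rw [coeff_tay, coeff_tay, Nat.cast_choose ℂ (Nat.lt_succ_iff.1 (Finset.mem_range.1 hi))]
  have h1 : (i.factorial : ℂ) ≠ 0 := by exact_mod_cast Nat.factorial_ne_zero i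
  have h2 : (m.factorial : ℂ) ≠ 0 := by exact_mod_cast Nat.factorial_ne_zero m
  have h3 : ((m - i).factorial : ℂ) ≠ 0 := by exact_mod_cast Nat.factorial_ne_zero (m - i)
  field_simp

lemma tay_add (hf : AnalyticAt ℂ f 0) (hg : AnalyticAt ℂ g 0) :
    tay (fun z => f z + g z) = tay f + tay g := by
  change tay (f + g) = _
  ext m
  rw [map_add, coeff_tay, coeff_tay, coeff_tay, iteratedDeriv_add hf.contDiffAt hg.contDiffAt, add_div]

lemma tay_const (c : ℂ) : tay (fun _ => c) = PowerSeries.C c := by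
  ext m
  rw [coeff_tay, iteratedDeriv_const, PowerSeries.coeff_C]
  split_ifs with h
  · rw [h]
    simp
  · simp

lemma tay_deriv (f : ℂ → ℂ) : tay (deriv f) = PowerSeries.derivative ℂ (tay f) := by
  ext m
  rw [PowerSeries.coeff_derivative, coeff_tay, coeff_tay, ← iteratedDeriv_succ', Nat.factorial_succ]
  have h1 : (m.factorial : ℂ) ≠ 0 := by exact_mod_cast Nat.factorial_ne_zero m
  have h2 : ((m : ℂ) + 1) ≠ 0 := by exact_mod_cast Nat.succ_ne_zero m
  push_cast
  field_simp

lemma tay_congr (h : f =ᶠ[𝓝 0] g) : tay f = tay g := by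
  ext m
  rw [coeff_tay, coeff_tay, h.iteratedDeriv_eq]

lemma tay_id : tay (fun z => z) = PowerSeries.X := by
  ext n
  rw [coeff_tay, PowerSeries.coeff_X]
  match n with
  | 0 => simp
  | 1 => simp [iteratedDeriv_one]
  | n + 2 =>
    have h1 : iteratedDeriv (n + 2) (fun z : ℂ => z) 0 = 0 := by
      rw [iteratedDeriv_succ', iteratedDeriv_succ']
      have h2 : deriv (fun z : ℂ => z) = fun _ => 1 := by
        funext z
        simp
      rw [h2]
      simp
    rw [h1]
    simp

/-! ### circle averages -/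

lemma avg_neg {p : ℂ → ℂ} (hp : DifferentiableOn ℂ p (ball 0 1)) {r : ℝ} (hr : 0 < r) (hr1 : r < 1)
    (k : ℕ) : Real.circleAverage (fun z => p z * z⁻¹ ^ k) 0 r = PowerSeries.coeff k (tay p) := by
  rw [circleAverage_eq_circleIntegral hr.ne']
  have h1 := DifferentiableOn.circleIntegral_one_div_sub_center_pow_smul (c := 0) (f := p) hr k
    (hp.mono (closedBall_subset_ball hr1))
  have h2 : (∮ z in C(0, r), (z - 0)⁻¹ • (p z * z⁻¹ ^ k)) = ∮ z in C(0, r), (1 / (z - 0) ^ (k + 1)) • p z := by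
    refine circleIntegral.integral_congr hr.le fun z hz => ?_
    simp only [sub_zero, smul_eq_mul, one_div, inv_pow, pow_succ, mul_inv]
    ring
  rw [h2, h1, coeff_tay]
  have h3 : (2 * (π : ℂ) * I) ≠ 0 := by
    simp [Real.pi_ne_zero]
  have h4 : (k.factorial : ℂ) ≠ 0 := by exact_mod_cast Nat.factorial_ne_zero k
  simp only [smul_eq_mul]
  field_simp

lemma avg_pos {p : ℂ → ℂ} (hp : DifferentiableOn ℂ p (ball 0 1)) {r : ℝ} (hr : 0 < r) (hr1 : r < 1)
    {k : ℕ} (hk : 1 ≤ k) : Real.circleAverage (fun z => p z * z ^ k) 0 r = 0 := by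
  rw [circleAverage_eq_circleIntegral hr.ne']
  have hd : DifferentiableOn ℂ (fun z => p z * z ^ k) (ball 0 1) :=
    hp.mul (differentiableOn_id.pow k)
  have h1 := DifferentiableOn.circleIntegral_one_div_sub_center_pow_smul (c := 0)
    (f := fun z => p z * z ^ k) hr 0
    (hd.mono (closedBall_subset_ball hr1))
  have h2 : (∮ z in C(0, r), (z - 0)⁻¹ • (p z * z ^ k)) =
      ∮ z in C(0, r), (1 / (z - 0) ^ (0 + 1)) • (p z * z ^ k) := by
    refine circleIntegral.integral_congr hr.le fun z hz => ?_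
    simp
  rw [h2, h1]
  have : (0 : ℂ) ^ k = 0 := zero_pow (by omega)
  simp [this]

/-- duality between nonnegative trigonometric polynomials and functions with nonnegative real
part -/
theorem carath {p : ℂ → ℂ} (hp : DifferentiableOn ℂ p (ball 0 1))
    (hre : ∀ z ∈ ball (0 : ℂ) 1, 0 ≤ (p z).re) (h0 : p 0 = 1) {ι : Type} (S : Finset ι) (k : ι → ℕ)
    (hk : ∀ s ∈ S, 1 ≤ k s) (c : ι → ℂ) (c0 : ℝ)
    (hpos : ∀ ζ : ℂ, ‖ζ‖ = 1 → 0 ≤ c0 + 2 * (∑ s ∈ S, c s * ζ ^ (k s)).re) :
    0 ≤ c0 + (∑ s ∈ S, c s * PowerSeries.coeff (k s) (tay p)).re := by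
  -- the bound for each radius
  have key : ∀ r : ℝ, 0 < r → r < 1 →
      0 ≤ c0 + (∑ s ∈ S, c s * (r : ℂ) ^ (k s) * PowerSeries.coeff (k s) (tay p)).re := by
    intro r hr hr1
    have hcont : ContinuousOn p (sphere 0 |r|) := by
      refine hp.continuousOn.mono ?_
      rw [abs_of_pos hr]
      exact (sphere_subset_closedBall).trans (closedBall_subset_ball hr1)
    have hinv : ContinuousOn (fun z : ℂ => z⁻¹) (sphere 0 |r|) := by
      refine continuousOn_inv₀.mono ?_
      intro z hz
      rw [mem_sphere_zero_iff_norm, abs_of_pos hr] at hz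
      simp only [Set.mem_compl_iff, Set.mem_singleton_iff]
      intro h
      rw [h, norm_zero] at hz
      exact hr.ne hz
    have hA : ∀ n : ℕ, CircleIntegrable (fun z => p z * z⁻¹ ^ n) 0 r := fun n => by
      have : CircleIntegrable (fun z => p z * z⁻¹ ^ n) 0 |r| :=
        ContinuousOn.circleIntegrable (abs_nonneg r) (hcont.mul (hinv.pow n))
      rwa [abs_of_pos hr] at this
    have hB : ∀ n : ℕ, CircleIntegrable (fun z => p z * z ^ n) 0 r := fun n => by
      have : CircleIntegrable (fun z => p z * z ^ n) 0 |r| :=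
        ContinuousOn.circleIntegrable (abs_nonneg r) (hcont.mul (continuousOn_id.pow n))
      rwa [abs_of_pos hr] at this
    set Φ : ℂ → ℂ := fun z => (c0 : ℂ) * (p z * z⁻¹ ^ 0) +
      ((∑ s ∈ S, (c s * (r : ℂ) ^ (k s)) * (p z * z⁻¹ ^ (k s))) +
        ∑ s ∈ S, (conj (c s) * ((r : ℂ) ^ (k s))⁻¹) * (p z * z ^ (k s))) with hΦ
    have hI1 : CircleIntegrable (fun z => (c0 : ℂ) * (p z * z⁻¹ ^ 0)) 0 r := by
      have := (hA 0).const_fun_smul (a := (c0 : ℂ))
      simpa using this
    have hI2 : ∀ s ∈ S, CircleIntegrable (fun z => (c s * (r : ℂ) ^ (k s)) * (p z * z⁻¹ ^ (k s))) 0 r := by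
      intro s _
      have := (hA (k s)).const_fun_smul (a := c s * (r : ℂ) ^ (k s))
      simpa using this
    have hI3 : ∀ s ∈ S, CircleIntegrable
        (fun z => (conj (c s) * ((r : ℂ) ^ (k s))⁻¹) * (p z * z ^ (k s))) 0 r := by
      intro s _
      have := (hB (k s)).const_fun_smul (a := conj (c s) * ((r : ℂ) ^ (k s))⁻¹)
      simpa using this
    have hI2' : CircleIntegrable (fun z => ∑ s ∈ S, (c s * (r : ℂ) ^ (k s)) * (p z * z⁻¹ ^ (k s))) 0 r :=
      CircleIntegrable.fun_sum S hI2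
    have hI3' : CircleIntegrable
        (fun z => ∑ s ∈ S, (conj (c s) * ((r : ℂ) ^ (k s))⁻¹) * (p z * z ^ (k s))) 0 r :=
      CircleIntegrable.fun_sum S hI3
    have hI23 : CircleIntegrable
        (fun z => (∑ s ∈ S, (c s * (r : ℂ) ^ (k s)) * (p z * z⁻¹ ^ (k s))) +
        ∑ s ∈ S, (conj (c s) * ((r : ℂ) ^ (k s))⁻¹) * (p z * z ^ (k s))) 0 r := hI2'.add hI3'
    have hIΦ : CircleIntegrable Φ 0 r := hI1.add hI23
    have havg : Real.circleAverage Φ 0 r = (c0 : ℂ) +
        ∑ s ∈ S, c s * (r : ℂ) ^ (k s) * PowerSeries.coeff (k s) (tay p) := by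
      rw [hΦ, circleAverage_fun_add hI1 hI23, circleAverage_fun_add hI2' hI3',
        circleAverage_fun_sum hI2, circleAverage_fun_sum hI3]
      have e1 : Real.circleAverage (fun z => (c0 : ℂ) * (p z * z⁻¹ ^ 0)) 0 r = c0 := by
        have := circleAverage_fun_smul (a := (c0 : ℂ)) (f := fun z => p z * z⁻¹ ^ 0) (c := 0) (R := r)
        simp only [smul_eq_mul] at this
        rw [this, avg_neg hp hr hr1, coeff_tay]
        simp [h0]
      have e2 : ∀ s ∈ S, Real.circleAverage
          (fun z => (c s * (r : ℂ) ^ (k s)) * (p z * z⁻¹ ^ (k s))) 0 r =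
          c s * (r : ℂ) ^ (k s) * PowerSeries.coeff (k s) (tay p) := by
        intro s _
        have := circleAverage_fun_smul (a := c s * (r : ℂ) ^ (k s)) (f := fun z => p z * z⁻¹ ^ (k s))
          (c := 0) (R := r)
        simp only [smul_eq_mul] at this
        rw [this, avg_neg hp hr hr1]
      have e3 : ∀ s ∈ S, Real.circleAverage
          (fun z => (conj (c s) * ((r : ℂ) ^ (k s))⁻¹) * (p z * z ^ (k s))) 0 r = 0 := by
        intro s hs
        have := circleAverage_fun_smul (a := conj (c s) * ((r : ℂ) ^ (k s))⁻¹)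
          (f := fun z => p z * z ^ (k s)) (c := 0) (R := r)
        simp only [smul_eq_mul] at this
        rw [this, avg_pos hp hr hr1 (hk s hs), mul_zero]
      rw [e1, Finset.sum_congr rfl e2, Finset.sum_congr rfl e3]
      simp
    have hre' : ∀ z ∈ sphere (0 : ℂ) |r|, 0 ≤ (Φ z).re := by
      intro z hz
      rw [mem_sphere_zero_iff_norm, abs_of_pos hr] at hz
      have hz0 : z ≠ 0 := by
        intro h
        rw [h, norm_zero] at hz
        exact hr.ne hz
      have hr0 : (r : ℂ) ≠ 0 := by exact_mod_cast hr.ne'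
      have hzz : z * conj z = (r : ℂ) ^ 2 := by
        rw [Complex.mul_conj, Complex.normSq_eq_norm_sq, hz]
        push_cast
        ring
      have hcz : conj z = (r : ℂ) ^ 2 * z⁻¹ := by
        field_simp
        rw [← hzz]
        ring
      have hζ : ‖(r : ℂ) * z⁻¹‖ = 1 := by
        rw [norm_mul, norm_inv, hz]
        simp [abs_of_pos hr, hr.ne']
      have h1 := hpos _ hζ
      set W : ℂ := ∑ s ∈ S, c s * ((r : ℂ) * z⁻¹) ^ (k s) with hW
      have hWc : conj W = ∑ s ∈ S, (conj (c s) * ((r : ℂ) ^ (k s))⁻¹) * z ^ (k s) := by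
        rw [hW, map_sum]
        refine Finset.sum_congr rfl fun s _ => ?_
        rw [map_mul, map_pow, map_mul, map_inv₀, hcz, Complex.conj_ofReal]
        have : (r : ℂ) * ((r : ℂ) ^ 2 * z⁻¹)⁻¹ = (r : ℂ)⁻¹ * z := by
          field_simp
        rw [this, mul_pow, inv_pow]
        ring
      have hΦz : Φ z = p z * ((c0 : ℂ) + (W + conj W)) := by
        rw [hWc, hΦ, hW]
        simp only [pow_zero, mul_one, mul_add, Finset.mul_sum]
        congr 1
        · ring
        · congr 1
          · refine Finset.sum_congr rfl fun s _ => ?_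
            rw [mul_pow]
            ring
          · refine Finset.sum_congr rfl fun s _ => ?_
            ring
      have hreal : (c0 : ℂ) + (W + conj W) = ((c0 + 2 * W.re : ℝ) : ℂ) := by
        rw [Complex.add_conj]
        push_cast
        ring
      rw [hΦz, hreal, Complex.mul_re, Complex.ofReal_re, Complex.ofReal_im, mul_zero, sub_zero]
      refine mul_nonneg (hre z ?_) h1
      rw [mem_ball_zero_iff, hz]
      exact hr1
    have h5 := circleAverage_nonneg_of_nonneg hre'
    have h6 := (Complex.reCLM).circleAverage_comp_comm hIΦ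
    have h7 : (Complex.reCLM ∘ Φ) = fun z => (Φ z).re := by
      funext z
      simp
    rw [h7] at h6
    rw [h6, havg] at h5
    simpa using h5
  -- passage to the limit
  have hcontr : Continuous fun r : ℝ =>
      c0 + (∑ s ∈ S, c s * (r : ℂ) ^ (k s) * PowerSeries.coeff (k s) (tay p)).re := by
    fun_prop
  have hlim : Tendsto (fun r : ℝ =>
      c0 + (∑ s ∈ S, c s * (r : ℂ) ^ (k s) * PowerSeries.coeff (k s) (tay p)).re) (𝓝[<] 1)
      (𝓝 (c0 + (∑ s ∈ S, c s * ((1 : ℝ) : ℂ) ^ (k s) * PowerSeries.coeff (k s) (tay p)).re)) :=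
    (hcontr.tendsto 1).mono_left nhdsWithin_le_nhds
  have hev : ∀ᶠ r : ℝ in 𝓝[<] 1,
      0 ≤ c0 + (∑ s ∈ S, c s * (r : ℂ) ^ (k s) * PowerSeries.coeff (k s) (tay p)).re := by
    have : ∀ᶠ r : ℝ in 𝓝[<] 1, 0 < r := by
      refine (eventually_gt_nhds (by norm_num : (0 : ℝ) < 1)).filter_mono nhdsWithin_le_nhds
    filter_upwards [this, self_mem_nhdsWithin] with r h1 h2
    exact key r h1 h2
  have h8 := ge_of_tendsto hlim hev
  simpa using h8

end Pool.Agent.R995.BZ
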