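import Pool.Agent.R995.BZ1

/-!
# Kaluza sequences and weighted accretivity of Toeplitz matrices
-/

set_option autoImplicit false

open Filter Topology Metric Complex Real
open scoped ComplexConjugate

namespace Pool.Agent.R995.BZ

/-- Kaluza's theorem: the reciprocal of a log-convex power series has nonpositive coefficients -/
theorem kaluza (t : ℕ → ℝ) (hpos : ∀ k, 0 < t k) (h0 : t 0 = 1)
    (hlog : ∀ j k, j ≤ k → t (j + 1) * t k ≤ t (k + 1) * t j) :
    ∃ f : ℕ → ℝ, (∀ k, 0 ≤ f k) ∧ ∀ k, t (k + 1) = ∑ j ∈ Finset.range (k + 1), f (k - j) * t j := by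
  set T : PowerSeries ℝ := PowerSeries.mk t with hT
  have hT1 : PowerSeries.constantCoeff T = 1 := by
    rw [hT, ← PowerSeries.coeff_zero_eq_constantCoeff_apply, PowerSeries.coeff_mk, h0]
  have hTc : PowerSeries.constantCoeff T ≠ 0 := by
    rw [hT1]
    exact one_ne_zero
  set g : PowerSeries ℝ := 1 - T⁻¹ with hg
  have hTg : T * g = T - 1 := by
    rw [hg, mul_sub, mul_one, PowerSeries.mul_inv_cancel _ hTc]
  have hg0 : PowerSeries.coeff 0 g = 0 := by
    have h := congrArg PowerSeries.constantCoeff hTg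
    have h' : PowerSeries.constantCoeff (T - 1) = 0 := by
      rw [map_sub, map_one, hT1, sub_self]
    rw [h', map_mul, hT1, one_mul] at h
    rw [PowerSeries.coeff_zero_eq_constantCoeff_apply, h]
  set f : ℕ → ℝ := fun k => PowerSeries.coeff (k + 1) g with hf
  have hren : ∀ k, t (k + 1) = ∑ j ∈ Finset.range (k + 1), f (k - j) * t j := by
    intro k
    have h := congrArg (PowerSeries.coeff (k + 1)) hTg
    rw [PowerSeries.coeff_mul, Finset.Nat.sum_antidiagonal_eq_sum_range_succ_mk,
      Finset.sum_range_succ, Nat.sub_self, hg0, mul_zero, add_zero, map_sub, PowerSeries.coeff_one,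
      if_neg (Nat.succ_ne_zero k), sub_zero, hT, PowerSeries.coeff_mk] at h
    rw [← h]
    refine Finset.sum_congr rfl fun j hj => ?_
    rw [PowerSeries.coeff_mk, hf]
    simp only
    rw [Finset.mem_range] at hj
    rw [show k + 1 - j = k - j + 1 by omega]
    ring
  refine ⟨f, ?_, hren⟩
  intro k
  induction k using Nat.strong_induction_on with
  | _ k ih =>
    rcases k with _ | k
    · have h := hren 0
      simp [h0] at h
      rw [← h]
      exact (hpos 1).le
    · have h1 := hren (k + 1)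
      rw [Finset.sum_range_succ', Nat.sub_zero, h0, mul_one] at h1
      have h2 := hren k
      have h3 : t (k + 1 + 1) * t (k + 1) ≥
          (∑ j ∈ Finset.range (k + 1), f (k + 1 - (j + 1)) * t (j + 1)) * t (k + 1) := by
        conv_lhs => rw [h2, Finset.mul_sum]
        rw [Finset.sum_mul]
        refine Finset.sum_le_sum fun j hj => ?_
        rw [Finset.mem_range] at hj
        have h4 := hlog j (k + 1) (by omega)
        have h5 := ih (k - j) (by omega)
        rw [show k + 1 - (j + 1) = k - j by omega]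
        nlinarith
      have h6 := le_of_mul_le_mul_right h3 (hpos (k + 1))
      linarith

section psd

variable (t f : ℕ → ℝ)

lemma conv_exchange (z : ℕ → ℂ) (x : ℕ → ℂ)
    (hren : ∀ k, t (k + 1) = ∑ j ∈ Finset.range (k + 1), f (k - j) * t j)
    (hz : ∀ i, z i = ∑ j ∈ Finset.range (i + 1), (t (i - j) : ℂ) * x j) (k : ℕ) :
    ∑ j ∈ Finset.range (k + 1), (t (k + 1 - j) : ℂ) * x j =
      ∑ j ∈ Finset.range (k + 1), (f (k - j) : ℂ) * z j := by
  have h1 : ∑ j ∈ Finset.range (k + 1), (f (k - j) : ℂ) * z j =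
      ∑ j ∈ Finset.range (k + 1), ∑ l ∈ Finset.range (j + 1),
        (f (k - j) : ℂ) * ((t (j - l) : ℂ) * x l) := by
    refine Finset.sum_congr rfl fun j _ => ?_
    rw [hz j, Finset.mul_sum]
  rw [h1, Finset.sum_comm' (t' := Finset.range (k + 1)) (s' := fun l => Finset.Ico l (k + 1))]
  · refine Finset.sum_congr rfl fun l hl => ?_
    rw [Finset.mem_range] at hl
    rw [show k + 1 - l = (k - l) + 1 by omega, hren (k - l), Finset.sum_Ico_eq_sum_range]
    push_cast
    rw [Finset.sum_mul, show k + 1 - l = k - l + 1 by omega]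
    refine Finset.sum_congr rfl fun i hi => ?_
    rw [show k - (l + i) = k - l - i by omega, show l + i - l = i by omega]
    ring
  · intro j l
    simp only [Finset.mem_range, Finset.mem_Ico]
    omega

theorem psd (hpos : ∀ k, 0 < t k) (h0 : t 0 = 1) (hf : ∀ k, 0 ≤ f k)
    (hren : ∀ k, t (k + 1) = ∑ j ∈ Finset.range (k + 1), f (k - j) * t j) (m : ℕ) (x : ℕ → ℂ) :
    0 ≤ ∑ i ∈ Finset.range (m + 1), t (m - i) / t i *
      (‖x i‖ ^ 2 + 2 * (∑ j ∈ Finset.range i, (t (i - j) : ℂ) * (x j * conj (x i))).re) := by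
  set z : ℕ → ℂ := fun i => ∑ j ∈ Finset.range (i + 1), (t (i - j) : ℂ) * x j with hz
  set w : ℕ → ℂ := fun i => ∑ j ∈ Finset.range i, (t (i - j) : ℂ) * x j with hw
  have hzw : ∀ i, z i = w i + x i := by
    intro i
    rw [hz, hw]
    simp only
    rw [Finset.sum_range_succ, Nat.sub_self, h0]
    simp
  have hterm : ∀ i, ‖x i‖ ^ 2 + 2 * (∑ j ∈ Finset.range i, (t (i - j) : ℂ) * (x j * conj (x i))).re =
      ‖z i‖ ^ 2 - ‖w i‖ ^ 2 := by
    intro i
    have h1 : ∑ j ∈ Finset.range i, (t (i - j) : ℂ) * (x j * conj (x i)) = w i * conj (x i) := by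
      rw [hw]
      simp only
      rw [Finset.sum_mul]
      refine Finset.sum_congr rfl fun j _ => ?_
      ring
    rw [h1, hzw i, ← Complex.normSq_eq_norm_sq, ← Complex.normSq_eq_norm_sq,
      ← Complex.normSq_eq_norm_sq, Complex.normSq_add]
    ring
  have hwf : ∀ k, w (k + 1) = ∑ j ∈ Finset.range (k + 1), (f (k - j) : ℂ) * z j := by
    intro k
    exact conv_exchange t f z x hren (fun i => rfl) k
  have hw0 : w 0 = 0 := by simp [hw]
  have hCS : ∀ k, ‖w (k + 1)‖ ^ 2 ≤ t (k + 1) *
      ∑ j ∈ Finset.range (k + 1), f (k - j) * (‖z j‖ ^ 2 / t j) := by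
    intro k
    have h1 : ‖w (k + 1)‖ ≤ ∑ j ∈ Finset.range (k + 1), f (k - j) * ‖z j‖ := by
      rw [hwf k]
      refine (norm_sum_le _ _).trans (Finset.sum_le_sum fun j _ => ?_)
      rw [norm_mul, Complex.norm_real, Real.norm_of_nonneg (hf _)]
    have h2 : (∑ j ∈ Finset.range (k + 1), f (k - j) * ‖z j‖) ^ 2 ≤
        (∑ j ∈ Finset.range (k + 1), f (k - j) * t j) *
        ∑ j ∈ Finset.range (k + 1), f (k - j) * (‖z j‖ ^ 2 / t j) := by
      refine Finset.sum_sq_le_sum_mul_sum_of_sq_le_mul _ (fun j _ => mul_nonneg (hf _) (hpos j).le)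
        (fun j _ => mul_nonneg (hf _) (div_nonneg (sq_nonneg _) (hpos j).le)) fun j _ => le_of_eq ?_
      have := (hpos j).ne'
      field_simp
    rw [hren k]
    refine le_trans ?_ h2
    exact pow_le_pow_left₀ (norm_nonneg _) h1 2
  simp_rw [hterm]
  -- the sum of the second squares
  have hsum : ∑ i ∈ Finset.range (m + 1), t (m - i) / t i * ‖w i‖ ^ 2 ≤
      ∑ j ∈ Finset.range m, t (m - j) / t j * ‖z j‖ ^ 2 := by
    rw [Finset.sum_range_succ', hw0]
    simp only [norm_zero, ne_eq, OfNat.ofNat_ne_zero, not_false_eq_true, zero_pow, mul_zero, add_zero]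
    have h1 : ∀ k ∈ Finset.range m, t (m - (k + 1)) / t (k + 1) * ‖w (k + 1)‖ ^ 2 ≤
        ∑ j ∈ Finset.range (k + 1), t (m - (k + 1)) * (f (k - j) * (‖z j‖ ^ 2 / t j)) := by
      intro k _
      have h2 := hCS k
      have h3 := hpos (k + 1)
      have h4 := hpos (m - (k + 1))
      calc t (m - (k + 1)) / t (k + 1) * ‖w (k + 1)‖ ^ 2
          ≤ t (m - (k + 1)) / t (k + 1) * (t (k + 1) *
            ∑ j ∈ Finset.range (k + 1), f (k - j) * (‖z j‖ ^ 2 / t j)) :=
            mul_le_mul_of_nonneg_left h2 (div_nonneg h4.le h3.le)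
        _ = t (m - (k + 1)) * ∑ j ∈ Finset.range (k + 1), f (k - j) * (‖z j‖ ^ 2 / t j) := by
            field_simp
        _ = _ := by rw [Finset.mul_sum]
    refine (Finset.sum_le_sum h1).trans (le_of_eq ?_)
    rw [Finset.sum_comm' (t' := Finset.range m) (s' := fun j => Finset.Ico j m)]
    · refine Finset.sum_congr rfl fun j hj => ?_
      rw [Finset.mem_range] at hj
      have h5 : t (m - j) = ∑ k ∈ Finset.Ico j m, t (m - (k + 1)) * f (k - j) := by
        rw [show m - j = (m - 1 - j) + 1 by omega, hren (m - 1 - j), Finset.sum_Ico_eq_sum_range,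
          show m - j = m - 1 - j + 1 by omega, ← Finset.sum_range_reflect]
        refine Finset.sum_congr rfl fun i hi => ?_
        rw [Finset.mem_range] at hi
        rw [show m - (j + i + 1) = m - 1 - j + 1 - 1 - i by omega,
          show m - 1 - j - (m - 1 - j + 1 - 1 - i) = j + i - j by omega]
        ring
      rw [h5, Finset.sum_div, Finset.sum_mul]
      refine Finset.sum_congr rfl fun k _ => ?_
      ring
    · intro k j
      simp only [Finset.mem_range, Finset.mem_Ico]
      omega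
  have hsplit : ∑ i ∈ Finset.range (m + 1), t (m - i) / t i * (‖z i‖ ^ 2 - ‖w i‖ ^ 2) =
      (∑ i ∈ Finset.range (m + 1), t (m - i) / t i * ‖z i‖ ^ 2) -
      ∑ i ∈ Finset.range (m + 1), t (m - i) / t i * ‖w i‖ ^ 2 := by
    rw [← Finset.sum_sub_distrib]
    refine Finset.sum_congr rfl fun i _ => ?_
    ring
  rw [hsplit, Finset.sum_range_succ]
  have h6 : 0 ≤ t (m - m) / t m * ‖z m‖ ^ 2 :=
    mul_nonneg (div_nonneg (hpos _).le (hpos m).le) (sq_nonneg _)
  linarith

end psd

/-- weighted accretivity of the Toeplitz matrix of `∑ t_k p_k z^k` -/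
theorem accretive {p : ℂ → ℂ} (hp : DifferentiableOn ℂ p (ball 0 1))
    (hre : ∀ z ∈ ball (0 : ℂ) 1, 0 ≤ (p z).re) (hp0 : p 0 = 1)
    (t : ℕ → ℝ) (hpos : ∀ k, 0 < t k) (h0 : t 0 = 1)
    (hlog : ∀ j k, j ≤ k → t (j + 1) * t k ≤ t (k + 1) * t j) (m : ℕ) (y : ℕ → ℂ) :
    0 ≤ ∑ i ∈ Finset.range (m + 1), t (m - i) / t i *
      ((∑ j ∈ Finset.range (i + 1), ((t (i - j) : ℂ) * PowerSeries.coeff (i - j) (tay p)) * y j) *
        conj (y i)).re := by
  obtain ⟨f, hf, hren⟩ := kaluza t hpos h0 hlog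
  have h1 := carath hp hre hp0 ((Finset.range (m + 1)).sigma fun i => Finset.range i)
    (fun s => s.1 - s.2) (by
      intro s hs
      rw [Finset.mem_sigma, Finset.mem_range, Finset.mem_range] at hs
      omega)
    (fun s => ((t (m - s.1) / t s.1 : ℝ) : ℂ) * ((t (s.1 - s.2) : ℂ) * (y s.2 * conj (y s.1))))
    (∑ i ∈ Finset.range (m + 1), t (m - i) / t i * ‖y i‖ ^ 2) (by
      intro ζ hζ
      have h2 := psd t f hpos h0 hf hren m (fun i => y i * conj ζ ^ i)
      have hζζ : ζ * conj ζ = 1 := by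
        rw [Complex.mul_conj, Complex.normSq_eq_norm_sq, hζ]
        norm_num
      have h3 : ∀ i, ∑ j ∈ Finset.range i, (t (i - j) : ℂ) *
          ((y j * conj ζ ^ j) * conj (y i * conj ζ ^ i)) =
          ∑ j ∈ Finset.range i, ((t (i - j) : ℂ) * (y j * conj (y i))) * ζ ^ (i - j) := by
        intro i
        refine Finset.sum_congr rfl fun j hj => ?_
        rw [Finset.mem_range] at hj
        have h4 : conj ζ ^ j * ζ ^ i = ζ ^ (i - j) := by
          conv_lhs => rw [show i = (i - j) + j by omega, pow_add]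
          calc conj ζ ^ j * (ζ ^ (i - j) * ζ ^ j) = ζ ^ (i - j) * (ζ * conj ζ) ^ j := by
                rw [mul_pow]; ring
            _ = ζ ^ (i - j) := by rw [hζζ]; simp
        rw [map_mul, map_pow, Complex.conj_conj, ← h4]
        ring
      have h5 : ∀ i, ‖y i * conj ζ ^ i‖ = ‖y i‖ := by
        intro i
        rw [norm_mul, norm_pow, Complex.norm_conj, hζ, one_pow, mul_one]
      simp only [h3, h5] at h2
      refine h2.trans (le_of_eq ?_)
      rw [Finset.sum_sigma, Complex.re_sum, Finset.mul_sum, ← Finset.sum_add_distrib]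
      refine Finset.sum_congr rfl fun i _ => ?_
      rw [mul_add]
      congr 1
      have h6 : ∑ j ∈ Finset.range i, ((t (m - i) / t i : ℝ) : ℂ) *
          ((t (i - j) : ℂ) * (y j * conj (y i))) * ζ ^ (i - j) =
          ((t (m - i) / t i : ℝ) : ℂ) *
          ∑ j ∈ Finset.range i, ((t (i - j) : ℂ) * (y j * conj (y i))) * ζ ^ (i - j) := by
        rw [Finset.mul_sum]
        refine Finset.sum_congr rfl fun j _ => ?_
        ring
      rw [h6, Complex.re_ofReal_mul]
      ring)
  refine h1.trans (le_of_eq ?_)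
  rw [Finset.sum_sigma, Complex.re_sum, ← Finset.sum_add_distrib]
  refine Finset.sum_congr rfl fun i _ => ?_
  have h7 : ∑ j ∈ Finset.range i, ((t (m - i) / t i : ℝ) : ℂ) *
      ((t (i - j) : ℂ) * (y j * conj (y i))) * PowerSeries.coeff (i - j) (tay p) =
      ((t (m - i) / t i : ℝ) : ℂ) *
      ((∑ j ∈ Finset.range i, ((t (i - j) : ℂ) * PowerSeries.coeff (i - j) (tay p)) * y j) *
        conj (y i)) := by
    rw [Finset.sum_mul, Finset.mul_sum]
    refine Finset.sum_congr rfl fun j _ => ?_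
    ring
  have h8 : PowerSeries.coeff 0 (tay p) = 1 := by
    rw [coeff_tay]
    simp [hp0]
  have h9 : (y i * conj (y i)).re = ‖y i‖ ^ 2 := by
    rw [Complex.mul_conj, Complex.ofReal_re, Complex.normSq_eq_norm_sq]
  rw [h7, Complex.re_ofReal_mul, Finset.sum_range_succ, Nat.sub_self, h0, h8, add_mul,
    Complex.add_re, mul_add]
  simp only [Complex.ofReal_one, one_mul]
  rw [h9]
  ring

end Pool.Agent.R995.BZ
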