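import Pool.Agent.R995.BZ2

/-!
# Bounds for the coefficients of resolvents
-/

set_option autoImplicit false

open Filter Topology Metric Complex Real
open scoped ComplexConjugate

namespace Pool.Agent.R995.BZ

theorem v_bound {p : ℂ → ℂ} (hp : DifferentiableOn ℂ p (ball 0 1))
    (hre : ∀ z ∈ ball (0 : ℂ) 1, 0 ≤ (p z).re) (hp0 : p 0 = 1)
    (t : ℕ → ℝ) (hpos : ∀ k, 0 < t k) (h0 : t 0 = 1)
    (hlog : ∀ j k, j ≤ k → t (j + 1) * t k ≤ t (k + 1) * t j)
    (H : PowerSeries ℂ) (hH : ∀ k, PowerSeries.coeff k H = (t k : ℂ) * PowerSeries.coeff k (tay p))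
    (l : ℝ) (hl : 0 < l) (hl1 : l ≤ 1) (n : ℕ) :
    ‖PowerSeries.coeff (n + 1) ((1 + PowerSeries.C (l : ℂ) * (H - 1))⁻¹)‖ ≤ 2 * l * t (n + 1) := by
  have hc1 : PowerSeries.constantCoeff H = 1 := by
    rw [← PowerSeries.coeff_zero_eq_constantCoeff_apply, hH, h0, coeff_tay]
    simp [hp0]
  set D : PowerSeries ℂ := 1 + PowerSeries.C (l : ℂ) * (H - 1) with hD
  have hc2 : PowerSeries.constantCoeff D = 1 := by
    rw [hD, map_add, map_mul, map_sub, hc1, map_one]
    simp
  set V : PowerSeries ℂ := D⁻¹ with hV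
  have hDV : D * V = 1 := PowerSeries.mul_inv_cancel _ (by rw [hc2]; exact one_ne_zero)
  have hHV : PowerSeries.C (l : ℂ) * (H * V) = 1 - PowerSeries.C ((1 - l : ℝ) : ℂ) * V := by
    have h1 : D * V = V - PowerSeries.C (l : ℂ) * V + PowerSeries.C (l : ℂ) * (H * V) := by
      rw [hD]; ring
    have h2 : PowerSeries.C ((1 - l : ℝ) : ℂ) = 1 - PowerSeries.C (l : ℂ) := by
      push_cast
      rw [map_sub, map_one]
    rw [h2]
    rw [hDV] at h1
    linear_combination -h1
  set v : ℕ → ℂ := fun i => PowerSeries.coeff i V with hv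
  have hv0 : v 0 = 1 := by
    rw [hv]
    simp only
    rw [PowerSeries.coeff_zero_eq_constantCoeff_apply]
    have := congrArg PowerSeries.constantCoeff hDV
    rw [map_mul, hc2, one_mul, map_one] at this
    exact this
  have hconv : ∀ i, (l : ℂ) * ∑ j ∈ Finset.range (i + 1),
      ((t (i - j) : ℂ) * PowerSeries.coeff (i - j) (tay p)) * v j =
      (if i = 0 then 1 else 0) - (1 - l) * v i := by
    intro i
    have h1 := congrArg (PowerSeries.coeff i) hHV
    rw [PowerSeries.coeff_C_mul, map_sub, PowerSeries.coeff_C_mul, PowerSeries.coeff_one, mul_comm H V,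
      PowerSeries.coeff_mul, Finset.Nat.sum_antidiagonal_eq_sum_range_succ_mk] at h1
    push_cast at h1
    rw [← h1]
    congr 1
    refine Finset.sum_congr rfl fun j _ => ?_
    rw [← hH, hv]
    ring
  -- the test vector
  set m := n + 1 with hm
  set ξ : ℂ := v m / (2 * l) with hξ
  set y : ℕ → ℂ := fun i => if i = m then ξ else v i with hy
  have hK := accretive hp hre hp0 t hpos h0 hlog m y
  rw [Finset.sum_range_succ] at hK
  have hlast : (l : ℂ) * ∑ j ∈ Finset.range (m + 1),
      ((t (m - j) : ℂ) * PowerSeries.coeff (m - j) (tay p)) * y j = l * ξ - v m := by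
    have h1 := hconv m
    rw [Finset.sum_range_succ, if_neg (by omega)] at h1
    rw [Finset.sum_range_succ]
    have h2 : ∑ j ∈ Finset.range m, ((t (m - j) : ℂ) * PowerSeries.coeff (m - j) (tay p)) * y j =
        ∑ j ∈ Finset.range m, ((t (m - j) : ℂ) * PowerSeries.coeff (m - j) (tay p)) * v j := by
      refine Finset.sum_congr rfl fun j hj => ?_
      rw [Finset.mem_range] at hj
      rw [hy]
      simp only
      rw [if_neg (by omega)]
    have h3 : y m = ξ := by rw [hy]; simp
    have h4 : PowerSeries.coeff 0 (tay p) = 1 := by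
      rw [coeff_tay]
      simp [hp0]
    rw [Nat.sub_self, h4, h0] at h1 ⊢
    rw [h2, h3]
    push_cast at h1 ⊢
    linear_combination h1
  have hmid : ∀ i ∈ Finset.range m, t (m - i) / t i *
      ((∑ j ∈ Finset.range (i + 1), ((t (i - j) : ℂ) * PowerSeries.coeff (i - j) (tay p)) * y j) *
        conj (y i)).re ≤ if i = 0 then t m else 0 := by
    intro i hi
    rw [Finset.mem_range] at hi
    have h2 : ∑ j ∈ Finset.range (i + 1), ((t (i - j) : ℂ) * PowerSeries.coeff (i - j) (tay p)) * y j =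
        ∑ j ∈ Finset.range (i + 1), ((t (i - j) : ℂ) * PowerSeries.coeff (i - j) (tay p)) * v j := by
      refine Finset.sum_congr rfl fun j hj => ?_
      rw [Finset.mem_range] at hj
      rw [hy]
      simp only
      rw [if_neg (by omega)]
    have h3 : y i = v i := by
      rw [hy]
      simp only
      rw [if_neg (by omega)]
    rw [h2, h3]
    set s : ℂ := ∑ j ∈ Finset.range (i + 1),
      ((t (i - j) : ℂ) * PowerSeries.coeff (i - j) (tay p)) * v j with hs
    have h4 := hconv i
    rw [← hs] at h4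
    by_cases h5 : i = 0
    · subst h5
      rw [if_pos rfl, hv0] at h4
      have h6 : s = 1 := by
        have h7 : (l : ℂ) ≠ 0 := by exact_mod_cast hl.ne'
        apply mul_left_cancel₀ h7
        rw [h4]; ring
      rw [h6, hv0, if_pos rfl, h0]
      simp
    · rw [if_neg h5] at h4 ⊢
      have h6 : s = ((-(1 - l) / l : ℝ) : ℂ) * v i := by
        have h7 : (l : ℂ) ≠ 0 := by exact_mod_cast hl.ne'
        apply mul_left_cancel₀ h7
        rw [h4]
        push_cast
        field_simp
        ring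
      have h8 : (s * conj (v i)).re = -(1 - l) / l * ‖v i‖ ^ 2 := by
        rw [h6, mul_assoc, Complex.mul_conj, Complex.normSq_eq_norm_sq, ← Complex.ofReal_mul,
          Complex.ofReal_re]
      rw [h8]
      have h9 : 0 ≤ (1 - l) / l * ‖v i‖ ^ 2 :=
        mul_nonneg (div_nonneg (by linarith) hl.le) (sq_nonneg _)
      have h10 : 0 ≤ t (m - i) / t i := div_nonneg (hpos _).le (hpos _).le
      have h11 : -(1 - l) / l * ‖v i‖ ^ 2 = -((1 - l) / l * ‖v i‖ ^ 2) := by ring
      rw [h11]
      nlinarith [mul_nonneg h10 h9]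
  have hsum : ∑ i ∈ Finset.range m, t (m - i) / t i *
      ((∑ j ∈ Finset.range (i + 1), ((t (i - j) : ℂ) * PowerSeries.coeff (i - j) (tay p)) * y j) *
        conj (y i)).re ≤ t m := by
    refine (Finset.sum_le_sum hmid).trans (le_of_eq ?_)
    rw [Finset.sum_ite_eq' (Finset.range m) 0 (fun _ => t m), if_pos]
    rw [Finset.mem_range]; omega
  have hlast2 : ((∑ j ∈ Finset.range (m + 1),
      ((t (m - j) : ℂ) * PowerSeries.coeff (m - j) (tay p)) * y j) * conj (y m)).re =
      -(‖v m‖ ^ 2 / (4 * l ^ 2)) := by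
    have h3 : y m = ξ := by rw [hy]; simp
    have h7 : (l : ℂ) ≠ 0 := by exact_mod_cast hl.ne'
    have h4 : ∑ j ∈ Finset.range (m + 1),
      ((t (m - j) : ℂ) * PowerSeries.coeff (m - j) (tay p)) * y j = ((-1 / (2 * l) : ℝ) : ℂ) * v m := by
      apply mul_left_cancel₀ h7
      rw [hlast, hξ]
      push_cast
      field_simp
      ring
    have h5 : ξ = ((1 / (2 * l) : ℝ) : ℂ) * v m := by
      rw [hξ]; push_cast; field_simp
    rw [h4, h3, h5, map_mul, Complex.conj_ofReal]
    have h6 : (((-1 / (2 * l) : ℝ) : ℂ) * v m) * (((1 / (2 * l) : ℝ) : ℂ) * conj (v m)) =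
        ((-1 / (2 * l) * (1 / (2 * l)) * ‖v m‖ ^ 2 : ℝ) : ℂ) := by
      have h8 : v m * conj (v m) = ((‖v m‖ ^ 2 : ℝ) : ℂ) := by
        rw [Complex.mul_conj, Complex.normSq_eq_norm_sq]
      rw [Complex.ofReal_mul, ← h8]
      push_cast
      ring
    rw [h6, Complex.ofReal_re]
    field_simp
    ring
  rw [hlast2, Nat.sub_self, h0] at hK
  have h9 : 1 / t m * (‖v m‖ ^ 2 / (4 * l ^ 2)) ≤ t m := by linarith
  have h10 : ‖v m‖ ^ 2 ≤ (2 * l * t m) ^ 2 := by
    have h11 := hpos m
    have h12 : 0 < t m * (4 * l ^ 2) := by positivity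
    have h13 := mul_le_mul_of_nonneg_right h9 h12.le
    have h14 : 1 / t m * (‖v m‖ ^ 2 / (4 * l ^ 2)) * (t m * (4 * l ^ 2)) = ‖v m‖ ^ 2 := by
      field_simp
    rw [h14] at h13
    nlinarith
  exact abs_le_of_sq_le_sq' h10 (by have := hpos m; positivity) |>.2

end Pool.Agent.R995.BZ
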