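import Pool.Agent.R995.BZ3

/-!
# Binomial coefficients as moments of a beta distribution, and fractional powers of power series
-/

set_option autoImplicit false

open Filter Topology Metric Complex Real MeasureTheory
open scoped ComplexConjugate

namespace Pool.Agent.R995.BZ

/-- the generalised binomial coefficients -/
noncomputable def bc (d : ℝ) : ℕ → ℝ
  | 0 => 1
  | j + 1 => bc d j * (d - j) / (j + 1)

lemma bc_succ (d : ℝ) (j : ℕ) : bc d (j + 1) * (j + 1) = bc d j * (d - j) := by
  have : ((j : ℝ) + 1) ≠ 0 := by positivity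
  rw [bc]
  field_simp

lemma beta_int {u v : ℝ} (hu : 0 < u) (hv : 0 < v) :
    IntegrableOn (fun x : ℝ => x ^ (u - 1) * (1 - x) ^ (v - 1)) (Set.Ioc 0 1) ∧
    ∫ x in Set.Ioc (0 : ℝ) 1, x ^ (u - 1) * (1 - x) ^ (v - 1) = ProbabilityTheory.beta u v := by
  have hc := betaIntegral_convergent (u := (u : ℂ)) (v := (v : ℂ)) (by simpa) (by simpa)
  rw [intervalIntegrable_iff_integrableOn_Ioc_of_le zero_le_one] at hc
  have heq : Set.EqOn (fun x : ℝ => (x : ℂ) ^ ((u : ℂ) - 1) * (1 - (x : ℂ)) ^ ((v : ℂ) - 1))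
      (fun x : ℝ => ((x ^ (u - 1) * (1 - x) ^ (v - 1) : ℝ) : ℂ)) (Set.Ioc 0 1) := by
    intro x hx
    simp only
    rw [Complex.ofReal_mul, Complex.ofReal_cpow hx.1.le, Complex.ofReal_cpow (by linarith [hx.2])]
    push_cast
    rfl
  have hc' := hc.congr_fun heq measurableSet_Ioc
  have hre : IntegrableOn (fun x : ℝ => x ^ (u - 1) * (1 - x) ^ (v - 1)) (Set.Ioc 0 1) := by
    have h := hc'.re
    change Integrable _ _
    simpa using h
  refine ⟨hre, ?_⟩
  rw [ProbabilityTheory.beta_eq_betaIntegralReal u v hu hv, betaIntegral,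
    intervalIntegral.integral_of_le zero_le_one, setIntegral_congr_fun measurableSet_Ioc heq,
    integral_complex_ofReal]
  simp

/-- the weight -/
noncomputable def wt (d x : ℝ) : ℝ := x ^ (-d) * (1 - x) ^ d

lemma wt_nonneg {d x : ℝ} (hx : x ∈ Set.Ioc (0 : ℝ) 1) : 0 ≤ wt d x :=
  mul_nonneg (Real.rpow_nonneg hx.1.le _) (Real.rpow_nonneg (by linarith [hx.2]) _)

/-- the moments -/
noncomputable def Mo (d : ℝ) (j : ℕ) : ℝ := ProbabilityTheory.beta (j + 1 - d) (1 + d)

lemma moment {d : ℝ} (hd : 0 < d) (hd1 : d < 1) (j : ℕ) :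
    IntegrableOn (fun x : ℝ => x ^ j * wt d x) (Set.Ioc 0 1) ∧
    ∫ x in Set.Ioc (0 : ℝ) 1, x ^ j * wt d x = Mo d j := by
  have hj : (0 : ℝ) ≤ j := Nat.cast_nonneg j
  have h := beta_int (u := j + 1 - d) (v := 1 + d) (by linarith) (by linarith)
  have heq : Set.EqOn (fun x : ℝ => x ^ ((j : ℝ) + 1 - d - 1) * (1 - x) ^ (1 + d - 1))
      (fun x : ℝ => x ^ j * wt d x) (Set.Ioc 0 1) := by
    intro x hx
    simp only [wt]
    rw [show (j : ℝ) + 1 - d - 1 = j + (-d) by ring, Real.rpow_add hx.1, Real.rpow_natCast,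
      show 1 + d - 1 = d by ring]
    ring
  refine ⟨h.1.congr_fun heq measurableSet_Ioc, ?_⟩
  rw [← setIntegral_congr_fun measurableSet_Ioc heq, h.2, Mo]

lemma Mo_pos {d : ℝ} (hd : 0 < d) (hd1 : d < 1) (j : ℕ) : 0 < Mo d j := by
  have hj : (0 : ℝ) ≤ j := Nat.cast_nonneg j
  exact ProbabilityTheory.beta_pos (by linarith) (by linarith)

lemma Mo_succ {d : ℝ} (hd1 : d < 1) (j : ℕ) :
    Mo d (j + 1) * (j + 2) = Mo d j * (j + 1 - d) := by
  have hj : (0 : ℝ) ≤ j := Nat.cast_nonneg j
  rw [Mo, Mo, ProbabilityTheory.beta, ProbabilityTheory.beta]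
  push_cast
  rw [show (j : ℝ) + 1 + 1 - d = (j + 1 - d) + 1 by ring,
    show (j : ℝ) + 1 - d + 1 + (1 + d) = (j + 2) + 1 by ring,
    show (j : ℝ) + 1 - d + (1 + d) = j + 2 by ring,
    Real.Gamma_add_one (by linarith : (j : ℝ) + 1 - d ≠ 0 |> fun h => h) |> fun h => h,
    Real.Gamma_add_one (by positivity)]
  have h1 : Real.Gamma ((j : ℝ) + 2) ≠ 0 := (Real.Gamma_pos_of_pos (by positivity)).ne'
  have h2 : ((j : ℝ) + 2) ≠ 0 := by positivity
  field_simp

lemma bc_moment {d : ℝ} (hd : 0 < d) (hd1 : d < 1) (j : ℕ) :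
    bc d (j + 1) = d / Mo d 0 * ((-1) ^ j * Mo d j) := by
  induction j with
  | zero =>
    have h := (Mo_pos hd hd1 0).ne'
    rw [bc, bc]
    simp only [pow_zero, one_mul, Nat.cast_zero]
    field_simp
    ring
  | succ j ih =>
    have h := (Mo_pos hd hd1 0).ne'
    have h1 := bc_succ d (j + 1)
    have h2 := Mo_succ hd1 j
    have h3 : ((j : ℝ) + 2) ≠ 0 := by positivity
    rw [ih] at h1
    push_cast at h1
    have h4 : bc d (j + 1 + 1) * ((j : ℝ) + 2) = d / Mo d 0 * ((-1) ^ (j + 1) * Mo d (j + 1)) * (j + 2) := by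
      have h5 : d / Mo d 0 * ((-1) ^ (j + 1) * Mo d (j + 1)) * ((j : ℝ) + 2) =
          d / Mo d 0 * ((-1) ^ (j + 1) * (Mo d (j + 1) * (j + 2))) := by ring
      rw [h5, h2, pow_succ]
      linear_combination h1
    exact mul_right_cancel₀ h3 h4

theorem beta_avg {d : ℝ} (hd : 0 < d) (hd1 : d < 1) (n : ℕ) (c : ℕ → ℂ) (B : ℝ)
    (hB : ∀ l : ℝ, 0 < l → l ≤ 1 → ‖∑ j ∈ Finset.range n, (-(l : ℂ)) ^ j * c (j + 1)‖ ≤ B) :
    ‖∑ j ∈ Finset.range n, (bc d (j + 1) : ℂ) * c (j + 1)‖ ≤ d * B := by
  have hM := Mo_pos hd hd1 0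
  have h1 : ∑ j ∈ Finset.range n, (bc d (j + 1) : ℂ) * c (j + 1) = ((d / Mo d 0 : ℝ) : ℂ) *
      ∫ x in Set.Ioc (0 : ℝ) 1, (∑ j ∈ Finset.range n, (-(x : ℂ)) ^ j * c (j + 1)) * (wt d x : ℂ) := by
    have h2 : ∀ x : ℝ, (∑ j ∈ Finset.range n, (-(x : ℂ)) ^ j * c (j + 1)) * (wt d x : ℂ) =
        ∑ j ∈ Finset.range n, ((-1) ^ j * c (j + 1)) * ((x ^ j * wt d x : ℝ) : ℂ) := by
      intro x
      rw [Finset.sum_mul]
      refine Finset.sum_congr rfl fun j _ => ?_
      rw [neg_pow]
      push_cast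
      ring
    simp_rw [h2]
    rw [integral_finsetSum]
    · rw [Finset.mul_sum]
      refine Finset.sum_congr rfl fun j _ => ?_
      rw [integral_const_mul, integral_complex_ofReal, (moment hd hd1 j).2, bc_moment hd hd1 j]
      push_cast
      ring
    · intro j _
      exact ((moment hd hd1 j).1.ofReal).const_mul _
  rw [h1, norm_mul, Complex.norm_real, Real.norm_of_nonneg (div_nonneg hd.le hM.le)]
  have h3 : IntegrableOn (fun x => B * wt d x) (Set.Ioc 0 1) := by
    have := (moment hd hd1 0).1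
    simp only [pow_zero, one_mul] at this
    exact this.const_mul B
  have h4 : ‖∫ x in Set.Ioc (0 : ℝ) 1, (∑ j ∈ Finset.range n, (-(x : ℂ)) ^ j * c (j + 1)) *
      (wt d x : ℂ)‖ ≤ ∫ x in Set.Ioc (0 : ℝ) 1, B * wt d x := by
    refine norm_integral_le_of_norm_le h3 ?_
    refine ae_restrict_of_forall_mem measurableSet_Ioc fun x hx => ?_
    rw [norm_mul, Complex.norm_real, Real.norm_of_nonneg (wt_nonneg hx)]
    exact mul_le_mul_of_nonneg_right (hB x hx.1 hx.2) (wt_nonneg hx)
  have h5 : ∫ x in Set.Ioc (0 : ℝ) 1, B * wt d x = B * Mo d 0 := by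
    rw [integral_const_mul, ← (moment hd hd1 0).2]
    simp
  rw [h5] at h4
  calc d / Mo d 0 * _ ≤ d / Mo d 0 * (B * Mo d 0) :=
        mul_le_mul_of_nonneg_left h4 (div_nonneg hd.le hM.le)
    _ = d * B := by field_simp

/-! ### the binomial series of a power series -/

/-- truncated binomial series -/
noncomputable def bser (d : ℝ) (x : PowerSeries ℂ) (m : ℕ) : PowerSeries ℂ :=
  ∑ j ∈ Finset.range (m + 1), PowerSeries.C (bc d j : ℂ) * x ^ j

lemma bser_ode (d : ℝ) (x : PowerSeries ℂ) (m : ℕ) :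
    (1 + x) * PowerSeries.derivative ℂ (bser d x m) -
      PowerSeries.C (d : ℂ) * (PowerSeries.derivative ℂ x * bser d x m) =
      PowerSeries.C ((bc d m * (m - d) : ℝ) : ℂ) * (x ^ m * PowerSeries.derivative ℂ x) := by
  induction m with
  | zero =>
    have h1 : bser d x 0 = 1 := by
      simp [bser, bc]
    rw [h1]
    simp [bc]
  | succ m ih =>
    have h1 : bser d x (m + 1) = bser d x m + PowerSeries.C (bc d (m + 1) : ℂ) * x ^ (m + 1) := by
      rw [bser, Finset.sum_range_succ, ← bser]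
    have h2 : PowerSeries.derivative ℂ (PowerSeries.C (bc d (m + 1) : ℂ) * x ^ (m + 1)) =
        PowerSeries.C (((bc d (m + 1) * (m + 1) : ℝ) : ℂ)) * (x ^ m * PowerSeries.derivative ℂ x) := by
      rw [Derivation.leibniz, Derivation.leibniz_pow]
      simp only [PowerSeries.derivative_C, smul_eq_mul, Nat.add_sub_cancel,
        nsmul_eq_mul]
      push_cast
      rw [map_mul, map_add, map_one, map_natCast]
      ring
    rw [h1, map_add, h2, bc_succ]
    have h3 : PowerSeries.C ((bc d m * (m - d) : ℝ) : ℂ) = -PowerSeries.C ((bc d m * (d - m) : ℝ) : ℂ) := by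
      rw [← map_neg]
      congr 1
      push_cast
      ring
    have h4 : PowerSeries.C ((bc d (m + 1) * (((m + 1 : ℕ) : ℝ) - d) : ℝ) : ℂ) =
        PowerSeries.C ((bc d m * (d - m) : ℝ) : ℂ) -
        PowerSeries.C (d : ℂ) * PowerSeries.C (bc d (m + 1) : ℂ) := by
      rw [← map_mul, ← map_sub, ← bc_succ]
      congr 1
      push_cast
      ring
    rw [h4]
    rw [h3] at ih
    linear_combination ih

theorem ode_coeff (x U : PowerSeries ℂ) (hx : PowerSeries.constantCoeff x = 0)
    (hU : PowerSeries.constantCoeff U = 1) (d : ℝ)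
    (hode : (1 + x) * PowerSeries.derivative ℂ U =
      PowerSeries.C (d : ℂ) * (PowerSeries.derivative ℂ x * U)) (m : ℕ) :
    ∀ k ≤ m, PowerSeries.coeff k U = PowerSeries.coeff k (bser d x m) := by
  set E : PowerSeries ℂ := U - bser d x m with hE
  have hEode : (1 + x) * PowerSeries.derivative ℂ E -
      PowerSeries.C (d : ℂ) * (PowerSeries.derivative ℂ x * E) =
      -(PowerSeries.C ((bc d m * (m - d) : ℝ) : ℂ) * (x ^ m * PowerSeries.derivative ℂ x)) := by
    rw [hE, map_sub]
    linear_combination hode - bser_ode d x m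
  have hXx : PowerSeries.X ∣ x := PowerSeries.X_dvd_iff.2 hx
  have hrhs : ∀ k < m, PowerSeries.coeff k
      ((1 + x) * PowerSeries.derivative ℂ E -
      PowerSeries.C (d : ℂ) * (PowerSeries.derivative ℂ x * E)) = 0 := by
    intro k hk
    rw [hEode]
    obtain ⟨q, hq⟩ := hXx
    have : -(PowerSeries.C ((bc d m * (m - d) : ℝ) : ℂ) * (x ^ m * PowerSeries.derivative ℂ x)) =
        PowerSeries.X ^ m * (-(PowerSeries.C ((bc d m * (m - d) : ℝ) : ℂ) *
          (q ^ m * PowerSeries.derivative ℂ x))) := by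
      have hxm : x ^ m = PowerSeries.X ^ m * q ^ m := by rw [hq, mul_pow]
      rw [hxm]
      ring
    rw [this, PowerSeries.coeff_X_pow_mul']
    rw [if_neg (by omega)]
  have hE0 : PowerSeries.coeff 0 E = 0 := by
    rw [hE, map_sub, PowerSeries.coeff_zero_eq_constantCoeff_apply,
      PowerSeries.coeff_zero_eq_constantCoeff_apply, hU, bser, map_sum, Finset.sum_range_succ']
    simp [hx, bc]
  have hmain : ∀ k ≤ m, PowerSeries.coeff k E = 0 := by
    intro k
    induction k using Nat.strong_induction_on with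
    | _ k ih =>
      intro hk
      rcases k with _ | k
      · exact hE0
      · have h1 := hrhs k (by omega)
        rw [map_sub, PowerSeries.coeff_C_mul, PowerSeries.coeff_mul, PowerSeries.coeff_mul] at h1
        have h2 : ∑ q ∈ Finset.HasAntidiagonal.antidiagonal k, PowerSeries.coeff q.1 (PowerSeries.derivative ℂ x) *
            PowerSeries.coeff q.2 E = 0 := by
          refine Finset.sum_eq_zero fun q hq => ?_
          rw [Finset.HasAntidiagonal.mem_antidiagonal] at hq
          rw [ih q.2 (by omega) (by omega), mul_zero]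
        have h3 : ∑ q ∈ Finset.HasAntidiagonal.antidiagonal k, PowerSeries.coeff q.1 (1 + x) *
            PowerSeries.coeff q.2 (PowerSeries.derivative ℂ E) =
            PowerSeries.coeff (k + 1) E * (k + 1) := by
          rw [Finset.sum_eq_single (0, k)]
          · simp only
            rw [PowerSeries.coeff_derivative, map_add, PowerSeries.coeff_zero_eq_constantCoeff_apply,
              PowerSeries.coeff_zero_eq_constantCoeff_apply, hx]
            simp
          · intro q hq hne
            rw [Finset.HasAntidiagonal.mem_antidiagonal] at hq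
            have h4 : q.2 < k := by
              rcases Nat.lt_or_ge q.2 k with h | h
              · exact h
              · exfalso
                apply hne
                ext
                · simp only; omega
                · simp only; omega
            rw [PowerSeries.coeff_derivative, ih (q.2 + 1) (by omega) (by omega)]
            simp
          · intro h
            exfalso
            apply h
            rw [Finset.HasAntidiagonal.mem_antidiagonal]
            simp
        rw [h2, h3, mul_zero, sub_zero] at h1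
        have h5 : ((k : ℂ) + 1) ≠ 0 := by exact_mod_cast Nat.succ_ne_zero k
        exact (mul_eq_zero.1 h1).resolve_right h5
  intro k hk
  have := hmain k hk
  rw [hE, map_sub, sub_eq_zero] at this
  exact this

end Pool.Agent.R995.BZ
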