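import Pool.Agent.R995.BZ4

/-!
# Coefficients of fractional powers
-/

set_option autoImplicit false

open Filter Topology Metric Complex Real
open scoped ComplexConjugate

namespace Pool.Agent.R995.BZ

/-- the coefficients of `(1 + l x)⁻¹` -/
lemma coeff_resolvent (x : PowerSeries ℂ) (hx : PowerSeries.constantCoeff x = 0) (l : ℂ) (n : ℕ) :
    PowerSeries.coeff (n + 1) ((1 + PowerSeries.C l * x)⁻¹) =
      -l * ∑ j ∈ Finset.range (n + 1), (-l) ^ j * PowerSeries.coeff (n + 1) (x ^ (j + 1)) := by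
  set D : PowerSeries ℂ := 1 + PowerSeries.C l * x with hD
  have hDc : PowerSeries.constantCoeff D = 1 := by
    rw [hD, map_add, map_mul, hx, map_one]
    simp
  have hDV : D * D⁻¹ = 1 := PowerSeries.mul_inv_cancel _ (by rw [hDc]; exact one_ne_zero)
  set y : PowerSeries ℂ := PowerSeries.C (-l) * x with hy
  set G : PowerSeries ℂ := ∑ j ∈ Finset.range (n + 2), y ^ j with hG
  have hDy : D = 1 - y := by
    rw [hD, hy, map_neg]
    ring
  have hDG : D * G = 1 - y ^ (n + 2) := by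
    rw [hDy, hG]
    exact mul_neg_geom_sum y (n + 2)
  have hGV : G = D⁻¹ - y ^ (n + 2) * D⁻¹ := by
    have h1 : D * D⁻¹ * G = (1 - y ^ (n + 2)) * D⁻¹ := by
      rw [← hDG]; ring
    rw [hDV, one_mul] at h1
    rw [h1]; ring
  have hcoef : PowerSeries.coeff (n + 1) (y ^ (n + 2) * D⁻¹) = 0 := by
    obtain ⟨q, hq⟩ := PowerSeries.X_dvd_iff.2 hx
    have h1 : y ^ (n + 2) * D⁻¹ = PowerSeries.X ^ (n + 2) * ((PowerSeries.C (-l) * q) ^ (n + 2) * D⁻¹) := by
      have : y = PowerSeries.X * (PowerSeries.C (-l) * q) := by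
        rw [hy, hq]; ring
      rw [this, mul_pow]
      ring
    rw [h1, PowerSeries.coeff_X_pow_mul', if_neg (by omega)]
  have h2 : PowerSeries.coeff (n + 1) D⁻¹ = PowerSeries.coeff (n + 1) G := by
    rw [hGV, map_sub, hcoef, sub_zero]
  rw [h2, hG, map_sum, Finset.sum_range_succ', Finset.mul_sum]
  have h3 : PowerSeries.coeff (n + 1) (y ^ 0) = 0 := by
    rw [pow_zero, PowerSeries.coeff_one, if_neg (Nat.succ_ne_zero n)]
  rw [h3, add_zero]
  refine Finset.sum_congr rfl fun j _ => ?_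
  rw [hy, mul_pow, ← map_pow, PowerSeries.coeff_C_mul, pow_succ]
  ring

theorem coeff_pow_bound {p : ℂ → ℂ} (hp : DifferentiableOn ℂ p (ball 0 1))
    (hre : ∀ z ∈ ball (0 : ℂ) 1, 0 ≤ (p z).re) (hp0 : p 0 = 1)
    (t : ℕ → ℝ) (hpos : ∀ k, 0 < t k) (h0 : t 0 = 1)
    (hlog : ∀ j k, j ≤ k → t (j + 1) * t k ≤ t (k + 1) * t j)
    (H U : PowerSeries ℂ)
    (hH : ∀ k, PowerSeries.coeff k H = (t k : ℂ) * PowerSeries.coeff k (tay p))
    (hU : PowerSeries.constantCoeff U = 1) (d : ℝ) (hd : 0 < d) (hd1 : d ≤ 1)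
    (hode : H * PowerSeries.derivative ℂ U =
      PowerSeries.C (d : ℂ) * (PowerSeries.derivative ℂ H * U)) (n : ℕ) :
    ‖PowerSeries.coeff (n + 1) U‖ ≤ d * (2 * t (n + 1)) := by
  have hc1 : PowerSeries.constantCoeff H = 1 := by
    rw [← PowerSeries.coeff_zero_eq_constantCoeff_apply, hH, h0, coeff_tay]
    simp [hp0]
  set x : PowerSeries ℂ := H - 1 with hx
  have hxc : PowerSeries.constantCoeff x = 0 := by
    rw [hx, map_sub, hc1, map_one, sub_self]
  have hHx : H = 1 + x := by rw [hx]; ring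
  have hdx : PowerSeries.derivative ℂ x = PowerSeries.derivative ℂ H := by
    rw [hx, map_sub]
    simp
  have hode' : (1 + x) * PowerSeries.derivative ℂ U =
      PowerSeries.C (d : ℂ) * (PowerSeries.derivative ℂ x * U) := by
    rw [hdx, ← hHx]
    exact hode
  have h1 := ode_coeff x U hxc hU d hode' (n + 1) (n + 1) le_rfl
  set c : ℕ → ℂ := fun j => PowerSeries.coeff (n + 1) (x ^ j) with hc
  have h2 : PowerSeries.coeff (n + 1) (bser d x (n + 1)) =
      ∑ j ∈ Finset.range (n + 1), (bc d (j + 1) : ℂ) * c (j + 1) := by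
    rw [bser, map_sum, Finset.sum_range_succ']
    have h3 : PowerSeries.coeff (n + 1) (PowerSeries.C (bc d 0 : ℂ) * x ^ 0) = 0 := by
      rw [PowerSeries.coeff_C_mul, pow_zero, PowerSeries.coeff_one, if_neg (Nat.succ_ne_zero n), mul_zero]
    rw [h3, add_zero]
    refine Finset.sum_congr rfl fun j _ => ?_
    rw [PowerSeries.coeff_C_mul]
  have hB : ∀ l : ℝ, 0 < l → l ≤ 1 →
      ‖∑ j ∈ Finset.range (n + 1), (-(l : ℂ)) ^ j * c (j + 1)‖ ≤ 2 * t (n + 1) := by
    intro l hl hl1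
    have h4 := v_bound hp hre hp0 t hpos h0 hlog H hH l hl hl1 n
    rw [← hx, coeff_resolvent x hxc (l : ℂ) n, norm_mul, norm_neg, Complex.norm_real,
      Real.norm_of_nonneg hl.le] at h4
    have h5 : l * ‖∑ j ∈ Finset.range (n + 1), (-(l : ℂ)) ^ j * c (j + 1)‖ ≤ l * (2 * t (n + 1)) := by
      refine h4.trans (le_of_eq ?_)
      ring
    exact le_of_mul_le_mul_left h5 hl
  rw [h1, h2]
  rcases lt_or_eq_of_le hd1 with hlt | heq
  · exact beta_avg hd hlt (n + 1) c _ hB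
  · subst heq
    have hbc : ∀ j, bc 1 (j + 2) = 0 := by
      intro j
      induction j with
      | zero => simp [bc]
      | succ j ih => rw [bc, ih]; simp
    have h6 : ∑ j ∈ Finset.range (n + 1), (bc 1 (j + 1) : ℂ) * c (j + 1) = c 1 := by
      rw [Finset.sum_range_succ']
      simp [hbc]
      simp [bc]
    rw [h6, one_mul]
    have hcont : Continuous fun l : ℝ =>
        ‖∑ j ∈ Finset.range (n + 1), (-(l : ℂ)) ^ j * c (j + 1)‖ := by fun_prop
    have hlim : Tendsto (fun l : ℝ => ‖∑ j ∈ Finset.range (n + 1), (-(l : ℂ)) ^ j * c (j + 1)‖)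
        (𝓝[>] 0) (𝓝 ‖∑ j ∈ Finset.range (n + 1), (-((0 : ℝ) : ℂ)) ^ j * c (j + 1)‖) :=
      (hcont.tendsto 0).mono_left nhdsWithin_le_nhds
    have h7 : ∑ j ∈ Finset.range (n + 1), (-((0 : ℝ) : ℂ)) ^ j * c (j + 1) = c 1 := by
      rw [Finset.sum_range_succ']
      simp
    rw [h7] at hlim
    refine le_of_tendsto hlim ?_
    have h8 : ∀ᶠ l : ℝ in 𝓝[>] 0, l < 1 :=
      (eventually_lt_nhds (by norm_num : (0 : ℝ) < 1)).filter_mono nhdsWithin_le_nhds
    filter_upwards [h8, self_mem_nhdsWithin] with l h9 h10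
    exact hB l h10 h9.le

end Pool.Agent.R995.BZ
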