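import Mathlib

/-! Circle and ellipse with a common focus: derivative identities. -/

namespace Pool.Agent.R995.CE

open Real Set

/-- Counting lemma: if between any two points of `A` there is a point of `Z`, then `A` has at
most one more element than `Z`. -/
lemma encard_le_add_one (A Z : Set ℝ)
    (h : ∀ x ∈ A, ∀ y ∈ A, x < y → ∃ z ∈ Z, x < z ∧ z < y) :
    A.encard ≤ Z.encard + 1 := by
  classical
  by_cases hZ : Z.Finite
  · let Zf := hZ.toFinset
    let g : ℝ → ℕ := fun x => (Zf.filter (fun z => z < x)).card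
    have hlt : ∀ x ∈ A, ∀ y ∈ A, x < y → g x < g y := by
      intro x hx y hy hxy
      obtain ⟨z, hz, h1, h2⟩ := h x hx y hy hxy
      apply Finset.card_lt_card
      rw [Finset.ssubset_iff_of_subset]
      · refine ⟨z, ?_, ?_⟩
        · rw [Finset.mem_filter]
          exact ⟨hZ.mem_toFinset.2 hz, h2⟩
        · rw [Finset.mem_filter]
          intro hc
          exact absurd hc.2 (not_lt.2 h1.le)
      · intro t ht
        rw [Finset.mem_filter] at ht ⊢
        exact ⟨ht.1, ht.2.trans hxy⟩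
    have hinj : Set.InjOn g A := by
      intro x hx y hy hxy
      rcases lt_trichotomy x y with h1 | h1 | h1
      · exact absurd hxy (hlt x hx y hy h1).ne
      · exact h1
      · exact absurd hxy (hlt y hy x hx h1).ne'
    have hmap : Set.MapsTo g A (Finset.range (Zf.card + 1) : Set ℕ) := by
      intro x _
      rw [Finset.mem_coe, Finset.mem_range]
      exact Nat.lt_succ_of_le (Finset.card_filter_le _ _)
    have h3 := Set.encard_le_encard_of_injOn hmap hinj
    rw [Set.encard_coe_eq_coe_finsetCard, Finset.card_range] at h3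
    rw [hZ.encard_eq_coe_toFinset_card]
    exact_mod_cast h3
  · rw [Set.Infinite.encard_eq hZ]
    simp

/-- Counting lemma for zeros of a differentiable function, by Rolle. -/
lemma encard_zeros_le (H H' : ℝ → ℝ) (a b : ℝ)
    (hd : ∀ x ∈ Ioo a b, HasDerivAt H (H' x) x) (k : ℝ) :
    {x | x ∈ Ioo a b ∧ H x = k}.encard ≤ {x | x ∈ Ioo a b ∧ H' x = 0}.encard + 1 := by
  apply encard_le_add_one
  rintro x ⟨hx, hxk⟩ y ⟨hy, hyk⟩ hxy
  have hsub : ∀ z ∈ Icc x y, z ∈ Ioo a b := fun z hz =>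
    ⟨lt_of_lt_of_le hx.1 hz.1, lt_of_le_of_lt hz.2 hy.2⟩
  obtain ⟨z, hz, hz0⟩ := exists_hasDerivAt_eq_zero hxy
    (fun z hz => (hd z (hsub z hz)).continuousAt.continuousWithinAt)
    (by rw [hxk, hyk]) (fun z hz => hd z (hsub z ⟨hz.1.le, hz.2.le⟩))
  exact ⟨z, ⟨hsub z ⟨hz.1.le, hz.2.le⟩, hz0⟩, hz.1, hz.2⟩

/-- A differentiable function with nonvanishing derivative takes a value at most once. -/
lemma encard_zeros_le_one (H H' : ℝ → ℝ) (a b : ℝ)
    (hd : ∀ x ∈ Ioo a b, HasDerivAt H (H' x) x) (k : ℝ) (hne : ∀ x ∈ Ioo a b, H' x ≠ 0) :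
    {x | x ∈ Ioo a b ∧ H x = k}.encard ≤ 1 := by
  have h := encard_zeros_le H H' a b hd k
  have h2 : {x | x ∈ Ioo a b ∧ H' x = 0} = ∅ := by
    ext x
    simp only [Set.mem_ofPred_eq, mem_empty_iff_false, iff_false, not_and]
    exact fun hx => hne x hx
  rw [h2] at h
  simpa using h

/-- Counting lemma for the solutions of `H = k` or `H = -k`. -/
lemma encard_pm_le (H H' : ℝ → ℝ) (a b : ℝ)
    (hd : ∀ x ∈ Ioo a b, HasDerivAt H (H' x) x) (k : ℝ) (hk : 0 < k) :
    {x | x ∈ Ioo a b ∧ (H x = k ∨ H x = -k)}.encard ≤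
      ({x | x ∈ Ioo a b ∧ H' x = 0}.encard + {x | x ∈ Ioo a b ∧ H x = 0}.encard) + 1 := by
  have h1 : {x | x ∈ Ioo a b ∧ (H x = k ∨ H x = -k)}.encard ≤
      ({x | x ∈ Ioo a b ∧ H' x = 0} ∪ {x | x ∈ Ioo a b ∧ H x = 0}).encard + 1 := by
    apply encard_le_add_one
    rintro x ⟨hx, hxk⟩ y ⟨hy, hyk⟩ hxy
    have hsub : ∀ z ∈ Icc x y, z ∈ Ioo a b := fun z hz =>
      ⟨lt_of_lt_of_le hx.1 hz.1, lt_of_le_of_lt hz.2 hy.2⟩
    have hcont : ContinuousOn H (Icc x y) :=
      fun z hz => (hd z (hsub z hz)).continuousAt.continuousWithinAt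
    have rolle : H x = H y → ∃ z ∈ ({x | x ∈ Ioo a b ∧ H' x = 0} ∪ {x | x ∈ Ioo a b ∧ H x = 0}),
        x < z ∧ z < y := by
      intro heq
      obtain ⟨z, hz, hz0⟩ := exists_hasDerivAt_eq_zero hxy hcont heq
        (fun z hz => hd z (hsub z ⟨hz.1.le, hz.2.le⟩))
      exact ⟨z, Or.inl ⟨hsub z ⟨hz.1.le, hz.2.le⟩, hz0⟩, hz.1, hz.2⟩
    have ivt : (H x < 0 ∧ 0 < H y) ∨ (0 < H x ∧ H y < 0) →
        ∃ z ∈ ({x | x ∈ Ioo a b ∧ H' x = 0} ∪ {x | x ∈ Ioo a b ∧ H x = 0}),
        x < z ∧ z < y := by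
      intro hcase
      have : ∃ z ∈ Icc x y, H z = 0 := by
        rcases hcase with hc | hc
        · exact (intermediate_value_Icc hxy.le hcont) ⟨hc.1.le, hc.2.le⟩
        · exact (intermediate_value_Icc' hxy.le hcont) ⟨hc.2.le, hc.1.le⟩
      obtain ⟨z, hz, hz0⟩ := this
      have hzx : z ≠ x := by
        intro hh
        rw [hh] at hz0
        rcases hcase with hc | hc <;> linarith [hc.1]
      have hzy : z ≠ y := by
        intro hh
        rw [hh] at hz0
        rcases hcase with hc | hc <;> linarith [hc.2]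
      exact ⟨z, Or.inr ⟨hsub z hz, hz0⟩, lt_of_le_of_ne hz.1 (Ne.symm hzx),
        lt_of_le_of_ne hz.2 hzy⟩
    rcases hxk with h1 | h1 <;> rcases hyk with h2 | h2
    · exact rolle (by rw [h1, h2])
    · exact ivt (Or.inr ⟨by linarith, by linarith⟩)
    · exact ivt (Or.inl ⟨by linarith, by linarith⟩)
    · exact rolle (by rw [h1, h2])
  refine h1.trans ?_
  gcongr
  exact Set.encard_union_le _ _

/-- The factor `1 + e cos θ`, `θ = x + w`. -/
noncomputable def U (e w x : ℝ) : ℝ := 1 + e * cos (x + w)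

/-- The squared length factor of the projection. -/
noncomputable def K (c x : ℝ) : ℝ := cos x ^ 2 + c ^ 2 * sin x ^ 2

/-- The function `T`. -/
noncomputable def T (e c w x : ℝ) : ℝ :=
  e * sin w * cos x + e * c ^ 2 * cos w * sin x - (1 - c ^ 2) * (cos x * sin x)

/-- The function `F` whose zeros are the critical points of `W`. -/
noncomputable def F (e c w x : ℝ) : ℝ :=
  (1 - c ^ 2) * U e w x ^ 2 * (sin w * cos x ^ 3 - c ^ 2 * cos w * sin x ^ 3)
    - e * (1 - c ^ 2) * U e w x * sin (x + w) ^ 2 * (cos x * sin x) * K c x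
    + e ^ 2 * sin (x + w) ^ 3 * K c x ^ 2

/-- The function `W` whose levels `± e / R` give the stationary points. -/
noncomputable def W (e c w x : ℝ) : ℝ := U e w x * T e c w x / (sqrt (K c x) * sin (x + w))

lemma cw (x w : ℝ) : cos w = cos (x + w) * cos x + sin (x + w) * sin x := by
  have := cos_sub (x + w) x
  rw [show x + w - x = w by ring] at this
  exact this

lemma sw (x w : ℝ) : sin w = sin (x + w) * cos x - cos (x + w) * sin x := by
  have := sin_sub (x + w) x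
  rw [show x + w - x = w by ring] at this
  exact this

lemma hX (x : ℝ) : HasDerivAt (fun x => cos x) (-sin x) x := hasDerivAt_cos x
lemma hY (x : ℝ) : HasDerivAt (fun x => sin x) (cos x) x := hasDerivAt_sin x
lemma hS (w x : ℝ) : HasDerivAt (fun x => sin (x + w)) (cos (x + w)) x := by
  have h := ((hasDerivAt_id x).add_const w).sin
  exact h.congr_deriv (by simp)
lemma hC (w x : ℝ) : HasDerivAt (fun x => cos (x + w)) (-sin (x + w)) x := by
  have h := ((hasDerivAt_id x).add_const w).cos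
  exact h.congr_deriv (by simp)

lemma hU (e w x : ℝ) : HasDerivAt (fun x => U e w x) (-(e * sin (x + w))) x := by
  have h := ((hC w x).const_mul e).const_add 1
  exact h.congr_deriv (by ring)

lemma hK (c x : ℝ) : HasDerivAt (fun x => K c x) (-(2 * (1 - c ^ 2) * (cos x * sin x))) x := by
  have h := ((hX x).fun_pow 2).fun_add (((hY x).fun_pow 2).const_mul (c ^ 2))
  exact h.congr_deriv (by norm_num; ring)

lemma hT (e c w x : ℝ) : HasDerivAt (fun x => T e c w x)
    (-(e * sin w * sin x) + e * c ^ 2 * cos w * cos x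
      - (1 - c ^ 2) * (cos x ^ 2 - sin x ^ 2)) x := by
  have h := (((hX x).const_mul (e * sin w)).fun_add ((hY x).const_mul (e * c ^ 2 * cos w))).fun_sub
    (((hX x).fun_mul (hY x)).const_mul (1 - c ^ 2))
  exact h.congr_deriv (by ring)

/-- The derivative of `F`, written out. -/
noncomputable def F' (e c w x : ℝ) : ℝ :=
  (1 - c ^ 2) * (2 * U e w x * (-(e * sin (x + w))) *
      (sin w * cos x ^ 3 - c ^ 2 * cos w * sin x ^ 3)
    + U e w x ^ 2 * (-(3 * sin w * cos x ^ 2 * sin x) - 3 * c ^ 2 * cos w * sin x ^ 2 * cos x))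
    - e * (1 - c ^ 2) * ((-(e * sin (x + w))) * sin (x + w) ^ 2 * (cos x * sin x) * K c x
      + U e w x * (2 * sin (x + w) * cos (x + w)) * (cos x * sin x) * K c x
      + U e w x * sin (x + w) ^ 2 * (cos x ^ 2 - sin x ^ 2) * K c x
      + U e w x * sin (x + w) ^ 2 * (cos x * sin x) * (-(2 * (1 - c ^ 2) * (cos x * sin x))))
    + e ^ 2 * (3 * sin (x + w) ^ 2 * cos (x + w) * K c x ^ 2
      + sin (x + w) ^ 3 * (2 * K c x * (-(2 * (1 - c ^ 2) * (cos x * sin x)))))

lemma hF (e c w x : ℝ) : HasDerivAt (fun x => F e c w x) (F' e c w x) x := by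
  have h1 := ((((hU e w x).fun_pow 2).const_mul (1 - c ^ 2)).fun_mul
    ((((hX x).fun_pow 3).const_mul (sin w)).fun_sub (((hY x).fun_pow 3).const_mul (c ^ 2 * cos w))))
  have h2 := ((((hU e w x).const_mul (e * (1 - c ^ 2))).fun_mul ((hS w x).fun_pow 2)).fun_mul
    ((hX x).fun_mul (hY x))).fun_mul (hK c x)
  have h3 := (((hS w x).fun_pow 3).const_mul (e ^ 2)).fun_mul ((hK c x).fun_pow 2)
  have h := (h1.fun_sub h2).fun_add h3
  exact h.congr_deriv (by unfold F'; norm_num; ring)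

lemma alg_W (e c X Y S C : ℝ) :
    ((-(e * S)) * (e * (S * X - C * Y) * X + e * c ^ 2 * (C * X + S * Y) * Y
        - (1 - c ^ 2) * (X * Y))
      + (1 + e * C) * (-(e * (S * X - C * Y) * Y) + e * c ^ 2 * (C * X + S * Y) * X
        - (1 - c ^ 2) * (X ^ 2 - Y ^ 2))) * (X ^ 2 + c ^ 2 * Y ^ 2) * S
      - (1 + e * C) * (e * (S * X - C * Y) * X + e * c ^ 2 * (C * X + S * Y) * Y
        - (1 - c ^ 2) * (X * Y)) *
        (-((1 - c ^ 2) * (X * Y)) * S + (X ^ 2 + c ^ 2 * Y ^ 2) * C)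
      = -((1 - c ^ 2) * (1 + e * C) ^ 2 * ((S * X - C * Y) * X ^ 3
          - c ^ 2 * (C * X + S * Y) * Y ^ 3)
        - e * (1 - c ^ 2) * (1 + e * C) * S ^ 2 * (X * Y) * (X ^ 2 + c ^ 2 * Y ^ 2)
        + e ^ 2 * S ^ 3 * (X ^ 2 + c ^ 2 * Y ^ 2) ^ 2) := by
  ring

lemma hW (e c w x : ℝ) (hKp : 0 < K c x) (hSn : sin (x + w) ≠ 0) :
    HasDerivAt (fun x => W e c w x)
      (-F e c w x / (sin (x + w) ^ 2 * (K c x * sqrt (K c x)))) x := by
  have hs : sqrt (K c x) ≠ 0 := (Real.sqrt_pos.2 hKp).ne'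
  have hsq : sqrt (K c x) ^ 2 = K c x := Real.sq_sqrt hKp.le
  have h1 := ((hU e w x).fun_mul (hT e c w x)).fun_div
    (((hK c x).sqrt hKp.ne').fun_mul (hS w x)) (mul_ne_zero hs hSn)
  refine h1.congr_deriv ?_
  have hcw := cw x w
  have hsw := sw x w
  have key := alg_W e c (cos x) (sin x) (sin (x + w)) (cos (x + w))
  rw [← hsw, ← hcw] at key
  have hKx : cos x ^ 2 + c ^ 2 * sin x ^ 2 = K c x := rfl
  have hUx : 1 + e * cos (x + w) = U e w x := rfl
  have hTx : e * sin w * cos x + e * c ^ 2 * cos w * sin x - (1 - c ^ 2) * (cos x * sin x)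
    = T e c w x := rfl
  rw [hKx, hUx, hTx] at key
  have hFx : (1 - c ^ 2) * U e w x ^ 2 * (sin w * cos x ^ 3 - c ^ 2 * cos w * sin x ^ 3)
    - e * (1 - c ^ 2) * U e w x * sin (x + w) ^ 2 * (cos x * sin x) * K c x
    + e ^ 2 * sin (x + w) ^ 3 * K c x ^ 2 = F e c w x := rfl
  rw [hFx] at key
  have hk0 : K c x ≠ 0 := hKp.ne'
  have hF2 : F e c w x = -(((-(e * sin (x + w))) * T e c w x
      + U e w x * (-(e * sin w * sin x) + e * c ^ 2 * cos w * cos x
        - (1 - c ^ 2) * (cos x ^ 2 - sin x ^ 2))) * K c x * sin (x + w)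
      - U e w x * T e c w x *
        (-((1 - c ^ 2) * (cos x * sin x)) * sin (x + w) + K c x * cos (x + w))) := by
    rw [key]; ring
  rw [hF2]
  set κ := sqrt (K c x) with hκ
  rw [← hsq]
  field_simp

end Pool.Agent.R995.CE
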