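import Pool.Agent.R995.CE1

/-! Circle and ellipse with a common focus: further derivative identities. -/

namespace Pool.Agent.R995.CE

open Real Set

lemma alg_F3 (e c X Y S C : ℝ) (h1 : X ^ 2 + Y ^ 2 = 1) (h2 : S ^ 2 + C ^ 2 = 1) :
    ((1 - c ^ 2) * (2 * (1 + e * C) * (-(e * S)) *
      ((S * X - C * Y) * X ^ 3 - c ^ 2 * (C * X + S * Y) * Y ^ 3)
    + (1 + e * C) ^ 2 * (-(3 * (S * X - C * Y) * X ^ 2 * Y)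
      - 3 * c ^ 2 * (C * X + S * Y) * Y ^ 2 * X))
    - e * (1 - c ^ 2) * ((-(e * S)) * S ^ 2 * (X * Y) * (X ^ 2 + c ^ 2 * Y ^ 2)
      + (1 + e * C) * (2 * S * C) * (X * Y) * (X ^ 2 + c ^ 2 * Y ^ 2)
      + (1 + e * C) * S ^ 2 * (X ^ 2 - Y ^ 2) * (X ^ 2 + c ^ 2 * Y ^ 2)
      + (1 + e * C) * S ^ 2 * (X * Y) * (-(2 * (1 - c ^ 2) * (X * Y))))
    + e ^ 2 * (3 * S ^ 2 * C * (X ^ 2 + c ^ 2 * Y ^ 2) ^ 2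
      + S ^ 3 * (2 * (X ^ 2 + c ^ 2 * Y ^ 2) * (-(2 * (1 - c ^ 2) * (X * Y)))))) * S - 3 * ((1 - c ^ 2) * (1 + e * C) ^ 2 * ((S * X - C * Y) * X ^ 3 - c ^ 2 * (C * X + S * Y) * Y ^ 3)
        - e * (1 - c ^ 2) * (1 + e * C) * S ^ 2 * (X * Y) * (X ^ 2 + c ^ 2 * Y ^ 2)
        + e ^ 2 * S ^ 3 * (X ^ 2 + c ^ 2 * Y ^ 2) ^ 2) * C
      = 3 * (1 - c ^ 2) * (X ^ 2 + c ^ 2 * Y ^ 2) * (e * S ^ 2 *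
        ((C * X + S * Y) * Y ^ 3 - (S * X - C * Y) * X ^ 3)
        - (C * X + S * Y) * (S * X - C * Y) * (1 + 2 * e * C + e ^ 2)) := by
  linear_combination (3*e*c^4*Y^4*S^3+3*e*c^4*X*Y^3*S^2*C-3*e*c^4*X^2*Y^2*S^3-3*e^2*c^4*Y^2*S*C^3-3*e^2*c^4*Y^2*S^3*C-3*e^2*c^4*X*Y*C^4+3*e^2*c^4*X*Y*S^4+6*e^2*c^4*X^2*S*C^3+6*e^2*c^4*X^2*S^3*C-3*e*c^2*Y^4*S^3-3*e*c^2*X*Y^3*S^2*C+6*e*c^2*X^2*Y^2*S^3+3*e*c^2*X^3*Y*S^2*C-3*e*c^2*X^4*S^3+3*e^2*c^2*Y^2*S*C^3+3*e^2*c^2*Y^2*S^3*C+3*e^2*c^2*X*Y*C^4-3*e^2*c^2*X*Y*S^4-9*e^2*c^2*X^2*S*C^3-9*e^2*c^2*X^2*S^3*C-3*e^2*c^4*S*C^3-3*e^2*c^4*S^3*C+3*e^2*c^4*Y^2*S*C+3*e^2*c^4*X*Y*C^2-3*e^2*c^4*X*Y*S^2-6*e^2*c^4*X^2*S*C-3*e*X^2*Y^2*S^3-3*e*X^3*Y*S^2*C+3*e*X^4*S^3+3*e^2*X^2*S*C^3+3*e^2*X^2*S^3*C+3*e^2*c^2*S*C^3+3*e^2*c^2*S^3*C-3*e^2*c^2*Y^2*S*C-3*e^2*c^2*X*Y*C^2+3*e^2*c^2*X*Y*S^2+9*e^2*c^2*X^2*S*C+3*e^2*c^4*S*C-3*e^2*X^2*S*C-3*e^2*c^2*S*C)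 * h1 + (3*e^2*c^4*X^3*Y*C^2-3*e^2*c^4*X^3*Y*S^2-6*e^2*c^4*X^4*S*C-6*e^2*c^2*X^3*Y*C^2+6*e^2*c^2*X^3*Y*S^2+12*e^2*c^2*X^4*S*C-3*e^2*c^4*X*Y*C^2+3*e^2*c^4*X*Y*S^2+9*e^2*c^4*X^2*S*C+3*e^2*X^3*Y*C^2-3*e^2*X^3*Y*S^2-6*e^2*X^4*S*C+3*e^2*c^2*X*Y*C^2-3*e^2*c^2*X*Y*S^2-12*e^2*c^2*X^2*S*C-3*e^2*c^4*S*C+3*e^2*X^2*S*C+3*e^2*c^2*S*C) * h2

lemma alg_F1 (e c X Y S C : ℝ) (h1 : X ^ 2 + Y ^ 2 = 1) (h2 : S ^ 2 + C ^ 2 = 1) :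
    ((1 - c ^ 2) * (2 * (1 + e * C) * (-(e * S)) *
      ((S * X - C * Y) * X ^ 3 - c ^ 2 * (C * X + S * Y) * Y ^ 3)
    + (1 + e * C) ^ 2 * (-(3 * (S * X - C * Y) * X ^ 2 * Y)
      - 3 * c ^ 2 * (C * X + S * Y) * Y ^ 2 * X))
    - e * (1 - c ^ 2) * ((-(e * S)) * S ^ 2 * (X * Y) * (X ^ 2 + c ^ 2 * Y ^ 2)
      + (1 + e * C) * (2 * S * C) * (X * Y) * (X ^ 2 + c ^ 2 * Y ^ 2)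
      + (1 + e * C) * S ^ 2 * (X ^ 2 - Y ^ 2) * (X ^ 2 + c ^ 2 * Y ^ 2)
      + (1 + e * C) * S ^ 2 * (X * Y) * (-(2 * (1 - c ^ 2) * (X * Y))))
    + e ^ 2 * (3 * S ^ 2 * C * (X ^ 2 + c ^ 2 * Y ^ 2) ^ 2
      + S ^ 3 * (2 * (X ^ 2 + c ^ 2 * Y ^ 2) * (-(2 * (1 - c ^ 2) * (X * Y)))))) * Y - 3 * ((1 - c ^ 2) * (1 + e * C) ^ 2 * ((S * X - C * Y) * X ^ 3 - c ^ 2 * (C * X + S * Y) * Y ^ 3)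
        - e * (1 - c ^ 2) * (1 + e * C) * S ^ 2 * (X * Y) * (X ^ 2 + c ^ 2 * Y ^ 2)
        + e ^ 2 * S ^ 3 * (X ^ 2 + c ^ 2 * Y ^ 2) ^ 2) * X
      = -(3 * ((S * X - C * Y) * ((1 - c ^ 2) * X ^ 2 * (1 + 2 * e * C + e ^ 2)
        + e ^ 2 * c ^ 2 * S ^ 2)
        - e * (1 - c ^ 2) * S ^ 2 * Y ^ 3 * (X ^ 2 + c ^ 2 * Y ^ 2))) := by
  linear_combination (3*e^2*c^2*Y^3*S^2*C-3*e^2*c^2*X*Y^2*S^3-3*e^2*c^2*X^2*Y*C^3+3*e^2*c^2*X^3*S*C^2-6*e*c^2*X^2*Y*C^2+6*e*c^2*X^3*S*C+3*e^2*X^2*Y*C^3+3*e^2*X^2*Y*S^2*C-3*e^2*X^3*S*C^2-3*e^2*X^3*S^3+3*e^2*c^2*Y*S^2*C-3*e^2*c^2*X*S^3-3*c^2*X^2*Y*C+3*c^2*X^3*S+6*e*X^2*Y*C^2-6*e*X^3*S*C+3*X^2*Y*C-3*X^3*S) * h1 + (-3*e^2*c^2*X^2*Y*C+3*e^2*c^2*X^3*S+3*e^2*X^2*Y*C-3*e^2*X^3*S) * h2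

lemma alg_Lam (X Y S C : ℝ) (h1 : X ^ 2 + Y ^ 2 = 1) :
    ((C * X + S * Y) * Y ^ 3 - (S * X - C * Y) * X ^ 3) * C
      + (C * X + S * Y) * (S * X - C * Y) = X * Y * S ^ 2 := by
  linear_combination (Y^2*S*C+X*Y*C^2-X^2*S*C) * h1

lemma alg_W0 (e X Y S C : ℝ) (h2 : S ^ 2 + C ^ 2 = 1) :
    ((-(e * S)) * (e * (S * X - C * Y) - Y) + (1 + e * C) * (-X)) * S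
      - (1 + e * C) * (e * (S * X - C * Y) - Y) * C
      = e * S ^ 2 * Y - (S * X - C * Y) * (1 + 2 * e * C + e ^ 2) := by
  linear_combination (e^2*Y*C-e^2*X*S) * h2

end Pool.Agent.R995.CE
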