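import Pool.Agent.R995.CE2

/-! Circle and ellipse with a common focus: zero counts in the generic case. -/

namespace Pool.Agent.R995.CE

open Real Set

lemma U_pos (e w x : ℝ) (he0 : 0 < e) (he1 : e < 1) : 0 < U e w x := by
  unfold U
  have h1 := neg_one_le_cos (x + w)
  nlinarith

lemma K_pos (c x : ℝ) (hc : 0 < c) : 0 < K c x := by
  unfold K
  have h := sin_sq_add_cos_sq x
  have hc2 : 0 < c ^ 2 := by positivity
  by_cases hs : sin x = 0
  · rw [hs] at h ⊢
    nlinarith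
  · have : 0 < sin x ^ 2 := by positivity
    nlinarith [sq_nonneg (cos x)]

lemma hF3 (e c w x : ℝ) (hSn : sin (x + w) ≠ 0) :
    HasDerivAt (fun x => F e c w x / sin (x + w) ^ 3)
      (3 * (1 - c ^ 2) * K c x * (e * sin (x + w) ^ 2 *
        (cos w * sin x ^ 3 - sin w * cos x ^ 3)
        - cos w * sin w * (1 + 2 * e * cos (x + w) + e ^ 2)) / sin (x + w) ^ 4) x := by
  have h := (hF e c w x).fun_div ((hS w x).fun_pow 3) (pow_ne_zero 3 hSn)
  refine h.congr_deriv ?_
  have h1 : cos x ^ 2 + sin x ^ 2 = 1 := cos_sq_add_sin_sq x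
  have h2 : sin (x + w) ^ 2 + cos (x + w) ^ 2 = 1 := sin_sq_add_cos_sq (x + w)
  have key := alg_F3 e c (cos x) (sin x) (sin (x + w)) (cos (x + w)) h1 h2
  rw [← sw x w, ← cw x w] at key
  have hKx : cos x ^ 2 + c ^ 2 * sin x ^ 2 = K c x := rfl
  have hUx : 1 + e * cos (x + w) = U e w x := rfl
  rw [hKx, hUx] at key
  have key2 : F' e c w x * sin (x + w) - 3 * F e c w x * cos (x + w)
      = 3 * (1 - c ^ 2) * K c x * (e * sin (x + w) ^ 2 *
        (cos w * sin x ^ 3 - sin w * cos x ^ 3)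
        - cos w * sin w * (1 + 2 * e * cos (x + w) + e ^ 2)) := key
  rw [← key2]
  field_simp
  norm_num
  ring

lemma hF1 (e c w x : ℝ) (hSn : sin x ≠ 0) :
    HasDerivAt (fun x => F e c w x / sin x ^ 3)
      (-(3 * (sin w * ((1 - c ^ 2) * cos x ^ 2 * (1 + 2 * e * cos (x + w) + e ^ 2)
        + e ^ 2 * c ^ 2 * sin (x + w) ^ 2)
        - e * (1 - c ^ 2) * sin (x + w) ^ 2 * sin x ^ 3 * K c x)) / sin x ^ 4) x := by
  have h := (hF e c w x).fun_div ((hY x).fun_pow 3) (pow_ne_zero 3 hSn)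
  refine h.congr_deriv ?_
  have h1 : cos x ^ 2 + sin x ^ 2 = 1 := cos_sq_add_sin_sq x
  have h2 : sin (x + w) ^ 2 + cos (x + w) ^ 2 = 1 := sin_sq_add_cos_sq (x + w)
  have key := alg_F1 e c (cos x) (sin x) (sin (x + w)) (cos (x + w)) h1 h2
  rw [← sw x w, ← cw x w] at key
  have hKx : cos x ^ 2 + c ^ 2 * sin x ^ 2 = K c x := rfl
  have hUx : 1 + e * cos (x + w) = U e w x := rfl
  rw [hKx, hUx] at key
  have key2 : F' e c w x * sin x - 3 * F e c w x * cos x
      = -(3 * (sin w * ((1 - c ^ 2) * cos x ^ 2 * (1 + 2 * e * cos (x + w) + e ^ 2)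
        + e ^ 2 * c ^ 2 * sin (x + w) ^ 2)
        - e * (1 - c ^ 2) * sin (x + w) ^ 2 * sin x ^ 3 * K c x)) := key
  rw [← key2]
  field_simp
  norm_num
  ring

/-- The auxiliary function `Λ`. -/
noncomputable def Lam (w x : ℝ) : ℝ :=
  (cos w * sin x ^ 3 - sin w * cos x ^ 3) * sin (x + w) ^ 2 - 2 * cos w * sin w * cos (x + w)

lemma hLam (w x : ℝ) :
    HasDerivAt (fun x => Lam w x) (5 * (cos x * sin x) * sin (x + w) ^ 3) x := by
  have h := (((((hY x).fun_pow 3).const_mul (cos w)).fun_sub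
    (((hX x).fun_pow 3).const_mul (sin w))).fun_mul ((hS w x).fun_pow 2)).fun_sub
    ((hC w x).const_mul (2 * cos w * sin w))
  refine h.congr_deriv ?_
  have h1 : cos x ^ 2 + sin x ^ 2 = 1 := cos_sq_add_sin_sq x
  have key := alg_Lam (cos x) (sin x) (sin (x + w)) (cos (x + w)) h1
  rw [← sw x w, ← cw x w] at key
  have hs : sin (x + w) = sin x * cos w + cos x * sin w := sin_add x w
  norm_num
  linear_combination (2 * sin (x + w)) * key +
    (-3 * cos x * sin x * sin (x + w) ^ 2) * hs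

lemma T_eq (e c w x : ℝ) :
    T e c w x = e * sin (x + w) * K c x - (1 - c ^ 2) * U e w x * (cos x * sin x) := by
  have h1 : cos x ^ 2 + sin x ^ 2 = 1 := cos_sq_add_sin_sq x
  unfold T K U
  rw [sw x w, cw x w]
  ring

end Pool.Agent.R995.CE
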