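import Pool.Agent.R995.CE3

/-! Circle and ellipse with a common focus: zero counts in the generic case. -/

namespace Pool.Agent.R995.CE

open Real Set

/-- parameters in the generic range. -/
structure Gen (e c w : ℝ) : Prop where
  he0 : 0 < e
  he1 : e < 1
  hc0 : 0 < c
  hc1 : c < 1
  hw0 : 0 < w
  hw1 : w < π / 2

namespace Gen

variable {e c w : ℝ} (h : Gen e c w)
include h

lemma p_pos : 0 < cos w := cos_pos_of_mem_Ioo ⟨by linarith [h.hw0, pi_pos], h.hw1⟩

lemma q_pos : 0 < sin w := sin_pos_of_pos_of_lt_pi h.hw0 (by linarith [h.hw1, pi_pos])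

lemma s2_pos : 0 < 1 - c ^ 2 := by nlinarith [h.hc0, h.hc1]

omit h in
lemma S_pos {x : ℝ} (hx : x ∈ Ioo (-w) (π - w)) : 0 < sin (x + w) :=
  sin_pos_of_pos_of_lt_pi (by linarith [hx.1]) (by linarith [hx.2])

omit h in
lemma S_neg {x : ℝ} (hx : x ∈ Ioo (π - w) (2 * π - w)) : sin (x + w) < 0 := by
  have : sin (x + w - 2 * π) = sin (x + w) := sin_sub_two_pi _
  rw [← this]
  exact sin_neg_of_neg_of_neg_pi_lt (by linarith [hx.2]) (by linarith [hx.1])

/-- `F` has at most three zeros on the upper arc. -/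
lemma zFU : {x | x ∈ Ioo (-w) (π - w) ∧ F e c w x = 0}.encard ≤ 3 := by
  have he0 := h.he0
  have he1 := h.he1
  have hp := h.p_pos
  have hq := h.q_pos
  have hs := h.s2_pos
  have hw0 := h.hw0
  have hw1 := h.hw1
  have h1 := encard_zeros_le (fun x => F e c w x / sin (x + w) ^ 3) _ (-w) (π - w)
    (fun x hx => hF3 e c w x (S_pos hx).ne') 0
  have h2 : {x | x ∈ Ioo (-w) (π - w) ∧ F e c w x = 0} ⊆
      {x | x ∈ Ioo (-w) (π - w) ∧ F e c w x / sin (x + w) ^ 3 = 0} := by
    rintro x ⟨hx, hx0⟩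
    exact ⟨hx, by simp [hx0]⟩
  have h3 : {x | x ∈ Ioo (-w) (π - w) ∧ 3 * (1 - c ^ 2) * K c x * (e * sin (x + w) ^ 2 *
        (cos w * sin x ^ 3 - sin w * cos x ^ 3)
        - cos w * sin w * (1 + 2 * e * cos (x + w) + e ^ 2)) / sin (x + w) ^ 4 = 0} ⊆
      {x | x ∈ Ioo 0 (π - w) ∧ Lam w x = cos w * sin w * (1 + e ^ 2) / e} := by
    rintro x ⟨hx, hx0⟩
    have hS := S_pos hx
    have hK := K_pos c x h.hc0
    have hl : Lam w x = cos w * sin w * (1 + e ^ 2) / e := by
      rw [div_eq_zero_iff] at hx0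
      rcases hx0 with hx0 | hx0
      · rcases mul_eq_zero.1 hx0 with h4 | h4
        · exfalso
          have : 0 < 3 * (1 - c ^ 2) * K c x := by positivity
          linarith
        · unfold Lam
          field_simp
          linarith
      · exact absurd hx0 (by positivity)
    refine ⟨⟨?_, hx.2⟩, hl⟩
    by_contra hx1
    have hx1 : x ≤ 0 := not_lt.1 hx1
    have hcos : 0 < cos x := cos_pos_of_mem_Ioo ⟨by linarith [hx.1], by linarith [pi_pos]⟩
    have hsin : sin x ≤ 0 := sin_nonpos_of_nonpos_of_neg_pi_le hx1 (by linarith [hx.1, pi_pos])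
    have h5 : cos w * sin x ^ 3 - sin w * cos x ^ 3 ≤ 0 := by
      have : sin x ^ 3 ≤ 0 := by
        have : sin x ^ 3 = sin x ^ 2 * sin x := by ring
        rw [this]
        exact mul_nonpos_of_nonneg_of_nonpos (sq_nonneg _) hsin
      have h6 : 0 < sin w * cos x ^ 3 := by positivity
      nlinarith
    have h6 : Lam w x ≤ 2 * (cos w * sin w) := by
      unfold Lam
      have h7 := neg_one_le_cos (x + w)
      have h8 : (cos w * sin x ^ 3 - sin w * cos x ^ 3) * sin (x + w) ^ 2 ≤ 0 :=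
        mul_nonpos_of_nonpos_of_nonneg h5 (sq_nonneg _)
      have h9 : 0 < cos w * sin w := by positivity
      nlinarith
    rw [hl] at h6
    rw [div_le_iff₀ he0] at h6
    have h9 : 0 < cos w * sin w := by positivity
    have h10 : 0 < (1 - e) ^ 2 := by
      have : 0 < 1 - e := by linarith
      positivity
    nlinarith [mul_pos h9 h10]
  have h4 := encard_zeros_le (fun x => Lam w x) _ 0 (π - w) (fun x _ => hLam w x)
    (cos w * sin w * (1 + e ^ 2) / e)
  have h5 : {x | x ∈ Ioo 0 (π - w) ∧ 5 * (cos x * sin x) * sin (x + w) ^ 3 = 0} ⊆ {π / 2} := by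
    rintro x ⟨hx, hx0⟩
    have hS : 0 < sin (x + w) := S_pos ⟨by linarith [hx.1], hx.2⟩
    have hsin : 0 < sin x := sin_pos_of_pos_of_lt_pi hx.1 (by linarith [hx.2])
    have hc0 : cos x = 0 := by
      by_contra hne
      have : 5 * (cos x * sin x) * sin (x + w) ^ 3 ≠ 0 := by positivity
      exact this hx0
    rw [mem_singleton_iff]
    rcases lt_trichotomy x (π / 2) with h6 | h6 | h6
    · exact absurd hc0 (cos_pos_of_mem_Ioo ⟨by linarith [hx.1, pi_pos], h6⟩).ne'
    · exact h6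
    · exact absurd hc0 (cos_neg_of_pi_div_two_lt_of_lt h6 (by linarith [hx.2, pi_pos])).ne
  have h6 : ({π / 2} : Set ℝ).encard = 1 := encard_singleton _
  calc {x | x ∈ Ioo (-w) (π - w) ∧ F e c w x = 0}.encard
      ≤ _ := encard_le_encard h2
    _ ≤ _ := h1
    _ ≤ {x | x ∈ Ioo 0 (π - w) ∧ Lam w x = cos w * sin w * (1 + e ^ 2) / e}.encard + 1 := by
        gcongr
    _ ≤ ({x | x ∈ Ioo 0 (π - w) ∧ 5 * (cos x * sin x) * sin (x + w) ^ 3 = 0}.encard + 1) + 1 := by
        gcongr
    _ ≤ (({π / 2} : Set ℝ).encard + 1) + 1 := by gcongr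
    _ = 3 := by rw [h6]; norm_num

/-- Negativity of `F` on a part of the lower arc. -/
lemma F_neg {x : ℝ} (hx : x ∈ Ioc (π - w) π) : F e c w x < 0 := by
  have he0 := h.he0
  have he1 := h.he1
  have hp := h.p_pos
  have hq := h.q_pos
  have hs := h.s2_pos
  have hw0 := h.hw0
  have hw1 := h.hw1
  have hc0 := h.hc0
  have hS : sin (x + w) < 0 := S_neg ⟨hx.1, by linarith [hx.2, hx.1, pi_pos]⟩
  have hcos : cos x < 0 := cos_neg_of_pi_div_two_lt_of_lt (by linarith [hx.1]) (by linarith [hx.2, pi_pos])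
  have hsin : 0 ≤ sin x := sin_nonneg_of_nonneg_of_le_pi (by linarith [hx.1]) hx.2
  have hU := U_pos e w x he0 he1
  have hK := K_pos c x hc0
  have hs1 : 1 - c ^ 2 ≤ 1 := by nlinarith
  have hsin1 : sin x ≤ 1 := sin_le_one x
  -- abbreviations: a = -cos x > 0, y = sin x ≥ 0, t = -S > 0
  have hSeq : sin (x + w) = sin x * cos w + cos x * sin w := sin_add x w
  obtain ⟨a, ha⟩ : ∃ a, a = -cos x := ⟨_, rfl⟩
  obtain ⟨t, ht⟩ : ∃ t, t = -sin (x + w) := ⟨_, rfl⟩
  obtain ⟨y, hy⟩ : ∃ y, y = sin x := ⟨_, rfl⟩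
  have ha0 : 0 < a := by rw [ha]; linarith
  have ht0 : 0 < t := by rw [ht]; linarith
  have hcx : cos x = -a := by rw [ha]; ring
  have hSx : sin (x + w) = -t := by rw [ht]; ring
  have hta : t ≤ sin w * a := by
    rw [ht, hSeq, hcx]
    have : 0 ≤ sin x * cos w := by positivity
    nlinarith
  obtain ⟨u, hu⟩ : ∃ u, u = U e w x := ⟨_, rfl⟩
  obtain ⟨k, hk⟩ : ∃ k, k = K c x := ⟨_, rfl⟩
  obtain ⟨s, hs'⟩ : ∃ s, s = 1 - c ^ 2 := ⟨_, rfl⟩
  have hFx : F e c w x = -(s * u ^ 2 * (sin w * a ^ 3 + c ^ 2 * cos w * y ^ 3)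
      - e * s * u * t ^ 2 * (a * y) * k + e ^ 2 * t ^ 3 * k ^ 2) := by
    unfold F
    rw [hcx, hSx, ← hu, ← hk, ← hs', ← hy]
    ring
  rw [hFx, neg_lt_zero]
  have hu0 : 0 < u := by rw [hu]; exact hU
  have hk0 : 0 < k := by rw [hk]; exact hK
  have hs0 : 0 < s := by rw [hs']; exact hs
  have hs1' : s ≤ 1 := by rw [hs']; exact hs1
  have hy0 : 0 ≤ y := by rw [hy]; exact hsin
  have hy1 : y ≤ 1 := by rw [hy]; exact hsin1
  have h1 : t * a ^ 2 ≤ sin w * a ^ 3 + c ^ 2 * cos w * y ^ 3 := by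
    have h2 : t * a ^ 2 ≤ sin w * a * a ^ 2 := by
      apply mul_le_mul_of_nonneg_right hta (by positivity)
    have h3 : 0 ≤ c ^ 2 * cos w * y ^ 3 := by positivity
    nlinarith
  have h2 : 0 < t * (s * u ^ 2 * a ^ 2 - s * u * (a * y) * (e * t * k) + (e * t * k) ^ 2) := by
    apply mul_pos ht0
    have h3 : s * u ^ 2 * a ^ 2 - s * u * (a * y) * (e * t * k) + (e * t * k) ^ 2
        = (e * t * k - s * u * (a * y) / 2) ^ 2 + s * u ^ 2 * a ^ 2 * (1 - s * y ^ 2 / 4) := by
      ring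
    rw [h3]
    have h4 : 0 < 1 - s * y ^ 2 / 4 := by
      have : s * y ^ 2 ≤ 1 := by
        have : y ^ 2 ≤ 1 := by nlinarith
        nlinarith
      linarith
    positivity
  have h3 : s * u ^ 2 * (t * a ^ 2) ≤ s * u ^ 2 * (sin w * a ^ 3 + c ^ 2 * cos w * y ^ 3) :=
    mul_le_mul_of_nonneg_left h1 (by positivity)
  nlinarith

/-- `F` has at most one zero on the lower arc. -/
lemma zFL : {x | x ∈ Ioo (π - w) (2 * π - w) ∧ F e c w x = 0}.encard ≤ 1 := by
  have he0 := h.he0
  have he1 := h.he1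
  have hp := h.p_pos
  have hq := h.q_pos
  have hs := h.s2_pos
  have hw0 := h.hw0
  have hw1 := h.hw1
  have hsn : ∀ x ∈ Ioo π (2 * π - w), sin x < 0 := by
    intro x hx
    have : sin (x - 2 * π) = sin x := sin_sub_two_pi _
    rw [← this]
    exact sin_neg_of_neg_of_neg_pi_lt (by linarith [hx.2]) (by linarith [hx.1])
  have h1 := encard_zeros_le_one (fun x => F e c w x / sin x ^ 3) _ π (2 * π - w)
    (fun x hx => hF1 e c w x (hsn x hx).ne) 0 (by
      intro x hx
      have hsx := hsn x hx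
      have hS : sin (x + w) < 0 := S_neg ⟨by linarith [hx.1], hx.2⟩
      have hK := K_pos c x h.hc0
      have h2 : 0 < sin w * ((1 - c ^ 2) * cos x ^ 2 * (1 + 2 * e * cos (x + w) + e ^ 2)
        + e ^ 2 * c ^ 2 * sin (x + w) ^ 2)
        - e * (1 - c ^ 2) * sin (x + w) ^ 2 * sin x ^ 3 * K c x := by
        have h3 : 0 ≤ 1 + 2 * e * cos (x + w) + e ^ 2 := by
          have h4 : 1 + 2 * e * cos (x + w) + e ^ 2 = (e + cos (x + w)) ^ 2 + sin (x + w) ^ 2 := by
            have := sin_sq_add_cos_sq (x + w)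
            linear_combination -this
          rw [h4]; positivity
        have h4 : 0 ≤ (1 - c ^ 2) * cos x ^ 2 * (1 + 2 * e * cos (x + w) + e ^ 2) := by
          positivity
        have hc0 := h.hc0
        have h5 : 0 < e ^ 2 * c ^ 2 * sin (x + w) ^ 2 := by
          have : 0 < sin (x + w) ^ 2 := by nlinarith
          positivity
        have h6 : 0 ≤ -(sin x ^ 3) := by
          have : -(sin x ^ 3) = sin x ^ 2 * (-sin x) := by ring
          rw [this]
          exact mul_nonneg (sq_nonneg _) (by linarith)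
        have h7 : 0 ≤ e * (1 - c ^ 2) * sin (x + w) ^ 2 * (-(sin x ^ 3)) * K c x := by
          positivity
        have h8 : 0 < sin w * ((1 - c ^ 2) * cos x ^ 2 * (1 + 2 * e * cos (x + w) + e ^ 2)
          + e ^ 2 * c ^ 2 * sin (x + w) ^ 2) := by
          apply mul_pos hq
          linarith
        linarith
      have h9 : 0 < sin x ^ 4 := by
        have : 0 < sin x ^ 2 := by nlinarith
        have h10 : sin x ^ 4 = sin x ^ 2 * sin x ^ 2 := by ring
        rw [h10]; positivity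
      have h11 : -(3 * (sin w * ((1 - c ^ 2) * cos x ^ 2 * (1 + 2 * e * cos (x + w) + e ^ 2)
        + e ^ 2 * c ^ 2 * sin (x + w) ^ 2)
        - e * (1 - c ^ 2) * sin (x + w) ^ 2 * sin x ^ 3 * K c x)) / sin x ^ 4 < 0 :=
        div_neg_of_neg_of_pos (by linarith) h9
      exact h11.ne)
  refine le_trans (encard_le_encard ?_) h1
  rintro x ⟨hx, hx0⟩
  refine ⟨⟨?_, hx.2⟩, by simp [hx0]⟩
  by_contra hcon
  exact absurd hx0 (h.F_neg ⟨hx.1, not_lt.1 hcon⟩).ne

omit h in
/-- derivative of the auxiliary function for `T`. -/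
lemma hH {x : ℝ} (hsx : sin x ≠ 0) (hcx : cos x ≠ 0) :
    HasDerivAt (fun x => e * sin w / sin x + e * c ^ 2 * cos w / cos x)
      (-(e * sin w * cos x) / sin x ^ 2 + e * c ^ 2 * cos w * sin x / cos x ^ 2) x := by
  have h1 := ((hasDerivAt_const x (e * sin w)).fun_div (hY x) hsx).fun_add
    ((hasDerivAt_const x (e * c ^ 2 * cos w)).fun_div (hX x) hcx)
  refine h1.congr_deriv ?_
  field_simp
  ring

omit h in
lemma T_zero_iff {x : ℝ} (hsx : sin x ≠ 0) (hcx : cos x ≠ 0) (hT0 : T e c w x = 0) :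
    e * sin w / sin x + e * c ^ 2 * cos w / cos x = 1 - c ^ 2 := by
  unfold T at hT0
  field_simp
  linarith

/-- `T` has at most two zeros on the upper arc. -/
lemma zTU : {x | x ∈ Ioo (-w) (π - w) ∧ T e c w x = 0}.encard ≤ 2 := by
  have he0 := h.he0
  have he1 := h.he1
  have hp := h.p_pos
  have hq := h.q_pos
  have hs := h.s2_pos
  have hw0 := h.hw0
  have hw1 := h.hw1
  have hc0 := h.hc0
  have hpos : ∀ x ∈ Ioo (0:ℝ) (π / 2), 0 < sin x ∧ 0 < cos x := fun x hx =>
    ⟨sin_pos_of_pos_of_lt_pi hx.1 (by linarith [hx.2, pi_pos]),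
      cos_pos_of_mem_Ioo ⟨by linarith [hx.1, pi_pos], hx.2⟩⟩
  have h1 := encard_zeros_le (fun x => e * sin w / sin x + e * c ^ 2 * cos w / cos x) _ 0 (π / 2)
    (fun x hx => hH (hpos x hx).1.ne' (hpos x hx).2.ne') (1 - c ^ 2)
  have h2 : {x | x ∈ Ioo (-w) (π - w) ∧ T e c w x = 0} ⊆
      {x | x ∈ Ioo 0 (π / 2) ∧ e * sin w / sin x + e * c ^ 2 * cos w / cos x = 1 - c ^ 2} := by
    rintro x ⟨hx, hx0⟩
    have hS := S_pos hx
    have hK := K_pos c x hc0
    have hU := U_pos e w x he0 he1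
    have hx' : x ∈ Ioo 0 (π / 2) := by
      by_contra hcon
      have hcs : cos x * sin x ≤ 0 := by
        by_cases hx1 : x ≤ 0
        · have hcos : 0 < cos x := cos_pos_of_mem_Ioo ⟨by linarith [hx.1], by linarith [pi_pos]⟩
          have hsin : sin x ≤ 0 :=
            sin_nonpos_of_nonpos_of_neg_pi_le hx1 (by linarith [hx.1, pi_pos])
          exact mul_nonpos_of_nonneg_of_nonpos hcos.le hsin
        · have hx2 : π / 2 ≤ x := by
            by_contra hx2
            exact hcon ⟨not_le.1 hx1, not_le.1 hx2⟩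
          have hcos : cos x ≤ 0 :=
            cos_nonpos_of_pi_div_two_le_of_le hx2 (by linarith [hx.2, pi_pos])
          have hsin : 0 ≤ sin x := sin_nonneg_of_nonneg_of_le_pi (by linarith [pi_pos])
            (by linarith [hx.2])
          exact mul_nonpos_of_nonpos_of_nonneg hcos hsin
      have hT := T_eq e c w x
      have h3 : 0 < e * sin (x + w) * K c x := by positivity
      have h4 : (1 - c ^ 2) * U e w x * (cos x * sin x) ≤ 0 :=
        mul_nonpos_of_nonneg_of_nonpos (by positivity) hcs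
      linarith
    exact ⟨hx', T_zero_iff (hpos x hx').1.ne' (hpos x hx').2.ne' hx0⟩
  have h3 : {x | x ∈ Ioo 0 (π / 2) ∧
      -(e * sin w * cos x) / sin x ^ 2 + e * c ^ 2 * cos w * sin x / cos x ^ 2 = 0} ⊆
      {x | x ∈ Ioo 0 (π / 2) ∧ c ^ 2 * cos w * sin x ^ 3 - sin w * cos x ^ 3 = 0} := by
    rintro x ⟨hx, hx0⟩
    obtain ⟨hsx, hcx⟩ := hpos x hx
    refine ⟨hx, ?_⟩
    field_simp at hx0
    rw [mul_zero, mul_eq_zero] at hx0
    rcases hx0 with h6 | h6
    · exact absurd h6 he0.ne'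
    · linarith
  have h4 := encard_zeros_le_one (fun x => c ^ 2 * cos w * sin x ^ 3 - sin w * cos x ^ 3)
    (fun x => 3 * c ^ 2 * cos w * sin x ^ 2 * cos x + 3 * sin w * cos x ^ 2 * sin x) 0 (π / 2)
    (by
      intro x _
      have h5 := (((hY x).fun_pow 3).const_mul (c ^ 2 * cos w)).fun_sub
        (((hX x).fun_pow 3).const_mul (sin w))
      refine h5.congr_deriv ?_
      norm_num
      ring) 0 (by
      intro x hx
      obtain ⟨hsx, hcx⟩ := hpos x hx
      positivity)
  calc {x | x ∈ Ioo (-w) (π - w) ∧ T e c w x = 0}.encard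
      ≤ _ := encard_le_encard h2
    _ ≤ _ := h1
    _ ≤ {x | x ∈ Ioo 0 (π / 2) ∧
          c ^ 2 * cos w * sin x ^ 3 - sin w * cos x ^ 3 = 0}.encard + 1 := by gcongr
    _ ≤ 1 + 1 := by gcongr
    _ = 2 := by norm_num

/-- `T` has at most two zeros on the lower arc. -/
lemma zTL : {x | x ∈ Ioo (π - w) (2 * π - w) ∧ T e c w x = 0}.encard ≤ 2 := by
  have he0 := h.he0
  have he1 := h.he1
  have hp := h.p_pos
  have hq := h.q_pos
  have hs := h.s2_pos
  have hw0 := h.hw0
  have hw1 := h.hw1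
  have hc0 := h.hc0
  have hpos1 : ∀ x ∈ Ioo (π - w) π, 0 < sin x ∧ cos x < 0 := fun x hx =>
    ⟨sin_pos_of_pos_of_lt_pi (by linarith [hx.1, pi_pos]) hx.2,
      cos_neg_of_pi_div_two_lt_of_lt (by linarith [hx.1]) (by linarith [hx.2, pi_pos])⟩
  have hpos2 : ∀ x ∈ Ioo (3 * π / 2) (2 * π - w), sin x < 0 ∧ 0 < cos x := by
    intro x hx
    have h1 : sin (x - 2 * π) = sin x := sin_sub_two_pi _
    have h2 : cos (x - 2 * π) = cos x := cos_sub_two_pi _
    rw [← h1, ← h2]
    exact ⟨sin_neg_of_neg_of_neg_pi_lt (by linarith [hx.2]) (by linarith [hx.1, pi_pos]),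
      cos_pos_of_mem_Ioo ⟨by linarith [hx.1], by linarith [hx.2, pi_pos]⟩⟩
  have hA1 := encard_zeros_le_one (fun x => e * sin w / sin x + e * c ^ 2 * cos w / cos x) _
    (π - w) π (fun x hx => hH (hpos1 x hx).1.ne' (hpos1 x hx).2.ne) (1 - c ^ 2) (by
      intro x hx
      obtain ⟨hsx, hcx⟩ := hpos1 x hx
      have h3 : 0 < -(e * sin w * cos x) / sin x ^ 2 := by
        apply div_pos _ (by positivity)
        have : 0 < e * sin w * (-cos x) := by
          have : 0 < -cos x := by linarith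
          positivity
        linarith
      have h4 : 0 < e * c ^ 2 * cos w * sin x / cos x ^ 2 := by
        have : 0 < cos x ^ 2 := by nlinarith
        positivity
      linarith)
  have hA2 := encard_zeros_le_one (fun x => e * sin w / sin x + e * c ^ 2 * cos w / cos x) _
    (3 * π / 2) (2 * π - w) (fun x hx => hH (hpos2 x hx).1.ne (hpos2 x hx).2.ne') (1 - c ^ 2) (by
      intro x hx
      obtain ⟨hsx, hcx⟩ := hpos2 x hx
      have h3 : -(e * sin w * cos x) / sin x ^ 2 < 0 := by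
        apply div_neg_of_neg_of_pos _ (by nlinarith)
        have : 0 < e * sin w * cos x := by positivity
        linarith
      have h4 : e * c ^ 2 * cos w * sin x / cos x ^ 2 < 0 := by
        apply div_neg_of_neg_of_pos _ (by positivity)
        have : 0 < e * c ^ 2 * cos w * (-sin x) := by
          have : 0 < -sin x := by linarith
          positivity
        linarith
      linarith)
  have hsub : {x | x ∈ Ioo (π - w) (2 * π - w) ∧ T e c w x = 0} ⊆
      {x | x ∈ Ioo (π - w) π ∧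
        e * sin w / sin x + e * c ^ 2 * cos w / cos x = 1 - c ^ 2} ∪
      {x | x ∈ Ioo (3 * π / 2) (2 * π - w) ∧
        e * sin w / sin x + e * c ^ 2 * cos w / cos x = 1 - c ^ 2} := by
    rintro x ⟨hx, hx0⟩
    rcases lt_or_ge x π with h1 | h1
    · left
      have hx' : x ∈ Ioo (π - w) π := ⟨hx.1, h1⟩
      exact ⟨hx', T_zero_iff (hpos1 x hx').1.ne' (hpos1 x hx').2.ne hx0⟩
    · rcases lt_or_ge (3 * π / 2) x with h2 | h2
      · right
        have hx' : x ∈ Ioo (3 * π / 2) (2 * π - w) := ⟨h2, hx.2⟩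
        exact ⟨hx', T_zero_iff (hpos2 x hx').1.ne (hpos2 x hx').2.ne' hx0⟩
      · exfalso
        have hS : sin (x + w) < 0 := S_neg hx
        have hK := K_pos c x hc0
        have hU := U_pos e w x he0 he1
        have h3 : sin (x - 2 * π) = sin x := sin_sub_two_pi _
        have h4 : cos (x - 2 * π) = cos x := cos_sub_two_pi _
        have hsin : sin x ≤ 0 := by
          rw [← h3]
          exact sin_nonpos_of_nonpos_of_neg_pi_le (by linarith [pi_pos]) (by linarith)
        have hcos : cos x ≤ 0 :=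
          cos_nonpos_of_pi_div_two_le_of_le (by linarith [pi_pos]) (by linarith)
        have hT := T_eq e c w x
        have h5 : e * sin (x + w) * K c x < 0 := by
          have : 0 < e * (-sin (x + w)) * K c x := by
            have : 0 < -sin (x + w) := by linarith
            positivity
          linarith
        have h6 : 0 ≤ (1 - c ^ 2) * U e w x * (cos x * sin x) :=
          mul_nonneg (by positivity) (mul_nonneg_of_nonpos_of_nonpos hcos hsin)
        linarith
  calc {x | x ∈ Ioo (π - w) (2 * π - w) ∧ T e c w x = 0}.encard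
      ≤ _ := encard_le_encard hsub
    _ ≤ _ := encard_union_le _ _
    _ ≤ 1 + 1 := by gcongr
    _ = 2 := by norm_num

end Gen

end Pool.Agent.R995.CE
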