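import Pool.Agent.R995.CE4

/-! Circle and ellipse with a common focus: counting the levels of `W`. -/

namespace Pool.Agent.R995.CE

open Real Set

lemma sol_le {e c w : ℝ} (he0 : 0 < e) (he1 : e < 1) (hc0 : 0 < c) (a b : ℝ)
    (hSn : ∀ x ∈ Ioo a b, sin (x + w) ≠ 0) (k : ℝ) (hk : 0 < k) :
    {x | x ∈ Ioo a b ∧ (W e c w x = k ∨ W e c w x = -k)}.encard ≤
      ({x | x ∈ Ioo a b ∧ F e c w x = 0}.encard
        + {x | x ∈ Ioo a b ∧ T e c w x = 0}.encard) + 1 := by
  have h := encard_pm_le (fun x => W e c w x) _ a b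
    (fun x hx => hW e c w x (K_pos c x hc0) (hSn x hx)) k hk
  have h1 : {x | x ∈ Ioo a b ∧ -F e c w x / (sin (x + w) ^ 2 * (K c x * sqrt (K c x))) = 0} ⊆
      {x | x ∈ Ioo a b ∧ F e c w x = 0} := by
    rintro x ⟨hx, hx0⟩
    have hK := K_pos c x hc0
    have hs := sqrt_pos.2 hK
    have hS := hSn x hx
    refine ⟨hx, ?_⟩
    rw [div_eq_zero_iff] at hx0
    rcases hx0 with h2 | h2
    · linarith
    · exact absurd h2 (by positivity)
  have h2 : {x | x ∈ Ioo a b ∧ W e c w x = 0} ⊆ {x | x ∈ Ioo a b ∧ T e c w x = 0} := by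
    rintro x ⟨hx, hx0⟩
    have hK := K_pos c x hc0
    have hs := sqrt_pos.2 hK
    have hS := hSn x hx
    refine ⟨hx, ?_⟩
    unfold W at hx0
    rw [div_eq_zero_iff] at hx0
    rcases hx0 with h3 | h3
    · rcases mul_eq_zero.1 h3 with h4 | h4
      · exact absurd h4 (U_pos e w x he0 he1).ne'
      · exact h4
    · exact absurd h3 (mul_ne_zero hs.ne' hS)
  refine h.trans ?_
  gcongr

lemma Gen.solU {e c w : ℝ} (h : Gen e c w) (k : ℝ) (hk : 0 < k) :
    {x | x ∈ Ioo (-w) (π - w) ∧ (W e c w x = k ∨ W e c w x = -k)}.encard ≤ 6 := by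
  refine (sol_le h.he0 h.he1 h.hc0 _ _ (fun x hx => (Gen.S_pos hx).ne') k hk).trans ?_
  calc _ ≤ ((3 : ℕ∞) + 2) + 1 := by
        gcongr
        · exact h.zFU
        · exact h.zTU
    _ = 6 := by norm_num

lemma Gen.solL {e c w : ℝ} (h : Gen e c w) (k : ℝ) (hk : 0 < k) :
    {x | x ∈ Ioo (π - w) (2 * π - w) ∧ (W e c w x = k ∨ W e c w x = -k)}.encard ≤ 4 := by
  refine (sol_le h.he0 h.he1 h.hc0 _ _ (fun x hx => (Gen.S_neg hx).ne) k hk).trans ?_
  calc _ ≤ ((1 : ℕ∞) + 2) + 1 := by
        gcongr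
        · exact h.zFL
        · exact h.zTL
    _ = 4 := by norm_num

/-- zeros of `F` in the degenerate cases -/
lemma deg_zF {e c w : ℝ} (he0 : 0 < e) (hc0 : 0 < c) (hc1 : c ≤ 1)
    (hdeg : w = 0 ∨ w = π / 2 ∨ c = 1) (a b : ℝ) (hSn : ∀ x ∈ Ioo a b, sin (x + w) ≠ 0) :
    {x | x ∈ Ioo a b ∧ F e c w x = 0}.encard ≤ 1 := by
  rcases eq_or_lt_of_le hc1 with hc | hc
  · have : {x | x ∈ Ioo a b ∧ F e c w x = 0} = ∅ := by
      ext x
      simp only [Set.mem_ofPred_eq, mem_empty_iff_false, iff_false, not_and]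
      intro hx
      have hS := hSn x hx
      have hK := K_pos c x hc0
      unfold F
      rw [hc]
      rw [hc] at hK
      have : (0:ℝ) ≠ e ^ 2 * sin (x + w) ^ 3 * K 1 x ^ 2 := by
        have := pow_ne_zero 3 hS
        positivity
      intro h0
      apply this
      rw [← h0]
      ring
    rw [this]
    simp
  · have hs : 0 < 1 - c ^ 2 := by nlinarith
    have h1 := encard_zeros_le_one (fun x => F e c w x / sin (x + w) ^ 3) _ a b
      (fun x hx => hF3 e c w x (hSn x hx)) 0 (by
        intro x hx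
        have hS := hSn x hx
        have hK := K_pos c x hc0
        have h2 : cos w * sin w = 0 := by
          rcases hdeg with h | h | h
          · rw [h]; simp
          · rw [h]; simp
          · exact absurd h hc.ne
        have h3 : cos w * sin x ^ 3 - sin w * cos x ^ 3 ≠ 0 := by
          rcases hdeg with h | h | h
          · rw [h] at hS ⊢
            simp at hS ⊢
            exact hS
          · rw [h] at hS ⊢
            rw [sin_add_pi_div_two] at hS
            simp
            exact hS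
          · exact absurd h hc.ne
        rw [h2, zero_mul, sub_zero]
        have h4 : sin (x + w) ^ 4 ≠ 0 := pow_ne_zero 4 hS
        have h5 : sin (x + w) ^ 2 ≠ 0 := pow_ne_zero 2 hS
        positivity)
    refine le_trans (encard_le_encard ?_) h1
    rintro x ⟨hx, hx0⟩
    exact ⟨hx, by simp [hx0]⟩

/-- zeros of `T` in the degenerate cases -/
lemma deg_zT {e c w : ℝ} (he0 : 0 < e) (hc0 : 0 < c) (hc1 : c ≤ 1)
    (hdeg : w = 0 ∨ w = π / 2 ∨ c = 1) (a b : ℝ) (hSn : ∀ x ∈ Ioo a b, sin (x + w) ≠ 0) :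
    {x | x ∈ Ioo a b ∧ T e c w x = 0}.encard ≤ 1 := by
  rcases eq_or_lt_of_le hc1 with hc | hc
  · have : {x | x ∈ Ioo a b ∧ T e c w x = 0} = ∅ := by
      ext x
      simp only [Set.mem_ofPred_eq, mem_empty_iff_false, iff_false, not_and]
      intro hx
      have hS := hSn x hx
      have hK := K_pos c x hc0
      rw [T_eq, hc]
      rw [hc] at hK
      have : (0:ℝ) ≠ e * sin (x + w) * K 1 x := by positivity
      intro h0
      apply this
      rw [← h0]
      ring
    rw [this]
    simp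
  · have hs : 0 < 1 - c ^ 2 := by nlinarith
    rcases hdeg with h | h | h
    · subst h
      have h1 := encard_zeros_le_one (fun x => e * c ^ 2 - (1 - c ^ 2) * cos x)
        (fun x => (1 - c ^ 2) * sin x) a b
        (fun x _ => (((hX x).const_mul (1 - c ^ 2)).const_sub (e * c ^ 2)).congr_deriv (by ring))
        0 (by
          intro x hx
          have hS := hSn x hx
          rw [add_zero] at hS
          positivity)
      refine le_trans (encard_le_encard ?_) h1
      rintro x ⟨hx, hx0⟩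
      refine ⟨hx, ?_⟩
      have hS := hSn x hx
      rw [add_zero] at hS
      unfold T at hx0
      simp only [sin_zero, cos_zero] at hx0
      have : sin x * (e * c ^ 2 - (1 - c ^ 2) * cos x) = 0 := by linear_combination hx0
      rcases mul_eq_zero.1 this with h3 | h3
      · exact absurd h3 hS
      · exact h3
    · subst h
      have h1 := encard_zeros_le_one (fun x => e - (1 - c ^ 2) * sin x)
        (fun x => -((1 - c ^ 2) * cos x)) a b
        (fun x _ => (((hY x).const_mul (1 - c ^ 2)).const_sub e).congr_deriv (by ring))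
        0 (by
          intro x hx
          have hS := hSn x hx
          rw [sin_add_pi_div_two] at hS
          have : (1 - c ^ 2) * cos x ≠ 0 := by positivity
          exact neg_ne_zero.2 this)
      refine le_trans (encard_le_encard ?_) h1
      rintro x ⟨hx, hx0⟩
      refine ⟨hx, ?_⟩
      have hS := hSn x hx
      rw [sin_add_pi_div_two] at hS
      unfold T at hx0
      simp only [sin_pi_div_two, cos_pi_div_two] at hx0
      have : cos x * (e - (1 - c ^ 2) * sin x) = 0 := by linear_combination hx0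
      rcases mul_eq_zero.1 this with h3 | h3
      · exact absurd h3 hS
      · exact h3
    · exact absurd h hc.ne

lemma deg_sol {e c w : ℝ} (he0 : 0 < e) (he1 : e < 1) (hc0 : 0 < c) (hc1 : c ≤ 1)
    (hdeg : w = 0 ∨ w = π / 2 ∨ c = 1) (a b : ℝ) (hSn : ∀ x ∈ Ioo a b, sin (x + w) ≠ 0)
    (k : ℝ) (hk : 0 < k) :
    {x | x ∈ Ioo a b ∧ (W e c w x = k ∨ W e c w x = -k)}.encard ≤ 3 := by
  refine (sol_le he0 he1 hc0 _ _ hSn k hk).trans ?_
  calc _ ≤ ((1 : ℕ∞) + 1) + 1 := by
        gcongr
        · exact deg_zF he0 hc0 hc1 hdeg a b hSn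
        · exact deg_zT he0 hc0 hc1 hdeg a b hSn
    _ = 3 := by norm_num

/-- Every point of the unit circle has an angle in a given half-open interval of length `2π`. -/
lemma exists_angle (X Y a : ℝ) (h : X ^ 2 + Y ^ 2 = 1) :
    ∃ x ∈ Ico a (a + 2 * π), cos x = X ∧ sin x = Y := by
  have hn : ‖(⟨X, Y⟩ : ℂ)‖ = 1 := by
    rw [Complex.norm_def, Complex.normSq_mk]
    rw [show X * X + Y * Y = 1 by nlinarith]
    simp
  have hne : (⟨X, Y⟩ : ℂ) ≠ 0 := by
    intro h0
    rw [h0] at hn
    simp at hn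
  have hc : cos (Complex.arg ⟨X, Y⟩) = X := by
    rw [Complex.cos_arg hne, hn]; simp
  have hs : sin (Complex.arg ⟨X, Y⟩) = Y := by
    rw [Complex.sin_arg, hn]; simp
  refine ⟨toIcoMod two_pi_pos a (Complex.arg ⟨X, Y⟩), toIcoMod_mem_Ico _ _ _, ?_, ?_⟩
  · rw [toIcoMod, zsmul_eq_mul, cos_sub_int_mul_two_pi, hc]
  · rw [toIcoMod, zsmul_eq_mul, sin_sub_int_mul_two_pi, hs]

end Pool.Agent.R995.CE
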