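import Pool.Agent.R995.CE5

/-! Circle and ellipse with a common focus: the stationary set in coordinates, `c > 0`. -/

namespace Pool.Agent.R995.CE

open Real Set

/-- The stationary set in coordinates: `(X, Y)` is the direction of the point of the ellipse,
`(x, y)` the direction of the point of the circle. -/
def TS (e R c p q : ℝ) : Set (ℝ × ℝ × ℝ × ℝ) :=
  {z | z.1 ^ 2 + z.2.1 ^ 2 = 1 ∧ z.2.2.1 ^ 2 + z.2.2.2 ^ 2 = 1 ∧
    c * z.2.1 * z.2.2.1 = z.1 * z.2.2.2 ∧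
    e * (p * z.2.1 + q * z.1) = R * (1 + e * (p * z.1 - q * z.2.1)) *
      (z.2.2.1 * (e * q - z.2.1) + c * z.2.2.2 * (z.1 + e * p))}

/-- the point of the stationary set above the angle `x`. -/
noncomputable def Psi (e c w x : ℝ) : ℝ × ℝ × ℝ × ℝ :=
  (cos x, sin x, (if 0 < W e c w x then 1 else -1) * cos x / sqrt (K c x),
    (if 0 < W e c w x then 1 else -1) * (c * sin x) / sqrt (K c x))

/-- `(x, y)` is plus or minus the normalized `(X, c Y)`. -/
lemma sign_form {c X Y x y : ℝ} (hk : 0 < X ^ 2 + c ^ 2 * Y ^ 2) (h2 : x ^ 2 + y ^ 2 = 1)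
    (h3 : c * Y * x = X * y) :
    ∃ σ : ℝ, (σ = 1 ∨ σ = -1) ∧ x = σ * X / sqrt (X ^ 2 + c ^ 2 * Y ^ 2) ∧
      y = σ * (c * Y) / sqrt (X ^ 2 + c ^ 2 * Y ^ 2) := by
  obtain ⟨κ, hκ⟩ : ∃ κ, κ = sqrt (X ^ 2 + c ^ 2 * Y ^ 2) := ⟨_, rfl⟩
  have hκ0 : 0 < κ := by rw [hκ]; exact sqrt_pos.2 hk
  have hκ2 : κ ^ 2 = X ^ 2 + c ^ 2 * Y ^ 2 := by rw [hκ]; exact sq_sqrt hk.le
  rw [← hκ]
  refine ⟨(X * x + c * Y * y) / κ, ?_, ?_, ?_⟩
  · have : ((X * x + c * Y * y) / κ) ^ 2 = 1 := by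
      rw [div_pow, hκ2, div_eq_one_iff_eq hk.ne']
      linear_combination (X ^ 2 + c ^ 2 * Y ^ 2) * h2 - (c * Y * x - X * y) * h3
    rw [sq] at this
    exact mul_self_eq_one_iff.1 this
  · have : x * κ ^ 2 = (X * x + c * Y * y) * X := by
      rw [hκ2]; linear_combination c * Y * h3
    field_simp
    linarith
  · have : y * κ ^ 2 = (X * x + c * Y * y) * (c * Y) := by
      rw [hκ2]; linear_combination -X * h3
    field_simp
    linarith

lemma TS_W {e R c w x : ℝ} (he0 : 0 < e) (hR : 0 < R) (hc0 : 0 < c)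
    (hS : sin (x + w) ≠ 0) {x' y' : ℝ}
    (hz : (cos x, sin x, x', y') ∈ TS e R c (cos w) (sin w)) :
    (W e c w x = e / R ∨ W e c w x = -(e / R)) ∧ (cos x, sin x, x', y') = Psi e c w x := by
  obtain ⟨h1, h2, h3, h4⟩ := hz
  simp only at h1 h2 h3 h4
  have hK := K_pos c x hc0
  have hs := sqrt_pos.2 hK
  obtain ⟨σ, hσ, hx, hy⟩ := sign_form hK h2 h3
  have hKx : cos x ^ 2 + c ^ 2 * sin x ^ 2 = K c x := rfl
  rw [hKx] at hx hy
  have hSeq : cos w * sin x + sin w * cos x = sin (x + w) := by rw [sin_add]; ring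
  have hCeq : cos w * cos x - sin w * sin x = cos (x + w) := by rw [cos_add]; ring
  rw [hSeq, hCeq] at h4
  have hU : 1 + e * cos (x + w) = U e w x := rfl
  rw [hU, hx, hy] at h4
  have hT : cos x * (e * sin w - sin x) + c ^ 2 * sin x * (cos x + e * cos w) = T e c w x := by
    unfold T; ring
  have h5 : e * sin (x + w) * sqrt (K c x) = R * U e w x * σ * T e c w x := by
    rw [← hT]
    field_simp at h4
    linarith
  have hσ2 : σ * σ = 1 := by rcases hσ with h | h <;> rw [h] <;> ring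
  have hW : W e c w x = σ * (e / R) := by
    unfold W
    rw [div_eq_iff (mul_ne_zero hs.ne' hS)]
    have : σ * (e * sin (x + w) * sqrt (K c x)) = R * U e w x * T e c w x := by
      rw [h5]; linear_combination R * U e w x * T e c w x * hσ2
    field_simp
    linarith
  have hk : 0 < e / R := by positivity
  refine ⟨?_, ?_⟩
  · rcases hσ with h | h
    · left; rw [hW, h]; ring
    · right; rw [hW, h]; ring
  · unfold Psi
    have hif : (if 0 < W e c w x then (1:ℝ) else -1) = σ := by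
      rcases hσ with h | h
      · rw [if_pos (by rw [hW, h]; linarith), h]
      · rw [if_neg (by rw [hW, h]; linarith), h]
    rw [hif, ← hx, ← hy]

lemma TS_cover {e R c w : ℝ} (he0 : 0 < e) (hR : 0 < R) (hc0 : 0 < c) :
    TS e R c (cos w) (sin w) ⊆
      Psi e c w '' {x | x ∈ Ioo (-w) (π - w) ∧ (W e c w x = e / R ∨ W e c w x = -(e / R))} ∪
      Psi e c w '' {x | x ∈ Ioo (π - w) (2 * π - w) ∧
        (W e c w x = e / R ∨ W e c w x = -(e / R))} ∪
      {z | z ∈ TS e R c (cos w) (sin w) ∧ cos w * z.2.1 + sin w * z.1 = 0} := by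
  rintro ⟨X, Y, x', y'⟩ hz
  by_cases h0 : cos w * Y + sin w * X = 0
  · right; exact ⟨hz, h0⟩
  · left
    obtain ⟨x, hx, hcx, hsx⟩ := exists_angle X Y (-w) hz.1
    subst hcx hsx
    have hS : sin (x + w) ≠ 0 := by
      rw [sin_add]
      intro h; apply h0; linarith
    obtain ⟨h1, h2⟩ := TS_W he0 hR hc0 hS hz
    have hx1 : x ≠ -w := by
      intro h; apply hS; rw [h]; simp
    have hx2 : x ≠ π - w := by
      intro h; apply hS; rw [h]; simp
    rcases lt_or_gt_of_ne hx2 with h3 | h3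
    · left
      exact ⟨x, ⟨⟨lt_of_le_of_ne hx.1 (Ne.symm hx1), h3⟩, h1⟩, h2.symm⟩
    · right
      exact ⟨x, ⟨⟨h3, by linarith [hx.2]⟩, h1⟩, h2.symm⟩

lemma TS0_form {e R c p q X Y x y : ℝ} (hc0 : 0 < c) (hpq : p ^ 2 + q ^ 2 = 1)
    (hz : (X, Y, x, y) ∈ TS e R c p q) (h0 : p * Y + q * X = 0) :
    ∃ t σ : ℝ, (t = 1 ∨ t = -1) ∧ (σ = 1 ∨ σ = -1) ∧ X = t * p ∧ Y = -(t * q) ∧
      x = σ * (t * p) / sqrt (p ^ 2 + c ^ 2 * q ^ 2) ∧
      y = σ * (c * -(t * q)) / sqrt (p ^ 2 + c ^ 2 * q ^ 2) := by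
  obtain ⟨h1, h2, h3, h4⟩ := hz
  simp only at h1 h2 h3 h4
  have hXt : X = (p * X - q * Y) * p := by
    linear_combination (-X) * hpq + q * h0
  have hYt : Y = -((p * X - q * Y) * q) := by
    linear_combination (-Y) * hpq + p * h0
  have ht2 : (p * X - q * Y) * (p * X - q * Y) = 1 := by
    linear_combination (p ^ 2 + q ^ 2) * h1 + hpq - (p * Y + q * X) * h0
  have hk : 0 < X ^ 2 + c ^ 2 * Y ^ 2 := by
    by_cases hY0 : Y = 0
    · rw [hY0] at h1 ⊢; nlinarith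
    · positivity
  obtain ⟨σ, hσ, hx, hy⟩ := sign_form hk h2 h3
  have hKK : X ^ 2 + c ^ 2 * Y ^ 2 = p ^ 2 + c ^ 2 * q ^ 2 := by
    have h5 : X ^ 2 + c ^ 2 * Y ^ 2 =
        ((p * X - q * Y) * p) ^ 2 + c ^ 2 * (-((p * X - q * Y) * q)) ^ 2 := by
      rw [← hXt, ← hYt]
    rw [h5]
    linear_combination (p ^ 2 + c ^ 2 * q ^ 2) * ht2
  refine ⟨p * X - q * Y, σ, mul_self_eq_one_iff.1 ht2, hσ, hXt, hYt, ?_, ?_⟩
  · rw [← hKK, ← hXt]; exact hx
  · rw [← hKK, ← hYt]; exact hy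

lemma TS0_card {e R c p q : ℝ} (hc0 : 0 < c) (hpq : p ^ 2 + q ^ 2 = 1) :
    {z | z ∈ TS e R c p q ∧ p * z.2.1 + q * z.1 = 0}.encard ≤ 4 := by
  classical
  let f : ℝ × ℝ → ℝ × ℝ × ℝ × ℝ := fun a => (a.1 * p, -(a.1 * q),
    a.2 * (a.1 * p) / sqrt (p ^ 2 + c ^ 2 * q ^ 2),
    a.2 * (c * -(a.1 * q)) / sqrt (p ^ 2 + c ^ 2 * q ^ 2))
  have hsub : {z | z ∈ TS e R c p q ∧ p * z.2.1 + q * z.1 = 0} ⊆
      f '' (((({1, -1} : Finset ℝ) ×ˢ ({1, -1} : Finset ℝ)) : Finset (ℝ × ℝ)) : Set (ℝ × ℝ)) := by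
    rintro ⟨X, Y, x, y⟩ ⟨hz, h0⟩
    obtain ⟨t, σ, ht, hσ, h1, h2, h3, h4⟩ := TS0_form hc0 hpq hz h0
    refine ⟨(t, σ), ?_, ?_⟩
    · simp only [Finset.coe_product, mem_prod, Finset.mem_coe, Finset.mem_insert,
        Finset.mem_singleton]
      exact ⟨ht, hσ⟩
    · simp only [f, ← h1, ← h2]
      rw [h1, h2]
      rw [h3, h4]
  refine (encard_le_encard hsub).trans ((encard_image_le _ _).trans ?_)
  rw [Set.encard_coe_eq_coe_finsetCard, Finset.card_product]
  have : ({1, -1} : Finset ℝ).card ≤ 2 := Finset.card_le_two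
  have h2 : ({1, -1} : Finset ℝ).card * ({1, -1} : Finset ℝ).card ≤ 2 * 2 :=
    Nat.mul_le_mul this this
  exact_mod_cast h2

/-- The bound for `c > 0` and `0 ≤ w ≤ π / 2`. -/
theorem core_pos {e R c w : ℝ} (he0 : 0 < e) (he1 : e < 1) (hR : 0 < R) (hc0 : 0 < c)
    (hc1 : c ≤ 1) (hw0 : 0 ≤ w) (hw1 : w ≤ π / 2) :
    (TS e R c (cos w) (sin w)).encard ≤ 10 := by
  have hk : 0 < e / R := by positivity
  have hcov := encard_le_encard (TS_cover (w := w) he0 hR hc0)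
  have hpq : cos w ^ 2 + sin w ^ 2 = 1 := cos_sq_add_sin_sq w
  by_cases hdeg : w = 0 ∨ w = π / 2 ∨ c = 1
  · have hU := deg_sol he0 he1 hc0 hc1 hdeg (-w) (π - w)
      (fun x hx => (Gen.S_pos hx).ne') (e / R) hk
    have hL := deg_sol he0 he1 hc0 hc1 hdeg (π - w) (2 * π - w)
      (fun x hx => (Gen.S_neg hx).ne) (e / R) hk
    calc (TS e R c (cos w) (sin w)).encard ≤ _ := hcov
      _ ≤ _ := encard_union_le _ _
      _ ≤ (((3 : ℕ∞) + 3) + 4) := by
          gcongr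
          · refine (encard_union_le _ _).trans ?_
            gcongr
            · exact (encard_image_le _ _).trans hU
            · exact (encard_image_le _ _).trans hL
          · exact TS0_card hc0 hpq
      _ = 10 := by norm_num
  · push Not at hdeg
    obtain ⟨hd1, hd2, hd3⟩ := hdeg
    have hG : Gen e c w := ⟨he0, he1, hc0, lt_of_le_of_ne hc1 hd3,
      lt_of_le_of_ne hw0 (Ne.symm hd1), lt_of_le_of_ne hw1 hd2⟩
    have hempty : {z | z ∈ TS e R c (cos w) (sin w) ∧ cos w * z.2.1 + sin w * z.1 = 0} = ∅ := by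
      ext ⟨X, Y, x, y⟩
      simp only [Set.mem_ofPred_eq, mem_empty_iff_false, iff_false, not_and]
      intro hz h0
      obtain ⟨t, σ, ht, hσ, h1, h2, h3, h4⟩ := TS0_form hc0 hpq hz h0
      have hp := hG.p_pos
      have hq := hG.q_pos
      have hs := hG.s2_pos
      have h5 := hz.2.2.2
      simp only at h5
      obtain ⟨κ, hκ⟩ : ∃ κ, κ = sqrt (cos w ^ 2 + c ^ 2 * sin w ^ 2) := ⟨_, rfl⟩
      have hκ0 : 0 < κ := by rw [hκ]; exact sqrt_pos.2 (by positivity)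
      rw [← hκ] at h3 h4
      have hprod : cos w * Y + sin w * X = 0 := h0
      rw [hprod, mul_zero, h3, h4, h1, h2] at h5
      have ht2 : t * t = 1 := by rcases ht with h | h <;> rw [h] <;> ring
      have h7 : cos w * (t * cos w) - sin w * -(t * sin w) = t := by
        linear_combination t * hpq
      rw [h7] at h5
      have h6 : (0:ℝ) = R * (1 + e * t) * (σ / κ) *
          ((1 - c ^ 2) * (cos w * sin w) * (t * e + t * t)) := by
        rw [h5]; ring
      rw [ht2] at h6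
      have h8 : 0 < t * e + 1 := by
        rcases ht with h | h <;> rw [h] <;> linarith
      have h9 : 0 < 1 + e * t := by linarith
      have h10 : σ ≠ 0 := by rcases hσ with h | h <;> rw [h] <;> norm_num
      have h11 : R * (1 + e * t) * (σ / κ) *
          ((1 - c ^ 2) * (cos w * sin w) * (t * e + 1)) ≠ 0 := by positivity
      exact h11 h6.symm
    rw [hempty] at hcov
    rw [union_empty] at hcov
    calc (TS e R c (cos w) (sin w)).encard ≤ _ := hcov
      _ ≤ _ := encard_union_le _ _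
      _ ≤ (6 : ℕ∞) + 4 := by
          gcongr
          · exact (encard_image_le _ _).trans (hG.solU _ hk)
          · exact (encard_image_le _ _).trans (hG.solL _ hk)
      _ = 10 := by norm_num

end Pool.Agent.R995.CE
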