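import Pool.Agent.R995.CE6

/-! Circle and ellipse with a common focus: the stationary set in coordinates, `c = 0`. -/

namespace Pool.Agent.R995.CE

open Real Set

/-- The function `W` for perpendicular planes. -/
noncomputable def W0 (e w x : ℝ) : ℝ := U e w x * (e * sin w - sin x) / sin (x + w)

lemma hW0 (e w x : ℝ) (hSn : sin (x + w) ≠ 0) :
    HasDerivAt (fun x => W0 e w x)
      ((e * sin (x + w) ^ 2 * sin x - sin w * (1 + 2 * e * cos (x + w) + e ^ 2))
        / sin (x + w) ^ 2) x := by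
  have h := (((hU e w x).fun_mul ((hY x).const_sub (e * sin w)))).fun_div (hS w x) hSn
  refine h.congr_deriv ?_
  have h2 : sin (x + w) ^ 2 + cos (x + w) ^ 2 = 1 := sin_sq_add_cos_sq (x + w)
  have key := alg_W0 e (cos x) (sin x) (sin (x + w)) (cos (x + w)) h2
  rw [← sw x w] at key
  have hUx : 1 + e * cos (x + w) = U e w x := rfl
  rw [hUx] at key
  rw [← key]

lemma zW0'U {e w : ℝ} (he0 : 0 < e) (hw0 : 0 < w) (hw1 : w ≤ π / 2) :
    {x | x ∈ Ioo (-w) (π - w) ∧ (e * sin (x + w) ^ 2 * sin x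
      - sin w * (1 + 2 * e * cos (x + w) + e ^ 2)) / sin (x + w) ^ 2 = 0}.encard ≤ 2 := by
  have h1 := encard_zeros_le (fun x => sin (x + w) ^ 2 * sin x - 2 * sin w * cos (x + w))
    (fun x => 3 * sin (x + w) ^ 2 * cos x) (-w) (π - w) (by
      intro x _
      have h := (((hS w x).fun_pow 2).fun_mul (hY x)).fun_sub ((hC w x).const_mul (2 * sin w))
      refine h.congr_deriv ?_
      have hs := sw x w
      norm_num
      linear_combination (2 * sin (x + w)) * hs) (sin w * (1 + e ^ 2) / e)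
  have h2 : {x | x ∈ Ioo (-w) (π - w) ∧ (e * sin (x + w) ^ 2 * sin x
      - sin w * (1 + 2 * e * cos (x + w) + e ^ 2)) / sin (x + w) ^ 2 = 0} ⊆
      {x | x ∈ Ioo (-w) (π - w) ∧
        sin (x + w) ^ 2 * sin x - 2 * sin w * cos (x + w) = sin w * (1 + e ^ 2) / e} := by
    rintro x ⟨hx, hx0⟩
    refine ⟨hx, ?_⟩
    have hS := (Gen.S_pos hx).ne'
    rw [div_eq_zero_iff] at hx0
    rcases hx0 with h3 | h3
    · field_simp
      linarith
    · exact absurd h3 (pow_ne_zero 2 hS)
  have h3 : {x | x ∈ Ioo (-w) (π - w) ∧ 3 * sin (x + w) ^ 2 * cos x = 0} ⊆ {π / 2} := by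
    rintro x ⟨hx, hx0⟩
    have hS := Gen.S_pos hx
    have hc0 : cos x = 0 := by
      by_contra hne
      have : 3 * sin (x + w) ^ 2 * cos x ≠ 0 := by positivity
      exact this hx0
    rw [mem_singleton_iff]
    rcases lt_trichotomy x (π / 2) with h6 | h6 | h6
    · exact absurd hc0 (cos_pos_of_mem_Ioo ⟨by linarith [hx.1], h6⟩).ne'
    · exact h6
    · exact absurd hc0 (cos_neg_of_pi_div_two_lt_of_lt h6 (by linarith [hx.2, pi_pos])).ne
  calc _ ≤ _ := encard_le_encard h2
    _ ≤ _ := h1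
    _ ≤ ({π / 2} : Set ℝ).encard + 1 := by gcongr
    _ = 2 := by rw [encard_singleton]; norm_num

lemma sin_lt_of_mem {w x : ℝ} (hw1 : w ≤ π / 2) (hx1 : π - w < x) (hx2 : x < π) :
    sin x < sin w := by
  rw [← sin_pi_sub x]
  exact sin_lt_sin_of_lt_of_le_pi_div_two (by linarith [pi_pos]) hw1 (by linarith)

lemma sin_pos_lt_pi {w x : ℝ} (hw0 : 0 < w) (hx : x ∈ Ioo (π - w) (2 * π - w))
    (h : 0 < sin x) : x < π := by
  by_contra hcon
  have h3 : sin (x - 2 * π) = sin x := sin_sub_two_pi _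
  have : sin (x - 2 * π) ≤ 0 :=
    sin_nonpos_of_nonpos_of_neg_pi_le (by linarith [hx.2]) (by linarith [not_lt.1 hcon])
  linarith

lemma zW0'L {e w : ℝ} (he0 : 0 < e) (he1 : e < 1) (hw0 : 0 < w) (hw1 : w ≤ π / 2) :
    {x | x ∈ Ioo (π - w) (2 * π - w) ∧ (e * sin (x + w) ^ 2 * sin x
      - sin w * (1 + 2 * e * cos (x + w) + e ^ 2)) / sin (x + w) ^ 2 = 0}.encard ≤ 0 := by
  have hq : 0 < sin w := sin_pos_of_pos_of_lt_pi hw0 (by linarith [pi_pos])
  have : {x | x ∈ Ioo (π - w) (2 * π - w) ∧ (e * sin (x + w) ^ 2 * sin x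
      - sin w * (1 + 2 * e * cos (x + w) + e ^ 2)) / sin (x + w) ^ 2 = 0} = ∅ := by
    ext x
    simp only [Set.mem_ofPred_eq, mem_empty_iff_false, iff_false, not_and]
    intro hx
    have hS := Gen.S_neg hx
    have hS2 : 0 < sin (x + w) ^ 2 := by nlinarith
    have hn : sin (x + w) ^ 2 ≤ 1 + 2 * e * cos (x + w) + e ^ 2 := by
      have h4 : 1 + 2 * e * cos (x + w) + e ^ 2 = (e + cos (x + w)) ^ 2 + sin (x + w) ^ 2 := by
        have := sin_sq_add_cos_sq (x + w)
        linear_combination -this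
      rw [h4]
      nlinarith [sq_nonneg (e + cos (x + w))]
    have h1 : e * sin (x + w) ^ 2 * sin x < sin w * sin (x + w) ^ 2 := by
      rcases le_or_gt (sin x) 0 with h2 | h2
      · have : e * sin (x + w) ^ 2 * sin x ≤ 0 :=
          mul_nonpos_of_nonneg_of_nonpos (by positivity) h2
        have h3 : 0 < sin w * sin (x + w) ^ 2 := by positivity
        linarith
      · have h3 := sin_lt_of_mem hw1 hx.1 (sin_pos_lt_pi hw0 hx h2)
        have h5 : e * sin x < sin w := by nlinarith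
        nlinarith
    have h2 : sin w * sin (x + w) ^ 2 ≤ sin w * (1 + 2 * e * cos (x + w) + e ^ 2) :=
      mul_le_mul_of_nonneg_left hn hq.le
    have h3 : (e * sin (x + w) ^ 2 * sin x
      - sin w * (1 + 2 * e * cos (x + w) + e ^ 2)) / sin (x + w) ^ 2 < 0 :=
      div_neg_of_neg_of_pos (by linarith) hS2
    exact h3.ne
  rw [this]
  simp

lemma zW0_iff {e w x : ℝ} (he0 : 0 < e) (he1 : e < 1) (hS : sin (x + w) ≠ 0)
    (h : W0 e w x = 0) : e * sin w - sin x = 0 := by
  unfold W0 at h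
  rw [div_eq_zero_iff] at h
  rcases h with h | h
  · rcases mul_eq_zero.1 h with h | h
    · exact absurd h (U_pos e w x he0 he1).ne'
    · exact h
  · exact absurd h hS

lemma zW0U {e w : ℝ} (he0 : 0 < e) (he1 : e < 1) (hw0 : 0 < w) (hw1 : w ≤ π / 2) :
    {x | x ∈ Ioo (-w) (π - w) ∧ W0 e w x = 0}.encard ≤ 1 := by
  have hq : 0 < sin w := sin_pos_of_pos_of_lt_pi hw0 (by linarith [pi_pos])
  have h1 := encard_zeros_le_one (fun x => e * sin w - sin x) (fun x => -cos x) (-w) (π / 2)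
    (fun x _ => (hY x).const_sub (e * sin w)) 0 (by
      intro x hx
      have : 0 < cos x := cos_pos_of_mem_Ioo ⟨by linarith [hx.1], hx.2⟩
      exact neg_ne_zero.2 this.ne')
  refine le_trans (encard_le_encard ?_) h1
  rintro x ⟨hx, hx0⟩
  have h2 := zW0_iff he0 he1 (Gen.S_pos hx).ne' hx0
  refine ⟨⟨hx.1, ?_⟩, h2⟩
  by_contra hcon
  have hcon := not_lt.1 hcon
  have h3 : sin w < sin x := by
    rw [← sin_pi_sub x]
    exact sin_lt_sin_of_lt_of_le_pi_div_two (by linarith [pi_pos]) (by linarith)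
      (by linarith [hx.2])
  nlinarith

lemma zW0L {e w : ℝ} (he0 : 0 < e) (he1 : e < 1) (hw0 : 0 < w) (hw1 : w ≤ π / 2) :
    {x | x ∈ Ioo (π - w) (2 * π - w) ∧ W0 e w x = 0}.encard ≤ 1 := by
  have hq : 0 < sin w := sin_pos_of_pos_of_lt_pi hw0 (by linarith [pi_pos])
  have h1 := encard_zeros_le_one (fun x => e * sin w - sin x) (fun x => -cos x) (π - w) π
    (fun x _ => (hY x).const_sub (e * sin w)) 0 (by
      intro x hx
      have h2 : cos x < 0 ∨ x = π / 2 := by
        rcases eq_or_lt_of_le (show π / 2 ≤ x by linarith [hx.1]) with h | h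
        · right; exact h.symm
        · left; exact cos_neg_of_pi_div_two_lt_of_lt h (by linarith [hx.2, pi_pos])
      rcases h2 with h2 | h2
      · exact neg_ne_zero.2 h2.ne
      · exfalso; linarith [hx.1])
  refine le_trans (encard_le_encard ?_) h1
  rintro x ⟨hx, hx0⟩
  have h2 := zW0_iff he0 he1 (Gen.S_neg hx).ne hx0
  refine ⟨⟨hx.1, ?_⟩, h2⟩
  apply sin_pos_lt_pi hw0 hx
  have : 0 < e * sin w := by positivity
  linarith

/-- the point of the stationary set above the angle `x`, perpendicular planes. -/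
noncomputable def Psi0 (e w x : ℝ) : ℝ × ℝ × ℝ × ℝ :=
  (cos x, sin x, (if 0 < W0 e w x then 1 else -1), 0)

/-- The part `y = 0` for `c = 0`, `w > 0`. -/
lemma partA {e R w : ℝ} (he0 : 0 < e) (he1 : e < 1) (hR : 0 < R) (hw0 : 0 < w)
    (hw1 : w ≤ π / 2) :
    {z | z ∈ TS e R 0 (cos w) (sin w) ∧ z.2.2.2 = 0}.encard ≤ 6 := by
  have hk : 0 < e / R := by positivity
  have hq : 0 < sin w := sin_pos_of_pos_of_lt_pi hw0 (by linarith [pi_pos])
  have hpq : cos w ^ 2 + sin w ^ 2 = 1 := cos_sq_add_sin_sq w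
  have hU := encard_pm_le (fun x => W0 e w x) _ (-w) (π - w)
    (fun x hx => hW0 e w x (Gen.S_pos hx).ne') (e / R) hk
  have hL := encard_pm_le (fun x => W0 e w x) _ (π - w) (2 * π - w)
    (fun x hx => hW0 e w x (Gen.S_neg hx).ne) (e / R) hk
  have hU' : {x | x ∈ Ioo (-w) (π - w) ∧ (W0 e w x = e / R ∨ W0 e w x = -(e / R))}.encard
      ≤ 4 := by
    refine hU.trans ?_
    calc _ ≤ ((2 : ℕ∞) + 1) + 1 := by
          gcongr
          · exact zW0'U he0 hw0 hw1
          · exact zW0U he0 he1 hw0 hw1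
      _ = 4 := by norm_num
  have hL' : {x | x ∈ Ioo (π - w) (2 * π - w) ∧
      (W0 e w x = e / R ∨ W0 e w x = -(e / R))}.encard ≤ 2 := by
    refine hL.trans ?_
    calc _ ≤ ((0 : ℕ∞) + 1) + 1 := by
          gcongr
          · exact zW0'L he0 he1 hw0 hw1
          · exact zW0L he0 he1 hw0 hw1
      _ = 2 := by norm_num
  have hcov : {z | z ∈ TS e R 0 (cos w) (sin w) ∧ z.2.2.2 = 0} ⊆
      Psi0 e w '' {x | x ∈ Ioo (-w) (π - w) ∧ (W0 e w x = e / R ∨ W0 e w x = -(e / R))} ∪
      Psi0 e w '' {x | x ∈ Ioo (π - w) (2 * π - w) ∧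
        (W0 e w x = e / R ∨ W0 e w x = -(e / R))} := by
    rintro ⟨X, Y, x', y'⟩ ⟨⟨h1, h2, h3, h4⟩, h5⟩
    simp only at h1 h2 h3 h4 h5
    subst h5
    have hσ : x' = 1 ∨ x' = -1 := mul_self_eq_one_iff.1 (by linarith)
    have hσ2 : x' * x' = 1 := by linarith
    obtain ⟨x, hx, hcx, hsx⟩ := exists_angle X Y (-w) h1
    subst hcx hsx
    have hSeq : cos w * sin x + sin w * cos x = sin (x + w) := by rw [sin_add]; ring
    have hCeq : cos w * cos x - sin w * sin x = cos (x + w) := by rw [cos_add]; ring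
    have hU : 1 + e * cos (x + w) = U e w x := rfl
    rw [hSeq, hCeq, hU] at h4
    have hUp := U_pos e w x he0 he1
    have hS : sin (x + w) ≠ 0 := by
      intro h0
      have hc2 : cos (x + w) ^ 2 = 1 := by
        have := sin_sq_add_cos_sq (x + w)
        rw [h0] at this; linarith
      have hsx : sin x = -(cos (x + w) * sin w) := by
        have h6 : sin x = sin ((x + w) - w) := by ring_nf
        rw [h6, sin_sub, h0]; ring
      rw [h0, hsx, mul_zero] at h4
      have h7 : e * sin w - -(cos (x + w) * sin w) ≠ 0 := by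
        have : cos (x + w) = 1 ∨ cos (x + w) = -1 := mul_self_eq_one_iff.1 (by linarith)
        rcases this with h | h
        · rw [h]; nlinarith
        · rw [h]
          have : e * sin w - -(-1 * sin w) < 0 := by nlinarith
          exact this.ne
      have h8 : x' ≠ 0 := by rcases hσ with h | h <;> rw [h] <;> norm_num
      have h9 : R * U e w x * (x' * (e * sin w - -(cos (x + w) * sin w)) + 0 * 0 *
        (cos x + e * cos w)) ≠ 0 := by
        rw [zero_mul, zero_mul, add_zero]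
        exact mul_ne_zero (mul_ne_zero hR.ne' hUp.ne') (mul_ne_zero h8 h7)
      exact h9 h4.symm
    have hW : W0 e w x = x' * (e / R) := by
      unfold W0
      rw [div_eq_iff hS]
      have : x' * (e * sin (x + w)) = R * (U e w x * (e * sin w - sin x)) := by
        rw [h4]; linear_combination (R * U e w x * (e * sin w - sin x)) * hσ2
      field_simp
      linarith
    have hres : (W0 e w x = e / R ∨ W0 e w x = -(e / R)) ∧
        Psi0 e w x = (cos x, sin x, x', 0) := by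
      refine ⟨?_, ?_⟩
      · rcases hσ with h | h
        · left; rw [hW, h]; ring
        · right; rw [hW, h]; ring
      · unfold Psi0
        have hif : (if 0 < W0 e w x then (1:ℝ) else -1) = x' := by
          rcases hσ with h | h
          · rw [if_pos (by rw [hW, h]; linarith), h]
          · rw [if_neg (by rw [hW, h]; linarith), h]
        rw [hif]
    have hx1 : x ≠ -w := by
      intro h; apply hS; rw [h]; simp
    have hx2 : x ≠ π - w := by
      intro h; apply hS; rw [h]; simp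
    rcases lt_or_gt_of_ne hx2 with h3 | h3
    · left
      exact ⟨x, ⟨⟨lt_of_le_of_ne hx.1 (Ne.symm hx1), h3⟩, hres.1⟩, hres.2⟩
    · right
      exact ⟨x, ⟨⟨h3, by linarith [hx.2]⟩, hres.1⟩, hres.2⟩
  calc _ ≤ _ := encard_le_encard hcov
    _ ≤ _ := encard_union_le _ _
    _ ≤ (4 : ℕ∞) + 2 := by
        gcongr
        · exact (encard_image_le _ _).trans hU'
        · exact (encard_image_le _ _).trans hL'
    _ = 6 := by norm_num

lemma card_pm : (((({1, -1} : Finset ℝ) : Finset ℝ) : Set ℝ)).encard ≤ 2 := by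
  rw [Set.encard_coe_eq_coe_finsetCard]
  exact_mod_cast Finset.card_le_two

lemma card_pm2 : ((((({1, -1} : Finset ℝ) ×ˢ ({1, -1} : Finset ℝ)) : Finset (ℝ × ℝ)) :
    Set (ℝ × ℝ))).encard ≤ 4 := by
  rw [Set.encard_coe_eq_coe_finsetCard, Finset.card_product]
  have : ({1, -1} : Finset ℝ).card ≤ 2 := Finset.card_le_two
  have h2 : ({1, -1} : Finset ℝ).card * ({1, -1} : Finset ℝ).card ≤ 2 * 2 :=
    Nat.mul_le_mul this this
  exact_mod_cast h2

/-- a real number with prescribed square is plus or minus the root -/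
lemma pm_sqrt {y a : ℝ} (h : y ^ 2 = a) : ∃ τ : ℝ, (τ = 1 ∨ τ = -1) ∧ y = τ * sqrt a := by
  rcases le_total 0 y with h0 | h0
  · exact ⟨1, Or.inl rfl, by rw [← h, sqrt_sq h0]; ring⟩
  · refine ⟨-1, Or.inr rfl, ?_⟩
    rw [← h, show y ^ 2 = (-y) ^ 2 by ring, sqrt_sq (by linarith)]; ring

/-- The part `y = 0` for `c = 0`, `w = 0`. -/
lemma partA0 {e R : ℝ} (he0 : 0 < e) (he1 : e < 1) (hR : 0 < R) :
    {z | z ∈ TS e R 0 1 0 ∧ z.2.2.2 = 0}.encard ≤ 6 := by
  let f : ℝ × ℝ → ℝ × ℝ × ℝ × ℝ := fun a => (a.1, 0, a.2, 0)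
  let g : ℝ → ℝ × ℝ × ℝ × ℝ := fun τ =>
    ((e / R - 1) / e, τ * sqrt (1 - ((e / R - 1) / e) ^ 2), -1, 0)
  have hsub : {z | z ∈ TS e R 0 1 0 ∧ z.2.2.2 = 0} ⊆
      f '' (((({1, -1} : Finset ℝ) ×ˢ ({1, -1} : Finset ℝ)) : Finset (ℝ × ℝ)) : Set (ℝ × ℝ)) ∪
      g '' ((({1, -1} : Finset ℝ) : Finset ℝ) : Set ℝ) := by
    rintro ⟨X, Y, x', y'⟩ ⟨⟨h1, h2, h3, h4⟩, h5⟩
    simp only at h1 h2 h3 h4 h5
    subst h5
    have hσ : x' = 1 ∨ x' = -1 := mul_self_eq_one_iff.1 (by linarith)
    have h6 : Y * (e + R * (1 + e * X) * x') = 0 := by linear_combination h4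
    rcases mul_eq_zero.1 h6 with h7 | h7
    · left
      subst h7
      have hX : X = 1 ∨ X = -1 := mul_self_eq_one_iff.1 (by linarith)
      refine ⟨(X, x'), ?_, rfl⟩
      simp only [Finset.coe_product, mem_prod, Finset.mem_coe, Finset.mem_insert,
        Finset.mem_singleton]
      exact ⟨hX, hσ⟩
    · right
      have hX1 : -1 ≤ X := by nlinarith [sq_nonneg Y]
      have hU : 0 < 1 + e * X := by nlinarith
      rcases hσ with h | h
      · exfalso
        rw [h] at h7
        have : 0 < R * (1 + e * X) := by positivity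
        linarith
      · rw [h] at h7
        have hX : X = (e / R - 1) / e := by
          field_simp
          linarith
        obtain ⟨τ, hτ, hY⟩ := pm_sqrt (show Y ^ 2 = 1 - X ^ 2 by linarith)
        refine ⟨τ, ?_, ?_⟩
        · simp only [Finset.mem_coe, Finset.mem_insert, Finset.mem_singleton]
          exact hτ
        · simp only [g]
          rw [← hX, ← hY, h]
  calc _ ≤ _ := encard_le_encard hsub
    _ ≤ _ := encard_union_le _ _
    _ ≤ (4 : ℕ∞) + 2 := by
        gcongr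
        · exact (encard_image_le _ _).trans card_pm2
        · exact (encard_image_le _ _).trans card_pm
    _ = 6 := by norm_num

/-- The part `X = 0` for `c = 0`. -/
lemma partB {e R p q : ℝ} (he0 : 0 < e) (he1 : e < 1) (hR : 0 < R) (hq1 : |q| ≤ 1) :
    {z | z ∈ TS e R 0 p q ∧ z.1 = 0}.encard ≤ 4 := by
  let f : ℝ × ℝ → ℝ × ℝ × ℝ × ℝ := fun a =>
    (0, a.1, e * p * a.1 / (R * (1 - e * q * a.1) * (e * q - a.1)),
      a.2 * sqrt (1 - (e * p * a.1 / (R * (1 - e * q * a.1) * (e * q - a.1))) ^ 2))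
  have hsub : {z | z ∈ TS e R 0 p q ∧ z.1 = 0} ⊆
      f '' (((({1, -1} : Finset ℝ) ×ˢ ({1, -1} : Finset ℝ)) : Finset (ℝ × ℝ)) : Set (ℝ × ℝ)) := by
    rintro ⟨X, Y, x', y'⟩ ⟨⟨h1, h2, h3, h4⟩, h5⟩
    simp only at h1 h2 h3 h4 h5
    subst h5
    have hY : Y = 1 ∨ Y = -1 := mul_self_eq_one_iff.1 (by linarith)
    have heq : |e * q| < 1 := by
      rw [abs_mul, abs_of_pos he0]
      nlinarith [abs_nonneg q]
    have heq' := abs_lt.1 heq
    have h6 : 0 < 1 - e * q * Y := by
      rcases hY with h | h <;> rw [h] <;> linarith [heq'.1, heq'.2]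
    have h7 : e * q - Y ≠ 0 := by
      rcases hY with h | h
      · rw [h]; exact (by linarith [heq'.2] : e * q - 1 < 0).ne
      · rw [h]; exact (by linarith [heq'.1] : 0 < e * q - -1).ne'
    have hx : x' = e * p * Y / (R * (1 - e * q * Y) * (e * q - Y)) := by
      rw [eq_div_iff (mul_ne_zero (mul_ne_zero hR.ne' h6.ne') h7)]
      linear_combination -h4
    obtain ⟨τ, hτ, hy⟩ := pm_sqrt (show y' ^ 2 = 1 - x' ^ 2 by linarith)
    refine ⟨(Y, τ), ?_, ?_⟩
    · simp only [Finset.coe_product, mem_prod, Finset.mem_coe, Finset.mem_insert,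
        Finset.mem_singleton]
      exact ⟨hY, hτ⟩
    · simp only [f]
      rw [← hx, ← hy]
  exact (encard_le_encard hsub).trans ((encard_image_le _ _).trans card_pm2)

/-- The bound for `c = 0`. -/
theorem core_zero {e R w : ℝ} (he0 : 0 < e) (he1 : e < 1) (hR : 0 < R)
    (hw0 : 0 ≤ w) (hw1 : w ≤ π / 2) :
    (TS e R 0 (cos w) (sin w)).encard ≤ 10 := by
  have hcov : TS e R 0 (cos w) (sin w) ⊆
      {z | z ∈ TS e R 0 (cos w) (sin w) ∧ z.2.2.2 = 0} ∪
      {z | z ∈ TS e R 0 (cos w) (sin w) ∧ z.1 = 0} := by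
    rintro ⟨X, Y, x', y'⟩ hz
    have h3 := hz.2.2.1
    simp only [zero_mul] at h3
    rcases mul_eq_zero.1 h3.symm with h | h
    · right; exact ⟨hz, h⟩
    · left; exact ⟨hz, h⟩
  have hA : {z | z ∈ TS e R 0 (cos w) (sin w) ∧ z.2.2.2 = 0}.encard ≤ 6 := by
    rcases eq_or_lt_of_le hw0 with h | h
    · rw [← h, cos_zero, sin_zero]
      exact partA0 he0 he1 hR
    · exact partA he0 he1 hR h hw1
  calc _ ≤ _ := encard_le_encard hcov
    _ ≤ _ := encard_union_le _ _
    _ ≤ (6 : ℕ∞) + 4 := by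
        gcongr
        exact partB he0 he1 hR (abs_sin_le_one w)
    _ = 10 := by norm_num

end Pool.Agent.R995.CE
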