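import Pool.Agent.R995.CE7

/-! Circle and ellipse with a common focus: symmetries of the coordinate form and geometry. -/

namespace Pool.Agent.R995.CE

open Real Set

lemma TS_negc (e R c p q : ℝ) : (TS e R c p q).encard ≤ (TS e R (-c) p q).encard := by
  apply encard_le_encard_of_injOn (f := fun z => (z.1, z.2.1, z.2.2.1, -z.2.2.2))
  · rintro ⟨X, Y, x, y⟩ ⟨h1, h2, h3, h4⟩
    simp only at h1 h2 h3 h4
    refine ⟨h1, ?_, ?_, ?_⟩
    · simp only; linarith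
    · simp only; linarith
    · simp only; linear_combination h4
  · rintro ⟨X, Y, x, y⟩ _ ⟨X', Y', x', y'⟩ _ h
    simp only [Prod.mk.injEq, neg_inj] at h ⊢
    exact h

lemma TS_negp (e R c p q : ℝ) : (TS e R c p q).encard ≤ (TS e R c (-p) q).encard := by
  apply encard_le_encard_of_injOn (f := fun z => (-z.1, z.2.1, -z.2.2.1, z.2.2.2))
  · rintro ⟨X, Y, x, y⟩ ⟨h1, h2, h3, h4⟩
    simp only at h1 h2 h3 h4
    refine ⟨?_, ?_, ?_, ?_⟩
    · simp only; linarith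
    · simp only; linarith
    · simp only; linarith
    · simp only; linear_combination -h4
  · rintro ⟨X, Y, x, y⟩ _ ⟨X', Y', x', y'⟩ _ h
    simp only [Prod.mk.injEq, neg_inj] at h ⊢
    exact h

lemma TS_negq (e R c p q : ℝ) : (TS e R c p q).encard ≤ (TS e R c p (-q)).encard := by
  apply encard_le_encard_of_injOn (f := fun z => (z.1, -z.2.1, z.2.2.1, -z.2.2.2))
  · rintro ⟨X, Y, x, y⟩ ⟨h1, h2, h3, h4⟩
    simp only at h1 h2 h3 h4
    refine ⟨?_, ?_, ?_, ?_⟩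
    · simp only; linarith
    · simp only; linarith
    · simp only; linarith
    · simp only; linear_combination -h4
  · rintro ⟨X, Y, x, y⟩ _ ⟨X', Y', x', y'⟩ _ h
    simp only [Prod.mk.injEq, neg_inj] at h ⊢
    exact h

/-- The bound for the coordinate form, all parameters. -/
theorem TS_bound {e R c p q : ℝ} (he0 : 0 < e) (he1 : e < 1) (hR : 0 < R) (hc : |c| ≤ 1)
    (hpq : p ^ 2 + q ^ 2 = 1) : (TS e R c p q).encard ≤ 10 := by
  have key : ∀ c p q : ℝ, 0 ≤ c → c ≤ 1 → 0 ≤ p → 0 ≤ q → p ^ 2 + q ^ 2 = 1 →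
      (TS e R c p q).encard ≤ 10 := by
    intro c p q hc0 hc1 hp hq hpq
    have hp1 : p ≤ 1 := by nlinarith
    have h1 : cos (arccos p) = p := cos_arccos (by linarith) hp1
    have h2 : sin (arccos p) = q := by
      rw [sin_arccos, show 1 - p ^ 2 = q ^ 2 by linarith, sqrt_sq hq]
    have h3 : 0 ≤ arccos p := arccos_nonneg p
    have h4 : arccos p ≤ π / 2 := arccos_le_pi_div_two.2 hp
    rw [← h1, ← h2]
    rcases eq_or_lt_of_le hc0 with h | h
    · rw [← h]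
      exact core_zero he0 he1 hR h3 h4
    · exact core_pos he0 he1 hR h hc1 h3 h4
  have key2 : ∀ c p q : ℝ, 0 ≤ c → c ≤ 1 → 0 ≤ p → p ^ 2 + q ^ 2 = 1 →
      (TS e R c p q).encard ≤ 10 := by
    intro c p q hc0 hc1 hp hpq
    rcases le_total 0 q with h | h
    · exact key c p q hc0 hc1 hp h hpq
    · exact (TS_negq e R c p q).trans (key c p (-q) hc0 hc1 hp (by linarith) (by linarith))
  have key3 : ∀ c p q : ℝ, 0 ≤ c → c ≤ 1 → p ^ 2 + q ^ 2 = 1 →
      (TS e R c p q).encard ≤ 10 := by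
    intro c p q hc0 hc1 hpq
    rcases le_total 0 p with h | h
    · exact key2 c p q hc0 hc1 h hpq
    · exact (TS_negp e R c p q).trans (key2 c (-p) q hc0 hc1 (by linarith) (by linarith))
  have hc' := abs_le.1 hc
  rcases le_total 0 c with h | h
  · exact key3 c p q h hc'.2 hpq
  · exact (TS_negc e R c p q).trans (key3 (-c) p q (by linarith) (by linarith [hc'.1]) hpq)

/-- Euclidean 3-space. -/
abbrev E3 := EuclideanSpace ℝ (Fin 3)

/-- Two planes through the origin in 3-space have a common unit vector. -/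
lemma common_dir {u₁ w₁ u₂ w₂ : E3} (hu₁ : ‖u₁‖ = 1) (hw₁ : ‖w₁‖ = 1) (h₁ : inner ℝ u₁ w₁ = 0)
    (hu₂ : ‖u₂‖ = 1) (hw₂ : ‖w₂‖ = 1) (h₂ : inner ℝ u₂ w₂ = 0) :
    ∃ p1 q1 p2 q2 : ℝ, p1 ^ 2 + q1 ^ 2 = 1 ∧ p2 ^ 2 + q2 ^ 2 = 1 ∧
      p1 • u₁ + q1 • w₁ = p2 • u₂ + q2 • w₂ := by
  have hnl : ¬ LinearIndependent ℝ ![u₁, w₁, u₂, w₂] := by
    intro hli
    have := hli.fintype_card_le_finrank
    simp at this
  obtain ⟨g, hg, i, hi⟩ := Fintype.not_linearIndependent_iff.1 hnl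
  rw [Fin.sum_univ_four] at hg
  simp only [Matrix.cons_val_zero, Matrix.cons_val_one, Matrix.cons_val] at hg
  have hn1 : ∀ a b : ℝ, ‖a • u₁ + b • w₁‖ ^ 2 = a ^ 2 + b ^ 2 := by
    intro a b
    rw [norm_add_sq_real, norm_smul, norm_smul, hu₁, hw₁, inner_smul_left, inner_smul_right, h₁]
    simp
  have hn2 : ∀ a b : ℝ, ‖a • u₂ + b • w₂‖ ^ 2 = a ^ 2 + b ^ 2 := by
    intro a b
    rw [norm_add_sq_real, norm_smul, norm_smul, hu₂, hw₂, inner_smul_left, inner_smul_right, h₂]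
    simp
  have heq : g 0 • u₁ + g 1 • w₁ = (-g 2) • u₂ + (-g 3) • w₂ := by
    have : g 0 • u₁ + g 1 • w₁ - ((-g 2) • u₂ + (-g 3) • w₂) = 0 := by
      rw [← hg]; module
    exact sub_eq_zero.1 this
  have hnorm : g 0 ^ 2 + g 1 ^ 2 = g 2 ^ 2 + g 3 ^ 2 := by
    have := hn1 (g 0) (g 1)
    rw [heq, hn2] at this
    linarith
  have hpos : 0 < g 0 ^ 2 + g 1 ^ 2 := by
    by_contra hcon
    have h0 : g 0 ^ 2 + g 1 ^ 2 = 0 := le_antisymm (not_lt.1 hcon) (by positivity)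
    have e0 : g 0 = 0 := by nlinarith [sq_nonneg (g 0), sq_nonneg (g 1)]
    have e1 : g 1 = 0 := by nlinarith [sq_nonneg (g 0), sq_nonneg (g 1)]
    have h1 : g 2 ^ 2 + g 3 ^ 2 = 0 := by linarith
    have e2 : g 2 = 0 := by nlinarith [sq_nonneg (g 2), sq_nonneg (g 3)]
    have e3 : g 3 = 0 := by nlinarith [sq_nonneg (g 2), sq_nonneg (g 3)]
    fin_cases i
    · exact hi e0
    · exact hi e1
    · exact hi e2
    · exact hi e3
  obtain ⟨N, hN⟩ : ∃ N, N = sqrt (g 0 ^ 2 + g 1 ^ 2) := ⟨_, rfl⟩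
  have hN0 : 0 < N := by rw [hN]; exact sqrt_pos.2 hpos
  have hN2 : N ^ 2 = g 0 ^ 2 + g 1 ^ 2 := by rw [hN]; exact sq_sqrt hpos.le
  refine ⟨g 0 / N, g 1 / N, -g 2 / N, -g 3 / N, ?_, ?_, ?_⟩
  · rw [div_pow, div_pow, ← add_div, hN2, div_self hpos.ne']
  · rw [div_pow, div_pow, ← add_div, hN2]
    rw [div_eq_one_iff_eq hpos.ne']
    linarith
  · have h5 : (g 0 / N) • u₁ + (g 1 / N) • w₁ = (1 / N) • (g 0 • u₁ + g 1 • w₁) := by
      rw [smul_add, smul_smul, smul_smul]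
      congr 2 <;> ring
    have h6 : (-g 2 / N) • u₂ + (-g 3 / N) • w₂ = (1 / N) • ((-g 2) • u₂ + (-g 3) • w₂) := by
      rw [smul_add, smul_smul, smul_smul]
      congr 2 <;> ring
    rw [h5, h6, heq]

end Pool.Agent.R995.CE
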