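import Pool.Agent.R995.CE8

/-! Circle and ellipse with a common focus: the geometric statement. -/

namespace Pool.Agent.R995.CE

open Real Set

theorem main_geo {F u₁ w₁ u₂ w₂ : E3} {a e R : ℝ} (ha : 0 < a) (he0 : 0 < e) (he1 : e < 1)
    (hR : 0 < R) (hu₁ : ‖u₁‖ = 1) (hw₁ : ‖w₁‖ = 1) (h₁ : inner ℝ u₁ w₁ = 0)
    (hu₂ : ‖u₂‖ = 1) (hw₂ : ‖w₂‖ = 1) (h₂ : inner ℝ u₂ w₂ = 0) :
    {z : E3 × E3 | ∃ s t : ℝ,
      z = (F + (a * (e + cos s)) • u₁ + (a * sqrt (1 - e ^ 2) * sin s) • w₁,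
        F + (R * cos t) • u₂ + (R * sin t) • w₂) ∧
      inner ℝ ((F + (a * (e + cos s)) • u₁ + (a * sqrt (1 - e ^ 2) * sin s) • w₁)
        - (F + (R * cos t) • u₂ + (R * sin t) • w₂))
        ((-(a * sin s)) • u₁ + (a * sqrt (1 - e ^ 2) * cos s) • w₁) = 0 ∧
      inner ℝ ((F + (a * (e + cos s)) • u₁ + (a * sqrt (1 - e ^ 2) * sin s) • w₁)
        - (F + (R * cos t) • u₂ + (R * sin t) • w₂))
        ((-(R * sin t)) • u₂ + (R * cos t) • w₂) = 0}.encard ≤ 10 := by
  obtain ⟨p1, q1, p2, q2, h1, h2, hn⟩ := common_dir hu₁ hw₁ h₁ hu₂ hw₂ h₂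
  obtain ⟨b, hb⟩ : ∃ b, b = sqrt (1 - e ^ 2) := ⟨_, rfl⟩
  have he2 : 0 < 1 - e ^ 2 := by nlinarith
  have hb0 : 0 < b := by rw [hb]; exact sqrt_pos.2 he2
  have hb2 : b ^ 2 = 1 - e ^ 2 := by rw [hb]; exact sq_sqrt he2.le
  rw [← hb]
  obtain ⟨n, hndef⟩ : ∃ n, n = p1 • u₁ + q1 • w₁ := ⟨_, rfl⟩
  obtain ⟨m, hmdef⟩ : ∃ m, m = (-q1) • u₁ + p1 • w₁ := ⟨_, rfl⟩
  obtain ⟨l, hldef⟩ : ∃ l, l = (-q2) • u₂ + p2 • w₂ := ⟨_, rfl⟩
  have hn2 : n = p2 • u₂ + q2 • w₂ := by rw [hndef, hn]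
  have huu1 : inner ℝ u₁ u₁ = (1:ℝ) := by rw [real_inner_self_eq_norm_sq, hu₁]; norm_num
  have hww1 : inner ℝ w₁ w₁ = (1:ℝ) := by rw [real_inner_self_eq_norm_sq, hw₁]; norm_num
  have huu2 : inner ℝ u₂ u₂ = (1:ℝ) := by rw [real_inner_self_eq_norm_sq, hu₂]; norm_num
  have hww2 : inner ℝ w₂ w₂ = (1:ℝ) := by rw [real_inner_self_eq_norm_sq, hw₂]; norm_num
  have h₁' : inner ℝ w₁ u₁ = (0:ℝ) := by rw [real_inner_comm]; exact h₁
  have h₂' : inner ℝ w₂ u₂ = (0:ℝ) := by rw [real_inner_comm]; exact h₂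
  have hnn : inner ℝ n n = (1:ℝ) := by
    rw [hndef]
    simp only [inner_add_left, inner_add_right, inner_smul_left, inner_smul_right, huu1, hww1,
      h₁, h₁', conj_trivial]
    linear_combination h1
  have hmm : inner ℝ m m = (1:ℝ) := by
    rw [hmdef]
    simp only [inner_add_left, inner_add_right, inner_smul_left, inner_smul_right, huu1, hww1,
      h₁, h₁', conj_trivial]
    linear_combination h1
  have hnm : inner ℝ n m = (0:ℝ) := by
    rw [hmdef, hndef]
    simp only [inner_add_left, inner_add_right, inner_smul_left, inner_smul_right, huu1, hww1,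
      h₁, h₁', conj_trivial]
    ring
  have hll : inner ℝ l l = (1:ℝ) := by
    rw [hldef]
    simp only [inner_add_left, inner_add_right, inner_smul_left, inner_smul_right, huu2, hww2,
      h₂, h₂', conj_trivial]
    linear_combination h2
  have hnl : inner ℝ n l = (0:ℝ) := by
    rw [hldef, hn2]
    simp only [inner_add_left, inner_add_right, inner_smul_left, inner_smul_right, huu2, hww2,
      h₂, h₂', conj_trivial]
    ring
  have hmn : inner ℝ m n = (0:ℝ) := by rw [real_inner_comm]; exact hnm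
  have hln : inner ℝ l n = (0:ℝ) := by rw [real_inner_comm]; exact hnl
  obtain ⟨c, hc⟩ : ∃ c : ℝ, c = inner ℝ m l := ⟨_, rfl⟩
  have hlm : inner ℝ l m = c := by rw [hc, real_inner_comm]
  have hc1 : |c| ≤ 1 := by
    rw [hc]
    have h := abs_real_inner_le_norm m l
    have hm1 : ‖m‖ = 1 := by
      have := real_inner_self_eq_norm_sq m
      rw [hmm] at this
      nlinarith [norm_nonneg m]
    have hl1 : ‖l‖ = 1 := by
      have := real_inner_self_eq_norm_sq l
      rw [hll] at this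
      nlinarith [norm_nonneg l]
    rw [hm1, hl1, one_mul] at h
    exact h
  have hR' : 0 < R / (a * b ^ 2) := by positivity
  have hpq : (-p1) ^ 2 + (-q1) ^ 2 = 1 := by linarith
  have hTS := TS_bound (e := e) (R := R / (a * b ^ 2)) (c := c) he0 he1 hR' hc1 hpq
  let G : ℝ × ℝ × ℝ × ℝ → E3 × E3 := fun z =>
    (F + (a * b ^ 2 / (1 + e * (-p1 * z.1 - -q1 * z.2.1))) • (z.1 • n + z.2.1 • m),
      F + R • (z.2.2.1 • n + z.2.2.2 • l))
  refine le_trans (encard_le_encard ?_) ((encard_image_le G _).trans hTS)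
  rintro z ⟨s, t, hz, hc1', hc2'⟩
  have hD : 0 < 1 + e * cos s := by nlinarith [neg_one_le_cos s]
  obtain ⟨D, hDdef⟩ : ∃ D, D = 1 + e * cos s := ⟨_, rfl⟩
  rw [← hDdef] at hD
  obtain ⟨X, hX⟩ : ∃ X, X = ((e + cos s) * p1 + b * sin s * q1) / D := ⟨_, rfl⟩
  obtain ⟨Y, hY⟩ : ∃ Y, Y = (-(e + cos s) * q1 + b * sin s * p1) / D := ⟨_, rfl⟩
  obtain ⟨x, hx⟩ : ∃ x, x = cos t * p2 + sin t * q2 := ⟨_, rfl⟩
  obtain ⟨y, hy⟩ : ∃ y, y = -cos t * q2 + sin t * p2 := ⟨_, rfl⟩
  obtain ⟨A, hA⟩ : ∃ A, A = a * (-sin s * p1 + b * cos s * q1) := ⟨_, rfl⟩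
  obtain ⟨B, hB⟩ : ∃ B, B = a * (sin s * q1 + b * cos s * p1) := ⟨_, rfl⟩
  have hXD : D * X = (e + cos s) * p1 + b * sin s * q1 := by rw [hX]; field_simp
  have hYD : D * Y = -(e + cos s) * q1 + b * sin s * p1 := by rw [hY]; field_simp
  have hsc : sin s ^ 2 + cos s ^ 2 = 1 := sin_sq_add_cos_sq s
  have hsct : sin t ^ 2 + cos t ^ 2 = 1 := sin_sq_add_cos_sq t
  have hPn : (a * (e + cos s)) • u₁ + (a * b * sin s) • w₁ = (a * D * X) • n + (a * D * Y) • m := by
    have e1 : a * D * X = a * ((e + cos s) * p1 + b * sin s * q1) := by rw [← hXD]; ring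
    have e2 : a * D * Y = a * (-(e + cos s) * q1 + b * sin s * p1) := by rw [← hYD]; ring
    rw [e1, e2, hndef, hmdef]
    have e3 : (a * ((e + cos s) * p1 + b * sin s * q1)) • (p1 • u₁ + q1 • w₁)
        + (a * (-(e + cos s) * q1 + b * sin s * p1)) • ((-q1) • u₁ + p1 • w₁)
        = ((p1 ^ 2 + q1 ^ 2) * (a * (e + cos s))) • u₁
          + ((p1 ^ 2 + q1 ^ 2) * (a * b * sin s)) • w₁ := by module
    rw [e3, h1, one_mul, one_mul]
  have hP'n : (-(a * sin s)) • u₁ + (a * b * cos s) • w₁ = A • n + B • m := by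
    rw [hA, hB, hndef, hmdef]
    have e3 : (a * (-sin s * p1 + b * cos s * q1)) • (p1 • u₁ + q1 • w₁)
        + (a * (sin s * q1 + b * cos s * p1)) • ((-q1) • u₁ + p1 • w₁)
        = ((p1 ^ 2 + q1 ^ 2) * (-(a * sin s))) • u₁
          + ((p1 ^ 2 + q1 ^ 2) * (a * b * cos s)) • w₁ := by module
    rw [e3, h1, one_mul, one_mul]
  have hQn : (R * cos t) • u₂ + (R * sin t) • w₂ = (R * x) • n + (R * y) • l := by
    rw [hx, hy, hn2, hldef]
    have e3 : (R * (cos t * p2 + sin t * q2)) • (p2 • u₂ + q2 • w₂)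
        + (R * (-cos t * q2 + sin t * p2)) • ((-q2) • u₂ + p2 • w₂)
        = ((p2 ^ 2 + q2 ^ 2) * (R * cos t)) • u₂
          + ((p2 ^ 2 + q2 ^ 2) * (R * sin t)) • w₂ := by module
    rw [e3, h2, one_mul, one_mul]
  have hQ'n : (-(R * sin t)) • u₂ + (R * cos t) • w₂ = (-(R * y)) • n + (R * x) • l := by
    rw [hx, hy, hn2, hldef]
    have e3 : (-(R * (-cos t * q2 + sin t * p2))) • (p2 • u₂ + q2 • w₂)
        + (R * (cos t * p2 + sin t * q2)) • ((-q2) • u₂ + p2 • w₂)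
        = ((p2 ^ 2 + q2 ^ 2) * (-(R * sin t))) • u₂
          + ((p2 ^ 2 + q2 ^ 2) * (R * cos t)) • w₂ := by module
    rw [e3, h2, one_mul, one_mul]
  have hdiff : (F + (a * (e + cos s)) • u₁ + (a * b * sin s) • w₁)
        - (F + (R * cos t) • u₂ + (R * sin t) • w₂)
      = ((a * D * X) • n + (a * D * Y) • m) - ((R * x) • n + (R * y) • l) := by
    rw [← hPn, ← hQn]; abel
  rw [hdiff, hP'n] at hc1'
  rw [hdiff, hQ'n] at hc2'
  simp only [inner_sub_left, inner_add_left, inner_add_right, inner_smul_left, inner_smul_right,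
    hnn, hmm, hnm, hmn, hnl, hln, hlm, hll, ← hc, conj_trivial] at hc1' hc2'
  have hXY : X ^ 2 + Y ^ 2 = 1 := by
    have h5 : D ^ 2 * (X ^ 2 + Y ^ 2) = D ^ 2 := by
      have : D ^ 2 * (X ^ 2 + Y ^ 2) = (D * X) ^ 2 + (D * Y) ^ 2 := by ring
      rw [this, hXD, hYD, hDdef]
      linear_combination ((e + cos s) ^ 2 + b ^ 2 * sin s ^ 2) * h1 + sin s ^ 2 * hb2
        + (1 - e ^ 2) * hsc
    have h6 : D ^ 2 ≠ 0 := by positivity
    exact mul_left_cancel₀ h6 (by rw [h5, mul_one])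
  have hxy : x ^ 2 + y ^ 2 = 1 := by
    rw [hx, hy]
    linear_combination (sin t ^ 2 + cos t ^ 2) * h2 + hsct
  -- the denominators
  have hC : -p1 * X - -q1 * Y = -(e + cos s) / D := by
    field_simp
    linear_combination (-p1) * hXD + q1 * hYD - (e + cos s) * h1
  have hu : 1 + e * (-p1 * X - -q1 * Y) = b ^ 2 / D := by
    rw [hC]
    field_simp
    rw [hDdef]
    linear_combination -hb2
  have hS : -p1 * Y + -q1 * X = -(b * sin s) / D := by
    field_simp
    linear_combination (-p1) * hYD + (-q1) * hXD - (b * sin s) * h1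
  refine ⟨(X, Y, x, y), ⟨hXY, hxy, ?_, ?_⟩, ?_⟩
  · simp only
    have h7 : (a * D * R) * (c * Y * x) = (a * D * R) * (X * y) := by
      linear_combination hc2'
    exact mul_left_cancel₀ (by positivity) h7
  · simp only
    rw [hu, hS]
    have h8 : a * D * X * A + a * D * Y * B = -(a ^ 2 * e * sin s * D) := by
      have : a * D * X * A + a * D * Y * B = a * ((D * X) * A + (D * Y) * B) := by ring
      rw [this, hXD, hYD, hA, hB, hDdef]
      linear_combination (a ^ 2 * (-(e + cos s) * sin s + b ^ 2 * sin s * cos s)) * h1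
        + a ^ 2 * sin s * cos s * hb2
    have h10 : A * b = a * D * (e * -q1 - Y) := by
      have : a * D * (e * -q1 - Y) = a * (-(e * q1 * D) - D * Y) := by ring
      rw [this, hYD, hA, hDdef]
      linear_combination (a * cos s * q1) * hb2
    have h11 : B * b = a * D * (X + e * -p1) := by
      have : a * D * (X + e * -p1) = a * (D * X - e * p1 * D) := by ring
      rw [this, hXD, hB, hDdef]
      linear_combination (a * cos s * p1) * hb2
    have h12 : -(a ^ 2 * e * sin s * D) = R * (x * A + c * y * B) := by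
      linear_combination hc1' - h8
    have h13 : -(a * e * b * sin s) = R * (x * (e * -q1 - Y) + c * y * (X + e * -p1)) := by
      have h14 : (a * D) * (-(a * e * b * sin s)) =
          (a * D) * (R * (x * (e * -q1 - Y) + c * y * (X + e * -p1))) := by
        linear_combination b * h12 + R * x * h10 + R * c * y * h11
      exact mul_left_cancel₀ (by positivity) h14
    have h15 : R / (a * b ^ 2) * (b ^ 2 / D) * (x * (e * -q1 - Y) + c * y * (X + e * -p1))
        = (R * (x * (e * -q1 - Y) + c * y * (X + e * -p1))) / (a * D) := by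
      field_simp
    rw [h15, ← h13]
    field_simp
  · rw [hz]
    simp only [G]
    rw [hu]
    have h9 : a * b ^ 2 / (b ^ 2 / D) = a * D := by field_simp
    rw [h9]
    refine Prod.ext ?_ ?_
    · simp only
      rw [add_assoc, hPn, smul_add, smul_smul, smul_smul]
    · simp only
      rw [add_assoc, hQn, smul_add, smul_smul, smul_smul]

end Pool.Agent.R995.CE
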