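import Mathlib

set_option autoImplicit false
set_option linter.unusedSimpArgs false

/-! # Feynman checkers: path sums and the two real components -/

namespace Pool.Agent.R995.FC

open Finset

/-- the two integer components of the path sum, defined by the Dirac recursion -/
def pq : ℕ → (ℤ → ℤ) × (ℤ → ℤ)
  | 0 => (fun y => if y = 1 then 1 else 0, fun _ => 0)
  | n + 1 => (fun y => (pq n).1 (y - 1) - (pq n).2 (y - 1),
      fun y => (pq n).2 (y + 1) + (pq n).1 (y + 1))

/-- component of paths ending with a step to the right -/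
def p (n : ℕ) (y : ℤ) : ℤ := (pq n).1 y

/-- component of paths ending with a step to the left -/
def q (n : ℕ) (y : ℤ) : ℤ := (pq n).2 y

theorem p_zero (y : ℤ) : p 0 y = if y = 1 then 1 else 0 := rfl
theorem q_zero (y : ℤ) : q 0 y = 0 := rfl
theorem p_succ (n : ℕ) (y : ℤ) : p (n + 1) y = p n (y - 1) - q n (y - 1) := rfl
theorem q_succ (n : ℕ) (y : ℤ) : q (n + 1) y = q n (y + 1) + p n (y + 1) := rfl

/-- number of turns -/
def turns (n : ℕ) (s : Fin (n + 1) → Bool) : ℕ :=
  (Finset.univ.filter (fun i : Fin n => s i.castSucc ≠ s i.succ)).card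

/-- end point -/
def endp (n : ℕ) (s : Fin (n + 1) → Bool) : ℤ := ∑ i, (if s i then (1 : ℤ) else -1)

theorem turns_snoc (n : ℕ) (s : Fin (n + 1) → Bool) (c : Bool) :
    turns (n + 1) (Fin.snoc (α := fun _ => Bool) s c) =
      turns n s + if s (Fin.last n) ≠ c then 1 else 0 := by
  unfold turns
  rw [Finset.card_filter, Finset.card_filter, Fin.sum_univ_castSucc]
  congr 1
  · refine Finset.sum_congr rfl fun i _ => ?_
    have h1 : (Fin.snoc (α := fun _ => Bool) s c : Fin (n + 2) → Bool) (i.castSucc.castSucc) =
        s i.castSucc := Fin.snoc_castSucc (α := fun _ => Bool) _ _ _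
    have h2 : (Fin.snoc (α := fun _ => Bool) s c : Fin (n + 2) → Bool) (i.castSucc.succ) =
        s i.succ := by
      rw [Fin.succ_castSucc]
      exact Fin.snoc_castSucc (α := fun _ => Bool) _ _ _
    rw [h1, h2]
  · have h1 : (Fin.snoc (α := fun _ => Bool) s c : Fin (n + 2) → Bool)
        ((Fin.last n).castSucc) = s (Fin.last n) := Fin.snoc_castSucc (α := fun _ => Bool) _ _ _
    have h2 : (Fin.snoc (α := fun _ => Bool) s c : Fin (n + 2) → Bool)
        ((Fin.last n).succ) = c := by
      rw [Fin.succ_last]
      exact Fin.snoc_last (α := fun _ => Bool) _ _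
    rw [h1, h2]

theorem endp_snoc (n : ℕ) (s : Fin (n + 1) → Bool) (c : Bool) :
    endp (n + 1) (Fin.snoc (α := fun _ => Bool) s c) =
      endp n s + if c then 1 else -1 := by
  unfold endp
  rw [Fin.sum_univ_castSucc]
  congr 1
  · refine Finset.sum_congr rfl fun i _ => ?_
    rw [Fin.snoc_castSucc (α := fun _ => Bool)]
  · rw [Fin.snoc_last (α := fun _ => Bool)]

theorem snoc_zero (n : ℕ) (s : Fin (n + 1) → Bool) (c : Bool) :
    (Fin.snoc (α := fun _ => Bool) s c : Fin (n + 2) → Bool) 0 = s 0 := by
  have : (0 : Fin (n + 2)) = (0 : Fin (n + 1)).castSucc := rfl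
  rw [this]
  exact Fin.snoc_castSucc (α := fun _ => Bool) _ _ _

/-- path sum over the paths with prescribed last step -/
noncomputable def S (n : ℕ) (b : Bool) (y : ℤ) : ℂ :=
  ∑ s : Fin (n + 1) → Bool, if s 0 = true ∧ endp n s = y ∧ s (Fin.last n) = b then
    (-Complex.I) ^ (turns n s) else 0

theorem sum_snoc (n : ℕ) (f : (Fin (n + 2) → Bool) → ℂ) :
    ∑ s : Fin (n + 2) → Bool, f s =
      ∑ s : Fin (n + 1) → Bool, ∑ c : Bool, f (Fin.snoc (α := fun _ => Bool) s c) := by
  rw [← (Fin.snocEquiv (fun _ : Fin (n + 2) => Bool)).sum_comp, Fintype.sum_prod_type,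
    Finset.sum_comm]
  rfl

theorem S_succ (n : ℕ) (b : Bool) (y : ℤ) :
    S (n + 1) b y = S n b (y - if b then 1 else -1) +
      (-Complex.I) * S n (!b) (y - if b then 1 else -1) := by
  unfold S
  rw [sum_snoc, Finset.mul_sum, ← Finset.sum_add_distrib]
  refine Finset.sum_congr rfl fun s _ => ?_
  simp only [turns_snoc, endp_snoc, snoc_zero, Fin.snoc_last (α := fun _ => Bool),
    Fintype.sum_bool]
  by_cases h0 : s 0 = true
  · cases b <;> cases h : s (Fin.last n)
    · by_cases h1 : endp n s = y - -1
      · have h2 : endp n s + -1 = y := by omega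
        simp [h0, h1, h2]
      · have h2 : ¬ (endp n s + -1 = y) := by omega
        have h3 : ¬ (endp n s = y + 1) := by omega
        simp [h0, h2, h3]
    · by_cases h1 : endp n s = y - -1
      · have h2 : endp n s + -1 = y := by omega
        simp [h0, h1, h2, pow_succ, mul_comm]
      · have h2 : ¬ (endp n s + -1 = y) := by omega
        have h3 : ¬ (endp n s = y + 1) := by omega
        simp [h0, h2, h3]
    · by_cases h1 : endp n s = y - 1
      · have h2 : endp n s + 1 = y := by omega
        simp [h0, h1, h2, pow_succ, mul_comm]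
      · have h2 : ¬ (endp n s + 1 = y) := by omega
        simp [h0, h1, h2]
    · by_cases h1 : endp n s = y - 1
      · have h2 : endp n s + 1 = y := by omega
        simp [h0, h1, h2]
      · have h2 : ¬ (endp n s + 1 = y) := by omega
        simp [h0, h1, h2]
  · simp [h0]

theorem S_eq (n : ℕ) : ∀ y : ℤ, S n true y = (p n y : ℂ) ∧ S n false y = -Complex.I * (q n y : ℂ) := by
  induction n with
  | zero =>
    intro y
    have key : ∀ b : Bool, S 0 b y = ∑ c : Bool, if c = true ∧ (if c then (1 : ℤ) else -1) = y ∧
        c = b then (1 : ℂ) else 0 := by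
      intro b
      unfold S
      rw [← (Equiv.funUnique (Fin 1) Bool).symm.sum_comp]
      refine Finset.sum_congr rfl fun c _ => ?_
      have h1 : turns 0 ((Equiv.funUnique (Fin 1) Bool).symm c) = 0 := by
        unfold turns; simp
      have h2 : endp 0 ((Equiv.funUnique (Fin 1) Bool).symm c) = if c then 1 else -1 := by
        unfold endp; simp
      rw [h1, h2]
      simp [Equiv.funUnique]
    rw [key, key, p_zero, q_zero]
    by_cases hy : y = 1
    · subst hy; simp
    · have : ¬ ((1 : ℤ) = y) := fun h => hy h.symm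
      simp [hy, this]
  | succ n ih =>
    intro y
    constructor
    · rw [S_succ, p_succ]
      simp only [if_true, Bool.not_true]
      rw [(ih _).1, (ih _).2]
      push_cast
      have := Complex.I_mul_I
      linear_combination (q n (y - 1) : ℂ) * this
    · rw [S_succ, q_succ]
      simp only [Bool.false_eq_true, if_false, Bool.not_false, sub_neg_eq_add]
      rw [(ih _).1, (ih _).2]
      push_cast
      ring

/-- the path sum of the frozen statement -/
theorem norm_sq_eq (n : ℕ) (y : ℤ) :
    ‖∑ s ∈ Finset.univ.filter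
              (fun s : Fin (n+1) → Bool =>
                s 0 = true ∧ ∑ i, (if s i then (1:ℤ) else -1) = y),
            (-Complex.I) ^ ((Finset.univ.filter
              (fun i : Fin n => s i.castSucc ≠ s i.succ)).card)‖ ^ 2 =
      (p n y : ℝ) ^ 2 + (q n y : ℝ) ^ 2 := by
  have h : (∑ s ∈ Finset.univ.filter
              (fun s : Fin (n+1) → Bool =>
                s 0 = true ∧ ∑ i, (if s i then (1:ℤ) else -1) = y),
            (-Complex.I) ^ ((Finset.univ.filter
              (fun i : Fin n => s i.castSucc ≠ s i.succ)).card)) = S n true y + S n false y := by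
    unfold S
    rw [Finset.sum_filter, ← Finset.sum_add_distrib]
    refine Finset.sum_congr rfl fun s _ => ?_
    change (if s 0 = true ∧ endp n s = y then (-Complex.I) ^ turns n s else 0) = _
    by_cases h0 : s 0 = true <;> by_cases h1 : endp n s = y <;> cases h : s (Fin.last n) <;>
      simp [h0, h1]
  rw [h, (S_eq n y).1, (S_eq n y).2, ← Complex.normSq_eq_norm_sq, Complex.normSq_apply]
  simp
  ring

end Pool.Agent.R995.FC
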