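import Pool.Agent.R995.FC1

set_option autoImplicit false

/-! # Feynman checkers: relations in the space direction -/

namespace Pool.Agent.R995.FC

open Finset

theorem rel (n : ℕ) : ∀ x : ℤ,
    ((n : ℤ) + x - 1) * (q n (x - 2) - q n x) = 2 * (x - 1) * p n x ∧
    ((n : ℤ) + 1 - x) * p n x - ((n : ℤ) - 1 - x) * p n (x + 2) = -2 * x * q n x := by
  induction n with
  | zero =>
    intro x
    simp only [q_zero, p_zero]
    refine ⟨?_, ?_⟩
    · by_cases h : x = 1
      · subst h; simp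
      · simp [h]
    · by_cases h : x = 1
      · subst h; simp
      · by_cases h' : x = -1
        · subst h'; simp
        · have h2 : ¬ (x + 2 = 1) := by omega
          simp [h, h2]
  | succ n ih =>
    intro x
    have h1 := (ih (x + 1)).1
    have h2 := (ih (x - 1)).2
    have e1 : x + 1 - 2 = x - 1 := by ring
    have e2 : x - 1 + 2 = x + 1 := by ring
    have e3 : x - 2 + 1 = x - 1 := by ring
    have e4 : x + 2 - 1 = x + 1 := by ring
    rw [e1] at h1
    rw [e2] at h2
    simp only [p_succ, q_succ, e3, e4]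
    push_cast
    constructor
    · linear_combination h1 + h2
    · linear_combination h2 - h1

theorem zero_of_lt (n : ℕ) : ∀ y : ℤ, (n : ℤ) + 1 < y → p n y = 0 ∧ q n y = 0 := by
  induction n with
  | zero =>
    intro y hy
    have : ¬ (y = 1) := by simp at hy; omega
    simp [p_zero, q_zero, this]
  | succ n ih =>
    intro y hy
    push_cast at hy
    have h1 := ih (y - 1) (by omega)
    have h2 := ih (y + 1) (by omega)
    rw [p_succ, q_succ]
    simp [h1, h2]

theorem zero_of_gt (n : ℕ) : ∀ y : ℤ, y < -(n : ℤ) - 1 → p n y = 0 ∧ q n y = 0 := by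
  induction n with
  | zero =>
    intro y hy
    have : ¬ (y = 1) := by simp at hy; omega
    simp [p_zero, q_zero, this]
  | succ n ih =>
    intro y hy
    push_cast at hy
    have h1 := ih (y - 1) (by omega)
    have h2 := ih (y + 1) (by omega)
    rw [p_succ, q_succ]
    simp [h1, h2]

theorem parity (n : ℕ) : ∀ y : ℤ, ¬ (2 ∣ ((n : ℤ) + 1 - y)) → p n y = 0 ∧ q n y = 0 := by
  induction n with
  | zero =>
    intro y hy
    have : ¬ (y = 1) := by
      rintro rfl
      simp at hy
    simp [p_zero, q_zero, this]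
  | succ n ih =>
    intro y hy
    push_cast at hy
    have h1 := ih (y - 1) (by omega)
    have h2 := ih (y + 1) (by omega)
    rw [p_succ, q_succ]
    simp [h1, h2]

theorem edge (n : ℕ) : p n (n + 1) = 1 ∧ q n (n + 1) = 0 := by
  induction n with
  | zero => simp [p_zero, q_zero]
  | succ n ih =>
    rw [p_succ, q_succ]
    have e : ((n + 1 : ℕ) : ℤ) + 1 - 1 = (n : ℤ) + 1 := by push_cast; ring
    rw [e, ih.1, ih.2]
    have h := zero_of_lt n ((n : ℤ) + 1 + 1 + 1) (by omega)
    have e2 : ((n + 1 : ℕ) : ℤ) + 1 + 1 = (n : ℤ) + 1 + 1 + 1 := by push_cast; ring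
    rw [e2, h.1, h.2]
    simp

theorem edge' (N : ℕ) : q (N + 1) N = 1 ∧ p (N + 1) N = -N := by
  induction N with
  | zero => simp [p_succ, q_succ, p_zero, q_zero]
  | succ n ih =>
    rw [p_succ, q_succ]
    have e : ((n + 1 : ℕ) : ℤ) - 1 = (n : ℤ) := by push_cast; ring
    rw [e, ih.1, ih.2]
    have h := edge (n + 1)
    rw [h.1, h.2]
    refine ⟨by norm_num, ?_⟩
    push_cast
    ring

/-- positive versions of the components near the right edge -/
noncomputable def F (N m : ℕ) : ℝ := (-1) ^ m * (q (N + 1) ((N : ℤ) - 2 * m) : ℝ)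
/-- positive versions of the components near the right edge -/
noncomputable def G (N m : ℕ) : ℝ := (-1) ^ (m + 1) * (p (N + 1) ((N : ℤ) - 2 * m) : ℝ)

theorem F_zero (N : ℕ) : F N 0 = 1 := by
  unfold F; simp [(edge' N).1]

theorem G_zero (N : ℕ) : G N 0 = N := by
  unfold G; simp [(edge' N).2]

theorem relF (N m : ℕ) :
    ((N : ℝ) - m) * (F N (m + 1) + F N m) = ((N : ℝ) - 2 * m - 1) * G N m := by
  have h := (rel (N + 1) ((N : ℤ) - 2 * m)).1
  have e : (N : ℤ) - 2 * m - 2 = (N : ℤ) - 2 * ((m + 1 : ℕ) : ℤ) := by push_cast; ring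
  rw [e] at h
  have h' := congrArg (fun z : ℤ => (z : ℝ)) h
  simp only [Int.cast_mul, Int.cast_sub, Int.cast_add, Int.cast_natCast, Int.cast_one,
    Int.cast_ofNat] at h'
  unfold F G
  rw [pow_succ]
  push_cast at h' ⊢
  linear_combination (-1 / 2 * (-1) ^ m) * h'

theorem relG (N m : ℕ) :
    ((m : ℝ) + 2) * G N (m + 1) + ((m : ℝ) + 1) * G N m = ((N : ℝ) - 2 * m - 2) * F N (m + 1) := by
  have h := (rel (N + 1) ((N : ℤ) - 2 * ((m + 1 : ℕ) : ℤ))).2
  have e : (N : ℤ) - 2 * ((m + 1 : ℕ) : ℤ) + 2 = (N : ℤ) - 2 * m := by push_cast; ring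
  rw [e] at h
  have h' := congrArg (fun z : ℤ => (z : ℝ)) h
  simp only [Int.cast_mul, Int.cast_sub, Int.cast_add, Int.cast_natCast, Int.cast_one,
    Int.cast_ofNat, Int.cast_neg] at h'
  unfold F G
  rw [pow_succ, pow_succ]
  push_cast at h' ⊢
  linear_combination (1 / 2 * (-1) ^ m) * h'

theorem sq_eq (N m : ℕ) :
    (p (N + 1) ((N : ℤ) - 2 * m) : ℝ) ^ 2 + (q (N + 1) ((N : ℤ) - 2 * m) : ℝ) ^ 2 =
      F N m ^ 2 + G N m ^ 2 := by
  unfold F G
  rw [mul_pow, mul_pow, ← pow_mul, ← pow_mul, mul_comm m 2, mul_comm (m + 1) 2, pow_mul, pow_mul]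
  norm_num
  ring

end Pool.Agent.R995.FC
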