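import Mathlib

set_option autoImplicit false

/-! # Feynman checkers: the Riccati estimate -/

namespace Pool.Agent.R995.FC

/-- one step of the recursion keeps a lower bound for the ratio -/
theorem step {N m F G F' G' l l' : ℝ} (hn : 0 < N - m) (hm : 0 ≤ m)
    (h1 : (N - m) * (F' + F) = (N - 2 * m - 1) * G)
    (h2 : (m + 2) * G' + (m + 1) * G = (N - 2 * m - 2) * F')
    (hx : 0 ≤ N - 2 * m - 1)
    (hF : 0 < F) (hG : l * F ≤ G) (hl : 0 < l)
    (c1 : N - m < (N - 2 * m - 1) * l)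
    (c3 : (m + 1) * l * (N - m) ≤
      (N - 2 * m - 2 - (m + 2) * l') * ((N - 2 * m - 1) * l - (N - m))) :
    0 < F' ∧ l' * F' ≤ G' := by
  obtain ⟨D, hD⟩ : ∃ D, D = N - 2 * m - 2 - (m + 2) * l' := ⟨_, rfl⟩
  rw [← hD] at c3
  have hnF : (N - m) * F' = (N - 2 * m - 1) * G - (N - m) * F := by linear_combination h1
  have hA : 0 < (N - 2 * m - 1) * l - (N - m) := by linarith
  have hG2 : (N - 2 * m - 1) * (l * F) ≤ (N - 2 * m - 1) * G :=
    mul_le_mul_of_nonneg_left hG hx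
  have hF' : 0 < F' := by
    have : 0 < (N - m) * F' := by
      rw [hnF]
      have : 0 < ((N - 2 * m - 1) * l - (N - m)) * F := mul_pos hA hF
      nlinarith
    exact (mul_pos_iff_of_pos_left hn).1 this
  refine ⟨hF', ?_⟩
  have hRHS : 0 < (m + 1) * l * (N - m) := by positivity
  have hDpos : 0 < D := by
    by_contra hcon
    push Not at hcon
    have : D * ((N - 2 * m - 1) * l - (N - m)) ≤ 0 := mul_nonpos_of_nonpos_of_nonneg hcon hA.le
    linarith
  have hK : D * (N - m) ≤ (D * (N - 2 * m - 1) - (m + 1) * (N - m)) * l := by nlinarith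
  have hKpos : 0 < D * (N - 2 * m - 1) - (m + 1) * (N - m) := by
    have h3 : 0 < D * (N - m) := mul_pos hDpos hn
    by_contra hcon
    push Not at hcon
    have : (D * (N - 2 * m - 1) - (m + 1) * (N - m)) * l ≤ 0 :=
      mul_nonpos_of_nonpos_of_nonneg hcon hl.le
    linarith
  have key : (m + 2) * (N - m) * (G' - l' * F') =
      (D * (N - 2 * m - 1) - (m + 1) * (N - m)) * G - D * (N - m) * F := by
    rw [hD]
    linear_combination (N - m) * h2 + (N - 2 * m - 2 - (m + 2) * l') * hnF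
  have h5 : 0 ≤ (m + 2) * (N - m) * (G' - l' * F') := by
    rw [key]
    have h6 := mul_le_mul_of_nonneg_left hG hKpos.le
    have h7 := mul_le_mul_of_nonneg_right hK hF.le
    nlinarith
  have h8 : 0 < (m + 2) * (N - m) := by positivity
  have h9 : 0 ≤ G' - l' * F' := nonneg_of_mul_nonneg_right h5 h8
  linarith

/-- the quadratic expression whose sign decides whether `l` is kept -/
theorem E_eq {N m s d : ℝ} (hs : s ^ 2 = 2) :
    2 * ((N - 2 * m - 2 - (m + 2) * (1 + s + d)) *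
        ((N - 2 * m - 1) * (1 + s + d) - (N - m)) - (m + 1) * (1 + s + d) * (N - m)) =
    (N - 2 * m) * ((4 + 4 * s) * (N - 2 * m - N * s / 2) +
        2 * d * (2 + s) * (N - 2 * m - N * s / 2) - d ^ 2 * (2 * m))
      - ((1 + s + d) ^ 2 + (1 + s + d)) * (5 * (N - 2 * m) - N - 4) + 2 * (N + (N - 2 * m)) := by
  have h3 : s ^ 3 = 2 * s := by rw [pow_succ, hs]
  ring_nf
  simp only [hs, h3]
  ring


/-- lower bound of the sign expression, for `x = N - 2 m ≥ N s / 2 - C` -/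
theorem E_lower {N m s d C : ℝ} (hs : s ^ 2 = 2) (hs1 : 1.414 < s) (hs2 : s < 1.415)
    (hN : 0 ≤ N) (hm : 0 ≤ m) (hd0 : 0 ≤ d) (hd : d ≤ 1 / 2) (hdN : d ^ 2 * N ≤ 1)
    (hx : 0 ≤ N - 2 * m) (hC : 0 ≤ C) (hy : N * s / 2 - C ≤ N - 2 * m) :
    -((N - 2 * m) * (6.6 * C + 30.5)) ≤
      ((N - 2 * m - 2 - (m + 2) * (1 + s + d)) *
        ((N - 2 * m - 1) * (1 + s + d) - (N - m)) - (m + 1) * (1 + s + d) * (N - m)) := by
  have h := E_eq (N := N) (m := m) (d := d) hs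
  obtain ⟨x, hxdef⟩ : ∃ x, x = N - 2 * m := ⟨_, rfl⟩
  obtain ⟨y, hydef⟩ : ∃ y, y = N - 2 * m - N * s / 2 := ⟨_, rfl⟩
  rw [← hxdef] at hx h ⊢
  have hyx : x - N * s / 2 = y := by rw [hydef, hxdef]
  rw [hyx] at h
  have hy' : -C ≤ y := by rw [hydef]; linarith
  have h1 : -((9.66 + 3.45) * C) ≤ (4 + 4 * s) * y + 2 * d * (2 + s) * y := by
    have h2 : (4 + 4 * s) * y + 2 * d * (2 + s) * y = (4 + 4 * s + 2 * d * (2 + s)) * y := by ring
    rw [h2]
    have h3 : 4 + 4 * s + 2 * d * (2 + s) ≤ 9.66 + 3.45 := by nlinarith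
    have h4 : 0 ≤ 4 + 4 * s + 2 * d * (2 + s) := by positivity
    nlinarith
  have h5 : d ^ 2 * (2 * m) ≤ 1 := by
    have : d ^ 2 * (2 * m) ≤ d ^ 2 * N := by
      apply mul_le_mul_of_nonneg_left _ (sq_nonneg d)
      linarith
    linarith
  have h6 : (1 + s + d) ^ 2 + (1 + s + d) ≤ 12 := by nlinarith
  have h6' : 0 ≤ (1 + s + d) ^ 2 + (1 + s + d) := by positivity
  have h7 : ((1 + s + d) ^ 2 + (1 + s + d)) * (5 * x - N - 4) ≤ 60 * x := by
    have h8 : ((1 + s + d) ^ 2 + (1 + s + d)) * (5 * x - N - 4) ≤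
        ((1 + s + d) ^ 2 + (1 + s + d)) * (5 * x) :=
      mul_le_mul_of_nonneg_left (by linarith) h6'
    have h9 : ((1 + s + d) ^ 2 + (1 + s + d)) * (5 * x) ≤ 12 * (5 * x) :=
      mul_le_mul_of_nonneg_right h6 (by linarith)
    linarith
  have h10 : x * (-((9.66 + 3.45) * C) - 1) ≤
      x * ((4 + 4 * s) * y + 2 * d * (2 + s) * y - d ^ 2 * (2 * m)) :=
    mul_le_mul_of_nonneg_left (by linarith) hx
  have hCx : 0 ≤ C * x := mul_nonneg hC hx
  nlinarith

/-- the ratio is kept as long as `x ≥ N / √2 + 7` -/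
theorem E_pos {N m s d : ℝ} (hs : s ^ 2 = 2) (hs1 : 1.414 < s) (hs2 : s < 1.415)
    (hN : 0 ≤ N) (hm : 0 ≤ m) (hd0 : 0 ≤ d) (hd : d ≤ 1 / 2) (hdN : d ^ 2 * N ≤ 1)
    (hy : N * s / 2 + 7 ≤ N - 2 * m) :
    0 ≤ ((N - 2 * m - 2 - (m + 2) * (1 + s + d)) *
        ((N - 2 * m - 1) * (1 + s + d) - (N - m)) - (m + 1) * (1 + s + d) * (N - m)) := by
  have h := E_eq (N := N) (m := m) (d := d) hs
  obtain ⟨x, hxdef⟩ : ∃ x, x = N - 2 * m := ⟨_, rfl⟩
  obtain ⟨y, hydef⟩ : ∃ y, y = N - 2 * m - N * s / 2 := ⟨_, rfl⟩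
  have hx : 0 ≤ N - 2 * m := by nlinarith
  rw [← hxdef] at hx h ⊢
  have hyx : x - N * s / 2 = y := by rw [hydef, hxdef]
  rw [hyx] at h
  have hy' : 7 ≤ y := by rw [hydef]; linarith
  have h1 : 67 ≤ (4 + 4 * s) * y + 2 * d * (2 + s) * y := by
    have h2 : (4 + 4 * s) * y + 2 * d * (2 + s) * y = (4 + 4 * s + 2 * d * (2 + s)) * y := by ring
    rw [h2]
    have h3 : 9.6 ≤ 4 + 4 * s + 2 * d * (2 + s) := by
      have : 0 ≤ 2 * d * (2 + s) := by positivity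
      linarith
    nlinarith
  have h5 : d ^ 2 * (2 * m) ≤ 1 := by
    have : d ^ 2 * (2 * m) ≤ d ^ 2 * N := by
      apply mul_le_mul_of_nonneg_left _ (sq_nonneg d)
      linarith
    linarith
  have h6 : (1 + s + d) ^ 2 + (1 + s + d) ≤ 12 := by nlinarith
  have h6' : 0 ≤ (1 + s + d) ^ 2 + (1 + s + d) := by positivity
  have h7 : ((1 + s + d) ^ 2 + (1 + s + d)) * (5 * x - N - 4) ≤ 60 * x := by
    have h8 : ((1 + s + d) ^ 2 + (1 + s + d)) * (5 * x - N - 4) ≤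
        ((1 + s + d) ^ 2 + (1 + s + d)) * (5 * x) :=
      mul_le_mul_of_nonneg_left (by linarith) h6'
    have h9 : ((1 + s + d) ^ 2 + (1 + s + d)) * (5 * x) ≤ 12 * (5 * x) :=
      mul_le_mul_of_nonneg_right h6 (by linarith)
    linarith
  have h10 : x * (67 - 1) ≤
      x * ((4 + 4 * s) * y + 2 * d * (2 + s) * y - d ^ 2 * (2 * m)) :=
    mul_le_mul_of_nonneg_left (by linarith) hx
  nlinarith

end Pool.Agent.R995.FC
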