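import Pool.Agent.R995.FC3

set_option autoImplicit false

/-! # Feynman checkers: the amplitude still grows beyond the turning point -/

namespace Pool.Agent.R995.FC

/-- step conditions near the turning point -/
theorem cond2 {N m s d C : ℝ} (hs : s ^ 2 = 2) (hs1 : 1.414 < s) (hs2 : s < 1.415)
    (hm : 0 ≤ m) (hd0 : 0 ≤ d) (hd : d ≤ 1 / 2) (hdN : d ^ 2 * N ≤ 1)
    (hC : 0 ≤ C) (hNC : 40 * C + 250 ≤ N) (hy : N * s / 2 - C ≤ N - 2 * m)
    (hy2 : N - 2 * m ≤ N * s / 2 + 7) :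
    N - m < (N - 2 * m - 1) * (1 + s + d) ∧
    (m + 1) * (1 + s + d) * (N - m) ≤
      (N - 2 * m - 2 - (m + 2) * ((1 + s + d) - (64 * C + 280) / N)) *
        ((N - 2 * m - 1) * (1 + s + d) - (N - m)) := by
  have hN : 0 < N := by linarith
  have hx : 0 ≤ N - 2 * m := by nlinarith
  have hA : 0.8 * N ≤ (N - 2 * m - 1) * (1 + s + d) - (N - m) := by
    have h1 : (N - 2 * m - 1) * 2.414 ≤ (N - 2 * m - 1) * (1 + s + d) := by
      apply mul_le_mul_of_nonneg_left _ (by nlinarith)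
      linarith
    have h2 : N - m = (N + (N - 2 * m)) / 2 := by ring
    nlinarith
  have hm2 : 0.14 * N ≤ m + 2 := by nlinarith
  refine ⟨by nlinarith, ?_⟩
  have hE := E_lower hs hs1 hs2 hN.le hm hd0 hd hdN hx hC hy
  have hsplit : (N - 2 * m - 2 - (m + 2) * ((1 + s + d) - (64 * C + 280) / N)) *
        ((N - 2 * m - 1) * (1 + s + d) - (N - m)) =
      (N - 2 * m - 2 - (m + 2) * (1 + s + d)) *
        ((N - 2 * m - 1) * (1 + s + d) - (N - m)) +
      (m + 2) * ((64 * C + 280) / N) * ((N - 2 * m - 1) * (1 + s + d) - (N - m)) := by ring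
  rw [hsplit]
  have h3 : 0.14 * N * ((64 * C + 280) / N) * (0.8 * N) ≤
      (m + 2) * ((64 * C + 280) / N) * ((N - 2 * m - 1) * (1 + s + d) - (N - m)) := by
    apply mul_le_mul _ hA (by positivity) (by positivity)
    exact mul_le_mul_of_nonneg_right hm2 (by positivity)
  have h4 : 0.14 * N * ((64 * C + 280) / N) * (0.8 * N) = 0.112 * (64 * C + 280) * N := by
    field_simp
    ring
  have h5 : (N - 2 * m) * (6.6 * C + 30.5) ≤ N * (6.6 * C + 30.5) := by
    apply mul_le_mul_of_nonneg_right _ (by positivity)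
    linarith
  nlinarith [mul_nonneg hC hN.le]

theorem c4_aux {N k s d y C : ℝ} (hs : s ^ 2 = 2) (hs1 : 1.414 < s) (hs2 : s < 1.415)
    (hd : d ≤ 1 / 2) (hd0 : 0 ≤ d) (hC : 1 ≤ C) (hk : 64 * C + 300 ≤ k)
    (hdN : k / 2 ≤ d * N) (hy1 : -C ≤ y) :
    N + (N * s / 2 + y) < (N * s / 2 + y - 1) * (1 + s + d) := by
  have h3 : (N * s / 2 + y - 1) * (1 + s + d) - (N + (N * s / 2 + y)) =
      y * (s + d) + d * N * s / 2 - (1 + s + d) := by
    linear_combination (N / 2) * hs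
  have h4 : -(C * 1.915) ≤ y * (s + d) := by
    have h6 : -C * (s + d) ≤ y * (s + d) := mul_le_mul_of_nonneg_right hy1 (by linarith)
    have h7 : C * (s + d) ≤ C * 1.915 := mul_le_mul_of_nonneg_left (by linarith) (by linarith)
    linarith
  have h5 : (k / 2) * 1.414 ≤ d * N * s := by
    have h6 : (k / 2) * 1.414 ≤ (k / 2) * s := mul_le_mul_of_nonneg_left hs1.le (by linarith)
    have h7 : (k / 2) * s ≤ d * N * s := mul_le_mul_of_nonneg_right hdN (by linarith)
    linarith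
  linarith

theorem c5_aux {N k s d y C : ℝ} (hs : s ^ 2 = 2) (hs1 : 1.414 < s) (hs2 : s < 1.415)
    (hN : 0 < N) (hd : d ≤ 1 / 2) (hd0 : 0 ≤ d) (hC : 1 ≤ C) (hk : 64 * C + 300 ≤ k)
    (hdN : k / 2 ≤ d * N) (hCN : C * 300 ≤ N) (hy1 : -C ≤ y) (hy2 : y ≤ C) :
    0 < (3 * (N * s / 2 + y) ^ 2 - N ^ 2 - 9 * (N * s / 2 + y) - 3 * N + 4) * (1 + s + d)
      - ((N * s / 2 + y) ^ 2 + N * (N * s / 2 + y)) + 2 * N + 2 * (N * s / 2 + y) := by
  have key : (3 * (N * s / 2 + y) ^ 2 - N ^ 2 - 9 * (N * s / 2 + y) - 3 * N + 4) * (1 + s + d)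
      - ((N * s / 2 + y) ^ 2 + N * (N * s / 2 + y)) + 2 * N + 2 * (N * s / 2 + y) =
      (d * N) * N / 2 + (1 + s + d) * (3 * s * (N * y) + 3 * y ^ 2 - 9 * (N * s / 2 + y)
        - 3 * N + 4) - s * (N * y) - y ^ 2 - N * y + 2 * N + N * s + 2 * y := by
    linear_combination (3 * N ^ 2 / 4 * (1 + s + d) - N ^ 2 / 4) * hs
  rw [key]
  have hNy : -(C * N) ≤ N * y := by nlinarith
  have hNy2 : N * y ≤ C * N := by nlinarith
  have hCN0 : 0 ≤ C * N := by positivity
  have h1 : k * N / 4 ≤ (d * N) * N / 2 := by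
    have := mul_le_mul_of_nonneg_right hdN hN.le
    linarith
  have hl0 : 0 ≤ 1 + s + d := by linarith
  have hl : 1 + s + d ≤ 3 := by linarith
  have hsN : N * s ≤ 1.415 * N := by nlinarith
  have hyN : y ≤ N := by linarith
  have h2 : -(4.245 * (C * N) + 9.37 * N + 3 * N) ≤
      3 * s * (N * y) + 3 * y ^ 2 - 9 * (N * s / 2 + y) - 3 * N + 4 := by
    have h3 : -(4.245 * (C * N)) ≤ 3 * s * (N * y) := by
      have h4 : 3 * s * (-(C * N)) ≤ 3 * s * (N * y) :=
        mul_le_mul_of_nonneg_left hNy (by linarith)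
      have h5 : 3 * s * (C * N) ≤ 3 * 1.415 * (C * N) :=
        mul_le_mul_of_nonneg_right (by linarith) hCN0
      linarith
    have h6 : y ≤ N / 300 := by linarith
    nlinarith [sq_nonneg y]
  have h3 : -(3 * (4.245 * (C * N) + 9.37 * N + 3 * N)) ≤
      (1 + s + d) * (3 * s * (N * y) + 3 * y ^ 2 - 9 * (N * s / 2 + y) - 3 * N + 4) := by
    have h4 := mul_le_mul_of_nonneg_left h2 hl0
    have h5 : 0 ≤ 4.245 * (C * N) + 9.37 * N + 3 * N := by positivity
    have h6 := mul_le_mul_of_nonneg_right hl h5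
    linarith
  have h4 : s * (N * y) ≤ 1.415 * (C * N) := by
    have h5 : s * (N * y) ≤ s * (C * N) := mul_le_mul_of_nonneg_left hNy2 (by linarith)
    have h6 : s * (C * N) ≤ 1.415 * (C * N) := mul_le_mul_of_nonneg_right hs2.le hCN0
    linarith
  have h5 : y ^ 2 ≤ C * N := by
    have : y ^ 2 ≤ C ^ 2 := by
      apply sq_le_sq'
      · exact hy1
      · exact hy2
    nlinarith
  have h6 : (64 * C + 300) * N / 4 ≤ k * N / 4 := by
    have := mul_le_mul_of_nonneg_right hk hN.le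
    linarith
  have h7 : 0 ≤ N * s := by positivity
  nlinarith

/-- growth near the turning point -/
theorem grow {N k m s d C F G F' G' : ℝ} (hs : s ^ 2 = 2) (hs1 : 1.414 < s) (hs2 : s < 1.415)
    (hm : 0 ≤ m) (hk : 64 * C + 300 ≤ k) (hNk : N = k ^ 2)
    (hd0 : 1 / (2 * k) ≤ d) (hd : d ≤ 1 / 2) (hC : 1 ≤ C)
    (hy : N * s / 2 - C ≤ N - 2 * m) (hy2 : N - 2 * m ≤ N * s / 2 + C)
    (h1 : (N - m) * (F' + F) = (N - 2 * m - 1) * G)
    (h2 : (m + 2) * G' + (m + 1) * G = (N - 2 * m - 2) * F')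
    (hF : 0 < F) (hG : (1 + s + d) * F ≤ G) : F < F' ∧ G < G' := by
  have hk0 : 0 < k := by linarith
  have hN : 0 < N := by rw [hNk]; positivity
  have hkN : 300 * k ≤ N := by rw [hNk]; nlinarith
  have hCN : C * 300 ≤ N := by nlinarith
  obtain ⟨y, hydef⟩ : ∃ y, y = N - 2 * m - N * s / 2 := ⟨_, rfl⟩
  have hx' : N - 2 * m = N * s / 2 + y := by rw [hydef]; ring
  have hn' : N - m = (N + (N - 2 * m)) / 2 := by ring
  have hm' : m = (N - (N - 2 * m)) / 2 := by ring
  have hy1 : -C ≤ y := by rw [hydef]; linarith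
  have hy3 : y ≤ C := by rw [hydef]; linarith
  have hdpos : 0 < d := lt_of_lt_of_le (by positivity) hd0
  have hdN : k / 2 ≤ d * N := by
    have : 1 / (2 * k) * N ≤ d * N := mul_le_mul_of_nonneg_right hd0 hN.le
    have h3 : 1 / (2 * k) * N = k / 2 := by rw [hNk]; field_simp
    linarith
  have hNs : 1.414 * N ≤ N * s := by nlinarith
  have hNs2 : N * s ≤ 1.415 * N := by nlinarith
  have hx1 : 0 < N - 2 * m - 2 := by linarith
  have hn : 0 < N - m := by linarith
  have hl : 0 < 1 + s + d := by linarith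
  have c4 := c4_aux hs hs1 hs2 hd hdpos.le hC hk hdN hy1
  have c5 := c5_aux hs hs1 hs2 hN hd hdpos.le hC hk hdN hCN hy1 hy3
  rw [← hx'] at c4 c5
  constructor
  · -- F < F'
    have h3 : (N - 2 * m - 1) * ((1 + s + d) * F) ≤ (N - 2 * m - 1) * G :=
      mul_le_mul_of_nonneg_left hG (by linarith)
    have h4 : (N + (N - 2 * m)) * F < (N - 2 * m - 1) * (1 + s + d) * F :=
      mul_lt_mul_of_pos_right c4 hF
    have h5 : 0 < (N - m) * (F' - F) := by nlinarith
    have h6 := (mul_pos_iff_of_pos_left hn).1 h5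
    linarith
  · obtain ⟨K, hK⟩ : ∃ K, K = (N - 2 * m - 2) * (N - 2 * m - 1) - (2 * m + 3) * (N - m) :=
      ⟨_, rfl⟩
    have hKl : (N - 2 * m - 2) * (N - m) < K * (1 + s + d) := by
      rw [hK]
      have : 2 * (((N - 2 * m - 2) * (N - 2 * m - 1) - (2 * m + 3) * (N - m)) * (1 + s + d)
          - (N - 2 * m - 2) * (N - m)) = (3 * (N - 2 * m) ^ 2 - N ^ 2 - 9 * (N - 2 * m) - 3 * N + 4)
            * (1 + s + d) - ((N - 2 * m) ^ 2 + N * (N - 2 * m)) + 2 * N + 2 * (N - 2 * m) := by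
        ring
      linarith
    have hx1n : 0 < (N - 2 * m - 2) * (N - m) := mul_pos hx1 hn
    have hKpos : 0 < K := by
      by_contra hcon
      push Not at hcon
      have : K * (1 + s + d) ≤ 0 := mul_nonpos_of_nonpos_of_nonneg hcon hl.le
      linarith
    have key : (m + 2) * (N - m) * (G' - G) = K * G - (N - 2 * m - 2) * (N - m) * F := by
      rw [hK]
      linear_combination (N - m) * h2 + (N - 2 * m - 2) * h1
    have h3 : K * ((1 + s + d) * F) ≤ K * G := mul_le_mul_of_nonneg_left hG hKpos.le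
    have h4 : (N - 2 * m - 2) * (N - m) * F < K * (1 + s + d) * F :=
      mul_lt_mul_of_pos_right hKl hF
    have h5 : 0 < (m + 2) * (N - m) * (G' - G) := by rw [key]; nlinarith
    have h6 : 0 < (m + 2) * (N - m) := by positivity
    have h7 := (mul_pos_iff_of_pos_left h6).1 h5
    linarith

end Pool.Agent.R995.FC
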