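import Pool.Agent.R995.FC2
import Pool.Agent.R995.FC4

set_option autoImplicit false

/-! # Feynman checkers: the most probable position is far from t / √2 -/

namespace Pool.Agent.R995.FC

/-- the lower bound for the ratio at step `m` -/
noncomputable def dd (k C : ℝ) (x : ℝ) : ℝ :=
  1 / k - (32 * C + 140) * max 0 (k ^ 2 * √2 / 2 + 7 - x) / k ^ 2

theorem dd_le {k C x : ℝ} (hC : 0 ≤ C) : dd k C x ≤ 1 / k := by
  unfold dd
  have : 0 ≤ (32 * C + 140) * max 0 (k ^ 2 * √2 / 2 + 7 - x) / k ^ 2 := by positivity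
  linarith

theorem dd_ge {k C x : ℝ} (hC : 0 ≤ C) (hk : 0 < k) (hk2 : 2 * ((32 * C + 140) * (C + 7)) ≤ k)
    (hx : k ^ 2 * √2 / 2 - C ≤ x) : 1 / (2 * k) ≤ dd k C x := by
  unfold dd
  have h1 : max 0 (k ^ 2 * √2 / 2 + 7 - x) ≤ C + 7 := max_le (by linarith) (by linarith)
  have h2 : (32 * C + 140) * max 0 (k ^ 2 * √2 / 2 + 7 - x) / k ^ 2 ≤ 1 / (2 * k) := by
    rw [div_le_div_iff₀ (by positivity) (by positivity)]
    have h3 : (32 * C + 140) * max 0 (k ^ 2 * √2 / 2 + 7 - x) ≤ (32 * C + 140) * (C + 7) :=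
      mul_le_mul_of_nonneg_left h1 (by positivity)
    have h4 : (32 * C + 140) * max 0 (k ^ 2 * √2 / 2 + 7 - x) * (2 * k) ≤ k * k := by
      have : (32 * C + 140) * max 0 (k ^ 2 * √2 / 2 + 7 - x) * (2 * k) ≤
          (32 * C + 140) * (C + 7) * (2 * k) := mul_le_mul_of_nonneg_right h3 (by positivity)
      nlinarith
    linarith
  have h5 : 1 / k = 1 / (2 * k) + 1 / (2 * k) := by field_simp; norm_num
  linarith

theorem ratio {C : ℝ} (hC : 1 ≤ C) {k : ℝ} (hk : 2 * ((32 * C + 140) * (C + 7)) ≤ k)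
    (F G : ℕ → ℝ) (hF0 : F 0 = 1) (hG0 : G 0 = k ^ 2)
    (h1 : ∀ m : ℕ, (k ^ 2 - m) * (F (m + 1) + F m) = (k ^ 2 - 2 * m - 1) * G m)
    (h2 : ∀ m : ℕ, ((m : ℝ) + 2) * G (m + 1) + ((m : ℝ) + 1) * G m =
      (k ^ 2 - 2 * m - 2) * F (m + 1)) (m : ℕ) :
    k ^ 2 * √2 / 2 - C ≤ k ^ 2 - 2 * m →
      0 < F m ∧ (1 + √2 + dd k C (k ^ 2 - 2 * m)) * F m ≤ G m := by
  have hs : √2 ^ 2 = 2 := Real.sq_sqrt (by norm_num)
  have hs1 : 1.414 < √2 := by
    rw [show (1.414 : ℝ) = √(1.414 ^ 2) by rw [Real.sqrt_sq (by norm_num)]]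
    exact Real.sqrt_lt_sqrt (by norm_num) (by norm_num)
  have hs2 : √2 < 1.415 := by
    rw [show (1.415 : ℝ) = √(1.415 ^ 2) by rw [Real.sqrt_sq (by norm_num)]]
    exact Real.sqrt_lt_sqrt (by norm_num) (by norm_num)
  have hC0 : 0 ≤ C := by linarith
  have hk0 : 2000 + 100 * C ≤ k := by nlinarith
  have hkpos : 0 < k := by linarith
  have hkN : k ≤ k ^ 2 := by nlinarith
  have h1k : 1 / k ≤ 1 / 2 := by
    apply one_div_le_one_div_of_le (by norm_num); linarith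
  have hN : 0 < k ^ 2 := by positivity
  have hNC : 40 * C + 250 ≤ k ^ 2 := by linarith
  induction m with
  | zero =>
    intro _
    rw [hF0, hG0, mul_one]
    exact ⟨one_pos, (add_le_add le_rfl ((dd_le hC0).trans h1k)).trans (by linarith)⟩
  | succ m ih =>
    intro hx
    push_cast at hx ⊢
    have hx' : k ^ 2 * √2 / 2 - C ≤ k ^ 2 - 2 * (m : ℝ) := by linarith
    obtain ⟨hFm, hGm⟩ := ih hx'
    have hm0 : (0 : ℝ) ≤ m := Nat.cast_nonneg m
    have hd1 := dd_le (k := k) (x := k ^ 2 - 2 * (m : ℝ)) hC0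
    have hd0 := dd_ge hC0 hkpos hk hx'
    have hd00 : 0 ≤ dd k C (k ^ 2 - 2 * (m : ℝ)) := le_trans (by positivity) hd0
    have hdN : (dd k C (k ^ 2 - 2 * (m : ℝ))) ^ 2 * k ^ 2 ≤ 1 := by
      have h3 : (dd k C (k ^ 2 - 2 * (m : ℝ))) ^ 2 ≤ (1 / k) ^ 2 := by
        apply pow_le_pow_left₀ hd00 hd1
      have h4 : (1 / k) ^ 2 * k ^ 2 = 1 := by field_simp
      have h5 := mul_le_mul_of_nonneg_right h3 hN.le
      linarith
    have hNs : 1.414 * k ^ 2 ≤ k ^ 2 * √2 := by nlinarith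
    have hNs2 : k ^ 2 * √2 ≤ 1.415 * k ^ 2 := by nlinarith
    have hn : 0 < k ^ 2 - (m : ℝ) := by linarith
    have hx1 : 0 ≤ k ^ 2 - 2 * (m : ℝ) - 1 := by linarith
    by_cases hcase : k ^ 2 * √2 / 2 + 7 ≤ k ^ 2 - 2 * (m : ℝ)
    · -- the ratio is kept
      have hdm : dd k C (k ^ 2 - 2 * (m : ℝ)) = 1 / k := by
        unfold dd
        rw [max_eq_left (by linarith)]
        simp
      rw [hdm] at hGm hd00 hdN
      have hE := E_pos (m := m) hs hs1 hs2 hN.le hm0 hd00 h1k hdN hcase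
      have c1 : k ^ 2 - (m : ℝ) < (k ^ 2 - 2 * m - 1) * (1 + √2 + 1 / k) := by
        have h3 : (k ^ 2 - 2 * (m : ℝ) - 1) * 2.414 ≤
            (k ^ 2 - 2 * (m : ℝ) - 1) * (1 + √2 + 1 / k) := by
          apply mul_le_mul_of_nonneg_left _ hx1
          linarith
        linarith
      have := step (l' := 1 + √2 + 1 / k) hn hm0 (h1 m) (h2 m) hx1 hFm hGm (by linarith) c1
        (by linarith)
      refine ⟨this.1, le_trans ?_ this.2⟩
      apply mul_le_mul_of_nonneg_right _ this.1.le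
      have := dd_le (k := k) (x := k ^ 2 - 2 * ((m : ℝ) + 1)) hC0
      linarith
    · push Not at hcase
      obtain ⟨c1, c3⟩ := cond2 (m := m) hs hs1 hs2 hm0 hd00 (hd1.trans h1k) hdN hC0 hNC hx'
        hcase.le
      have := step hn hm0 (h1 m) (h2 m) hx1 hFm hGm (by linarith) c1 c3
      refine ⟨this.1, le_trans ?_ this.2⟩
      apply mul_le_mul_of_nonneg_right _ this.1.le
      have h3 : dd k C (k ^ 2 - 2 * ((m : ℝ) + 1)) =
          dd k C (k ^ 2 - 2 * (m : ℝ)) - (64 * C + 280) / k ^ 2 := by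
        unfold dd
        rw [max_eq_right (by linarith), max_eq_right (by linarith)]
        ring
      rw [h3]
      linarith

/-- the growth statement near the turning point -/
theorem growth {C : ℝ} (hC : 1 ≤ C) {k : ℝ} (hk : 2 * ((32 * C + 140) * (C + 7)) ≤ k)
    (F G : ℕ → ℝ) (hF0 : F 0 = 1) (hG0 : G 0 = k ^ 2)
    (h1 : ∀ m : ℕ, (k ^ 2 - m) * (F (m + 1) + F m) = (k ^ 2 - 2 * m - 1) * G m)
    (h2 : ∀ m : ℕ, ((m : ℝ) + 2) * G (m + 1) + ((m : ℝ) + 1) * G m =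
      (k ^ 2 - 2 * m - 2) * F (m + 1)) (m : ℕ)
    (hx : k ^ 2 * √2 / 2 - C ≤ k ^ 2 - 2 * m) (hx2 : k ^ 2 - 2 * m ≤ k ^ 2 * √2 / 2 + C) :
    0 < F m ∧ F m < F (m + 1) ∧ 0 < G m ∧ G m < G (m + 1) := by
  have hs : √2 ^ 2 = 2 := Real.sq_sqrt (by norm_num)
  have hs1 : 1.414 < √2 := by
    rw [show (1.414 : ℝ) = √(1.414 ^ 2) by rw [Real.sqrt_sq (by norm_num)]]
    exact Real.sqrt_lt_sqrt (by norm_num) (by norm_num)
  have hs2 : √2 < 1.415 := by
    rw [show (1.415 : ℝ) = √(1.415 ^ 2) by rw [Real.sqrt_sq (by norm_num)]]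
    exact Real.sqrt_lt_sqrt (by norm_num) (by norm_num)
  have hC0 : 0 ≤ C := by linarith
  have hk0 : 2000 + 100 * C ≤ k := by nlinarith
  have hkpos : 0 < k := by linarith
  have h1k : 1 / k ≤ 1 / 2 := by
    apply one_div_le_one_div_of_le (by norm_num); linarith
  obtain ⟨hF, hG⟩ := ratio hC hk F G hF0 hG0 h1 h2 m hx
  have hd1 := dd_le (k := k) (x := k ^ 2 - 2 * (m : ℝ)) hC0
  have hd0 := dd_ge hC0 hkpos hk hx
  have hd00 : 0 < dd k C (k ^ 2 - 2 * (m : ℝ)) := lt_of_lt_of_le (by positivity) hd0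
  have hGpos : 0 < G m := lt_of_lt_of_le (by positivity) hG
  have := grow hs hs1 hs2 (Nat.cast_nonneg m) (by linarith) rfl hd0 (hd1.trans h1k) hC hx hx2
    (h1 m) (h2 m) hF hG
  exact ⟨hF, this.1, hGpos, this.2⟩

/-- the probability (up to the factor `2 ^ (-n)`) -/
noncomputable def W (n : ℕ) (y : ℤ) : ℝ := (p n y : ℝ) ^ 2 + (q n y : ℝ) ^ 2

theorem W_nonneg (n : ℕ) (y : ℤ) : 0 ≤ W n y := by unfold W; positivity

theorem exists_max (n : ℕ) : ∃ x : ℤ, ∀ y : ℤ, W n y ≤ W n x := by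
  obtain ⟨x, -, hx⟩ := Finset.exists_max_image (Finset.Icc (-(n : ℤ) - 1) (n + 1)) (W n)
    ⟨0, by simp; omega⟩
  refine ⟨x, fun y => ?_⟩
  by_cases hy : y ∈ Finset.Icc (-(n : ℤ) - 1) (n + 1)
  · exact hx y hy
  · have : W n y = 0 := by
      simp only [Finset.mem_Icc, not_and_or, not_le] at hy
      rcases hy with hy | hy
      · have := zero_of_gt n y hy
        unfold W; simp [this]
      · have := zero_of_lt n y hy
        unfold W; simp [this]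
    rw [this]
    exact W_nonneg n x

theorem far (C : ℝ) : ∃ n : ℕ, ∃ x : ℤ, (∀ y : ℤ, W n y ≤ W n x) ∧
    C < |(x : ℝ) - ((n : ℝ) + 1) / √2| := by
  obtain ⟨C', hC'⟩ : ∃ C', C' = |C| + 3 := ⟨_, rfl⟩
  have hC'1 : 1 ≤ C' := by rw [hC']; have := abs_nonneg C; linarith
  obtain ⟨k, hk⟩ := exists_nat_ge (2 * ((32 * C' + 140) * (C' + 7)))
  have hs : √2 ^ 2 = 2 := Real.sq_sqrt (by norm_num)
  have hs0 : 0 < √2 := by positivity
  have hs1 : 1.414 < √2 := by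
    rw [show (1.414 : ℝ) = √(1.414 ^ 2) by rw [Real.sqrt_sq (by norm_num)]]
    exact Real.sqrt_lt_sqrt (by norm_num) (by norm_num)
  have hs2 : √2 < 1.415 := by
    rw [show (1.415 : ℝ) = √(1.415 ^ 2) by rw [Real.sqrt_sq (by norm_num)]]
    exact Real.sqrt_lt_sqrt (by norm_num) (by norm_num)
  refine ⟨k ^ 2 + 1, ?_⟩
  obtain ⟨x, hx⟩ := exists_max (k ^ 2 + 1)
  refine ⟨x, hx, ?_⟩
  by_contra hcon
  push Not at hcon
  have hdiv : (((k ^ 2 + 1 : ℕ) : ℝ) + 1) / √2 = (k : ℝ) ^ 2 * √2 / 2 + √2 := by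
    rw [div_eq_iff hs0.ne']
    push_cast
    linear_combination (-(k : ℝ) ^ 2 / 2 - 1) * hs
  rw [hdiv] at hcon
  have hk' : 2000 + 100 * C' ≤ (k : ℝ) := by nlinarith
  -- parity
  have hpos : 0 < W (k ^ 2 + 1) x := by
    refine lt_of_lt_of_le ?_ (hx (((k ^ 2 + 1 : ℕ) : ℤ) + 1))
    unfold W
    rw [(edge _).1, (edge _).2]
    norm_num
  have hpar : (2 : ℤ) ∣ (((k ^ 2 + 1 : ℕ) : ℤ) + 1 - x) := by
    by_contra h
    have := parity _ x h
    unfold W at hpos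
    simp [this] at hpos
  obtain ⟨habs1, habs2⟩ := abs_le.1 hcon
  have hCle : C ≤ |C| := le_abs_self C
  have hkk : (k : ℝ) ≤ (k : ℝ) ^ 2 := by nlinarith
  have hxlt : (x : ℝ) < (k : ℝ) ^ 2 := by nlinarith [abs_nonneg C]
  obtain ⟨z, hz⟩ := hpar
  have hz0 : 0 < z - 1 := by
    have h3 : x < (k : ℤ) ^ 2 := by exact_mod_cast hxlt
    push_cast at hz
    omega
  obtain ⟨m, hm⟩ : ∃ m : ℕ, (m : ℤ) = z - 1 := ⟨(z - 1).toNat, by omega⟩
  have hxm : x = ((k ^ 2 : ℕ) : ℤ) - 2 * m := by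
    rw [hm]; push_cast at hz ⊢; omega
  have hxmR : (x : ℝ) = (k : ℝ) ^ 2 - 2 * m := by
    rw [hxm]; push_cast; ring
  have hg := growth hC'1 hk (F (k ^ 2)) (G (k ^ 2)) (F_zero _) (by rw [G_zero]; push_cast; rfl)
    (fun m => by have := relF (k ^ 2) m; push_cast at this; exact this)
    (fun m => by have := relG (k ^ 2) m; push_cast at this; exact this) m
    (by rw [← hxmR]; linarith) (by rw [← hxmR]; linarith)
  have h5 := sq_eq (k ^ 2) m
  have h6 := sq_eq (k ^ 2) (m + 1)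
  have h7 := hx (((k ^ 2 : ℕ) : ℤ) - 2 * ((m + 1 : ℕ) : ℤ))
  unfold W at h7
  rw [h6, hxm, h5] at h7
  obtain ⟨g1, g2, g3, g4⟩ := hg
  nlinarith

end Pool.Agent.R995.FC
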