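import Mathlib

set_option autoImplicit false
set_option linter.unusedSimpArgs false
set_option linter.unusedVariables false
set_option linter.unusedSectionVars false

/-! # Number-conserving maps with a von Neumann type neighbourhood: abstract set-up -/

namespace Pool.Agent.R995.NC

open Function Classical

variable {Z : Type} [AddCommGroup Z]

/-- indicator of a cell -/
noncomputable def d (p : Z) : Z → ℤ := fun v => if v = p then 1 else 0

theorem d_self (p : Z) : d p p = 1 := by simp [d]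
theorem d_ne {p v : Z} (h : v ≠ p) : d p v = 0 := by simp [d, h]
theorem d_nonneg (p v : Z) : 0 ≤ d p v := by unfold d; split_ifs <;> norm_num
theorem d_le (p v : Z) : d p v ≤ 1 := by unfold d; split_ifs <;> norm_num

theorem supp_d (p : Z) : (support (d p)).Finite := by
  apply (Set.finite_singleton p).subset
  intro v hv
  by_contra h
  exact hv (d_ne h)

/-- one cell -/
noncomputable def m1 (s : ℤ) (p : Z) : Z → ℤ := fun v => s * d p v
/-- two cells -/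
noncomputable def m2 (s : ℤ) (p : Z) (t : ℤ) (q : Z) : Z → ℤ := fun v => s * d p v + t * d q v
/-- three cells -/
noncomputable def m3 (s : ℤ) (p : Z) (t : ℤ) (q : Z) (r : ℤ) (w : Z) : Z → ℤ :=
  fun v => s * d p v + t * d q v + r * d w v

/-- valid configurations: finitely many nonzero cells, values 0, 1, 2 -/
def V (m : Z → ℤ) : Prop := (support m).Finite ∧ ∀ v, 0 ≤ m v ∧ m v ≤ 2

theorem finsum_d (p : Z) : ∑ᶠ v, d p v = 1 := by
  rw [finsum_eq_single _ p (fun v hv => d_ne hv), d_self]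

theorem supp_mul_d (s : ℤ) (p : Z) : (support (fun v => s * d p v)).Finite :=
  (supp_d p).subset (by
    intro v hv h
    exact hv (by simp [h]))

theorem finsum_mul_d (s : ℤ) (p : Z) : ∑ᶠ v, s * d p v = s := by
  rw [finsum_eq_single _ p (fun v hv => by rw [d_ne hv, mul_zero]), d_self, mul_one]

theorem finsum_m1 (s : ℤ) (p : Z) : ∑ᶠ v, m1 s p v = s := finsum_mul_d s p

theorem supp_m1 (s : ℤ) (p : Z) : (support (m1 s p)).Finite := supp_mul_d s p

theorem supp_m2 (s : ℤ) (p : Z) (t : ℤ) (q : Z) : (support (m2 s p t q)).Finite :=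
  ((supp_mul_d s p).union (supp_mul_d t q)).subset (support_add _ _)

theorem supp_m3 (s : ℤ) (p : Z) (t : ℤ) (q : Z) (r : ℤ) (w : Z) :
    (support (m3 s p t q r w)).Finite :=
  ((supp_m2 s p t q).union (supp_mul_d r w)).subset (support_add _ _)

theorem finsum_m2 (s : ℤ) (p : Z) (t : ℤ) (q : Z) : ∑ᶠ v, m2 s p t q v = s + t := by
  unfold m2
  rw [finsum_add_distrib (supp_mul_d s p) (supp_mul_d t q), finsum_mul_d, finsum_mul_d]

theorem finsum_m3 (s : ℤ) (p : Z) (t : ℤ) (q : Z) (r : ℤ) (w : Z) :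
    ∑ᶠ v, m3 s p t q r w v = s + t + r := by
  have h : ∑ᶠ v, m3 s p t q r w v = ∑ᶠ v, (m2 s p t q v + r * d w v) := rfl
  rw [h, finsum_add_distrib (supp_m2 s p t q) (supp_mul_d r w), finsum_m2, finsum_mul_d]

theorem V_m1 {s : ℤ} {p : Z} (h0 : 0 ≤ s) (h2 : s ≤ 2) : V (m1 s p) := by
  refine ⟨supp_m1 s p, fun v => ?_⟩
  unfold m1 d
  split_ifs <;> constructor <;> omega

theorem V_m2 {s : ℤ} {p : Z} {t : ℤ} {q : Z} (hpq : p ≠ q) (hs0 : 0 ≤ s) (hs2 : s ≤ 2)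
    (ht0 : 0 ≤ t) (ht2 : t ≤ 2) : V (m2 s p t q) := by
  refine ⟨supp_m2 s p t q, fun v => ?_⟩
  unfold m2 d
  split_ifs with h1 h2
  · exact absurd (h1.symm.trans h2) hpq
  all_goals constructor <;> omega

theorem V_m3 {s : ℤ} {p : Z} {t : ℤ} {q : Z} {r : ℤ} {w : Z} (hpq : p ≠ q) (hpw : p ≠ w)
    (hqw : q ≠ w) (hs0 : 0 ≤ s) (hs2 : s ≤ 2) (ht0 : 0 ≤ t) (ht2 : t ≤ 2)
    (hr0 : 0 ≤ r) (hr2 : r ≤ 2) : V (m3 s p t q r w) := by
  refine ⟨supp_m3 s p t q r w, fun v => ?_⟩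
  by_cases h1 : v = p
  · subst h1
    simp [m3, d_self, d_ne hpq, d_ne hpw]; omega
  · by_cases h2 : v = q
    · subst h2
      simp [m3, d_self, d_ne h1, d_ne hqw]; omega
    · by_cases h3 : v = w
      · subst h3
        simp [m3, d_self, d_ne h1, d_ne h2]; omega
      · simp [m3, d_ne h1, d_ne h2, d_ne h3]

/-- the data: a neighbourhood `N` of von Neumann type in a group without 2-torsion and a
number-conserving injective local map `Φ` on the valid configurations -/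
structure Dat (Z : Type) [AddCommGroup Z] where
  N : Set Z
  Φ : (Z → ℤ) → (Z → ℤ)
  h0 : (0 : Z) ∈ N
  hneg : ∀ u ∈ N, -u ∈ N
  hA : ∀ a ∈ N, ∀ b ∈ N, ∀ c ∈ N, ∀ e ∈ N, a - b = c - e → a ≠ b →
    (c = a ∧ e = b) ∨ (c = -b ∧ e = -a)
  h2 : ∀ a : Z, a + a = 0 → a = 0
  hV : ∀ m, V m → V (Φ m)
  hS : ∀ m, V m → ∑ᶠ v, Φ m v = ∑ᶠ v, m v
  hL : ∀ m m' v, V m → V m' → (∀ u, v - u ∈ N → m u = m' u) → Φ m v = Φ m' v
  hT : ∀ m t v, V m → Φ (fun w => m (w - t)) v = Φ m (v - t)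
  hI : ∀ m m', V m → V m' → Φ m = Φ m' → m = m'

namespace Dat

variable (D : Dat Z)

theorem V_zero : V (fun _ : Z => (0 : ℤ)) := by
  refine ⟨?_, fun v => by norm_num⟩
  have : support (fun _ : Z => (0 : ℤ)) = ∅ := by ext; simp
  rw [this]; exact Set.finite_empty

theorem Phi_zero (v : Z) : D.Φ (fun _ => 0) v = 0 := by
  have h1 := D.hS _ (V_zero (Z := Z))
  rw [finsum_zero] at h1
  have h2 := D.hV _ (V_zero (Z := Z))
  by_contra h
  have h3 : 0 < D.Φ (fun _ => 0) v := lt_of_le_of_ne (h2.2 v).1 (Ne.symm h)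
  have h4 : D.Φ (fun _ => 0) v ≤ ∑ᶠ v, D.Φ (fun _ => 0) v :=
    single_le_finsum v h2.1 (fun j => (h2.2 j).1)
  omega

theorem loc1 {s : ℤ} {p v : Z} (hs0 : 0 ≤ s) (hs2 : s ≤ 2) (h : v - p ∉ D.N) :
    D.Φ (m1 s p) v = 0 := by
  rw [← D.Phi_zero v]
  apply D.hL _ _ _ (V_m1 hs0 hs2) V_zero
  intro u hu
  have : u ≠ p := by rintro rfl; exact h hu
  simp [m1, d_ne this]

theorem loc2 {s : ℤ} {p : Z} {t : ℤ} {q v : Z} (hpq : p ≠ q) (hs0 : 0 ≤ s) (hs2 : s ≤ 2)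
    (ht0 : 0 ≤ t) (ht2 : t ≤ 2) (h : v - q ∉ D.N) :
    D.Φ (m2 s p t q) v = D.Φ (m1 s p) v := by
  apply D.hL _ _ _ (V_m2 hpq hs0 hs2 ht0 ht2) (V_m1 hs0 hs2)
  intro u hu
  have : u ≠ q := by rintro rfl; exact h hu
  simp [m1, m2, d_ne this]

theorem m2_comm (s : ℤ) (p : Z) (t : ℤ) (q : Z) : m2 s p t q = m2 t q s p := by
  funext v; unfold m2; ring

theorem loc2' {s : ℤ} {p : Z} {t : ℤ} {q v : Z} (hpq : p ≠ q) (hs0 : 0 ≤ s) (hs2 : s ≤ 2)
    (ht0 : 0 ≤ t) (ht2 : t ≤ 2) (h : v - p ∉ D.N) :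
    D.Φ (m2 s p t q) v = D.Φ (m1 t q) v := by
  rw [m2_comm]
  exact D.loc2 hpq.symm ht0 ht2 hs0 hs2 h

/-- common neighbours of two cells -/
theorem common {p q r v : Z} (hpq : p ≠ q) (h1 : r - p ∈ D.N) (h2 : r - q ∈ D.N)
    (h3 : v - p ∈ D.N) (h4 : v - q ∈ D.N) : v = r ∨ v = p + q - r := by
  have h := D.hA _ h1 _ h2 _ h3 _ h4 (by abel) (by
    intro h; apply hpq
    have : r - (r - p) = r - (r - q) := by rw [h]
    simpa using this)
  rcases h with ⟨h, -⟩ | ⟨h, -⟩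
  · left
    have : v - p + p = r - p + p := by rw [h]
    simpa using this
  · right
    have : v - p + p = -(r - q) + p := by rw [h]
    rw [sub_add_cancel] at this
    rw [this]; abel

/-- the interaction of two cells -/
theorem pair {s : ℤ} {p : Z} {t : ℤ} {q : Z} (hpq : p ≠ q) (hs0 : 0 ≤ s) (hs2 : s ≤ 2)
    (ht0 : 0 ≤ t) (ht2 : t ≤ 2) :
    ∃ (r : Z) (k : ℤ), 0 ≤ k ∧
      (∀ v, D.Φ (m2 s p t q) v = D.Φ (m1 s p) v + D.Φ (m1 t q) v +
        k * (d r v - d (p + q - r) v)) ∧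
      (0 < k → r ≠ p + q - r ∧ r - p ∈ D.N ∧ r - q ∈ D.N) := by
  obtain ⟨h, hh⟩ : ∃ h : Z → ℤ, ∀ v, h v = D.Φ (m2 s p t q) v - D.Φ (m1 s p) v
    - D.Φ (m1 t q) v := ⟨_, fun v => rfl⟩
  have hV2 := D.hV _ (V_m2 hpq hs0 hs2 ht0 ht2)
  have hV1 := D.hV _ (V_m1 (p := p) hs0 hs2)
  have hV1' := D.hV _ (V_m1 (p := q) ht0 ht2)
  have hout : ∀ v, h v ≠ 0 → v - p ∈ D.N ∧ v - q ∈ D.N := by
    intro v hv
    constructor
    · by_contra hc
      apply hv
      rw [hh, D.loc2' hpq hs0 hs2 ht0 ht2 hc, D.loc1 hs0 hs2 hc]; ring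
    · by_contra hc
      apply hv
      rw [hh, D.loc2 hpq hs0 hs2 ht0 ht2 hc, D.loc1 ht0 ht2 hc]; ring
  have hsum : ∑ᶠ v, h v = 0 := by
    have e : ∑ᶠ v, h v = ∑ᶠ v, (D.Φ (m2 s p t q) v - (D.Φ (m1 s p) v + D.Φ (m1 t q) v)) := by
      apply finsum_congr; intro v; rw [hh]; ring
    rw [e, finsum_sub_distrib hV2.1 ((hV1.1.union hV1'.1).subset (support_add _ _)),
      finsum_add_distrib hV1.1 hV1'.1, D.hS _ (V_m2 hpq hs0 hs2 ht0 ht2),
      D.hS _ (V_m1 hs0 hs2), D.hS _ (V_m1 ht0 ht2), finsum_m2, finsum_m1, finsum_m1]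
    ring
  by_cases hz : ∀ v, h v = 0
  · refine ⟨0, 0, le_rfl, fun v => ?_, fun h => absurd h (lt_irrefl _)⟩
    have := hz v
    rw [hh] at this
    linarith
  · push Not at hz
    obtain ⟨v0, hv0⟩ := hz
    obtain ⟨hp0, hq0⟩ := hout v0 hv0
    obtain ⟨w0, hw0⟩ : ∃ w0, w0 = p + q - v0 := ⟨_, rfl⟩
    have hsub : ∀ v, h v ≠ 0 → v = v0 ∨ v = w0 := by
      intro v hv
      obtain ⟨h1, h2⟩ := hout v hv
      rw [hw0]
      exact D.common hpq hp0 hq0 h1 h2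
    have hne : v0 ≠ w0 := by
      intro he
      apply hv0
      rw [← hsum, finsum_eq_single h v0]
      intro v hv
      by_contra hc
      rcases hsub v hc with h1 | h1
      · exact hv h1
      · exact hv (h1.trans he.symm)
    have hs' : h v0 + h w0 = 0 := by
      rw [← hsum, finsum_eq_sum_of_support_subset h (s := {v0, w0}), Finset.sum_pair hne]
      intro v hv
      rcases hsub v hv with h1 | h1 <;> simp [h1]
    have hval : ∀ v, h v = h v0 * (d v0 v - d w0 v) := by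
      intro v
      by_cases h1 : v = v0
      · subst h1; rw [d_self, d_ne hne]; ring
      · by_cases h2 : v = w0
        · subst h2; rw [d_self, d_ne h1]; linarith
        · rw [d_ne h1, d_ne h2]
          have : h v = 0 := by
            by_contra hc
            rcases hsub v hc with h3 | h3
            · exact h1 h3
            · exact h2 h3
          rw [this]; ring
    rcases lt_or_ge 0 (h v0) with hpos | hneg'
    · refine ⟨v0, h v0, hpos.le, fun v => ?_, fun _ => ⟨by rw [← hw0]; exact hne, hp0, hq0⟩⟩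
      have := hval v
      rw [hh] at this
      rw [← hw0]
      linarith
    · have hvw : p + q - w0 = v0 := by rw [hw0]; abel
      refine ⟨w0, -h v0, by linarith, fun v => ?_, fun _ => ⟨by rw [hvw]; exact hne.symm, ?_, ?_⟩⟩
      · have := hval v
        rw [hh] at this
        rw [hvw]
        linarith
      · have e : w0 - p = -(v0 - q) := by rw [hw0]; abel
        rw [e]; exact D.hneg _ hq0
      · have e : w0 - q = -(v0 - p) := by rw [hw0]; abel
        rw [e]; exact D.hneg _ hp0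

/-- two cells without a pair of common neighbours do not interact -/
theorem straight {s : ℤ} {p : Z} {t : ℤ} {q : Z} (c : Z) (hpq : p ≠ q) (hc : c + c = p + q)
    (h1 : c - p ∈ D.N) (h2 : c - q ∈ D.N) (hs0 : 0 ≤ s) (hs2 : s ≤ 2)
    (ht0 : 0 ≤ t) (ht2 : t ≤ 2) (v : Z) :
    D.Φ (m2 s p t q) v = D.Φ (m1 s p) v + D.Φ (m1 t q) v := by
  obtain ⟨r, k, hk, h, hr⟩ := D.pair hpq hs0 hs2 ht0 ht2
  rcases hk.lt_or_eq with hk | hk
  · exfalso
    obtain ⟨hr1, hr2, hr3⟩ := hr hk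
    have hcc : p + q - c = c := by rw [← hc]; abel
    have hrc : r = c := by
      rcases D.common hpq h1 h2 hr2 hr3 with h | h
      · exact h
      · rw [h, hcc]
    apply hr1
    rw [hrc, hcc]
  · rw [h v, ← hk]; ring

/-- three cells: inclusion-exclusion -/
theorem triple {s : ℤ} {p : Z} {t : ℤ} {q : Z} {r : ℤ} {w : Z} (c : Z) (hpq : p ≠ q)
    (hpw : p ≠ w) (hqw : q ≠ w) (hs0 : 0 ≤ s) (hs2 : s ≤ 2) (ht0 : 0 ≤ t) (ht2 : t ≤ 2)
    (hr0 : 0 ≤ r) (hr2 : r ≤ 2)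
    (hc : ∀ v, v - p ∈ D.N → v - q ∈ D.N → v - w ∈ D.N → v = c) (v : Z) :
    D.Φ (m3 s p t q r w) v = D.Φ (m2 s p t q) v + D.Φ (m2 t q r w) v + D.Φ (m2 s p r w) v
      - D.Φ (m1 s p) v - D.Φ (m1 t q) v - D.Φ (m1 r w) v := by
  obtain ⟨h, hh⟩ : ∃ h : Z → ℤ, ∀ v, h v = D.Φ (m3 s p t q r w) v -
    (D.Φ (m2 s p t q) v + D.Φ (m2 t q r w) v + D.Φ (m2 s p r w) v
      - (D.Φ (m1 s p) v + D.Φ (m1 t q) v + D.Φ (m1 r w) v)) := ⟨_, fun v => rfl⟩
  have hV3 := D.hV _ (V_m3 hpq hpw hqw hs0 hs2 ht0 ht2 hr0 hr2)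
  have hVa := D.hV _ (V_m2 hpq hs0 hs2 ht0 ht2)
  have hVb := D.hV _ (V_m2 hqw ht0 ht2 hr0 hr2)
  have hVc := D.hV _ (V_m2 hpw hs0 hs2 hr0 hr2)
  have hV1 := D.hV _ (V_m1 (p := p) hs0 hs2)
  have hV2 := D.hV _ (V_m1 (p := q) ht0 ht2)
  have hV4 := D.hV _ (V_m1 (p := w) hr0 hr2)
  have hz : ∀ v, v ≠ c → h v = 0 := by
    intro v hv
    rw [hh]
    by_cases h1 : v - p ∈ D.N
    · by_cases h2 : v - q ∈ D.N
      · have h3 : v - w ∉ D.N := fun h3 => hv (hc v h1 h2 h3)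
        have e : D.Φ (m3 s p t q r w) v = D.Φ (m2 s p t q) v := by
          apply D.hL _ _ _ (V_m3 hpq hpw hqw hs0 hs2 ht0 ht2 hr0 hr2)
            (V_m2 hpq hs0 hs2 ht0 ht2)
          intro u hu
          have : u ≠ w := by rintro rfl; exact h3 hu
          simp [m3, m2, d_ne this]
        rw [e, D.loc2 hqw ht0 ht2 hr0 hr2 h3, D.loc2 hpw hs0 hs2 hr0 hr2 h3, D.loc1 hr0 hr2 h3]
        ring
      · have e : D.Φ (m3 s p t q r w) v = D.Φ (m2 s p r w) v := by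
          apply D.hL _ _ _ (V_m3 hpq hpw hqw hs0 hs2 ht0 ht2 hr0 hr2)
            (V_m2 hpw hs0 hs2 hr0 hr2)
          intro u hu
          have : u ≠ q := by rintro rfl; exact h2 hu
          simp [m3, m2, d_ne this]
        rw [e, D.loc2 hpq hs0 hs2 ht0 ht2 h2, D.loc2' hqw ht0 ht2 hr0 hr2 h2, D.loc1 ht0 ht2 h2]
        ring
    · have e : D.Φ (m3 s p t q r w) v = D.Φ (m2 t q r w) v := by
        apply D.hL _ _ _ (V_m3 hpq hpw hqw hs0 hs2 ht0 ht2 hr0 hr2)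
          (V_m2 hqw ht0 ht2 hr0 hr2)
        intro u hu
        have : u ≠ p := by rintro rfl; exact h1 hu
        simp [m3, m2, d_ne this]
      rw [e, D.loc2' hpq hs0 hs2 ht0 ht2 h1, D.loc2' hpw hs0 hs2 hr0 hr2 h1, D.loc1 hs0 hs2 h1]
      ring
  have hsum : ∑ᶠ v, h v = 0 := by
    have f1 := (hV1.1.union hV2.1).subset (support_add _ _)
    have f2 := (f1.union hV4.1).subset (support_add _ _)
    have f3 := (hVa.1.union hVb.1).subset (support_add _ _)
    have f4 := (f3.union hVc.1).subset (support_add _ _)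
    have f5 := (f4.union f2).subset (support_sub _ _)
    rw [finsum_congr hh]
    rw [finsum_sub_distrib hV3.1 f5, finsum_sub_distrib f4 f2, finsum_add_distrib f3 hVc.1,
      finsum_add_distrib hVa.1 hVb.1, finsum_add_distrib f1 hV4.1,
      finsum_add_distrib hV1.1 hV2.1, D.hS _ (V_m3 hpq hpw hqw hs0 hs2 ht0 ht2 hr0 hr2),
      D.hS _ (V_m2 hpq hs0 hs2 ht0 ht2), D.hS _ (V_m2 hqw ht0 ht2 hr0 hr2),
      D.hS _ (V_m2 hpw hs0 hs2 hr0 hr2), D.hS _ (V_m1 hs0 hs2), D.hS _ (V_m1 ht0 ht2),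
      D.hS _ (V_m1 hr0 hr2), finsum_m2, finsum_m2, finsum_m2, finsum_m1, finsum_m1, finsum_m1,
      finsum_m3]
    ring
  have hc0 : h c = 0 := by rw [← hsum, finsum_eq_single h c hz]
  have : h v = 0 := by
    by_cases hv : v = c
    · rw [hv]; exact hc0
    · exact hz v hv
  rw [hh] at this
  linarith

end Dat

end Pool.Agent.R995.NC
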