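import Pool.Agent.R995.NC1

set_option autoImplicit false
set_option linter.unusedSimpArgs false
set_option linter.unusedVariables false
set_option linter.unusedSectionVars false

/-! # Number-conserving maps: the motion of a single cell -/

namespace Pool.Agent.R995.NC

open Function Classical

variable {Z : Type} [AddCommGroup Z]

theorem zero_of_sum {g : Z → ℤ} (hf : (support g).Finite) (h0 : ∀ v, 0 ≤ g v)
    (hs : ∑ᶠ v, g v = 0) (v : Z) : g v = 0 := by
  by_contra h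
  have h3 : 0 < g v := lt_of_le_of_ne (h0 v) (Ne.symm h)
  have h4 : g v ≤ ∑ᶠ v, g v := single_le_finsum v hf h0
  omega

theorem peel {g : Z → ℤ} {n : ℤ} (hn : 0 < n) (hf : (support g).Finite) (h0 : ∀ v, 0 ≤ g v)
    (hs : ∑ᶠ v, g v = n) : ∃ v0, 1 ≤ g v0 ∧ (support (fun v => g v - d v0 v)).Finite ∧
      (∀ v, 0 ≤ g v - d v0 v) ∧ ∑ᶠ v, (g v - d v0 v) = n - 1 := by
  have h1 : ∃ v0, g v0 ≠ 0 := by
    by_contra hc
    push Not at hc
    rw [finsum_congr hc, finsum_zero] at hs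
    omega
  obtain ⟨v0, hv0⟩ := h1
  have h2 : 1 ≤ g v0 := by
    have := h0 v0
    omega
  refine ⟨v0, h2, (hf.union (supp_d v0)).subset (support_sub _ _), fun v => ?_, ?_⟩
  · by_cases hv : v = v0
    · subst hv; rw [d_self]; omega
    · rw [d_ne hv]; simpa using h0 v
  · rw [finsum_sub_distrib hf (supp_d v0), hs, finsum_d]

theorem d_add (p x v : Z) : d (p + x) v = d p (v - x) := by
  unfold d
  simp only [sub_eq_iff_eq_add]

theorem m2_eq_zero_right (s : ℤ) (p q : Z) : m2 s p 0 q = m1 s p := by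
  funext v; simp [m2, m1]

namespace Dat

variable (D : Dat Z)

theorem tr1 (s : ℤ) (p v : Z) (hs0 : 0 ≤ s) (hs2 : s ≤ 2) :
    D.Φ (m1 s p) v = D.Φ (m1 s 0) (v - p) := by
  rw [← D.hT _ _ _ (V_m1 hs0 hs2)]
  congr 1
  funext w
  unfold m1
  rw [← d_add, zero_add]

theorem tr2 (s : ℤ) (p : Z) (t : ℤ) (q x v : Z) (hpq : p ≠ q) (hs0 : 0 ≤ s) (hs2 : s ≤ 2)
    (ht0 : 0 ≤ t) (ht2 : t ≤ 2) :
    D.Φ (m2 s (p + x) t (q + x)) v = D.Φ (m2 s p t q) (v - x) := by
  rw [← D.hT _ _ _ (V_m2 hpq hs0 hs2 ht0 ht2)]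
  congr 1
  funext w
  unfold m2
  rw [← d_add, ← d_add]

/-- a single cell of value 1 moves by a fixed vector of the neighbourhood -/
theorem single_one : ∃ a ∈ D.N, ∀ p v, D.Φ (m1 1 p) v = d (p + a) v := by
  have hV := D.hV _ (V_m1 (Z := Z) (s := 1) (p := 0) (by norm_num) (by norm_num))
  have hs := D.hS _ (V_m1 (Z := Z) (s := 1) (p := 0) (by norm_num) (by norm_num))
  rw [finsum_m1] at hs
  obtain ⟨a, ha, hf, h0, hs'⟩ := peel (by norm_num) hV.1 (fun v => (hV.2 v).1) hs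
  have hz := zero_of_sum hf h0 (by rw [hs']; norm_num)
  refine ⟨a, ?_, fun p v => ?_⟩
  · by_contra hc
    have := D.loc1 (s := 1) (p := 0) (v := a) (by norm_num) (by norm_num) (by simpa using hc)
    omega
  · rw [D.tr1 1 p v (by norm_num) (by norm_num), add_comm, d_add]
    have := hz (v - p)
    linarith

/-- a single cell of value 2 -/
theorem single_two : ∃ b ∈ D.N, ∃ c ∈ D.N, ∀ p v, D.Φ (m1 2 p) v = d (p + b) v + d (p + c) v := by
  have hV := D.hV _ (V_m1 (Z := Z) (s := 2) (p := 0) (by norm_num) (by norm_num))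
  have hs := D.hS _ (V_m1 (Z := Z) (s := 2) (p := 0) (by norm_num) (by norm_num))
  rw [finsum_m1] at hs
  obtain ⟨b, hb, hf, h0, hs'⟩ := peel (by norm_num) hV.1 (fun v => (hV.2 v).1) hs
  obtain ⟨c, hc, hf', h0', hs''⟩ := peel (by norm_num) hf h0 hs'
  have hz := zero_of_sum hf' h0' (by rw [hs'']; norm_num)
  have hmem : ∀ x, 1 ≤ D.Φ (m1 2 0) x → x ∈ D.N := by
    intro x hx
    by_contra hcon
    have := D.loc1 (s := 2) (p := 0) (v := x) (by norm_num) (by norm_num) (by simpa using hcon)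
    omega
  refine ⟨b, hmem b hb, c, hmem c ?_, fun p v => ?_⟩
  · have := d_nonneg b c
    omega
  · rw [D.tr1 2 p v (by norm_num) (by norm_num), add_comm p b, add_comm p c, d_add, d_add]
    have := hz (v - p)
    linarith

theorem no_triangle {b c : Z} (hb : b ∈ D.N) (hc : c ∈ D.N) (hcb : c - b ∈ D.N) (hne : b ≠ c) :
    b = 0 ∨ c = 0 := by
  rcases D.hA c hc b hb (c - b) hcb 0 D.h0 (by abel) hne.symm with ⟨-, h⟩ | ⟨-, h⟩
  · left; exact h.symm
  · right
    have : - -c = -0 := by rw [h]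
    simpa using this

include D in
theorem two_ne {u : Z} (hu : u ≠ 0) : u + u ≠ 0 := fun h => hu (D.h2 u h)

/-- interaction of two adjacent cells at `0` and `u` -/
theorem adj {u : Z} (huN : u ∈ D.N) (hu : u ≠ 0) {s t : ℤ} (hs0 : 0 ≤ s) (hs2 : s ≤ 2)
    (ht0 : 0 ≤ t) (ht2 : t ≤ 2) :
    ∃ k : ℤ, ∀ v, D.Φ (m2 s 0 t u) v = D.Φ (m1 s 0) v + D.Φ (m1 t 0) (v - u) +
      k * (d 0 v - d u v) := by
  obtain ⟨r, k, hk, h, hr⟩ := D.pair (Ne.symm hu) hs0 hs2 ht0 ht2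
  rcases hk.lt_or_eq with hk | hk
  · obtain ⟨hr1, hr2, hr3⟩ := hr hk
    have h0u : (0 : Z) - u ∈ D.N := by rw [zero_sub]; exact D.hneg _ huN
    rcases D.common (Ne.symm hu) (r := 0) (by simpa using D.h0) h0u hr2 hr3 with h1 | h1
    · refine ⟨k, fun v => ?_⟩
      rw [h v, h1, D.tr1 t u v ht0 ht2]
      simp
    · refine ⟨-k, fun v => ?_⟩
      have h2 : r = u := by rw [h1]; abel
      rw [h v, h2, D.tr1 t u v ht0 ht2]
      simp only [zero_add, sub_self]
      ring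
  · refine ⟨0, fun v => ?_⟩
    rw [h v, ← hk, D.tr1 t u v ht0 ht2]; ring

/-- three cells in a row -/
theorem row {u : Z} (huN : u ∈ D.N) (hu : u ≠ 0) {s t r : ℤ} (hs0 : 0 ≤ s) (hs2 : s ≤ 2)
    (ht0 : 0 ≤ t) (ht2 : t ≤ 2) (hr0 : 0 ≤ r) (hr2 : r ≤ 2) (v : Z) :
    D.Φ (m3 s 0 t u r (u + u)) v = D.Φ (m2 s 0 t u) v + D.Φ (m2 t 0 r u) (v - u)
      - D.Φ (m1 t 0) (v - u) := by
  have huu := D.two_ne hu
  have h0uu : (0 : Z) ≠ u + u := Ne.symm huu
  have huuu : u ≠ u + u := by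
    intro h
    apply hu
    have : u - u = u + u - u := by rw [← h]
    simpa using this.symm
  have hst := D.straight (s := s) (p := 0) (t := r) (q := u + u) u h0uu (by abel)
    (by simpa using huN) (by simpa using D.hneg _ huN) hs0 hs2 hr0 hr2 v
  rw [D.triple u (Ne.symm hu) h0uu huuu hs0 hs2 ht0 ht2 hr0 hr2, hst]
  · have e := D.tr2 t 0 r u u v (Ne.symm hu) ht0 ht2 hr0 hr2
    rw [zero_add] at e
    rw [e, D.tr1 t u v ht0 ht2]
    ring
  · intro w h1 h2 h3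
    have hu1 : u - 0 ∈ D.N := by simpa using huN
    have hu2 : u - (u + u) ∈ D.N := by
      have : u - (u + u) = -u := by abel
      rw [this]; exact D.hneg _ huN
    rcases D.common h0uu hu1 hu2 h1 h3 with h | h
    · exact h
    · rw [h]; abel

/-- two cells at distance two in a straight line -/
theorem gap {u : Z} (huN : u ∈ D.N) (hu : u ≠ 0) {s r : ℤ} (hs0 : 0 ≤ s) (hs2 : s ≤ 2)
    (hr0 : 0 ≤ r) (hr2 : r ≤ 2) (v : Z) :
    D.Φ (m2 s 0 r (u + u)) v = D.Φ (m1 s 0) v + D.Φ (m1 r 0) (v - (u + u)) := by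
  have h0uu : (0 : Z) ≠ u + u := Ne.symm (D.two_ne hu)
  rw [D.straight (s := s) (p := 0) (t := r) (q := u + u) u h0uu (by abel)
    (by simpa using huN) (by simpa using D.hneg _ huN) hs0 hs2 hr0 hr2 v,
    D.tr1 r (u + u) v hr0 hr2]

end Dat

end Pool.Agent.R995.NC
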