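import Pool.Agent.R995.NC2

set_option autoImplicit false
set_option linter.unusedSimpArgs false
set_option linter.unusedVariables false
set_option linter.unusedSectionVars false

/-! # Number-conserving maps: single cells of value 1 and 2 move in the same way -/

namespace Pool.Agent.R995.NC

open Function Classical

variable {Z : Type} [AddCommGroup Z]

namespace Dat

variable (D : Dat Z)

theorem inj2 {s : ℤ} {p : Z} {t : ℤ} {q : Z} {s' : ℤ} {p' : Z} {t' : ℤ} {q' : Z}
    (hpq : p ≠ q) (hpq' : p' ≠ q') (hs0 : 0 ≤ s) (hs2 : s ≤ 2) (ht0 : 0 ≤ t) (ht2 : t ≤ 2)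
    (hs0' : 0 ≤ s') (hs2' : s' ≤ 2) (ht0' : 0 ≤ t') (ht2' : t' ≤ 2)
    (h : ∀ v, D.Φ (m2 s p t q) v = D.Φ (m2 s' p' t' q') v) : ∀ v, m2 s p t q v = m2 s' p' t' q' v :=
  fun v => congrFun (D.hI _ _ (V_m2 hpq hs0 hs2 ht0 ht2) (V_m2 hpq' hs0' hs2' ht0' ht2')
    (funext h)) v

theorem inj21 {s : ℤ} {p : Z} {t : ℤ} {q : Z} {s' : ℤ} {p' : Z}
    (hpq : p ≠ q) (hs0 : 0 ≤ s) (hs2 : s ≤ 2) (ht0 : 0 ≤ t) (ht2 : t ≤ 2)
    (hs0' : 0 ≤ s') (hs2' : s' ≤ 2)
    (h : ∀ v, D.Φ (m2 s p t q) v = D.Φ (m1 s' p') v) : ∀ v, m2 s p t q v = m1 s' p' v :=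
  fun v => congrFun (D.hI _ _ (V_m2 hpq hs0 hs2 ht0 ht2) (V_m1 hs0' hs2') (funext h)) v

theorem inj23 {s : ℤ} {p : Z} {t : ℤ} {q : Z} {s' : ℤ} {p' : Z} {t' : ℤ} {q' : Z} {r' : ℤ} {w' : Z}
    (hpq : p ≠ q) (hpq' : p' ≠ q') (hpw' : p' ≠ w') (hqw' : q' ≠ w')
    (hs0 : 0 ≤ s) (hs2 : s ≤ 2) (ht0 : 0 ≤ t) (ht2 : t ≤ 2)
    (hs0' : 0 ≤ s') (hs2' : s' ≤ 2) (ht0' : 0 ≤ t') (ht2' : t' ≤ 2) (hr0' : 0 ≤ r') (hr2' : r' ≤ 2)
    (h : ∀ v, D.Φ (m2 s p t q) v = D.Φ (m3 s' p' t' q' r' w') v) :
    ∀ v, m2 s p t q v = m3 s' p' t' q' r' w' v :=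
  fun v => congrFun (D.hI _ _ (V_m2 hpq hs0 hs2 ht0 ht2)
    (V_m3 hpq' hpw' hqw' hs0' hs2' ht0' ht2' hr0' hr2') (funext h)) v

include D in
theorem uuu {u : Z} (hu : u ≠ 0) : u ≠ u + u := by
  intro h
  apply hu
  have : u - u = u + u - u := by rw [← h]
  simpa using this.symm

/-- translated adjacent pair -/
theorem adjT {u : Z} (hu : u ≠ 0) {s t : ℤ} (hs0 : 0 ≤ s) (hs2 : s ≤ 2)
    (ht0 : 0 ≤ t) (ht2 : t ≤ 2) (v : Z) :
    D.Φ (m2 s u t (u + u)) v = D.Φ (m2 s 0 t u) (v - u) := by
  have e := D.tr2 s 0 t u u v (Ne.symm hu) hs0 hs2 ht0 ht2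
  rwa [zero_add] at e

/-- if the vector of motion is not zero, two cells of value 1 do not interact -/
theorem ones {a : Z} (haN : a ∈ D.N) (ha : a ≠ 0) (h1 : ∀ p v, D.Φ (m1 1 p) v = d (p + a) v)
    {p q : Z} (hpq : p ≠ q) (v : Z) :
    D.Φ (m2 1 p 1 q) v = d (p + a) v + d (q + a) v := by
  obtain ⟨r, k, hk, h, hr⟩ := D.pair hpq (s := 1) (t := 1) (by norm_num) (by norm_num)
    (by norm_num) (by norm_num)
  simp only [h1] at h
  rcases hk.lt_or_eq with hk | hk
  · exfalso
    obtain ⟨hr1, hr2, hr3⟩ := hr hk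
    have hV := D.hV _ (V_m2 hpq (s := 1) (t := 1) (by norm_num) (by norm_num)
      (by norm_num) (by norm_num))
    have h5 := (hV.2 (p + q - r)).1
    rw [h, d_ne (Ne.symm hr1), d_self] at h5
    -- the general collision
    have key : ∀ x y : Z, x ≠ y → p + q - r = x + a → p + q = x + y →
        (∀ v, D.Φ (m2 1 x 1 y) v = D.Φ (m2 1 p 1 q) v) → k = 1 → False := by
      intro x y hxy hx hsum hΦ hk1
      have hr' : r = y - a := by
        have : r = p + q - (p + q - r) := by abel
        rw [this, hx, hsum]; abel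
      have hy : y ≠ y - a - a := by
        intro hc
        apply D.two_ne ha
        have : a + a = y - (y - a - a) := by abel
        rw [this, ← hc, sub_self]
      have hst := fun v => D.straight (s := 1) (t := 1) (p := y) (q := y - a - a) (y - a) hy
        (by abel) (by
          have : y - a - y = -a := by abel
          rw [this]; exact D.hneg _ haN)
        (by
          have : y - a - (y - a - a) = a := by abel
          rw [this]; exact haN) (by norm_num) (by norm_num) (by norm_num) (by norm_num) v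
      have hall : ∀ v, D.Φ (m2 1 x 1 y) v = D.Φ (m2 1 y 1 (y - a - a)) v := by
        intro v
        rw [hΦ, h, hst, h1, h1, hk1]
        have e1 : y - a - a + a = y - a := by abel
        rw [e1, hx, hr']
        have e2 : d (p + a) v + d (q + a) v = d (x + a) v + d (y + a) v := by
          -- {p, q} = {x, y}
          have hx' : x = p ∨ x = q := by
            by_contra hc
            push Not at hc
            have hm := D.inj2 hxy hpq (by norm_num) (by norm_num) (by norm_num) (by norm_num)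
              (by norm_num) (by norm_num) (by norm_num) (by norm_num) hΦ x
            simp [m2, d_self, d_ne hxy, d_ne hc.1, d_ne hc.2] at hm
          rcases hx' with rfl | rfl
          · have : q = y := by
              have : x + q - x = x + y - x := by rw [hsum]
              simpa using this
            rw [this]
          · have : p = y := by
              have : p + x - x = x + y - x := by rw [hsum]
              simpa using this
            rw [this]; ring
        linarith
      have hm := D.inj2 hxy hy (by norm_num) (by norm_num) (by norm_num) (by norm_num)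
        (by norm_num) (by norm_num) (by norm_num) (by norm_num) hall x
      simp only [m2, d_self, d_ne hxy] at hm
      have hx2 : x = y - a - a := by
        by_contra hc
        rw [d_ne hc] at hm
        norm_num at hm
      apply hr1
      rw [hx, hr', hx2]; abel
    by_cases e1 : p + q - r = p + a
    · have e2 : p + q - r ≠ q + a := by
        rw [e1]; intro hc; exact hpq (add_right_cancel hc)
      rw [e1, d_self, d_ne (by rw [← e1]; exact e2)] at h5
      exact key p q hpq e1 rfl (fun v => rfl) (by omega)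
    · by_cases e2 : p + q - r = q + a
      · rw [d_ne e1, e2, d_self] at h5
        exact key q p hpq.symm e2 (add_comm _ _) (fun v => by rw [m2_comm]) (by omega)
      · rw [d_ne e1, d_ne e2] at h5
        omega
  · rw [h v, ← hk]; ring

end Dat

end Pool.Agent.R995.NC
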