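import Pool.Agent.R995.NC3

set_option autoImplicit false
set_option linter.unusedSimpArgs false
set_option linter.unusedVariables false
set_option linter.unusedSectionVars false

/-! # Number-conserving maps: single cells of value 1 and 2 move in the same way, II -/

namespace Pool.Agent.R995.NC

open Function Classical

variable {Z : Type} [AddCommGroup Z]

theorem d_sub0 (u v : Z) : d 0 (v - u) = d u v := by rw [← d_add, zero_add]

namespace Dat

variable (D : Dat Z)

theorem bd2 {s : ℤ} {p : Z} {t : ℤ} {q : Z} (hpq : p ≠ q) (hs0 : 0 ≤ s) (hs2 : s ≤ 2)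
    (ht0 : 0 ≤ t) (ht2 : t ≤ 2) (v : Z) :
    0 ≤ D.Φ (m2 s p t q) v ∧ D.Φ (m2 s p t q) v ≤ 2 :=
  (D.hV _ (V_m2 hpq hs0 hs2 ht0 ht2)).2 v

theorem bd3 {u : Z} (hu : u ≠ 0) {s t r : ℤ} (hs0 : 0 ≤ s) (hs2 : s ≤ 2)
    (ht0 : 0 ≤ t) (ht2 : t ≤ 2) (hr0 : 0 ≤ r) (hr2 : r ≤ 2) (v : Z) :
    0 ≤ D.Φ (m3 s 0 t u r (u + u)) v ∧ D.Φ (m3 s 0 t u r (u + u)) v ≤ 2 :=
  (D.hV _ (V_m3 hu.symm (D.two_ne hu).symm (D.uuu hu) hs0 hs2 ht0 ht2 hr0 hr2)).2 v

/-- a cell of value 2 cannot split into two adjacent cells if cells of value 1 stay -/
theorem no_split {u : Z} (huN : u ∈ D.N) (hu : u ≠ 0)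
    (h1 : ∀ p v, D.Φ (m1 1 p) v = d p v) (h2 : ∀ p v, D.Φ (m1 2 p) v = d p v + d (p + u) v) :
    False := by
  have huu := D.two_ne hu
  have huuu := D.uuu hu
  have E1 : d (0 : Z) u = 0 := d_ne hu
  have E2 : d u (0 : Z) = 0 := d_ne hu.symm
  have E3 : d (u + u) u = 0 := d_ne huuu
  have E4 : d (u + u) (0 : Z) = 0 := d_ne huu.symm
  have E5 : d (0 : Z) 0 = 1 := d_self 0
  have E6 : d u u = 1 := d_self u
  have E7 : d u (u + u) = 0 := d_ne (Ne.symm huuu)
  have E8 : d (0 : Z) (u + u) = 0 := d_ne huu
  have E9 : d (u + u) (u + u) = 1 := d_self _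
  have F1 : ∀ v, D.Φ (m1 1 0) v = d 0 v := fun v => h1 0 v
  have F2 : ∀ v, D.Φ (m1 2 0) v = d 0 v + d u v := fun v => by rw [h2 0 v, zero_add]
  have G : ∀ v, d u (v - u) = d (u + u) v := fun v => by rw [← d_add]
  obtain ⟨k11, h11⟩ := D.adj huN hu (s := 1) (t := 1) (by norm_num) (by norm_num) (by norm_num)
    (by norm_num)
  obtain ⟨k21, h21⟩ := D.adj huN hu (s := 2) (t := 1) (by norm_num) (by norm_num) (by norm_num)
    (by norm_num)
  obtain ⟨k12, h12⟩ := D.adj huN hu (s := 1) (t := 2) (by norm_num) (by norm_num) (by norm_num)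
    (by norm_num)
  simp only [F1, F2, d_sub0, G] at h11 h21 h12
  have b11a := D.bd2 hu.symm (s := 1) (t := 1) (by norm_num) (by norm_num) (by norm_num)
    (by norm_num) 0
  have b11b := D.bd2 hu.symm (s := 1) (t := 1) (by norm_num) (by norm_num) (by norm_num)
    (by norm_num) u
  have b21a := D.bd2 hu.symm (s := 2) (t := 1) (by norm_num) (by norm_num) (by norm_num)
    (by norm_num) 0
  have b21b := D.bd2 hu.symm (s := 2) (t := 1) (by norm_num) (by norm_num) (by norm_num)
    (by norm_num) u
  have b12a := D.bd2 hu.symm (s := 1) (t := 2) (by norm_num) (by norm_num) (by norm_num)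
    (by norm_num) 0
  have b12b := D.bd2 hu.symm (s := 1) (t := 2) (by norm_num) (by norm_num) (by norm_num)
    (by norm_num) u
  rw [h11] at b11a b11b
  rw [h21] at b21a b21b
  rw [h12] at b12a b12b
  simp only [E1, E2, E3, E4, E5, E6] at b11a b11b b21a b21b b12a b12b
  have hk11 : k11 ≠ 0 := by
    rintro rfl
    have := D.inj21 hu.symm (s := 1) (t := 1) (s' := 2) (p' := 0) (by norm_num) (by norm_num)
      (by norm_num) (by norm_num) (by norm_num) (by norm_num)
      (fun v => by rw [h11, F2]; ring) 0
    simp [m2, m1, E2, E5] at this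
  have hcases : k11 = 1 ∨ k11 = -1 := by omega
  rcases hcases with rfl | rfl
  · -- (A)
    have hk21 : k21 ≠ 1 := by
      rintro rfl
      have := D.inj23 hu.symm hu.symm huu.symm huuu (s := 2) (t := 1) (s' := 1) (t' := 1)
        (r' := 1) (by norm_num) (by norm_num) (by norm_num) (by norm_num) (by norm_num)
        (by norm_num) (by norm_num) (by norm_num) (by norm_num) (by norm_num)
        (fun v => by
          rw [h21, D.row huN hu (by norm_num) (by norm_num) (by norm_num) (by norm_num)
            (by norm_num) (by norm_num), h11, h11, F1]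
          simp only [d_sub0, G]
          ring) 0
      simp [m2, m3, E2, E4, E5] at this
    have hk21' : k21 = 0 := by omega
    have hb := D.bd3 hu (s := 2) (t := 1) (r := 1) (by norm_num) (by norm_num) (by norm_num)
      (by norm_num) (by norm_num) (by norm_num) u
    rw [D.row huN hu (by norm_num) (by norm_num) (by norm_num) (by norm_num)
            (by norm_num) (by norm_num), h21, h11, F1, hk21', sub_self] at hb
    simp only [E1, E2, E5, E6] at hb
    omega
  · -- (B)
    have hk21 : k21 ≠ 0 := by
      rintro rfl
      have := D.inj23 huuu hu.symm huu.symm huuu (s := 2) (t := 1) (s' := 1) (t' := 1)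
        (r' := 1) (by norm_num) (by norm_num) (by norm_num) (by norm_num) (by norm_num)
        (by norm_num) (by norm_num) (by norm_num) (by norm_num) (by norm_num)
        (fun v => by
          rw [D.adjT hu (by norm_num) (by norm_num) (by norm_num) (by norm_num), h21,
            D.row huN hu (by norm_num) (by norm_num) (by norm_num) (by norm_num)
            (by norm_num) (by norm_num), h11, h11, F1]
          simp only [d_sub0, G]
          ring) 0
      simp [m2, m3, E2, E4, E5] at this
    have hk21' : k21 = 1 := by omega
    subst hk21'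
    have hk12a : k12 ≠ 0 := by
      rintro rfl
      have := D.inj2 hu.symm huu.symm (s := 1) (t := 2) (s' := 2) (t' := 1)
        (by norm_num) (by norm_num) (by norm_num) (by norm_num) (by norm_num)
        (by norm_num) (by norm_num) (by norm_num)
        (fun v => by
          rw [h12, D.gap huN hu (by norm_num) (by norm_num) (by norm_num) (by norm_num),
            F1, F2]
          simp only [d_sub0, G]
          ring) 0
      simp [m2, m3, E2, E4, E5] at this
    have hk12b : k12 ≠ -1 := by
      rintro rfl
      have := D.inj2 hu.symm huuu (s := 1) (t := 2) (s' := 2) (t' := 1)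
        (by norm_num) (by norm_num) (by norm_num) (by norm_num) (by norm_num)
        (by norm_num) (by norm_num) (by norm_num)
        (fun v => by
          rw [h12, D.adjT hu (by norm_num) (by norm_num) (by norm_num) (by norm_num), h21]
          simp only [d_sub0, G]
          ring) 0
      simp [m2, m3, E2, E4, E5] at this
    have hk12' : k12 = 1 := by omega
    subst hk12'
    have hb := D.bd3 hu (s := 1) (t := 1) (r := 2) (by norm_num) (by norm_num) (by norm_num)
      (by norm_num) (by norm_num) (by norm_num) u
    rw [D.row huN hu (by norm_num) (by norm_num) (by norm_num) (by norm_num)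
            (by norm_num) (by norm_num), h11, h12, F1, sub_self] at hb
    simp only [E1, E2, E4, E5, E6] at hb
    omega

/-- a single cell of value 2 moves as a whole -/
theorem two_whole : ∃ b ∈ D.N, ∀ p v, D.Φ (m1 2 p) v = 2 * d (p + b) v := by
  obtain ⟨a, haN, h1⟩ := D.single_one
  obtain ⟨b, hbN, c, hcN, h2⟩ := D.single_two
  by_cases hbc : b = c
  · subst hbc
    exact ⟨b, hbN, fun p v => by rw [h2]; ring⟩
  exfalso
  -- if the two ones at `b - a` and `c - a` do not interact we have a collision
  have coll : ¬ (∀ v, D.Φ (m2 1 (b - a) 1 (c - a)) v = d b v + d c v) := by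
    intro h
    have hne : b - a ≠ c - a := fun h => hbc (sub_left_injective h)
    have := D.inj21 hne (s := 1) (t := 1) (s' := 2) (p' := 0) (by norm_num) (by norm_num)
      (by norm_num) (by norm_num) (by norm_num) (by norm_num)
      (fun v => by rw [h v, h2]; simp) (b - a)
    simp only [m2, m1, d_self, d_ne hne] at this
    by_cases h0 : b - a = 0
    · rw [h0, d_self] at this; norm_num at this
    · rw [d_ne h0] at this; norm_num at this
  by_cases ha : a = 0
  · subst ha
    simp only [sub_zero] at coll
    simp only [add_zero] at h1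
    obtain ⟨r, k, hk, h, hr⟩ := D.pair hbc (s := 1) (t := 1) (by norm_num) (by norm_num)
      (by norm_num) (by norm_num)
    simp only [h1] at h
    rcases hk.lt_or_eq with hk | hk
    · obtain ⟨hr1, hr2, hr3⟩ := hr hk
      have h5 := (D.bd2 hbc (s := 1) (t := 1) (by norm_num) (by norm_num)
        (by norm_num) (by norm_num) (b + c - r)).1
      rw [h, d_ne (Ne.symm hr1), d_self] at h5
      have hcb : c - b ∈ D.N := by
        by_cases e1 : b + c - r = b
        · have : r = c := by
            have e : b + c - (b + c - r) = b + c - b := by rw [e1]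
            have e' : b + c - (b + c - r) = r := by abel
            rw [e'] at e
            rw [e]; abel
          rw [this] at hr2; exact hr2
        · by_cases e2 : b + c - r = c
          · have : r = b := by
              have e : b + c - (b + c - r) = b + c - c := by rw [e2]
              have e' : b + c - (b + c - r) = r := by abel
              rw [e'] at e
              rw [e]; abel
            rw [this] at hr3
            have := D.hneg _ hr3
            simpa using this
          · rw [d_ne e1, d_ne e2] at h5
            omega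
      rcases D.no_triangle hbN hcN hcb hbc with rfl | rfl
      · exact D.no_split hcN (Ne.symm hbc) h1 (fun p v => by rw [h2]; simp)
      · exact D.no_split hbN hbc h1 (fun p v => by rw [h2]; simp; ring)
    · exact coll fun v => by rw [h v, ← hk]; ring
  · apply coll
    intro v
    rw [D.ones haN ha h1 (fun h => hbc (sub_left_injective h)) v]
    simp

end Dat

end Pool.Agent.R995.NC
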