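import Pool.Agent.R995.NC4

set_option autoImplicit false
set_option linter.unusedSimpArgs false
set_option linter.unusedVariables false
set_option linter.unusedSectionVars false

/-! # Number-conserving maps: single cells of value 1 and 2 move in the same way, III -/

namespace Pool.Agent.R995.NC

open Function Classical

variable {Z : Type} [AddCommGroup Z]

namespace Dat

variable (D : Dat Z)

/-- cells of value 1 stay, cells of value 2 move: impossible -/
theorem case1 {u : Z} (huN : u ∈ D.N) (hu : u ≠ 0)
    (h1 : ∀ p v, D.Φ (m1 1 p) v = d p v) (h2 : ∀ p v, D.Φ (m1 2 p) v = 2 * d (p + u) v) :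
    False := by
  have huu := D.two_ne hu
  have huuu := D.uuu hu
  have E1 : d (0 : Z) u = 0 := d_ne hu
  have E2 : d u (0 : Z) = 0 := d_ne hu.symm
  have E3 : d (u + u) u = 0 := d_ne huuu
  have E4 : d (u + u) (0 : Z) = 0 := d_ne huu.symm
  have E5 : d (0 : Z) 0 = 1 := d_self 0
  have E6 : d u u = 1 := d_self u
  have E7 : d u (u + u) = 0 := d_ne (Ne.symm huuu)
  have E8 : d (0 : Z) (u + u) = 0 := d_ne huu
  have E9 : d (u + u) (u + u) = 1 := d_self _
  have F1 : ∀ v, D.Φ (m1 1 0) v = d 0 v := fun v => h1 0 v
  have F2 : ∀ v, D.Φ (m1 2 0) v = 2 * d u v := fun v => by rw [h2 0 v, zero_add]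
  have G : ∀ v, d u (v - u) = d (u + u) v := fun v => by rw [← d_add]
  have H : ∀ v, d u (v - (u + u)) = d (u + u) (v - u) := fun v => by
    rw [← d_add, ← d_add, add_assoc]
  obtain ⟨k21, h21⟩ := D.adj huN hu (s := 2) (t := 1) (by norm_num) (by norm_num) (by norm_num)
    (by norm_num)
  obtain ⟨k12, h12⟩ := D.adj huN hu (s := 1) (t := 2) (by norm_num) (by norm_num) (by norm_num)
    (by norm_num)
  obtain ⟨k22, h22⟩ := D.adj huN hu (s := 2) (t := 2) (by norm_num) (by norm_num) (by norm_num)
    (by norm_num)
  simp only [F1, F2, d_sub0, G] at h21 h12 h22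
  have b21a := D.bd2 hu.symm (s := 2) (t := 1) (by norm_num) (by norm_num) (by norm_num)
    (by norm_num) 0
  have b21b := D.bd2 hu.symm (s := 2) (t := 1) (by norm_num) (by norm_num) (by norm_num)
    (by norm_num) u
  have b12a := D.bd2 hu.symm (s := 1) (t := 2) (by norm_num) (by norm_num) (by norm_num)
    (by norm_num) 0
  have b12b := D.bd2 hu.symm (s := 1) (t := 2) (by norm_num) (by norm_num) (by norm_num)
    (by norm_num) u
  have b22a := D.bd2 hu.symm (s := 2) (t := 2) (by norm_num) (by norm_num) (by norm_num)
    (by norm_num) 0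
  have b22b := D.bd2 hu.symm (s := 2) (t := 2) (by norm_num) (by norm_num) (by norm_num)
    (by norm_num) u
  rw [h21] at b21a b21b
  rw [h12] at b12a b12b
  rw [h22] at b22a b22b
  simp only [E1, E2, E3, E4, E5, E6] at b21a b21b b12a b12b b22a b22b
  have hk21 : k21 ≠ 2 := by
    rintro rfl
    have := D.inj2 huuu huu.symm (s := 2) (t := 1) (s' := 2) (t' := 1)
      (by norm_num) (by norm_num) (by norm_num) (by norm_num) (by norm_num)
      (by norm_num) (by norm_num) (by norm_num)
      (fun v => by
        rw [D.adjT hu (by norm_num) (by norm_num) (by norm_num) (by norm_num), h21,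
          D.gap huN hu (by norm_num) (by norm_num) (by norm_num) (by norm_num), F1, F2]
        simp only [d_sub0, G]
        ring) 0
    simp [m2, m3, E2, E4, E5] at this
  have hk21' : k21 = 1 := by omega
  subst hk21'
  have hk12 : k12 ≠ -1 := by
    rintro rfl
    have := D.inj2 hu.symm huuu (s := 1) (t := 2) (s' := 2) (t' := 1)
      (by norm_num) (by norm_num) (by norm_num) (by norm_num) (by norm_num)
      (by norm_num) (by norm_num) (by norm_num)
      (fun v => by
        rw [h12, D.adjT hu (by norm_num) (by norm_num) (by norm_num) (by norm_num), h21]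
        simp only [d_sub0, G]
        ring) 0
    simp [m2, m3, E2, E4, E5] at this
  have hk12' : k12 = 0 := by omega
  subst hk12'
  have hk22 : k22 ≠ 1 := by
    rintro rfl
    have := D.inj23 hu.symm hu.symm huu.symm huuu (s := 2) (t := 2) (s' := 1) (t' := 2)
      (r' := 1) (by norm_num) (by norm_num) (by norm_num) (by norm_num) (by norm_num)
      (by norm_num) (by norm_num) (by norm_num) (by norm_num) (by norm_num)
      (fun v => by
        rw [h22, D.row huN hu (by norm_num) (by norm_num) (by norm_num) (by norm_num)
          (by norm_num) (by norm_num), h12, h21, F2]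
        simp only [d_sub0, G]
        ring) 0
    simp [m2, m3, E2, E4, E5] at this
  have hk22b : k22 ≠ 2 := by
    rintro rfl
    have := D.inj2 huuu huu.symm (s := 2) (t := 2) (s' := 2) (t' := 2)
      (by norm_num) (by norm_num) (by norm_num) (by norm_num) (by norm_num)
      (by norm_num) (by norm_num) (by norm_num)
      (fun v => by
        rw [D.adjT hu (by norm_num) (by norm_num) (by norm_num) (by norm_num), h22,
          D.gap huN hu (by norm_num) (by norm_num) (by norm_num) (by norm_num), F2, F2, H]
        simp only [d_sub0, G]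
        ring) 0
    simp [m2, m3, E2, E4, E5] at this
  have hk22' : k22 = 0 := by omega
  subst hk22'
  have hb := D.bd3 hu (s := 2) (t := 2) (r := 1) (by norm_num) (by norm_num) (by norm_num)
    (by norm_num) (by norm_num) (by norm_num) u
  rw [D.row huN hu (by norm_num) (by norm_num) (by norm_num) (by norm_num)
          (by norm_num) (by norm_num), h22, h21, F2, sub_self] at hb
  simp only [E1, E2, E3, E4, E5, E6] at hb
  omega

/-- cells of value 2 stay, cells of value 1 move: impossible -/
theorem case2 {u : Z} (huN : u ∈ D.N) (hu : u ≠ 0)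
    (h1 : ∀ p v, D.Φ (m1 1 p) v = d (p + u) v) (h2 : ∀ p v, D.Φ (m1 2 p) v = 2 * d p v) :
    False := by
  have huu := D.two_ne hu
  have huuu := D.uuu hu
  have E1 : d (0 : Z) u = 0 := d_ne hu
  have E2 : d u (0 : Z) = 0 := d_ne hu.symm
  have E3 : d (u + u) u = 0 := d_ne huuu
  have E4 : d (u + u) (0 : Z) = 0 := d_ne huu.symm
  have E5 : d (0 : Z) 0 = 1 := d_self 0
  have E6 : d u u = 1 := d_self u
  have F1 : ∀ v, D.Φ (m1 1 0) v = d u v := fun v => by rw [h1 0 v, zero_add]
  have F2 : ∀ v, D.Φ (m1 2 0) v = 2 * d 0 v := fun v => h2 0 v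
  have G : ∀ v, d u (v - u) = d (u + u) v := fun v => by rw [← d_add]
  obtain ⟨k12, h12⟩ := D.adj huN hu (s := 1) (t := 2) (by norm_num) (by norm_num) (by norm_num)
    (by norm_num)
  simp only [F1, F2, d_sub0, G] at h12
  have b12a := D.bd2 hu.symm (s := 1) (t := 2) (by norm_num) (by norm_num) (by norm_num)
    (by norm_num) 0
  have b12b := D.bd2 hu.symm (s := 1) (t := 2) (by norm_num) (by norm_num) (by norm_num)
    (by norm_num) u
  rw [h12] at b12a b12b
  simp only [E1, E2, E3, E4, E5, E6] at b12a b12b
  have hk12 : k12 ≠ 1 := by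
    rintro rfl
    have := D.inj2 huuu huu.symm (s := 1) (t := 2) (s' := 1) (t' := 2)
      (by norm_num) (by norm_num) (by norm_num) (by norm_num) (by norm_num)
      (by norm_num) (by norm_num) (by norm_num)
      (fun v => by
        rw [D.adjT hu (by norm_num) (by norm_num) (by norm_num) (by norm_num), h12,
          D.gap huN hu (by norm_num) (by norm_num) (by norm_num) (by norm_num), F1, F2]
        simp only [d_sub0, G]
        ring) 0
    simp [m2, m3, E2, E4, E5] at this
  have hk12' : k12 = 2 := by omega
  subst hk12'
  have h11 : ∀ v, D.Φ (m2 1 0 1 u) v = d u v + d (u + u) v := fun v => by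
    rw [D.ones huN hu h1 hu.symm v, zero_add]
  have hb := D.bd3 hu (s := 1) (t := 1) (r := 2) (by norm_num) (by norm_num) (by norm_num)
    (by norm_num) (by norm_num) (by norm_num) u
  rw [D.row huN hu (by norm_num) (by norm_num) (by norm_num) (by norm_num)
          (by norm_num) (by norm_num), h11, h12, F1, sub_self] at hb
  simp only [E1, E2, E3, E4, E5, E6] at hb
  omega

/-- opposite motions are impossible -/
theorem case3 {u : Z} (huN : u ∈ D.N) (hu : u ≠ 0)
    (h1 : ∀ p v, D.Φ (m1 1 p) v = d (p + u) v) (h2 : ∀ p v, D.Φ (m1 2 p) v = 2 * d (p + -u) v) :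
    False := by
  have hb := (D.bd2 (D.two_ne hu).symm (s := 1) (t := 2) (by norm_num) (by norm_num) (by norm_num)
    (by norm_num) u).2
  rw [D.gap huN hu (by norm_num) (by norm_num) (by norm_num) (by norm_num), h1, h2] at hb
  have e : u - (u + u) = 0 + -u := by abel
  rw [e, d_self, zero_add, d_self] at hb
  norm_num at hb

/-- two different nonzero motions which are not opposite are impossible -/
theorem case4 {a b : Z} (haN : a ∈ D.N) (hbN : b ∈ D.N) (ha : a ≠ 0) (hb : b ≠ 0) (hab : a ≠ b)
    (hab' : a + b ≠ 0)
    (h1 : ∀ p v, D.Φ (m1 1 p) v = d (p + a) v) (h2 : ∀ p v, D.Φ (m1 2 p) v = 2 * d (p + b) v) :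
    False := by
  have hne : -a ≠ -b := fun h => hab (neg_injective h)
  obtain ⟨r, k, hk, h, hr⟩ := D.pair hne (s := 1) (t := 2) (by norm_num) (by norm_num)
    (by norm_num) (by norm_num)
  simp only [h1, h2, neg_add_cancel] at h
  have hb0 := (D.bd2 hne (s := 1) (t := 2) (by norm_num) (by norm_num) (by norm_num)
    (by norm_num) 0).2
  rw [h, d_self] at hb0
  have hd1 := d_nonneg r (0 : Z)
  have hd2 := d_nonneg (-a + -b - r) (0 : Z)
  have hd3 := d_le (-a + -b - r) (0 : Z)
  have hr' : -a + -b - r = 0 := by
    by_contra hc
    rw [d_ne (Ne.symm hc)] at hb0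
    nlinarith
  have hreq : r = -a + -b := by
    have : r = -a + -b - (-a + -b - r) := by abel
    rw [hr', sub_zero] at this; exact this
  have hrne : r ≠ 0 := by
    intro hc
    apply hab'
    have : a + b = -(-a + -b) := by abel
    rw [this, ← hreq, hc, neg_zero]
  rw [hr', d_self, d_ne (Ne.symm hrne)] at hb0
  have hb1 := D.bd2 hne (s := 1) (t := 2) (by norm_num) (by norm_num) (by norm_num)
    (by norm_num) r
  rw [h, hr', d_self, d_ne hrne] at hb1
  have hk12 : k = 1 ∨ k = 2 := by omega
  rcases hk12 with rfl | rfl
  · have hne2 : -b ≠ -b - a - a := by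
      intro hc
      apply D.two_ne ha
      have : a + a = -b - (-b - a - a) := by abel
      rw [this, ← hc, sub_self]
    have := D.inj2 hne hne2 (s := 1) (t := 2) (s' := 2) (t' := 1)
      (by norm_num) (by norm_num) (by norm_num) (by norm_num) (by norm_num)
      (by norm_num) (by norm_num) (by norm_num)
      (fun v => by
        rw [h, D.straight (-b - a) hne2 (by abel) (by
            have : -b - a - -b = -a := by abel
            rw [this]; exact D.hneg _ haN) (by
            have : -b - a - (-b - a - a) = a := by abel
            rw [this]; exact haN) (by norm_num) (by norm_num) (by norm_num) (by norm_num), h1, h2,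
            hr', hreq]
        have e1 : -b - a - a + a = -a + -b := by abel
        rw [e1, neg_add_cancel]
        ring) (-a)
    have e2 : -a ≠ -b - a - a := by
      intro hc
      apply hab'
      have : a + b = -a - (-b - a - a) := by abel
      rw [this, ← hc, sub_self]
    simp [m2, d_self, d_ne hne, d_ne e2] at this
  · have hne2 : -a ≠ -a - b - b := by
      intro hc
      apply D.two_ne hb
      have : b + b = -a - (-a - b - b) := by abel
      rw [this, ← hc, sub_self]
    have := D.inj2 hne hne2 (s := 1) (t := 2) (s' := 1) (t' := 2)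
      (by norm_num) (by norm_num) (by norm_num) (by norm_num) (by norm_num)
      (by norm_num) (by norm_num) (by norm_num)
      (fun v => by
        rw [h, D.straight (-a - b) hne2 (by abel) (by
            have : -a - b - -a = -b := by abel
            rw [this]; exact D.hneg _ hbN) (by
            have : -a - b - (-a - b - b) = b := by abel
            rw [this]; exact hbN) (by norm_num) (by norm_num) (by norm_num) (by norm_num), h1, h2,
            hr', hreq]
        have e1 : -a - b - b + b = -a + -b := by abel
        rw [e1, neg_add_cancel]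
        ring) (-b)
    have e2 : -b ≠ -a - b - b := by
      intro hc
      apply hab'
      have : a + b = -b - (-a - b - b) := by abel
      rw [this, ← hc, sub_self]
    simp [m2, d_self, d_ne hne.symm, d_ne e2] at this

/-- single cells of value 1 and 2 move by the same vector -/
theorem same : ∃ a ∈ D.N, (∀ p v, D.Φ (m1 1 p) v = d (p + a) v) ∧
    (∀ p v, D.Φ (m1 2 p) v = 2 * d (p + a) v) := by
  obtain ⟨a, haN, h1⟩ := D.single_one
  obtain ⟨b, hbN, h2⟩ := D.two_whole
  by_cases hab : a = b
  · subst hab; exact ⟨a, haN, h1, h2⟩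
  exfalso
  by_cases ha : a = 0
  · subst ha
    exact D.case1 hbN (Ne.symm hab) (fun p v => by rw [h1, add_zero]) h2
  · by_cases hb : b = 0
    · subst hb
      exact D.case2 haN ha h1 (fun p v => by rw [h2, add_zero])
    · by_cases hab' : a + b = 0
      · have : b = -a := by
          have : a + b - a = 0 - a := by rw [hab']
          simpa using this
        subst this
        exact D.case3 haN ha h1 h2
      · exact D.case4 haN hbN ha hb hab hab' h1 h2

end Dat

end Pool.Agent.R995.NC
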