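import Pool.Agent.R995.NC5

set_option autoImplicit false
set_option linter.unusedSimpArgs false
set_option linter.unusedVariables false
set_option linter.unusedSectionVars false

/-! # Number-conserving maps: two cells do not interact -/

namespace Pool.Agent.R995.NC

open Function Classical

variable {Z : Type} [AddCommGroup Z]

namespace Dat

variable (D : Dat Z)

theorem m1_zero (p : Z) : m1 0 p = fun _ : Z => (0 : ℤ) := by
  funext v; simp [m1]

theorem single {a : Z} (h1 : ∀ p v, D.Φ (m1 1 p) v = d (p + a) v)
    (h2 : ∀ p v, D.Φ (m1 2 p) v = 2 * d (p + a) v) {s : ℤ} (hs0 : 0 ≤ s) (hs2 : s ≤ 2)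
    (p v : Z) : D.Φ (m1 s p) v = s * d (p + a) v := by
  have : s = 0 ∨ s = 1 ∨ s = 2 := by omega
  rcases this with rfl | rfl | rfl
  · rw [m1_zero, D.Phi_zero, zero_mul]
  · rw [h1, one_mul]
  · rw [h2]

/-- the moving cell cannot push more than part of its content -/
theorem push {a : Z} (haN : a ∈ D.N) (ha : a ≠ 0)
    (hS : ∀ s : ℤ, 0 ≤ s → s ≤ 2 → ∀ p v, D.Φ (m1 s p) v = s * d (p + a) v)
    {x y : Z} (hxy : x ≠ y) (hne : x + a ≠ y - a) {s t k : ℤ} (hs0 : 0 ≤ s) (hs2 : s ≤ 2)
    (ht0 : 0 ≤ t) (ht2 : t ≤ 2) (hk : 1 ≤ k)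
    (h : ∀ v, D.Φ (m2 s x t y) v = s * d (x + a) v + t * d (y + a) v +
      k * (d (y - a) v - d (x + a) v)) : s = 2 ∧ k = 1 := by
  have hb := (D.bd2 hxy hs0 hs2 ht0 ht2 (x + a)).1
  have e1 : x + a ≠ y + a := fun hc => hxy (add_right_cancel hc)
  rw [h, d_self, d_ne e1, d_ne hne] at hb
  have hks : k ≠ s := by
    rintro rfl
    have hne2 : y ≠ y - a - a := by
      intro hc
      apply D.two_ne ha
      have : a + a = y - (y - a - a) := by abel
      rw [this, ← hc, sub_self]
    have := D.inj2 hxy hne2 hs0 hs2 ht0 ht2 ht0 ht2 hs0 hs2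
      (fun v => by
        rw [h, D.straight (y - a) hne2 (by abel) (by
            have : y - a - y = -a := by abel
            rw [this]; exact D.hneg _ haN) (by
            have : y - a - (y - a - a) = a := by abel
            rw [this]; exact haN) ht0 ht2 hs0 hs2, hS _ ht0 ht2, hS _ hs0 hs2]
        have e1 : y - a - a + a = y - a := by abel
        rw [e1]
        ring) x
    have e2 : x ≠ y - a - a := by
      intro hc
      apply hne
      rw [hc]; abel
    simp [m2, d_self, d_ne hxy, d_ne e2] at this
    omega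
  omega

/-- if the target of `x` is a common neighbour, the possible interaction has a fixed form -/
theorem form {a : Z} (haN : a ∈ D.N) (ha : a ≠ 0)
    (hS : ∀ s : ℤ, 0 ≤ s → s ≤ 2 → ∀ p v, D.Φ (m1 s p) v = s * d (p + a) v)
    {x y : Z} (hxy : x ≠ y) (hc : x + a - y ∈ D.N) (hne : x + a ≠ y - a) {s t : ℤ}
    (hs0 : 0 ≤ s) (hs2 : s ≤ 2) (ht0 : 0 ≤ t) (ht2 : t ≤ 2) :
    ∃ k : ℤ, 0 ≤ k ∧ ∀ v, D.Φ (m2 s x t y) v = s * d (x + a) v + t * d (y + a) v +
      k * (d (y - a) v - d (x + a) v) := by
  obtain ⟨r, k, hk, h, hr⟩ := D.pair hxy hs0 hs2 ht0 ht2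
  simp only [hS s hs0 hs2, hS t ht0 ht2] at h
  refine ⟨k, hk, fun v => ?_⟩
  rcases hk.lt_or_eq with hk | hk
  · obtain ⟨hr1, hr2, hr3⟩ := hr hk
    have hxa : x + a - x ∈ D.N := by
      have : x + a - x = a := by abel
      rw [this]; exact haN
    rcases D.common hxy hxa hc hr2 hr3 with hr4 | hr4
    · exfalso
      have hb := (D.bd2 hxy hs0 hs2 ht0 ht2 (x + y - r)).1
      have e3 : x + y - r = y - a := by rw [hr4]; abel
      have e4 : y - a ≠ y + a := by
        intro hcc
        apply D.two_ne ha
        have : a + a = (y + a) - (y - a) := by abel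
        rw [this, ← hcc, sub_self]
      rw [h, d_ne (Ne.symm hr1), d_self, e3, d_ne (Ne.symm hne), d_ne e4] at hb
      omega
    · have e3 : r = y - a := by rw [hr4]; abel
      have e4 : x + y - r = x + a := by rw [e3]; abel
      rw [h, e4, e3]
  · rw [h v, ← hk]; ring

theorem one_move {a : Z} (haN : a ∈ D.N) (ha : a ≠ 0)
    (hS : ∀ s : ℤ, 0 ≤ s → s ≤ 2 → ∀ p v, D.Φ (m1 s p) v = s * d (p + a) v)
    {x y : Z} (hxy : x ≠ y) (hc : x + a - y ∈ D.N) (hne : x + a ≠ y - a) {t : ℤ}
    (ht0 : 0 ≤ t) (ht2 : t ≤ 2) (v : Z) :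
    D.Φ (m2 1 x t y) v = d (x + a) v + t * d (y + a) v := by
  obtain ⟨k, hk, h⟩ := D.form haN ha hS hxy hc hne (s := 1) (by norm_num) (by norm_num) ht0 ht2
  have : ¬ 1 ≤ k := fun hk1 => by
    have := (D.push haN ha hS hxy hne (by norm_num) (by norm_num) ht0 ht2 hk1 h).1
    norm_num at this
  have hk0 : k = 0 := by omega
  rw [h v, hk0]; ring

theorem two_move {a : Z} (haN : a ∈ D.N) (ha : a ≠ 0)
    (hS : ∀ s : ℤ, 0 ≤ s → s ≤ 2 → ∀ p v, D.Φ (m1 s p) v = s * d (p + a) v)
    {x y : Z} (hxy : x ≠ y) (hc : x + a - y ∈ D.N) (hne : x + a ≠ y - a) {t : ℤ}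
    (ht0 : 0 ≤ t) (ht2 : t ≤ 2) (v : Z) :
    D.Φ (m2 2 x t y) v = 2 * d (x + a) v + t * d (y + a) v := by
  obtain ⟨k, hk, h⟩ := D.form haN ha hS hxy hc hne (s := 2) (by norm_num) (by norm_num) ht0 ht2
  have : ¬ 1 ≤ k := fun hk1 => by
    have hk' := (D.push haN ha hS hxy hne (by norm_num) (by norm_num) ht0 ht2 hk1 h).2
    subst hk'
    have hne2 : y ≠ y - a - a := by
      intro hc
      apply D.two_ne ha
      have : a + a = y - (y - a - a) := by abel
      rw [this, ← hc, sub_self]
    have e2 : x ≠ y - a - a := by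
      intro hc
      apply hne
      rw [hc]; abel
    have hya : y - a - y ∈ D.N := by
      have : y - a - y = -a := by abel
      rw [this]; exact D.hneg _ haN
    have hyb : y - a - (y - a - a) ∈ D.N := by
      have : y - a - (y - a - a) = a := by abel
      rw [this]; exact haN
    have h3 : ∀ v, D.Φ (m3 t y 1 x 1 (y - a - a)) v = D.Φ (m2 2 x t y) v := by
      intro v
      rw [D.triple (y - a) hxy.symm hne2 e2 ht0 ht2 (by norm_num) (by norm_num) (by norm_num)
        (by norm_num) ?_ v]
      · rw [m2_comm t y 1 x, D.one_move haN ha hS hxy hc hne ht0 ht2,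
          D.ones haN ha (fun p v => by rw [hS 1 (by norm_num) (by norm_num), one_mul]) e2,
          D.straight (y - a) hne2 (by abel) hya hyb ht0 ht2 (by norm_num) (by norm_num), h,
          hS 1 (by norm_num) (by norm_num), hS 1 (by norm_num) (by norm_num), hS t ht0 ht2]
        have e1 : y - a - a + a = y - a := by abel
        rw [e1]
        ring
      · intro w hw1 hw2 hw3
        rcases D.common hne2 hya hyb hw1 hw3 with h4 | h4
        · exact h4
        · rw [h4]; abel
    have h4 := congrFun (D.hI _ _ (V_m3 hxy.symm hne2 e2 ht0 ht2 (by norm_num) (by norm_num)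
      (by norm_num) (by norm_num)) (V_m2 hxy (by norm_num) (by norm_num) ht0 ht2) (funext h3)) x
    simp [m2, m3, d_self, d_ne hxy, d_ne e2] at h4
  have hk0 : k = 0 := by omega
  rw [h v, hk0]; ring

theorem pairs_move {a : Z} (haN : a ∈ D.N) (ha : a ≠ 0)
    (hS : ∀ s : ℤ, 0 ≤ s → s ≤ 2 → ∀ p v, D.Φ (m1 s p) v = s * d (p + a) v)
    {p q : Z} (hpq : p ≠ q) {s t : ℤ} (hs0 : 0 ≤ s) (hs2 : s ≤ 2)
    (ht0 : 0 ≤ t) (ht2 : t ≤ 2) (v : Z) :
    D.Φ (m2 s p t q) v = s * d (p + a) v + t * d (q + a) v := by
  obtain ⟨r, k, hk, h, hr⟩ := D.pair hpq hs0 hs2 ht0 ht2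
  simp only [hS s hs0 hs2, hS t ht0 ht2] at h
  rcases hk.lt_or_eq with hk | hk
  · exfalso
    obtain ⟨hr1, hr2, hr3⟩ := hr hk
    have hb := (D.bd2 hpq hs0 hs2 ht0 ht2 (p + q - r)).1
    rw [h, d_ne (Ne.symm hr1), d_self] at hb
    -- the general argument
    have key : ∀ (x y : Z) (s t : ℤ), x ≠ y → 0 ≤ s → s ≤ 2 → 0 ≤ t → t ≤ 2 →
        p + q - r = x + a → r = y - a → x + a - y ∈ D.N → 0 < s →
        (∀ v, D.Φ (m2 s x t y) v = s * d (x + a) v + t * d (y + a) v +
          k * (d r v - d (p + q - r) v)) → False := by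
      intro x y s t hxy hs0 hs2 ht0 ht2 e1 e2 e3 hs h'
      have hne : x + a ≠ y - a := by rw [← e1, ← e2]; exact hr1.symm
      have hadd : D.Φ (m2 s x t y) r = s * d (x + a) r + t * d (y + a) r := by
        have : s = 1 ∨ s = 2 := by omega
        rcases this with rfl | rfl
        · rw [D.one_move haN ha hS hxy e3 hne ht0 ht2]; ring
        · rw [D.two_move haN ha hS hxy e3 hne ht0 ht2]
      have := h' r
      rw [hadd, d_self, d_ne hr1] at this
      omega
    have hrel : r = p + q - (p + q - r) := by abel
    by_cases e1 : p + q - r = p + a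
    · have e2 : p + q - r ≠ q + a := by
        rw [e1]; intro hc; exact hpq (add_right_cancel hc)
      have hs : 0 < s := by
        by_contra hcon
        have : s = 0 := by omega
        rw [this, d_ne e2] at hb
        omega
      refine key p q s t hpq hs0 hs2 ht0 ht2 e1 ?_ ?_ hs h
      · rw [hrel, e1]; abel
      · rw [← e1]
        have : p + q - r - q = -(r - p) := by abel
        rw [this]; exact D.hneg _ hr2
    · by_cases e2 : p + q - r = q + a
      · have ht : 0 < t := by
          by_contra hcon
          have : t = 0 := by omega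
          rw [this, d_ne e1] at hb
          omega
        refine key q p t s hpq.symm ht0 ht2 hs0 hs2 e2 ?_ ?_ ht ?_
        · rw [hrel, e2]; abel
        · rw [← e2]
          have : p + q - r - p = -(r - q) := by abel
          rw [this]; exact D.hneg _ hr3
        · intro v; rw [m2_comm, h v]; ring
      · rw [d_ne e1, d_ne e2] at hb
        omega
  · rw [h v, ← hk]; ring

theorem adj_stay {u : Z} (huN : u ∈ D.N) (hu : u ≠ 0)
    (hS : ∀ s : ℤ, 0 ≤ s → s ≤ 2 → ∀ p v, D.Φ (m1 s p) v = s * d p v)
    {s t : ℤ} (hs0 : 0 ≤ s) (hs2 : s ≤ 2) (ht0 : 0 ≤ t) (ht2 : t ≤ 2) (v : Z) :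
    D.Φ (m2 s 0 t u) v = s * d 0 v + t * d u v := by
  have huu := D.two_ne hu
  have huuu := D.uuu hu
  have E1 : d (0 : Z) u = 0 := d_ne hu
  have E2 : d u (0 : Z) = 0 := d_ne hu.symm
  have E3 : d (u + u) u = 0 := d_ne huuu
  have E4 : d (u + u) (0 : Z) = 0 := d_ne huu.symm
  have E5 : d (0 : Z) 0 = 1 := d_self 0
  have E6 : d u u = 1 := d_self u
  have F1 : ∀ v, D.Φ (m1 1 0) v = d 0 v := fun v => by
    rw [hS 1 (by norm_num) (by norm_num), one_mul]
  have F2 : ∀ v, D.Φ (m1 2 0) v = 2 * d 0 v := fun v => hS 2 (by norm_num) (by norm_num) 0 v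
  have G : ∀ v, d u (v - u) = d (u + u) v := fun v => by rw [← d_add]
  obtain ⟨k11, h11⟩ := D.adj huN hu (s := 1) (t := 1) (by norm_num) (by norm_num) (by norm_num)
    (by norm_num)
  obtain ⟨k21, h21⟩ := D.adj huN hu (s := 2) (t := 1) (by norm_num) (by norm_num) (by norm_num)
    (by norm_num)
  obtain ⟨k12, h12⟩ := D.adj huN hu (s := 1) (t := 2) (by norm_num) (by norm_num) (by norm_num)
    (by norm_num)
  obtain ⟨k22, h22⟩ := D.adj huN hu (s := 2) (t := 2) (by norm_num) (by norm_num) (by norm_num)
    (by norm_num)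
  simp only [F1, F2, d_sub0, G] at h11 h21 h12 h22
  have b11a := D.bd2 hu.symm (s := 1) (t := 1) (by norm_num) (by norm_num) (by norm_num)
    (by norm_num) 0
  have b11b := D.bd2 hu.symm (s := 1) (t := 1) (by norm_num) (by norm_num) (by norm_num)
    (by norm_num) u
  have b21a := D.bd2 hu.symm (s := 2) (t := 1) (by norm_num) (by norm_num) (by norm_num)
    (by norm_num) 0
  have b21b := D.bd2 hu.symm (s := 2) (t := 1) (by norm_num) (by norm_num) (by norm_num)
    (by norm_num) u
  have b12a := D.bd2 hu.symm (s := 1) (t := 2) (by norm_num) (by norm_num) (by norm_num)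
    (by norm_num) 0
  have b12b := D.bd2 hu.symm (s := 1) (t := 2) (by norm_num) (by norm_num) (by norm_num)
    (by norm_num) u
  have b22a := D.bd2 hu.symm (s := 2) (t := 2) (by norm_num) (by norm_num) (by norm_num)
    (by norm_num) 0
  have b22b := D.bd2 hu.symm (s := 2) (t := 2) (by norm_num) (by norm_num) (by norm_num)
    (by norm_num) u
  rw [h11] at b11a b11b
  rw [h21] at b21a b21b
  rw [h12] at b12a b12b
  rw [h22] at b22a b22b
  simp only [E1, E2, E3, E4, E5, E6] at b11a b11b b21a b21b b12a b12b b22a b22b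
  have hk11a : k11 ≠ 1 := by
    rintro rfl
    have := D.inj21 hu.symm (s := 1) (t := 1) (s' := 2) (p' := 0) (by norm_num) (by norm_num)
      (by norm_num) (by norm_num) (by norm_num) (by norm_num)
      (fun v => by rw [h11, F2]; ring) 0
    simp [m2, m1, E2, E5] at this
  have hk11b : k11 ≠ -1 := by
    rintro rfl
    have := D.inj21 hu.symm (s := 1) (t := 1) (s' := 2) (p' := u) (by norm_num) (by norm_num)
      (by norm_num) (by norm_num) (by norm_num) (by norm_num)
      (fun v => by rw [h11, hS 2 (by norm_num) (by norm_num)]; ring) 0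
    simp [m2, m1, E2, E5] at this
  have hk11 : k11 = 0 := by omega
  have hk22 : k22 = 0 := by omega
  have hk21 : k21 = 0 := by
    by_contra hcon
    have hk21' : k21 = -1 := by omega
    subst hk21'
    have hk12 : k12 ≠ 0 := by
      rintro rfl
      have := D.inj2 hu.symm hu.symm (s := 1) (t := 2) (s' := 2) (t' := 1)
        (by norm_num) (by norm_num) (by norm_num) (by norm_num) (by norm_num)
        (by norm_num) (by norm_num) (by norm_num)
        (fun v => by rw [h12, h21]; ring) 0
      simp [m2, m3, E2, E4, E5] at this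
    have hk12' : k12 = 1 := by omega
    subst hk12'
    have := D.inj23 huu.symm hu.symm huu.symm huuu (s := 2) (t := 2) (s' := 1) (t' := 2)
      (r' := 1) (by norm_num) (by norm_num) (by norm_num) (by norm_num) (by norm_num)
      (by norm_num) (by norm_num) (by norm_num) (by norm_num) (by norm_num)
      (fun v => by
        rw [D.row huN hu (by norm_num) (by norm_num) (by norm_num) (by norm_num)
          (by norm_num) (by norm_num), h12, h21, F2,
          D.gap huN hu (by norm_num) (by norm_num) (by norm_num) (by norm_num), F2, F2]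
        simp only [d_sub0, G]
        ring) 0
    simp [m2, m3, E2, E4, E5] at this
  have hk12 : k12 = 0 := by
    by_contra hcon
    have hk12' : k12 = 1 := by omega
    subst hk12'
    have := D.inj2 hu.symm hu.symm (s := 1) (t := 2) (s' := 2) (t' := 1)
      (by norm_num) (by norm_num) (by norm_num) (by norm_num) (by norm_num)
      (by norm_num) (by norm_num) (by norm_num)
      (fun v => by rw [h12, h21, hk21]; ring) 0
    simp [m2, m3, E2, E4, E5] at this
  have hs : s = 0 ∨ s = 1 ∨ s = 2 := by omega
  have ht : t = 0 ∨ t = 1 ∨ t = 2 := by omega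
  rcases hs with rfl | rfl | rfl <;> rcases ht with rfl | rfl | rfl
  · rw [m2_eq_zero_right, hS 0 (by norm_num) (by norm_num)]; ring
  · rw [m2_comm, m2_eq_zero_right, hS 1 (by norm_num) (by norm_num)]; ring
  · rw [m2_comm, m2_eq_zero_right, hS 2 (by norm_num) (by norm_num)]; ring
  · rw [m2_eq_zero_right, hS 1 (by norm_num) (by norm_num)]; ring
  · rw [h11, hk11]; ring
  · rw [h12, hk12]; ring
  · rw [m2_eq_zero_right, hS 2 (by norm_num) (by norm_num)]; ring
  · rw [h21, hk21]; ring
  · rw [h22, hk22]; ring

theorem pairs_stay (hS : ∀ s : ℤ, 0 ≤ s → s ≤ 2 → ∀ p v, D.Φ (m1 s p) v = s * d p v)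
    {p q : Z} (hpq : p ≠ q) {s t : ℤ} (hs0 : 0 ≤ s) (hs2 : s ≤ 2)
    (ht0 : 0 ≤ t) (ht2 : t ≤ 2) (v : Z) :
    D.Φ (m2 s p t q) v = s * d p v + t * d q v := by
  -- adjacent cells
  have hadj : ∀ (x y : Z) (s t : ℤ), x ≠ y → y - x ∈ D.N → 0 ≤ s → s ≤ 2 → 0 ≤ t → t ≤ 2 →
      ∀ v, D.Φ (m2 s x t y) v = s * d x v + t * d y v := by
    intro x y s t hxy hN hs0 hs2 ht0 ht2 v
    have hu : y - x ≠ 0 := fun h => hxy (sub_eq_zero.1 h).symm
    have e := D.tr2 s 0 t (y - x) x v hu.symm hs0 hs2 ht0 ht2
    rw [zero_add, sub_add_cancel] at e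
    rw [e, D.adj_stay hN hu hS hs0 hs2 ht0 ht2, ← d_add, ← d_add, zero_add, sub_add_cancel]
  obtain ⟨r, k, hk, h, hr⟩ := D.pair hpq hs0 hs2 ht0 ht2
  simp only [hS s hs0 hs2, hS t ht0 ht2] at h
  rcases hk.lt_or_eq with hk | hk
  · obtain ⟨hr1, hr2, hr3⟩ := hr hk
    have hb := (D.bd2 hpq hs0 hs2 ht0 ht2 (p + q - r)).1
    rw [h, d_ne (Ne.symm hr1), d_self] at hb
    have hrel : r = p + q - (p + q - r) := by abel
    by_cases e1 : p + q - r = p
    · have : r = q := by rw [hrel, e1]; abel
      rw [this] at hr2
      exact hadj p q s t hpq hr2 hs0 hs2 ht0 ht2 v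
    · by_cases e2 : p + q - r = q
      · have : r = p := by rw [hrel, e2]; abel
        rw [this] at hr3
        have hN : q - p ∈ D.N := by
          have := D.hneg _ hr3
          simpa using this
        exact hadj p q s t hpq hN hs0 hs2 ht0 ht2 v
      · exfalso
        rw [d_ne e1, d_ne e2] at hb
        omega
  · rw [h v, ← hk]; ring

/-- two cells never interact -/
theorem exists_pairs : ∃ a ∈ D.N, (∀ s : ℤ, 0 ≤ s → s ≤ 2 → ∀ p v,
    D.Φ (m1 s p) v = s * d (p + a) v) ∧
    ∀ (p q : Z) (s t : ℤ), p ≠ q → 0 ≤ s → s ≤ 2 → 0 ≤ t → t ≤ 2 → ∀ v,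
      D.Φ (m2 s p t q) v = s * d (p + a) v + t * d (q + a) v := by
  obtain ⟨a, haN, h1, h2⟩ := D.same
  have hS : ∀ s : ℤ, 0 ≤ s → s ≤ 2 → ∀ p v, D.Φ (m1 s p) v = s * d (p + a) v :=
    fun s hs0 hs2 p v => D.single h1 h2 hs0 hs2 p v
  refine ⟨a, haN, hS, fun p q s t hpq hs0 hs2 ht0 ht2 v => ?_⟩
  by_cases ha : a = 0
  · subst ha
    simp only [add_zero] at hS ⊢
    exact D.pairs_stay hS hpq hs0 hs2 ht0 ht2 v
  · exact D.pairs_move haN ha hS hpq hs0 hs2 ht0 ht2 v

theorem finsum_shift (m : Z → ℤ) (a : Z) : ∑ᶠ v, m (v - a) = ∑ᶠ v, m v :=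
  finsum_comp_equiv (Equiv.subRight a) (f := m)

/-- on valid configurations the map is a shift -/
theorem shift : ∃ a ∈ D.N, ∀ m, V m → ∀ v, D.Φ m v = m (v - a) := by
  obtain ⟨a, haN, hS, hP⟩ := D.exists_pairs
  refine ⟨a, haN, ?_⟩
  have main : ∀ (n : ℕ) (m : Z → ℤ) (hm : V m), hm.1.toFinset.card = n →
      ∀ v, D.Φ m v = m (v - a) := by
    intro n
    induction n using Nat.strong_induction_on with
    | _ n ih =>
      intro m hm hn v
      have hmem : ∀ w, w ∈ hm.1.toFinset ↔ m w ≠ 0 := fun w => by simp
      rcases Nat.lt_or_ge 2 n with h3 | h3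
      · -- at least three cells
        rw [← hn] at h3
        obtain ⟨p1, hp1, p2, hp2, p3, hp3, h12, h13, h23⟩ := Finset.two_lt_card.1 h3
        -- cells where some nonzero cell is not seen
        have hgood : ∀ w, (∃ p ∈ hm.1.toFinset, w - p ∉ D.N) → D.Φ m w = m (w - a) := by
          rintro w ⟨p, hp, hpw⟩
          have hm' : V (Function.update m p 0) := by
            refine ⟨hm.1.subset ?_, fun z => ?_⟩
            · intro z hz hz0
              apply hz
              by_cases hzp : z = p
              · rw [hzp]; simp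
              · rw [Function.update_of_ne hzp]; exact hz0
            · by_cases hzp : z = p
              · rw [hzp]; simp
              · rw [Function.update_of_ne hzp]; exact hm.2 z
          have hcard : hm'.1.toFinset.card < n := by
            rw [← hn]
            apply Finset.card_lt_card
            rw [Finset.ssubset_iff_of_subset]
            · refine ⟨p, hp, by simp⟩
            · intro z hz
              rw [hmem]
              simp only [Set.Finite.mem_toFinset, mem_support] at hz
              by_cases hzp : z = p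
              · rw [hzp] at hz; simp at hz
              · rwa [Function.update_of_ne hzp] at hz
          have e1 := ih _ hcard _ hm' rfl w
          have e2 : D.Φ m w = D.Φ (Function.update m p 0) w := by
            apply D.hL _ _ _ hm hm'
            intro z hz
            have : z ≠ p := by rintro rfl; exact hpw hz
            rw [Function.update_of_ne this]
          rw [e2, e1, Function.update_of_ne]
          intro hc
          apply hpw
          rw [← hc]
          have : w - (w - a) = a := by abel
          rw [this]; exact haN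
        by_cases hv : ∃ p ∈ hm.1.toFinset, v - p ∉ D.N
        · exact hgood v hv
        · push Not at hv
          have huniq : ∀ w, w ≠ v → ∃ p ∈ hm.1.toFinset, w - p ∉ D.N := by
            intro w hw
            by_contra hcon
            push Not at hcon
            have hn' : ∀ x y : Z, x - y ∈ D.N → y - x ∈ D.N := by
              intro x y h
              have := D.hneg _ h
              simpa using this
            have c1 := D.common hw (hn' _ _ (hcon p1 hp1)) (hn' _ _ (hv p1 hp1))
              (hn' _ _ (hcon p2 hp2)) (hn' _ _ (hv p2 hp2))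
            have c2 := D.common hw (hn' _ _ (hcon p1 hp1)) (hn' _ _ (hv p1 hp1))
              (hn' _ _ (hcon p3 hp3)) (hn' _ _ (hv p3 hp3))
            rcases c1 with c1 | c1
            · exact h12 c1.symm
            · rcases c2 with c2 | c2
              · exact h13 c2.symm
              · exact h23 (c1.trans c2.symm)
          have hsum : ∑ᶠ w, (D.Φ m w - m (w - a)) = 0 := by
            have hf2 : (support fun w => m (w - a)).Finite := by
              have : (support fun w => m (w - a)) = (fun w => w + a) '' support m := by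
                ext w
                simp only [mem_support, Set.mem_image]
                constructor
                · intro h; exact ⟨w - a, h, by abel⟩
                · rintro ⟨z, hz, rfl⟩
                  simpa using hz
              rw [this]
              exact hm.1.image _
            rw [finsum_sub_distrib (D.hV _ hm).1 hf2, D.hS _ hm, finsum_shift, sub_self]
          rw [finsum_eq_single _ v] at hsum
          · linarith
          · intro w hw
            rw [hgood w (huniq w hw), sub_self]
      · -- at most two cells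
        have hn2 : n = 0 ∨ n = 1 ∨ n = 2 := by omega
        rcases hn2 with rfl | rfl | rfl
        · have hz : m = fun _ => 0 := by
            funext w
            by_contra hc
            have := (hmem w).2 hc
            rw [Finset.card_eq_zero.1 hn] at this
            simp at this
          rw [hz, D.Phi_zero]
        · obtain ⟨p, hp⟩ := Finset.card_eq_one.1 hn
          have hz : m = m1 (m p) p := by
            funext w
            by_cases hw : w = p
            · rw [hw]; simp [m1, d_self]
            · have : m w = 0 := by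
                by_contra hc
                have := (hmem w).2 hc
                rw [hp] at this
                simp at this; exact hw this
              rw [this]; simp [m1, d_ne hw]
          rw [hz, hS _ (hm.2 p).1 (hm.2 p).2]
          simp only [m1]
          rw [← d_add]
        · obtain ⟨p, q, hpq, hp⟩ := Finset.card_eq_two.1 hn
          have hz : m = m2 (m p) p (m q) q := by
            funext w
            by_cases hw : w = p
            · rw [hw]; simp [m2, d_self, d_ne hpq]
            · by_cases hw' : w = q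
              · rw [hw']; simp [m2, d_self, d_ne hpq.symm]
              · have : m w = 0 := by
                  by_contra hc
                  have := (hmem w).2 hc
                  rw [hp] at this
                  simp at this
                  rcases this with h | h
                  · exact hw h
                  · exact hw' h
                rw [this]; simp [m2, d_ne hw, d_ne hw']
          rw [hz, hP p q _ _ hpq (hm.2 p).1 (hm.2 p).2 (hm.2 q).1 (hm.2 q).2]
          simp only [m2]
          rw [← d_add, ← d_add]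
  intro m hm v
  exact main _ m hm rfl v

end Dat

end Pool.Agent.R995.NC
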