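import Pool.Agent.R995.NC6

set_option autoImplicit false
set_option linter.unusedSimpArgs false
set_option linter.unusedVariables false
set_option linter.unusedSectionVars false

/-! # The lattice `ℤ^d` with the von Neumann neighbourhood -/

namespace Pool.Agent.R995.NC

open Function Classical

/-- the von Neumann neighbourhood of `ℤ^n`: the cells `0, ±e_1, …, ±e_n` -/
def vN (n : ℕ) : Set (Fin n → ℤ) :=
  {u | u = 0 ∨ ∃ i : Fin n, u = Pi.single i 1 ∨ u = -Pi.single i 1}

/-- the global map of the cellular automaton with local rule `f` -/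
def glob {n : ℕ} (f : (vN n → Fin 3) → Fin 3) (x : (Fin n → ℤ) → Fin 3) :
    (Fin n → ℤ) → Fin 3 :=
  fun v => f (fun u => x (v + (u : Fin n → ℤ)))

/-- for every spatially periodic configuration, with period `p i` in direction `i`, the sum of the
states over one period is preserved -/
def PeriodSumPreserved {n : ℕ} (F : ((Fin n → ℤ) → Fin 3) → ((Fin n → ℤ) → Fin 3)) : Prop :=
  ∀ (p : Fin n → ℕ), (∀ i, 0 < p i) → ∀ x : (Fin n → ℤ) → Fin 3,
    (∀ v i, x (v + Pi.single i (p i : ℤ)) = x v) →
    ∑ v ∈ Fintype.piFinset (fun i => Finset.Ico (0 : ℤ) (p i)), (F x v : ℕ) =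
      ∑ v ∈ Fintype.piFinset (fun i => Finset.Ico (0 : ℤ) (p i)), (x v : ℕ)

/-- for every configuration with finitely many nonzero cells, the image has finitely many nonzero
cells and the same sum of states -/
def FiniteSumPreserved {n : ℕ} (F : ((Fin n → ℤ) → Fin 3) → ((Fin n → ℤ) → Fin 3)) : Prop :=
  ∀ x : (Fin n → ℤ) → Fin 3, {v | x v ≠ 0}.Finite →
    {v | F x v ≠ 0}.Finite ∧ ∑ᶠ v, (F x v : ℕ) = ∑ᶠ v, (x v : ℕ)

variable {n : ℕ}

theorem vN_finite (n : ℕ) : (vN n).Finite := by
  have h : vN n ⊆ {0} ∪ (Set.range (fun i : Fin n => (Pi.single i 1 : Fin n → ℤ)) ∪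
      Set.range (fun i : Fin n => -(Pi.single i 1 : Fin n → ℤ))) := by
    rintro u (rfl | ⟨i, rfl | rfl⟩)
    · left; rfl
    · right; left; exact ⟨i, rfl⟩
    · right; right; exact ⟨i, rfl⟩
  exact ((Set.finite_singleton _).union ((Set.finite_range _).union (Set.finite_range _))).subset h

theorem vN_neg {u : Fin n → ℤ} (h : u ∈ vN n) : -u ∈ vN n := by
  rcases h with rfl | ⟨i, rfl | rfl⟩
  · left; simp
  · right; exact ⟨i, Or.inr rfl⟩
  · right; exact ⟨i, Or.inl (by simp)⟩

theorem vN_zero : (0 : Fin n → ℤ) ∈ vN n := Or.inl rfl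

theorem vN_le {u : Fin n → ℤ} (h : u ∈ vN n) (i : Fin n) : -1 ≤ u i ∧ u i ≤ 1 := by
  rcases h with rfl | ⟨j, rfl | rfl⟩
  · simp
  · by_cases hij : i = j
    · subst hij; simp
    · simp [Pi.single_eq_of_ne hij]
  · by_cases hij : i = j
    · subst hij; simp
    · simp [Pi.single_eq_of_ne hij]

theorem vN_one {u : Fin n → ℤ} (h : u ∈ vN n) {i : Fin n} (hi : u i = 1) :
    u = Pi.single i 1 := by
  rcases h with rfl | ⟨j, rfl | rfl⟩
  · simp at hi
  · by_cases hij : i = j
    · subst hij; rfl
    · simp [Pi.single_eq_of_ne hij] at hi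
  · by_cases hij : i = j
    · subst hij; simp at hi
    · simp [Pi.single_eq_of_ne hij] at hi

theorem vN_neg_one {u : Fin n → ℤ} (h : u ∈ vN n) {i : Fin n} (hi : u i = -1) :
    u = -Pi.single i 1 := by
  have h1 := vN_one (vN_neg h) (i := i) (by simp [hi])
  rw [← h1, neg_neg]

theorem vN_aux {x y z w : Fin n → ℤ} (hx : x ∈ vN n) (hx0 : x ≠ 0) (hy : y ∈ vN n)
    (hz : z ∈ vN n) (hw : w ∈ vN n) (h : x + y = z + w) (hxz : x ≠ z) (hxw : x ≠ w) :
    x + y = 0 := by
  rcases hx with rfl | ⟨i, rfl | rfl⟩
  · exact absurd rfl hx0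
  · have e := congrFun h i
    simp only [Pi.add_apply, Pi.single_eq_same] at e
    have h1 : z i ≠ 1 := fun hc => hxz (vN_one hz hc).symm
    have h2 : w i ≠ 1 := fun hc => hxw (vN_one hw hc).symm
    have h3 := vN_le hz i
    have h4 := vN_le hw i
    have h5 := vN_le hy i
    have h6 : y i = -1 := by omega
    rw [vN_neg_one hy h6]; simp
  · have e := congrFun h i
    simp only [Pi.add_apply, Pi.neg_apply, Pi.single_eq_same] at e
    have h1 : z i ≠ -1 := fun hc => hxz (vN_neg_one hz hc).symm
    have h2 : w i ≠ -1 := fun hc => hxw (vN_neg_one hw hc).symm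
    have h3 := vN_le hz i
    have h4 := vN_le hw i
    have h5 := vN_le hy i
    have h6 : y i = 1 := by omega
    rw [vN_one hy h6]; simp

theorem vN_A {a b c e : Fin n → ℤ} (ha : a ∈ vN n) (hb : b ∈ vN n) (hc : c ∈ vN n)
    (he : e ∈ vN n) (h : a - b = c - e) (hab : a ≠ b) :
    (c = a ∧ e = b) ∨ (c = -b ∧ e = -a) := by
  have h1 : a + e = c + b := by
    calc a + e = a - b + b + e := by abel
      _ = c - e + b + e := by rw [h]
      _ = c + b := by abel
  by_cases hac : a = c
  · left
    subst hac
    exact ⟨rfl, add_left_cancel h1⟩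
  · right
    have h0 : a + e = 0 := by
      by_cases ha0 : a = 0
      · by_cases he0 : e = 0
        · rw [ha0, he0, add_zero]
        · rw [add_comm]
          apply vN_aux he he0 ha hb hc (by rw [add_comm, h1, add_comm])
          · intro heb
            apply hac
            rw [heb] at h1
            exact add_right_cancel h1
          · intro hec
            apply hab
            rw [hec, add_comm] at h1
            exact add_left_cancel h1
      · exact vN_aux ha ha0 he hc hb h1 hac hab
    refine ⟨?_, ?_⟩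
    · rw [h1] at h0
      exact eq_neg_of_add_eq_zero_left h0
    · exact eq_neg_of_add_eq_zero_right h0

/-! ## From integer valued functions to configurations -/

/-- reading an integer as a state -/
def clampS (z : ℤ) : Fin 3 := if z = 1 then 1 else if z = 2 then 2 else 0

theorem clampS_val {z : ℤ} (h : 0 ≤ z ∧ z ≤ 2) : ((clampS z : ℕ) : ℤ) = z := by
  unfold clampS
  have : z = 0 ∨ z = 1 ∨ z = 2 := by omega
  rcases this with rfl | rfl | rfl <;> simp

theorem clampS_cast (s : Fin 3) : clampS ((s : ℕ) : ℤ) = s := by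
  fin_cases s <;> simp [clampS]

/-- the map on integer valued functions -/
def Phi (f : (vN n → Fin 3) → Fin 3) (m : (Fin n → ℤ) → ℤ) : (Fin n → ℤ) → ℤ :=
  fun v => ((glob f (fun w => clampS (m w)) v : ℕ) : ℤ)

theorem glob_local (f : (vN n → Fin 3) → Fin 3) {x y : (Fin n → ℤ) → Fin 3} {v : Fin n → ℤ}
    (h : ∀ u ∈ vN n, x (v + u) = y (v + u)) : glob f x v = glob f y v := by
  unfold glob
  congr 1
  funext u
  exact h u u.2

/-- the data for the abstract theorem -/
noncomputable def mkDat (f : (vN n → Fin 3) → Fin 3) (hF : FiniteSumPreserved (glob f))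
    (hI : Function.Injective (glob f)) : Dat (Fin n → ℤ) where
  N := vN n
  Φ := Phi f
  h0 := vN_zero
  hneg := fun u hu => vN_neg hu
  hA := fun a ha b hb c hc e he h hab => vN_A ha hb hc he h hab
  h2 := by
    intro a ha
    funext i
    have := congrFun ha i
    simp only [Pi.add_apply, Pi.zero_apply] at this ⊢
    omega
  hV := by
    intro m hm
    have hfin : {v | clampS (m v) ≠ 0}.Finite := by
      apply hm.1.subset
      intro v hv hv0
      apply hv
      rw [hv0]; rfl
    refine ⟨?_, fun v => ?_⟩
    · apply (hF _ hfin).1.subset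
      intro v hv hv0
      apply hv
      unfold Phi
      rw [hv0]; rfl
    · unfold Phi
      have := (glob f (fun w => clampS (m w)) v).2
      omega
  hS := by
    intro m hm
    have hfin : {v | clampS (m v) ≠ 0}.Finite := by
      apply hm.1.subset
      intro v hv hv0
      apply hv
      rw [hv0]; rfl
    obtain ⟨h1, h2⟩ := hF _ hfin
    have e1 : ∑ᶠ v, Phi f m v = ((∑ᶠ v, (glob f (fun w => clampS (m w)) v : ℕ) : ℕ) : ℤ) := by
      unfold Phi
      rw [← Nat.coe_castAddMonoidHom, AddMonoidHom.map_finsum]
      apply h1.subset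
      intro v hv hv0
      apply hv
      show ((glob f (fun w => clampS (m w)) v : ℕ)) = 0
      rw [hv0]; rfl
    have e2 : ∑ᶠ v, m v = ((∑ᶠ v, (clampS (m v) : ℕ) : ℕ) : ℤ) := by
      rw [← Nat.coe_castAddMonoidHom, AddMonoidHom.map_finsum]
      · apply finsum_congr
        intro v
        rw [Nat.coe_castAddMonoidHom, clampS_val (hm.2 v)]
      · apply hfin.subset
        intro v hv hv0
        apply hv
        show ((clampS (m v) : ℕ)) = 0
        rw [hv0]; rfl
    rw [e1, e2, h2]
  hL := by
    intro m m' v hm hm' h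
    unfold Phi
    congr 2
    apply glob_local
    intro u hu
    rw [h (v + u) (by
      have : v - (v + u) = -u := by abel
      rw [this]; exact vN_neg hu)]
  hT := by
    intro m t v hm
    unfold Phi glob
    congr 3
    funext u
    have : v + (u : Fin n → ℤ) - t = v - t + u := by abel
    show clampS (m (v + (u : Fin n → ℤ) - t)) = clampS (m (v - t + u))
    rw [this]
  hI := by
    intro m m' hm hm' h
    have h1 : glob f (fun w => clampS (m w)) = glob f (fun w => clampS (m' w)) := by
      funext v
      have := congrFun h v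
      unfold Phi at this
      exact Fin.ext (by exact_mod_cast this)
    have h2 := hI h1
    funext v
    have h3 : clampS (m v) = clampS (m' v) := congrFun h2 v
    rw [← clampS_val (hm.2 v), ← clampS_val (hm'.2 v), h3]

theorem main_finite (f : (vN n → Fin 3) → Fin 3) (hF : FiniteSumPreserved (glob f))
    (hI : Function.Injective (glob f)) :
    ∃ u ∈ vN n, ∀ x v, glob f x v = x (v + u) := by
  obtain ⟨a, ha, h⟩ := (mkDat f hF hI).shift
  change a ∈ vN n at ha
  refine ⟨-a, vN_neg ha, ?_⟩
  intro x v
  -- restrict to the neighbourhood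
  let m : (Fin n → ℤ) → ℤ := fun w => if w - v ∈ vN n then ((x w : ℕ) : ℤ) else 0
  have hm : V m := by
    refine ⟨?_, fun w => ?_⟩
    · apply ((vN_finite n).image (fun u => v + u)).subset
      intro w hw
      have : w - v ∈ vN n := by
        by_contra hc
        apply hw
        simp [m, hc]
      exact ⟨w - v, this, by simp⟩
    · simp only [m]
      split_ifs
      · have := (x w).2
        omega
      · omega
  have h1 := h m hm v
  have h2 : (mkDat f hF hI).Φ m v = ((glob f x v : ℕ) : ℤ) := by
    change Phi f m v = _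
    unfold Phi
    congr 2
    apply glob_local
    intro u hu
    have : v + u - v = u := by abel
    simp only [m, this, hu, if_true]
    exact clampS_cast _
  rw [h2] at h1
  have h3 : m (v - a) = ((x (v - a) : ℕ) : ℤ) := by
    have : v - a - v = -a := by abel
    simp only [m, this, vN_neg ha, if_true]
  rw [h3] at h1
  rw [← sub_eq_add_neg]
  exact Fin.ext (by exact_mod_cast h1)

end Pool.Agent.R995.NC
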