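import Pool.Agent.R995.NC7

set_option autoImplicit false
set_option linter.unusedSimpArgs false
set_option linter.unusedVariables false
set_option linter.unusedSectionVars false

/-! # The periodic form of number conservation implies the finite form -/

namespace Pool.Agent.R995.NC

open Function Classical

variable {n : ℕ}

theorem f_zero (f : (vN n → Fin 3) → Fin 3) (h : PeriodSumPreserved (glob f)) :
    f (fun _ => 0) = 0 := by
  have h1 := h (fun _ => 1) (fun _ => one_pos) (fun _ => 0) (fun _ _ => rfl)
  simp only [Fin.val_zero, Finset.sum_const_zero] at h1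
  have h2 := (Finset.sum_eq_zero_iff.1 h1) 0 (by
    rw [Fintype.mem_piFinset]
    intro i
    simp)
  have h3 : glob f (fun _ => 0) 0 = 0 := Fin.ext h2
  exact h3

theorem exists_bound (S : Set (Fin n → ℤ)) (hS : S.Finite) :
    ∃ M : ℕ, ∀ v ∈ S, ∀ i, -(M : ℤ) ≤ v i ∧ v i ≤ M := by
  refine ⟨hS.toFinset.sup (fun v => Finset.univ.sup (fun i => (v i).natAbs)), ?_⟩
  intro v hv i
  have h1 : (v i).natAbs ≤ Finset.univ.sup (fun i => (v i).natAbs) :=
    Finset.le_sup (f := fun i => (v i).natAbs) (Finset.mem_univ i)
  have h2 : Finset.univ.sup (fun i => (v i).natAbs) ≤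
      hS.toFinset.sup (fun v => Finset.univ.sup (fun i => (v i).natAbs)) :=
    Finset.le_sup (f := fun v : Fin n → ℤ => Finset.univ.sup (fun i => (v i).natAbs))
      (hS.mem_toFinset.2 hv)
  have h3 := h1.trans h2
  omega

theorem finite_of_period (f : (vN n → Fin 3) → Fin 3) (h : PeriodSumPreserved (glob f)) :
    FiniteSumPreserved (glob f) := by
  intro x hx
  have hf0 := f_zero f h
  obtain ⟨M, hM⟩ := exists_bound _ hx
  set t : Fin n → ℤ := fun _ => (M : ℤ) + 1 with ht
  set L : ℕ := 2 * M + 3 with hL
  set x' : (Fin n → ℤ) → Fin 3 := fun v => x (v - t) with hx'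
  set y : (Fin n → ℤ) → Fin 3 := fun v => x' (fun i => v i % (L : ℤ)) with hy
  set B : Finset (Fin n → ℤ) := Fintype.piFinset (fun _ => Finset.Ico (0 : ℤ) (L : ℤ)) with hB
  have hmemB : ∀ v, v ∈ B ↔ ∀ i, 0 ≤ v i ∧ v i < (L : ℤ) := by
    intro v
    simp [hB, Fintype.mem_piFinset]
  have hx0 : ∀ v i, (v i ≤ 0 ∨ (L : ℤ) - 1 ≤ v i) → x' v = 0 := by
    intro v i hv
    by_contra hc
    have h1 := hM _ hc i
    simp only [Pi.sub_apply, ht] at h1
    push_cast [hL] at hv
    omega
  have hper : ∀ v i, y (v + Pi.single i ((L : ℕ) : ℤ)) = y v := by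
    intro v i
    simp only [hy]
    congr 1
    funext j
    by_cases hij : j = i
    · subst hij; simp
    · simp [Pi.single_eq_of_ne hij]
  have e1 := h (fun _ => L) (fun _ => by omega) y hper
  change ∑ v ∈ B, (glob f y v : ℕ) = ∑ v ∈ B, (y v : ℕ) at e1
  have e2 : ∀ v ∈ B, y v = x' v := by
    intro v hv
    simp only [hy]
    congr 1
    funext i
    have := (hmemB v).1 hv i
    exact Int.emod_eq_of_lt this.1 this.2
  have e3 : ∀ v ∈ B, glob f y v = glob f x' v := by
    intro v hv
    apply glob_local
    intro u hu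
    by_cases hin : v + u ∈ B
    · exact e2 _ hin
    · rw [hmemB] at hin
      push Not at hin
      obtain ⟨i, hi⟩ := hin
      have h1 := (hmemB v).1 hv i
      have h2 := vN_le hu i
      simp only [Pi.add_apply] at hi
      have h3 : v i + u i = -1 ∨ v i + u i = L := by
        by_cases h4 : 0 ≤ v i + u i
        · right; have := hi h4; omega
        · left; omega
      have h5 : x' (v + u) = 0 := by
        apply hx0 _ i
        simp only [Pi.add_apply]
        rcases h3 with h3 | h3
        · left; omega
        · right; omega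
      rw [h5]
      simp only [hy]
      apply hx0 _ i
      simp only [Pi.add_apply]
      rcases h3 with h3 | h3
      · right
        rw [h3]
        have : (-1 : ℤ) % (L : ℤ) = L - 1 := by
          rw [show (-1 : ℤ) = ((L : ℤ) - 1) + (L : ℤ) * (-1) by ring, Int.add_mul_emod_self_left]
          exact Int.emod_eq_of_lt (by omega) (by omega)
        omega
      · left
        rw [h3]; simp
  have e4 : ∀ v, v ∉ B → glob f x' v = 0 := by
    intro v hv
    rw [← hf0]
    unfold glob
    congr 1
    funext u
    rw [hmemB] at hv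
    push Not at hv
    obtain ⟨i, hi⟩ := hv
    have h2 := vN_le u.2 i
    apply hx0 _ i
    simp only [Pi.add_apply]
    by_cases h4 : 0 ≤ v i
    · right; have := hi h4; omega
    · left; omega
  have e4' : ∀ v, v ∉ B → x' v = 0 := by
    intro v hv
    rw [hmemB] at hv
    push Not at hv
    obtain ⟨i, hi⟩ := hv
    apply hx0 _ i
    by_cases h4 : 0 ≤ v i
    · right; have := hi h4; omega
    · left; omega
  have e5 : ∀ v, glob f x' v = glob f x (v - t) := by
    intro v
    unfold glob
    congr 1
    funext u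
    simp only [hx']
    congr 1
    abel
  have e6 : ∀ g : (Fin n → ℤ) → Fin 3, ∑ᶠ v, (g v : ℕ) = ∑ᶠ v, (g (v - t) : ℕ) := by
    intro g
    exact (finsum_comp_equiv (Equiv.subRight t) (f := fun v => (g v : ℕ))).symm
  refine ⟨?_, ?_⟩
  · have h1 : {v | glob f x v ≠ 0} ⊆ (fun v => v - t) '' (B : Set (Fin n → ℤ)) := by
      intro v hv
      refine ⟨v + t, ?_, by simp⟩
      by_contra hc
      apply hv
      have := e4 _ hc
      rw [e5] at this
      simpa using this
    exact (B.finite_toSet.image _).subset h1
  · rw [e6 (glob f x), e6 x]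
    have h1 : ∑ᶠ v, (glob f x (v - t) : ℕ) = ∑ v ∈ B, (glob f x' v : ℕ) := by
      rw [← finsum_eq_sum_of_support_subset]
      · apply finsum_congr
        intro v
        rw [e5]
      · intro v hv
        by_contra hc
        apply hv
        show ((glob f x' v : ℕ)) = 0
        rw [e4 _ hc]; rfl
    have h2 : ∑ᶠ v, (x (v - t) : ℕ) = ∑ v ∈ B, (x' v : ℕ) := by
      rw [← finsum_eq_sum_of_support_subset]
      intro v hv
      by_contra hc
      apply hv
      show ((x' v : ℕ)) = 0
      rw [e4' _ hc]; rfl
    have h3 : ∑ v ∈ B, (glob f x' v : ℕ) = ∑ v ∈ B, (glob f y v : ℕ) :=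
      Finset.sum_congr rfl (fun v hv => by rw [e3 v hv])
    rw [h1, h2, h3, e1]
    exact Finset.sum_congr rfl (fun v hv => by rw [e2 v hv])

end Pool.Agent.R995.NC
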