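import Mathlib

set_option autoImplicit false
set_option linter.unusedSimpArgs false
set_option linter.unusedVariables false
set_option linter.unusedSectionVars false

/-! # The sextic Freud string equation: algebra of the monic polynomials -/

namespace Pool.Agent.R995.SF

open Polynomial

/-- the monic polynomials with `P (n+1) = x P n - b n P (n-1)` -/
noncomputable def P (b : ℕ → ℝ) : ℕ → ℝ[X]
  | 0 => 1
  | 1 => X
  | (n + 2) => X * P b (n + 1) - C (b (n + 1)) * P b n

/-- `h n = b 1 ⋯ b n` -/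
noncomputable def h (b : ℕ → ℝ) : ℕ → ℝ
  | 0 => 1
  | (n + 1) => b (n + 1) * h b n

/-- the string equation (E) at the index `n` (for `n = 1` the term with `b (n-2)` vanishes because
of the factor `b 0 = 0`) -/
def StringEq (τ t : ℝ) (b : ℕ → ℝ) (n : ℕ) : Prop :=
  6 * b n * (b (n - 2) * b (n - 1) + b (n - 1) ^ 2 + 2 * b (n - 1) * b n + b (n - 1) * b (n + 1)
    + b n ^ 2 + 2 * b n * b (n + 1) + b (n + 1) ^ 2 + b (n + 1) * b (n + 2))
    - 4 * τ * b n * (b (n - 1) + b n + b (n + 1)) - 2 * t * b n = n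

/-- the derivative of `x^6 - τ x^4 - t x^2` -/
noncomputable def dV (τ t : ℝ) : ℝ[X] := C 6 * X ^ 5 - C (4 * τ) * X ^ 3 - C (2 * t) * X

theorem P_zero (b : ℕ → ℝ) : P b 0 = 1 := rfl
theorem P_one (b : ℕ → ℝ) : P b 1 = X := rfl
theorem P_add_two (b : ℕ → ℝ) (n : ℕ) :
    P b (n + 2) = X * P b (n + 1) - C (b (n + 1)) * P b n := rfl

theorem h_succ (b : ℕ → ℝ) (n : ℕ) : h b (n + 1) = b (n + 1) * h b n := rfl

theorem X_mul_P {b : ℕ → ℝ} (hb : b 0 = 0) (n : ℕ) :
    X * P b n = P b (n + 1) + C (b n) * P b (n - 1) := by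
  rcases n with _ | n
  · simp [P_zero, P_one, hb]
  · rw [P_add_two]; simp

theorem P_monic_natDegree (b : ℕ → ℝ) (n : ℕ) :
    (P b n).natDegree ≤ n ∧ (P b n).coeff n = 1 ∧
      (P b (n + 1)).natDegree ≤ n + 1 ∧ (P b (n + 1)).coeff (n + 1) = 1 := by
  induction n with
  | zero => simp [P_zero, P_one]
  | succ n ih =>
    obtain ⟨h1, h2, h3, h4⟩ := ih
    refine ⟨h3, h4, ?_, ?_⟩
    · rw [P_add_two]
      apply (natDegree_sub_le _ _).trans
      apply max_le
      · apply (natDegree_mul_le).trans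
        rw [natDegree_X]; omega
      · apply (natDegree_C_mul_le _ _).trans
        omega
    · rw [P_add_two, coeff_sub, coeff_X_mul, h4, coeff_C_mul,
        coeff_eq_zero_of_natDegree_lt (by omega)]
      ring

theorem P_natDegree (b : ℕ → ℝ) (n : ℕ) : (P b n).natDegree ≤ n := (P_monic_natDegree b n).1
theorem P_coeff (b : ℕ → ℝ) (n : ℕ) : (P b n).coeff n = 1 := (P_monic_natDegree b n).2.1

theorem P_parity (b : ℕ → ℝ) (n : ℕ) :
    (∀ k, Odd (n + k) → (P b n).coeff k = 0) ∧
      (∀ k, Odd (n + 1 + k) → (P b (n + 1)).coeff k = 0) := by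
  induction n with
  | zero =>
    constructor
    · intro k hk
      rw [P_zero, coeff_one]
      have : k ≠ 0 := by rintro rfl; simp at hk
      simp [this]
    · intro k hk
      rw [P_one, coeff_X]
      have : 1 ≠ k := by
        rintro rfl
        exact absurd hk (by decide)
      simp [this]
  | succ n ih =>
    refine ⟨ih.2, ?_⟩
    intro k hk
    rw [P_add_two, coeff_sub, coeff_C_mul, ih.1 k (by
      rcases hk with ⟨a, ha⟩
      exact ⟨a - 1, by omega⟩)]
    rcases k with _ | k
    · simp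
    · rw [coeff_X_mul, ih.2 k (by
        rcases hk with ⟨a, ha⟩
        exact ⟨a - 1, by omega⟩)]
      ring

theorem PP_parity (b : ℕ → ℝ) (n k : ℕ) (hk : Even k) : (P b (n + 1) * P b n).coeff k = 0 := by
  rw [coeff_mul]
  apply Finset.sum_eq_zero
  rintro ⟨i, j⟩ hij
  rw [Finset.HasAntidiagonal.mem_antidiagonal] at hij
  simp only at hij ⊢
  rcases Nat.even_or_odd (n + j) with he | ho
  · rw [(P_parity b n).2 i, zero_mul]
    rcases he with ⟨a, ha⟩
    rcases hk with ⟨c, hc⟩
    rw [Nat.odd_iff]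
    omega
  · rw [(P_parity b n).1 j ho, mul_zero]

/-- the functional `E` integrates the products `P n * P m` correctly for `n, m ≤ M` -/
def Orth (E : ℝ[X] →ₗ[ℝ] ℝ) (b : ℕ → ℝ) (M : ℕ) : Prop :=
  ∀ n m, n ≤ M → m ≤ M → E (P b n * P b m) = if n = m then h b n else 0

variable {E : ℝ[X] →ₗ[ℝ] ℝ} {b : ℕ → ℝ} {M : ℕ}

theorem E_C_mul (E : ℝ[X] →ₗ[ℝ] ℝ) (c : ℝ) (p : ℝ[X]) : E (C c * p) = c * E p := by
  rw [← smul_eq_C_mul, map_smul, smul_eq_mul]

theorem Orth.low (hE : Orth E b M) {n : ℕ} (hn : n ≤ M) :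
    ∀ k, k ≤ n → ∀ q : ℝ[X], q.degree < k → E (P b n * q) = 0 := by
  intro k
  induction k with
  | zero =>
    intro _ q hq
    have : q = 0 := by
      rw [← degree_eq_bot]
      exact Nat.WithBot.lt_zero_iff.1 (by simpa using hq)
    rw [this]; simp
  | succ k ih =>
    intro hk q hq
    have h1 : q = C (q.coeff k) * P b k + (q - C (q.coeff k) * P b k) := by ring
    have h2 : (q - C (q.coeff k) * P b k).degree < k := by
      rw [degree_lt_iff_coeff_zero]
      intro m hm
      rcases Nat.eq_or_lt_of_le hm with rfl | hm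
      · rw [coeff_sub, coeff_C_mul, P_coeff]; ring
      · rw [coeff_sub, coeff_C_mul, coeff_eq_zero_of_natDegree_lt ((P_natDegree b k).trans_lt hm),
          mul_zero, sub_zero]
        exact (degree_lt_iff_coeff_zero q (k + 1)).1 hq m hm
    rw [h1, mul_add, map_add, ih (by omega) _ h2, add_zero, mul_left_comm, E_C_mul,
      hE n k hn (by omega), if_neg (by omega), mul_zero]

theorem Orth.top (hE : Orth E b M) {n : ℕ} (hn : n ≤ M) (q : ℝ[X]) (hq : q.natDegree ≤ n) :
    E (P b n * q) = q.coeff n * h b n := by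
  have h1 : q = C (q.coeff n) * P b n + (q - C (q.coeff n) * P b n) := by ring
  have h2 : (q - C (q.coeff n) * P b n).degree < n := by
    rw [degree_lt_iff_coeff_zero]
    intro m hm
    rcases Nat.eq_or_lt_of_le hm with rfl | hm
    · rw [coeff_sub, coeff_C_mul, P_coeff]; ring
    · rw [coeff_sub, coeff_C_mul, coeff_eq_zero_of_natDegree_lt ((P_natDegree b n).trans_lt hm),
        mul_zero, sub_zero]
      exact coeff_eq_zero_of_natDegree_lt (hq.trans_lt hm)
  conv_lhs => rw [h1]
  rw [mul_add, map_add, hE.low hn n le_rfl _ h2, add_zero, mul_left_comm, E_C_mul,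
      hE n n hn hn, if_pos rfl]

/-- the derivative side of the string equation -/
theorem Orth.deriv_side (hE : Orth E b M) {m : ℕ} (hm : m + 1 ≤ M) :
    E (derivative (P b (m + 1) * P b m)) = (m + 1) * h b m := by
  rw [derivative_mul, map_add]
  have h1 : E (derivative (P b (m + 1)) * P b m) = (m + 1) * h b m := by
    rw [mul_comm, hE.top (by omega)]
    · rw [coeff_derivative, P_coeff]; ring
    · apply (natDegree_derivative_le _).trans
      have := P_natDegree b (m + 1)
      omega
  have h2 : E (P b (m + 1) * derivative (P b m)) = 0 := by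
    have h3 : (derivative (P b m)).natDegree ≤ m := by
      apply (natDegree_derivative_le _).trans
      have := P_natDegree b m
      omega
    rw [hE.top hm _ (by omega), coeff_eq_zero_of_natDegree_lt (by omega), zero_mul]
  rw [h1, h2, add_zero]

theorem X2P (hb : b 0 = 0) (n : ℕ) :
    X ^ 2 * P b n = P b (n + 2) + C (b n + b (n + 1)) * P b n
      + C (b n * b (n - 1)) * P b (n - 2) := by
  have h1 := X_mul_P hb n
  have h2 := X_mul_P hb (n + 1)
  have h3 := X_mul_P hb (n - 1)
  have e1 : X ^ 2 * P b n = X * P b (n + 1) + C (b n) * (X * P b (n - 1)) := by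
    calc X ^ 2 * P b n = X * (X * P b n) := by ring
      _ = _ := by rw [h1]; ring
  rw [e1, h2, h3]
  have e2 : n - 1 - 1 = n - 2 := by omega
  rw [e2]
  rcases n with _ | n
  · simp [hb, P_zero, P_one]
  · simp only [Nat.add_sub_cancel, C_add, C_mul]
    ring

theorem X3P (hb : b 0 = 0) (n : ℕ) :
    X ^ 3 * P b n = P b (n + 3) + C (b n + b (n + 1) + b (n + 2)) * P b (n + 1)
      + C (b n * (b (n - 1) + b n + b (n + 1))) * P b (n - 1)
      + C (b n * b (n - 1) * b (n - 2)) * P b (n - 3) := by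
  have h1 := X2P hb n
  have e1 : X ^ 3 * P b n = X * P b (n + 2) + C (b n + b (n + 1)) * (X * P b n)
      + C (b n * b (n - 1)) * (X * P b (n - 2)) := by
    calc X ^ 3 * P b n = X * (X ^ 2 * P b n) := by ring
      _ = _ := by rw [h1]; ring
  rw [e1, X_mul_P hb (n + 2), X_mul_P hb n, X_mul_P hb (n - 2)]
  rcases n with _ | _ | n
  · simp [hb, P_zero, P_one]
    ring
  · simp [hb, P_zero, P_one]
    ring
  · have e2 : n + 1 + 1 - 2 = n := by omega
    have e3 : n + 1 + 1 - 3 = n - 1 := by omega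
    have e4 : n + 1 + 1 - 1 = n + 1 := by omega
    have e5 : n + 1 + 1 + 2 - 1 = n + 1 + 1 + 1 := by omega
    rw [e2, e3, e4, e5]
    simp only [C_add, C_mul]
    ring

/-- the potential side of the string equation -/
theorem Orth.pot_side (hE : Orth E b M) (hb : b 0 = 0) (τ t : ℝ) {m : ℕ} (hm : m + 3 ≤ M) :
    E (dV τ t * (P b (m + 1) * P b m)) =
      (6 * b (m + 1) * (b (m + 1 - 2) * b (m + 1 - 1) + b (m + 1 - 1) ^ 2
        + 2 * b (m + 1 - 1) * b (m + 1) + b (m + 1 - 1) * b (m + 1 + 1)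
        + b (m + 1) ^ 2 + 2 * b (m + 1) * b (m + 1 + 1) + b (m + 1 + 1) ^ 2
        + b (m + 1 + 1) * b (m + 1 + 2))
        - 4 * τ * b (m + 1) * (b (m + 1 - 1) + b (m + 1) + b (m + 1 + 1))
        - 2 * t * b (m + 1)) * h b m := by
  have e2 : m + 1 - 2 = m - 1 := by omega
  rw [e2, Nat.add_sub_cancel]
  have hz : ∀ j, j ≤ M → (m ≠ 0 → j ≠ m - 1) →
      b m * E (P b j * P b (m - 1)) = 0 := by
    intro j hj hne
    rcases Nat.eq_zero_or_pos m with h0 | h0
    · rw [h0, hb, zero_mul]
    · rw [hE j (m - 1) hj (by omega), if_neg (hne (by omega)), mul_zero]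
  have hself : b m * E (P b (m - 1) * P b (m - 1)) = h b m ∨ m = 0 := by
    rcases m with _ | m
    · right; rfl
    · left
      rw [Nat.add_sub_cancel, hE m m (by omega) (by omega), if_pos rfl, h_succ]
  have h5 : ∀ j, j ≤ M → (3 ≤ m → j ≠ m - 3) →
      b m * b (m - 1) * b (m - 2) * E (P b j * P b (m - 3)) = 0 := by
    intro j hj hne
    by_cases h3 : 3 ≤ m
    · rw [hE j (m - 3) hj (by omega), if_neg (hne h3), mul_zero]
    · have : m = 0 ∨ m = 1 ∨ m = 2 := by omega
      rcases this with rfl | rfl | rfl <;> simp [hb]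
  have hx1 : E (X * (P b (m + 1) * P b m)) = b (m + 1) * h b m := by
    have : X * (P b (m + 1) * P b m) = P b (m + 1) * P b (m + 1)
        + C (b m) * (P b (m + 1) * P b (m - 1)) := by
      calc X * (P b (m + 1) * P b m) = P b (m + 1) * (X * P b m) := by ring
        _ = _ := by rw [X_mul_P hb m]; ring
    rw [this, map_add, E_C_mul, hz (m + 1) (by omega) (by omega), add_zero,
      hE _ _ (by omega) (by omega), if_pos rfl, h_succ]
  have hx3 : E (X ^ 3 * (P b (m + 1) * P b m)) =
      b (m + 1) * (b m + b (m + 1) + b (m + 2)) * h b m := by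
    have : X ^ 3 * (P b (m + 1) * P b m) = P b (m + 1) * P b (m + 3)
        + C (b m + b (m + 1) + b (m + 2)) * (P b (m + 1) * P b (m + 1))
        + C (b (m - 1) + b m + b (m + 1)) * (C (b m) * (P b (m + 1) * P b (m - 1)))
        + C (b m * b (m - 1) * b (m - 2)) * (P b (m + 1) * P b (m - 3)) := by
      calc X ^ 3 * (P b (m + 1) * P b m) = P b (m + 1) * (X ^ 3 * P b m) := by ring
        _ = _ := by rw [X3P hb m]; simp only [C_add, C_mul]; ring
    rw [this]
    simp only [LinearMap.map_add, E_C_mul]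
    rw [hz (m + 1) (by omega) (by omega), h5 (m + 1) (by omega) (by omega),
      hE _ _ (by omega) (by omega), hE _ _ (by omega) (by omega), if_neg (by omega), if_pos rfl,
      h_succ]
    ring
  have hx5 : E (X ^ 5 * (P b (m + 1) * P b m)) =
      b (m + 1) * (b (m - 1) * b m + b m ^ 2 + 2 * b m * b (m + 1) + b m * b (m + 1 + 1)
        + b (m + 1) ^ 2 + 2 * b (m + 1) * b (m + 1 + 1) + b (m + 1 + 1) ^ 2
        + b (m + 1 + 1) * b (m + 1 + 2)) * h b m := by
    have hx2 := X2P hb (m + 1)
    have e3 : m + 1 - 2 = m - 1 := by omega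
    rw [e3, Nat.add_sub_cancel] at hx2
    have e4 : X ^ 5 * (P b (m + 1) * P b m) =
        (P b (m + 3) * P b (m + 3)
        + C (b m + b (m + 1) + b (m + 2)) * (P b (m + 3) * P b (m + 1))
        + C (b (m - 1) + b m + b (m + 1)) * (C (b m) * (P b (m + 3) * P b (m - 1)))
        + C (b m * b (m - 1) * b (m - 2)) * (P b (m + 3) * P b (m - 3)))
        + C (b (m + 1) + b (m + 2)) * (P b (m + 1) * P b (m + 3)
        + C (b m + b (m + 1) + b (m + 2)) * (P b (m + 1) * P b (m + 1))
        + C (b (m - 1) + b m + b (m + 1)) * (C (b m) * (P b (m + 1) * P b (m - 1)))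
        + C (b m * b (m - 1) * b (m - 2)) * (P b (m + 1) * P b (m - 3)))
        + C (b (m + 1)) * (C (b m) * (P b (m + 3) * P b (m - 1))
        + C (b m + b (m + 1) + b (m + 2)) * (C (b m) * (P b (m + 1) * P b (m - 1)))
        + C (b m * (b (m - 1) + b m + b (m + 1))) * (C (b m) * (P b (m - 1) * P b (m - 1)))
        + C (b m) * (C (b m * b (m - 1) * b (m - 2)) * (P b (m - 1) * P b (m - 3)))) := by
      calc X ^ 5 * (P b (m + 1) * P b m) = (X ^ 2 * P b (m + 1)) * (X ^ 3 * P b m) := by ring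
        _ = _ := by
          rw [X3P hb m, hx2]
          simp only [C_add, C_mul]
          ring
    rw [e4]
    simp only [LinearMap.map_add, E_C_mul]
    rw [hz (m + 1) (by omega) (by omega), h5 (m + 1) (by omega) (by omega),
      hz (m + 3) (by omega) (by omega), h5 (m + 3) (by omega) (by omega),
      h5 (m - 1) (by omega) (by omega),
      hE (m + 3) (m + 3) (by omega) (by omega), hE (m + 3) (m + 1) (by omega) (by omega),
      hE (m + 1) (m + 3) (by omega) (by omega), hE (m + 1) (m + 1) (by omega) (by omega),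
      if_pos rfl, if_neg (by omega), if_neg (by omega), if_pos rfl]
    rcases hself with hs | hs
    · rw [hs, h_succ, h_succ, h_succ]
      have e5 : m + 1 + 1 = m + 2 := rfl
      have e6 : m + 1 + 2 = m + 3 := rfl
      rw [show m + 2 + 1 = m + 3 from rfl, show m + 1 + 1 = m + 2 from rfl, e6]
      ring
    · subst hs
      simp only [hb, h_succ]
      ring
  have e7 : dV τ t * (P b (m + 1) * P b m) = C 6 * (X ^ 5 * (P b (m + 1) * P b m))
      - C (4 * τ) * (X ^ 3 * (P b (m + 1) * P b m))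
      - C (2 * t) * (X * (P b (m + 1) * P b m)) := by
    unfold dV; ring
  rw [e7, map_sub, map_sub, E_C_mul, E_C_mul, E_C_mul, hx1, hx3, hx5]
  ring

end Pool.Agent.R995.SF
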