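import Pool.Agent.R995.SF1

set_option autoImplicit false
set_option linter.unusedSimpArgs false
set_option linter.unusedVariables false
set_option linter.unusedSectionVars false

/-! # The string equation gives the Pearson relation -/

namespace Pool.Agent.R995.SF

open Polynomial

variable {E : ℝ[X] →ₗ[ℝ] ℝ} {b : ℕ → ℝ} {M : ℕ}

theorem map_eq_sum (A : ℝ[X] →ₗ[ℝ] ℝ) (p : ℝ[X]) (n : ℕ) (hp : p.natDegree < n) :
    A p = ∑ k ∈ Finset.range n, p.coeff k * A (X ^ k) := by
  conv_lhs => rw [p.as_sum_range' n hp]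
  rw [map_sum]
  apply Finset.sum_congr rfl
  intro k _
  rw [← C_mul_X_pow_eq_monomial, E_C_mul]

theorem odd_zero (A : ℝ[X] →ₗ[ℝ] ℝ) (b : ℕ → ℝ) (m : ℕ)
    (hA : ∀ i, i ≤ m → A (P b (i + 1) * P b i) = 0) : ∀ i, i ≤ m → A (X ^ (2 * i + 1)) = 0 := by
  intro i
  induction i using Nat.strong_induction_on with
  | _ i ih =>
    intro hi
    have h1 := hA i hi
    have hdeg : (P b (i + 1) * P b i).natDegree < 2 * i + 1 + 1 := by
      have h2 := P_natDegree b (i + 1)
      have h3 := P_natDegree b i
      have h4 := natDegree_mul_le (p := P b (i + 1)) (q := P b i)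
      omega
    rw [map_eq_sum A _ _ hdeg, Finset.sum_range_succ] at h1
    have h5 : (P b (i + 1) * P b i).coeff (2 * i + 1) = 1 := by
      have h6 : 2 * i + 1 = (i + 1) + i := by omega
      rw [h6, coeff_mul_add_eq_of_natDegree_le (P_natDegree b (i + 1)) (P_natDegree b i), P_coeff, P_coeff,
        mul_one]
    have h7 : ∑ k ∈ Finset.range (2 * i + 1), (P b (i + 1) * P b i).coeff k * A (X ^ k) = 0 := by
      apply Finset.sum_eq_zero
      intro k hk
      rw [Finset.mem_range] at hk
      rcases Nat.even_or_odd k with he | ho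
      · rw [PP_parity b i k he, zero_mul]
      · obtain ⟨l, hl⟩ := ho
        rw [hl, ih l (by omega) (by omega), mul_zero]
    rw [h5, h7, one_mul, zero_add] at h1
    exact h1

theorem Orth.odd (hE : Orth E b M) : ∀ i, i + 1 ≤ M → E (X ^ (2 * i + 1)) = 0 := by
  intro i hi
  apply odd_zero E b (M - 1) _ i (by omega)
  intro j hj
  rw [hE _ _ (by omega) (by omega), if_neg (by omega)]

/-- the defect functional -/
noncomputable def defect (E : ℝ[X] →ₗ[ℝ] ℝ) (τ t : ℝ) : ℝ[X] →ₗ[ℝ] ℝ where
  toFun p := E (dV τ t * p) - E (derivative p)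
  map_add' p q := by rw [mul_add, derivative_add, map_add, map_add]; ring
  map_smul' c p := by
    rw [mul_smul_comm, derivative_smul, map_smul, map_smul, RingHom.id_apply, smul_eq_mul,
      smul_eq_mul, smul_eq_mul]
    ring

theorem Orth.defect_zero (hE : Orth E b M) (hb : b 0 = 0) (τ t : ℝ) (hM : 6 ≤ M)
    (hs : ∀ n, 1 ≤ n → StringEq τ t b n) (k : ℕ) (hk : k ≤ M) :
    defect E τ t (X ^ k) = 0 := by
  rcases Nat.even_or_odd' k with ⟨i, rfl | rfl⟩
  · -- even
    change E (dV τ t * X ^ (2 * i)) - E (derivative (X ^ (2 * i))) = 0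
    have h1 : dV τ t * X ^ (2 * i) = C 6 * X ^ (2 * (i + 2) + 1) - C (4 * τ) * X ^ (2 * (i + 1) + 1)
        - C (2 * t) * X ^ (2 * i + 1) := by
      unfold dV; ring
    rw [h1, map_sub, map_sub, E_C_mul, E_C_mul, E_C_mul, hE.odd _ (by omega), hE.odd _ (by omega),
      hE.odd _ (by omega), derivative_X_pow]
    rcases i with _ | i
    · simp
    · have h2 : 2 * (i + 1) - 1 = 2 * i + 1 := by omega
      rw [h2, E_C_mul, hE.odd _ (by omega)]
      ring
  · apply odd_zero (defect E τ t) b (M - 3) _ i (by omega)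
    intro j hj
    change E (dV τ t * (P b (j + 1) * P b j)) - E (derivative (P b (j + 1) * P b j)) = 0
    rw [hE.pot_side hb τ t (by omega), hE.deriv_side (by omega)]
    have h3 := hs (j + 1) (by omega)
    unfold StringEq at h3
    rw [h3]
    push_cast
    ring

/-- the Pearson relation -/
theorem Orth.pearson (hE : Orth E b M) (hb : b 0 = 0) (τ t : ℝ) (hM : 6 ≤ M)
    (hs : ∀ n, 1 ≤ n → StringEq τ t b n) (q : ℝ[X]) (hq : q.natDegree ≤ M) :
    E (dV τ t * q) = E (derivative q) := by
  have h1 : defect E τ t q = 0 := by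
    rw [map_eq_sum _ q (M + 1) (by omega)]
    apply Finset.sum_eq_zero
    intro k hk
    rw [Finset.mem_range] at hk
    rw [hE.defect_zero hb τ t hM hs k (by omega), mul_zero]
  change E (dV τ t * q) - E (derivative q) = 0 at h1
  linarith

/-- conversely, the Pearson relation gives the string equation -/
theorem Orth.string_of_pearson (hE : ∀ M, Orth E b M) (hb : b 0 = 0) (τ t : ℝ)
    (hh : ∀ n, h b n ≠ 0) (hp : ∀ q : ℝ[X], E (dV τ t * q) = E (derivative q)) :
    ∀ n, 1 ≤ n → StringEq τ t b n := by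
  intro n hn
  obtain ⟨m, rfl⟩ : ∃ m, n = m + 1 := ⟨n - 1, by omega⟩
  have h1 := (hE (m + 3)).pot_side hb τ t (m := m) le_rfl
  rw [hp, (hE (m + 3)).deriv_side (by omega)] at h1
  unfold StringEq
  have h2 := mul_right_cancel₀ (hh m) h1
  rw [← h2]
  push_cast
  ring

/-- two functionals with the same orthogonality agree on low degree polynomials -/
theorem Orth.unique {E' : ℝ[X] →ₗ[ℝ] ℝ} (hE : Orth E b M) (hE' : Orth E' b M) (q : ℝ[X])
    (hq : q.natDegree ≤ M) : E q = E' q := by
  have key : ∀ k, k ≤ M + 1 → ∀ q : ℝ[X], q.degree < k → E q = E' q := by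
    intro k
    induction k with
    | zero =>
      intro _ q hq
      have : q = 0 := by
        rw [← degree_eq_bot]
        exact Nat.WithBot.lt_zero_iff.1 (by simpa using hq)
      rw [this]; simp
    | succ k ih =>
      intro hk q hq
      have h1 : q = C (q.coeff k) * (P b k * P b 0) + (q - C (q.coeff k) * P b k) := by
        rw [P_zero]; ring
      have h2 : (q - C (q.coeff k) * P b k).degree < k := by
        rw [degree_lt_iff_coeff_zero]
        intro m hm
        rcases Nat.eq_or_lt_of_le hm with rfl | hm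
        · rw [coeff_sub, coeff_C_mul, P_coeff]; ring
        · rw [coeff_sub, coeff_C_mul,
            coeff_eq_zero_of_natDegree_lt ((P_natDegree b k).trans_lt hm),
            mul_zero, sub_zero]
          exact (degree_lt_iff_coeff_zero q (k + 1)).1 hq m hm
      rw [h1, map_add, map_add, E_C_mul, E_C_mul, ih (by omega) _ h2,
        hE k 0 (by omega) (by omega), hE' k 0 (by omega) (by omega)]
  apply key (M + 1) le_rfl q
  rw [degree_lt_iff_coeff_zero]
  intro m hm
  exact coeff_eq_zero_of_natDegree_lt (by omega)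

end Pool.Agent.R995.SF
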