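import Pool.Agent.R995.SF2

set_option autoImplicit false
set_option linter.unusedSimpArgs false
set_option linter.unusedVariables false
set_option linter.unusedSectionVars false

/-! # Gauss quadrature from the truncated Jacobi matrix -/

namespace Pool.Agent.R995.SF

open Polynomial Matrix

/-- the truncated Jacobi matrix -/
noncomputable def Jm (b : ℕ → ℝ) (M : ℕ) : Matrix (Fin (M + 1)) (Fin (M + 1)) ℝ :=
  fun i j => (if (j : ℕ) = i + 1 then √(b j) else 0) + (if (i : ℕ) = j + 1 then √(b i) else 0)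

theorem Jm_herm (b : ℕ → ℝ) (M : ℕ) : (Jm b M).IsHermitian := by
  ext i j
  simp only [Jm, Matrix.conjTranspose_apply, star_trivial]
  rw [add_comm]

theorem h_pos {b : ℕ → ℝ} (hb : ∀ n, 1 ≤ n → 0 < b n) (n : ℕ) : 0 < h b n := by
  induction n with
  | zero => exact one_pos
  | succ n ih => rw [h_succ]; exact mul_pos (hb _ (by omega)) ih

/-- the matrix of eigenvectors -/
noncomputable def Um (b : ℕ → ℝ) (M : ℕ) : Matrix (Fin (M + 1)) (Fin (M + 1)) ℝ :=
  ((Jm_herm b M).eigenvectorUnitary : Matrix (Fin (M + 1)) (Fin (M + 1)) ℝ)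

/-- entries of the eigenvectors, extended by zero -/
noncomputable def ev (b : ℕ → ℝ) (M : ℕ) (i : Fin (M + 1)) (n : ℕ) : ℝ :=
  if hn : n < M + 1 then Um b M ⟨n, hn⟩ i else 0

theorem ev_coe (b : ℕ → ℝ) (M : ℕ) (i j : Fin (M + 1)) :
    ev b M i j = Um b M j i := by
  unfold ev
  rw [dif_pos j.2]

theorem ev_out (b : ℕ → ℝ) (M : ℕ) (i : Fin (M + 1)) {n : ℕ} (hn : M < n) : ev b M i n = 0 := by
  unfold ev
  rw [dif_neg (by omega)]

theorem ev_rec (b : ℕ → ℝ) (M : ℕ) (i : Fin (M + 1)) (n : ℕ) (hn : n ≤ M) :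
    (Jm_herm b M).eigenvalues i * ev b M i n =
      (if 1 ≤ n then √(b n) * ev b M i (n - 1) else 0) + √(b (n + 1)) * ev b M i (n + 1) := by
  have h1 := congrFun ((Jm_herm b M).mulVec_eigenvectorBasis i) ⟨n, by omega⟩
  rw [Pi.smul_apply, smul_eq_mul] at h1
  have h2 : ∀ j : Fin (M + 1), (Jm_herm b M).eigenvectorBasis i j = ev b M i j := by
    intro j
    rw [ev_coe]
    rfl
  have h3 : (Jm b M *ᵥ ⇑((Jm_herm b M).eigenvectorBasis i)) ⟨n, by omega⟩ =
      ∑ j : Fin (M + 1), ((if (j : ℕ) = n + 1 then √(b j) else 0)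
        + (if n = j + 1 then √(b n) else 0)) * ev b M i j := by
    rw [Matrix.mulVec, dotProduct]
    apply Finset.sum_congr rfl
    intro j _
    rw [h2]
    rfl
  rw [h3, h2] at h1
  change _ = (Jm_herm b M).eigenvalues i * ev b M i n at h1
  rw [← h1, Fin.sum_univ_eq_sum_range (fun j => ((if j = n + 1 then √(b j) else 0)
        + (if n = j + 1 then √(b n) else 0)) * ev b M i j) (M + 1)]
  simp only [add_mul, Finset.sum_add_distrib, ite_mul, zero_mul]
  rw [add_comm]
  congr 1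
  · split_ifs with hn1
    · rw [Finset.sum_eq_single (n - 1)]
      · rw [if_pos (by omega)]
      · intro j _ hj
        rw [if_neg (by omega)]
      · intro hj
        exact absurd (Finset.mem_range.2 (by omega)) hj
    · apply Finset.sum_eq_zero
      intro j _
      rw [if_neg (by omega)]
  · rw [Finset.sum_ite_eq']
    split_ifs with hm
    · rfl
    · rw [Finset.mem_range] at hm
      rw [ev_out b M i (by omega), mul_zero]

theorem ev_formula {b : ℕ → ℝ} (hb : ∀ n, 1 ≤ n → 0 < b n) (M : ℕ) (i : Fin (M + 1)) (n : ℕ) :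
    (n ≤ M → √(h b n) * ev b M i n = ev b M i 0 * (P b n).eval ((Jm_herm b M).eigenvalues i)) ∧
    (n + 1 ≤ M → √(h b (n + 1)) * ev b M i (n + 1) =
      ev b M i 0 * (P b (n + 1)).eval ((Jm_herm b M).eigenvalues i)) := by
  induction n with
  | zero =>
    constructor
    · intro _
      simp [h, P_zero]
    · intro hM
      have h1 := ev_rec b M i 0 (by omega)
      simp only [Nat.not_ofNat_le_one, if_false, zero_add] at h1
      rw [h_succ]
      simp only [zero_add, P_one, eval_X]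
      have h2 : h b 0 = 1 := rfl
      rw [h2, mul_one]
      simp at h1
      rw [← h1]; ring
  | succ n ih =>
    refine ⟨ih.2, ?_⟩
    intro hM
    have h1 := ev_rec b M i (n + 1) (by omega)
    rw [if_pos (by omega), Nat.add_sub_cancel] at h1
    have h2 := ih.1 (by omega)
    have h3 := ih.2 (by omega)
    have hb1 := hb (n + 1) (by omega)
    have hb2 := hb (n + 1 + 1) (by omega)
    have hh := h_pos hb n
    have hh1 := h_pos hb (n + 1)
    have e1 : √(h b (n + 1 + 1)) = √(h b (n + 1)) * √(b (n + 1 + 1)) := by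
      rw [h_succ, mul_comm, Real.sqrt_mul hh1.le]
    have e2 : √(h b (n + 1)) * √(b (n + 1)) = b (n + 1) * √(h b n) := by
      rw [h_succ, Real.sqrt_mul hb1.le]
      have := Real.mul_self_sqrt hb1.le
      calc √(b (n + 1)) * √(h b n) * √(b (n + 1)) = √(b (n + 1)) * √(b (n + 1)) * √(h b n) := by ring
        _ = _ := by rw [this]
    have e3 : (P b (n + 1 + 1)).eval ((Jm_herm b M).eigenvalues i) =
        (Jm_herm b M).eigenvalues i * (P b (n + 1)).eval ((Jm_herm b M).eigenvalues i)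
          - b (n + 1) * (P b n).eval ((Jm_herm b M).eigenvalues i) := by
      rw [P_add_two]; simp
    rw [e1, e3]
    calc √(h b (n + 1)) * √(b (n + 1 + 1)) * ev b M i (n + 1 + 1)
        = √(h b (n + 1)) * (√(b (n + 1 + 1)) * ev b M i (n + 1 + 1)) := by ring
      _ = √(h b (n + 1)) * ((Jm_herm b M).eigenvalues i * ev b M i (n + 1)
          - √(b (n + 1)) * ev b M i n) := by rw [h1]; ring
      _ = (Jm_herm b M).eigenvalues i * (√(h b (n + 1)) * ev b M i (n + 1))
          - (√(h b (n + 1)) * √(b (n + 1))) * ev b M i n := by ring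
      _ = (Jm_herm b M).eigenvalues i * (ev b M i 0 *
          (P b (n + 1)).eval ((Jm_herm b M).eigenvalues i))
          - b (n + 1) * (√(h b n) * ev b M i n) := by rw [h3, e2]; ring
      _ = _ := by rw [h2]; ring

theorem ev_orth (b : ℕ → ℝ) (M : ℕ) (n m : ℕ) (hn : n ≤ M) (hm : m ≤ M) :
    ∑ i, ev b M i n * ev b M i m = if n = m then 1 else 0 := by
  have h1 : Um b M * star (Um b M) = 1 :=
    Matrix.mem_unitaryGroup_iff.1 (Jm_herm b M).eigenvectorUnitary.2
  have h2 := congrFun (congrFun h1 ⟨n, by omega⟩) ⟨m, by omega⟩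
  rw [Matrix.mul_apply, Matrix.one_apply] at h2
  simp only [Fin.mk.injEq] at h2
  rw [← h2]
  apply Finset.sum_congr rfl
  intro i _
  rw [Matrix.star_apply, star_trivial]
  have e1 := ev_coe b M i ⟨n, by omega⟩
  have e2 := ev_coe b M i ⟨m, by omega⟩
  simp only at e1 e2
  rw [e1, e2]

theorem ev_ne (b : ℕ → ℝ) (M : ℕ) (i : Fin (M + 1)) : ∃ j : Fin (M + 1), ev b M i j ≠ 0 := by
  by_contra hc
  push Not at hc
  have h1 : star (Um b M) * Um b M = 1 :=
    Matrix.mem_unitaryGroup_iff'.1 (Jm_herm b M).eigenvectorUnitary.2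
  have h2 := congrFun (congrFun h1 i) i
  rw [Matrix.mul_apply, Matrix.one_apply, if_pos rfl] at h2
  have h3 : ∑ j, (star (Um b M)) i j * Um b M j i = 0 := by
    apply Finset.sum_eq_zero
    intro j _
    rw [← ev_coe, hc j, mul_zero]
  rw [h3] at h2
  exact zero_ne_one h2

theorem eig_bound {b : ℕ → ℝ} (hb : ∀ n, 1 ≤ n → 0 < b n) (M : ℕ) (B : ℝ) (hB0 : 0 ≤ B)
    (hB : ∀ n, n ≤ M → b n ≤ B) (i : Fin (M + 1)) :
    |(Jm_herm b M).eigenvalues i| ≤ 2 * √B := by
  obtain ⟨j, _, hj⟩ := Finset.exists_max_image Finset.univ (fun j : Fin (M + 1) => |ev b M i j|)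
    ⟨0, Finset.mem_univ _⟩
  have hpos : 0 < |ev b M i j| := by
    obtain ⟨k, hk⟩ := ev_ne b M i
    exact (abs_pos.2 hk).trans_le (hj k (Finset.mem_univ _))
  have hall : ∀ n, |ev b M i n| ≤ |ev b M i j| := by
    intro n
    by_cases hn : n < M + 1
    · exact hj ⟨n, hn⟩ (Finset.mem_univ _)
    · rw [ev_out b M i (by omega), abs_zero]; exact abs_nonneg _
  have h1 := ev_rec b M i j (by have := j.2; omega)
  have h2 : |(Jm_herm b M).eigenvalues i| * |ev b M i j| ≤ 2 * √B * |ev b M i j| := by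
    rw [← abs_mul, h1]
    have h3 : |if 1 ≤ (j : ℕ) then √(b j) * ev b M i (j - 1) else 0| ≤ √B * |ev b M i j| := by
      split_ifs
      · rw [abs_mul, abs_of_nonneg (Real.sqrt_nonneg _)]
        exact mul_le_mul (Real.sqrt_le_sqrt (hB j (by have := j.2; omega))) (hall _)
          (abs_nonneg _) (Real.sqrt_nonneg _)
      · rw [abs_zero]; positivity
    have h4 : |√(b (j + 1)) * ev b M i (j + 1)| ≤ √B * |ev b M i j| := by
      by_cases hj1 : (j : ℕ) + 1 ≤ M
      · rw [abs_mul, abs_of_nonneg (Real.sqrt_nonneg _)]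
        exact mul_le_mul (Real.sqrt_le_sqrt (hB _ hj1)) (hall _)
          (abs_nonneg _) (Real.sqrt_nonneg _)
      · rw [ev_out b M i (by omega), mul_zero, abs_zero]; positivity
    calc _ ≤ _ + _ := abs_add_le _ _
      _ ≤ √B * |ev b M i j| + √B * |ev b M i j| := add_le_add h3 h4
      _ = _ := by ring
  exact le_of_mul_le_mul_right h2 hpos

/-- Gauss type quadrature -/
theorem exists_quadrature {b : ℕ → ℝ} (hb : ∀ n, 1 ≤ n → 0 < b n) (M : ℕ) (B : ℝ) (hB0 : 0 ≤ B)
    (hB : ∀ n, n ≤ M → b n ≤ B) :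
    ∃ w x : Fin (M + 1) → ℝ, (∀ i, 0 ≤ w i) ∧ (∀ i, |x i| ≤ 2 * √B) ∧
      ∀ n m, n ≤ M → m ≤ M →
        ∑ i, w i * (P b n * P b m).eval (x i) = if n = m then h b n else 0 := by
  refine ⟨fun i => ev b M i 0 ^ 2, (Jm_herm b M).eigenvalues, fun i => sq_nonneg _,
    eig_bound hb M B hB0 hB, ?_⟩
  intro n m hn hm
  have h1 : ∀ i, ev b M i 0 ^ 2 * (P b n * P b m).eval ((Jm_herm b M).eigenvalues i) =
      (√(h b n) * √(h b m)) * (ev b M i n * ev b M i m) := by
    intro i
    rw [eval_mul]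
    calc _ = (ev b M i 0 * (P b n).eval ((Jm_herm b M).eigenvalues i)) *
        (ev b M i 0 * (P b m).eval ((Jm_herm b M).eigenvalues i)) := by ring
      _ = _ := by
        rw [← (ev_formula hb M i n).1 hn, ← (ev_formula hb M i m).1 hm]; ring
  rw [Finset.sum_congr rfl (fun i _ => h1 i), ← Finset.mul_sum, ev_orth b M n m hn hm]
  split_ifs with hnm
  · subst hnm
    rw [mul_one, Real.mul_self_sqrt (h_pos hb n).le]
  · rw [mul_zero]

end Pool.Agent.R995.SF
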