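import Pool.Agent.R995.SF3

set_option autoImplicit false
set_option linter.unusedSimpArgs false
set_option linter.unusedVariables false
set_option linter.unusedSectionVars false

/-! # Exponential test functions -/

namespace Pool.Agent.R995.SF

open Polynomial Filter Topology

/-- positive solutions of the string equation -/
def PosSol (τ t : ℝ) (b : ℕ → ℝ) : Prop :=
  b 0 = 0 ∧ ∀ n, 1 ≤ n → 0 < b n ∧ StringEq τ t b n

theorem PosSol.nonneg {τ t : ℝ} {b : ℕ → ℝ} (hb : PosSol τ t b) (n : ℕ) : 0 ≤ b n := by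
  rcases Nat.eq_zero_or_pos n with rfl | hn
  · exact hb.1.ge
  · exact (hb.2 n hn).1.le

theorem PosSol.bound {τ t : ℝ} {b : ℕ → ℝ} (hb : PosSol τ t b) (n : ℕ) :
    b n ≤ (1 + 2 * |τ| + 2 * |t|) + n := by
  rcases Nat.eq_zero_or_pos n with rfl | hn
  · rw [hb.1]; positivity
  · by_contra hc
    push Not at hc
    have h1 := (hb.2 n hn).2
    unfold StringEq at h1
    have ha := hb.nonneg (n - 1)
    have ha2 := hb.nonneg (n - 2)
    have hB := (hb.2 n hn).1
    have hcc := hb.nonneg (n + 1)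
    have he := hb.nonneg (n + 2)
    have hτ := abs_nonneg τ
    have ht := abs_nonneg t
    have hτ' := le_abs_self τ
    have ht' := le_abs_self t
    set a := b (n - 1) with hadef
    set a2 := b (n - 2) with ha2def
    set B := b n with hBdef
    set c := b (n + 1) with hcdef
    set e := b (n + 2) with hedef
    set S := a + B + c with hSdef
    set T := a2 * a + a ^ 2 + 2 * a * B + a * c + B ^ 2 + 2 * B * c + c ^ 2 + c * e with hTdef
    have hT : S ^ 2 / 2 ≤ T := by
      have h2 : T - S ^ 2 / 2 = a2 * a + c * e + (a ^ 2 + B ^ 2 + c ^ 2) / 2 + a * B + B * c := by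
        rw [hTdef, hSdef]; ring
      have h3 : 0 ≤ a2 * a + c * e + (a ^ 2 + B ^ 2 + c ^ 2) / 2 + a * B + B * c := by positivity
      linarith
    have hn0 : (0 : ℝ) ≤ n := Nat.cast_nonneg n
    have hS : 1 + 2 * |τ| + 2 * |t| ≤ S := by rw [hSdef]; linarith
    have h4 : 1 ≤ 6 * T - 4 * τ * S - 2 * t := by
      have h5 : 4 * τ * S ≤ 4 * |τ| * S := by
        have : 0 ≤ S := by linarith
        nlinarith
      have h6 : 3 + 6 * |t| ≤ S * (3 * S - 4 * |τ|) := by
        have h7 : 3 ≤ 3 * S - 4 * |τ| := by linarith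
        have h8 : 1 + 2 * |t| ≤ S := by linarith
        calc 3 + 6 * |t| = (1 + 2 * |t|) * 3 := by ring
          _ ≤ S * (3 * S - 4 * |τ|) := mul_le_mul h8 h7 (by norm_num) (by linarith)
      nlinarith
    have h9 : B * (6 * T - 4 * τ * S - 2 * t) = n := by
      rw [← h1]; ring
    have h10 : B ≤ n := by
      rw [← h9]
      nlinarith
    linarith

theorem exp_tail (z : ℂ) (K : ℕ) :
    ‖Complex.exp z - ∑ k ∈ Finset.range K, z ^ k / (k.factorial : ℂ)‖ ≤
      ‖z‖ ^ K / K.factorial * Real.exp ‖z‖ := by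
  have h1 : HasSum (fun n : ℕ => z ^ n / (n.factorial : ℂ)) (Complex.exp z) := by
    rw [Complex.exp_eq_exp_ℂ]
    exact NormedSpace.expSeries_div_hasSum_exp z
  have h2 := (hasSum_nat_add_iff' K).2 h1
  rw [← h2.tsum_eq]
  have h3 : HasSum (fun n : ℕ => ‖z‖ ^ K / K.factorial * (‖z‖ ^ n / (n.factorial : ℝ)))
      (‖z‖ ^ K / K.factorial * Real.exp ‖z‖) := by
    apply HasSum.mul_left
    rw [Real.exp_eq_exp_ℝ]
    exact NormedSpace.expSeries_div_hasSum_exp ‖z‖
  apply tsum_of_norm_bounded h3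
  intro n
  rw [norm_div, norm_pow, Complex.norm_natCast]
  have h4 : ((K.factorial * n.factorial : ℕ) : ℝ) ≤ ((n + K).factorial : ℕ) := by
    have := Nat.factorial_mul_factorial_dvd_factorial_add n K
    rw [mul_comm] at this
    exact_mod_cast Nat.le_of_dvd (Nat.factorial_pos _) this
  push_cast at h4
  have h5 : (0 : ℝ) < K.factorial * n.factorial := by positivity
  calc ‖z‖ ^ (n + K) / ((n + K).factorial : ℝ) ≤ ‖z‖ ^ (n + K) / (K.factorial * n.factorial) :=
        div_le_div_of_nonneg_left (by positivity) h5 h4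
    _ = _ := by
        rw [pow_add]
        field_simp

/-- the error factor -/
noncomputable def rho (a : ℝ) (C : ℝ) (j : ℕ) : ℝ :=
  (2 * a * √(C + (2 * j + 9 : ℕ))) ^ (2 * j) / ((2 * j).factorial : ℝ) *
    Real.exp (2 * a * √(C + (2 * j + 9 : ℕ)))

theorem rho_nonneg {a C : ℝ} (ha : 0 ≤ a) (j : ℕ) : 0 ≤ rho a C j := by
  unfold rho; positivity

theorem rho_tendsto {a C : ℝ} (ha : 0 ≤ a) (hC : 0 ≤ C) :
    Tendsto (rho a C) atTop (𝓝 0) := by
  set A : ℝ := 4 * a ^ 2 * (C + 9) with hA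
  have hA0 : 0 ≤ A := by positivity
  have hlim : Tendsto (fun j : ℕ => Real.exp (1 + A) * ((A * Real.exp A) ^ j / (j.factorial : ℝ)))
      atTop (𝓝 0) := by
    have := (FloorSemiring.tendsto_pow_div_factorial_atTop (A * Real.exp A)).const_mul
      (Real.exp (1 + A))
    rwa [mul_zero] at this
  apply squeeze_zero (fun j => rho_nonneg ha j) _ hlim
  intro j
  unfold rho
  have hj0 : (0 : ℝ) ≤ j := Nat.cast_nonneg j
  have h1 : (C + (2 * j + 9 : ℕ) : ℝ) ≤ (C + 9) * (j + 1) := by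
    push_cast
    nlinarith
  have h2 : (0 : ℝ) ≤ C + (2 * j + 9 : ℕ) := by positivity
  have h3 : (2 * a * √(C + (2 * j + 9 : ℕ))) ^ 2 ≤ A * (j + 1) := by
    rw [mul_pow, Real.sq_sqrt h2, hA]
    calc (2 * a) ^ 2 * (C + (2 * j + 9 : ℕ)) ≤ (2 * a) ^ 2 * ((C + 9) * (j + 1)) :=
          mul_le_mul_of_nonneg_left h1 (by positivity)
      _ = _ := by ring
  have h4 : ((j.factorial : ℝ)) * (j + 1) ^ j ≤ ((2 * j).factorial : ℝ) := by
    have h5 := Nat.factorial_mul_pow_le_factorial (m := j) (n := j)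
    rw [← two_mul] at h5
    exact_mod_cast h5
  have h6 : (2 * a * √(C + (2 * j + 9 : ℕ))) ^ (2 * j) / ((2 * j).factorial : ℝ) ≤
      A ^ j / (j.factorial : ℝ) := by
    rw [pow_mul]
    have hfpos : (0 : ℝ) < j.factorial := by positivity
    have hjpos : (0 : ℝ) < (j + 1) ^ j := by positivity
    calc ((2 * a * √(C + (2 * j + 9 : ℕ))) ^ 2) ^ j / ((2 * j).factorial : ℝ)
        ≤ (A * (j + 1)) ^ j / ((2 * j).factorial : ℝ) := by
          apply div_le_div_of_nonneg_right _ (by positivity)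
          exact pow_le_pow_left₀ (by positivity) h3 j
      _ ≤ (A * (j + 1)) ^ j / ((j.factorial : ℝ) * (j + 1) ^ j) := by
          apply div_le_div_of_nonneg_left (by positivity) (by positivity) h4
      _ = A ^ j / (j.factorial : ℝ) := by
          rw [mul_pow]
          field_simp
  have h7 : Real.exp (2 * a * √(C + (2 * j + 9 : ℕ))) ≤ Real.exp (1 + A) * Real.exp A ^ j := by
    rw [← Real.exp_nat_mul, ← Real.exp_add]
    apply Real.exp_le_exp.2
    have h8 : ∀ y : ℝ, y ≤ 1 + y ^ 2 := fun y => by nlinarith [sq_nonneg (y - 1), sq_nonneg y]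
    calc 2 * a * √(C + (2 * j + 9 : ℕ)) ≤ 1 + (2 * a * √(C + (2 * j + 9 : ℕ))) ^ 2 := h8 _
      _ ≤ 1 + A * (j + 1) := by linarith
      _ = 1 + A + j * A := by ring
  calc _ ≤ A ^ j / (j.factorial : ℝ) * (Real.exp (1 + A) * Real.exp A ^ j) :=
        mul_le_mul h6 h7 (Real.exp_pos _).le (by positivity)
    _ = _ := by rw [mul_pow A (Real.exp A) j]; ring

end Pool.Agent.R995.SF
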