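import Pool.Agent.R995.SF4

set_option autoImplicit false
set_option linter.unusedSimpArgs false
set_option linter.unusedVariables false
set_option linter.unusedSectionVars false

/-! # Quadrature functionals attached to a positive solution -/

namespace Pool.Agent.R995.SF

open Polynomial Filter Topology

/-- nodes and weights of size `2 j + 10` -/
structure Quad (τ t : ℝ) (b : ℕ → ℝ) where
  w : (j : ℕ) → Fin (2 * j + 9 + 1) → ℝ
  x : (j : ℕ) → Fin (2 * j + 9 + 1) → ℝ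
  hw : ∀ j i, 0 ≤ w j i
  hx : ∀ j i, |x j i| ≤ 2 * √((1 + 2 * |τ| + 2 * |t|) + (2 * j + 9 : ℕ))
  ho : ∀ j n m, n ≤ 2 * j + 9 → m ≤ 2 * j + 9 →
    ∑ i, w j i * (P b n * P b m).eval (x j i) = if n = m then h b n else 0

theorem exists_quad {τ t : ℝ} {b : ℕ → ℝ} (hb : PosSol τ t b) : Nonempty (Quad τ t b) := by
  have h1 : ∀ j : ℕ, ∃ w x : Fin (2 * j + 9 + 1) → ℝ, (∀ i, 0 ≤ w i) ∧
      (∀ i, |x i| ≤ 2 * √((1 + 2 * |τ| + 2 * |t|) + (2 * j + 9 : ℕ))) ∧
      ∀ n m, n ≤ 2 * j + 9 → m ≤ 2 * j + 9 →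
        ∑ i, w i * (P b n * P b m).eval (x i) = if n = m then h b n else 0 := by
    intro j
    apply exists_quadrature (fun n hn => (hb.2 n hn).1) (2 * j + 9)
    · positivity
    · intro n hn
      apply (hb.bound n).trans
      have : (n : ℝ) ≤ (2 * j + 9 : ℕ) := by exact_mod_cast hn
      linarith
  choose w x hw hx ho using h1
  exact ⟨⟨w, x, hw, hx, ho⟩⟩

namespace Quad

variable {τ t : ℝ} {b : ℕ → ℝ} (Q : Quad τ t b)

/-- integration of real functions -/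
noncomputable def Er (j : ℕ) (f : ℝ → ℝ) : ℝ := ∑ i, Q.w j i * f (Q.x j i)

/-- integration of complex functions -/
noncomputable def Ec (j : ℕ) (f : ℝ → ℂ) : ℂ := ∑ i, (Q.w j i : ℂ) * f (Q.x j i)

/-- integration of polynomials -/
noncomputable def Ep (j : ℕ) : ℝ[X] →ₗ[ℝ] ℝ where
  toFun p := ∑ i, Q.w j i * p.eval (Q.x j i)
  map_add' p q := by
    rw [← Finset.sum_add_distrib]
    apply Finset.sum_congr rfl
    intro i _
    rw [eval_add, mul_add]
  map_smul' c p := by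
    rw [RingHom.id_apply, smul_eq_mul, Finset.mul_sum]
    apply Finset.sum_congr rfl
    intro i _
    rw [eval_smul, smul_eq_mul]; ring

theorem orth (j : ℕ) : Orth (Q.Ep j) b (2 * j + 9) := Q.ho j

theorem orth_le {j M : ℕ} (hM : M ≤ 2 * j + 9) : Orth (Q.Ep j) b M := fun n m hn hm =>
  Q.ho j n m (hn.trans hM) (hm.trans hM)

theorem Er_poly (j : ℕ) (p : ℝ[X]) : Q.Er j (fun x => p.eval x) = Q.Ep j p := rfl

theorem Er_mono (j : ℕ) {f g : ℝ → ℝ} (hfg : ∀ x, f x ≤ g x) : Q.Er j f ≤ Q.Er j g :=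
  Finset.sum_le_sum (fun i _ => mul_le_mul_of_nonneg_left (hfg _) (Q.hw j i))

theorem Er_add (j : ℕ) (f g : ℝ → ℝ) : Q.Er j (fun x => f x + g x) = Q.Er j f + Q.Er j g := by
  unfold Er
  rw [← Finset.sum_add_distrib]
  exact Finset.sum_congr rfl (fun i _ => by ring)

theorem Er_sub (j : ℕ) (f g : ℝ → ℝ) : Q.Er j (fun x => f x - g x) = Q.Er j f - Q.Er j g := by
  unfold Er
  rw [← Finset.sum_sub_distrib]
  exact Finset.sum_congr rfl (fun i _ => by ring)

theorem Er_mul (j : ℕ) (c : ℝ) (f : ℝ → ℝ) : Q.Er j (fun x => c * f x) = c * Q.Er j f := by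
  unfold Er
  rw [Finset.mul_sum]
  exact Finset.sum_congr rfl (fun i _ => by ring)

theorem Er_one (j : ℕ) : Q.Er j (fun _ => 1) = 1 := by
  have h1 := Q.ho j 0 0 (by omega) (by omega)
  rw [if_pos rfl] at h1
  simp only [P_zero, mul_one, eval_one] at h1
  unfold Er
  simp only [mul_one]
  exact h1

theorem Ec_norm (j : ℕ) (f : ℝ → ℂ) : ‖Q.Ec j f‖ ≤ Q.Er j (fun x => ‖f x‖) := by
  unfold Ec Er
  apply (norm_sum_le _ _).trans
  apply Finset.sum_le_sum
  intro i _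
  rw [norm_mul, Complex.norm_real, Real.norm_of_nonneg (Q.hw j i)]

theorem Ec_ofReal (j : ℕ) (f : ℝ → ℝ) : Q.Ec j (fun x => (f x : ℂ)) = (Q.Er j f : ℂ) := by
  unfold Ec Er
  push_cast
  rfl

/-- the moments -/
noncomputable def mom (k : ℕ) : ℝ := Q.Ep k (X ^ k)

theorem mom_eq {j k : ℕ} (hjk : k ≤ j) : Q.Er j (fun x => x ^ k) = Q.mom k := by
  have h1 : Q.Er j (fun x => x ^ k) = Q.Ep j (X ^ k) := by
    rw [← Er_poly]
    unfold Er
    simp
  rw [h1]
  unfold mom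
  apply Orth.unique (M := 2 * k + 9) (Q.orth_le (by omega)) (Q.orth_le (by omega))
  rw [natDegree_X_pow]; omega

theorem mom_zero : Q.mom 0 = 1 := by
  rw [← Q.mom_eq (le_refl 0)]
  simpa using Q.Er_one 0

theorem mom_nonneg {k : ℕ} (hk : Even k) : 0 ≤ Q.mom k := by
  rw [← Q.mom_eq (le_refl k)]
  apply Finset.sum_nonneg
  intro i _
  exact mul_nonneg (Q.hw _ _) (hk.pow_nonneg _)

/-- the value of the polynomial `dV` -/
noncomputable def _root_.Pool.Agent.R995.SF.dVf (τ t x : ℝ) : ℝ :=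
  6 * x ^ 5 - 4 * τ * x ^ 3 - 2 * t * x

theorem dV_eval (x : ℝ) : (dV τ t).eval x = dVf τ t x := by
  unfold dV dVf
  simp

theorem dVf_abs (x : ℝ) : |dVf τ t x| ≤ (6 + 4 * |τ| + 2 * |t|) * (1 + x ^ 6) := by
  unfold dVf
  have h5 : |x| ^ 5 ≤ 1 + |x| ^ 6 := by
    rcases le_total |x| 1 with h | h
    · have := pow_le_one₀ (abs_nonneg x) h (n := 5)
      have := pow_nonneg (abs_nonneg x) 6
      linarith
    · have : |x| ^ 5 ≤ |x| ^ 6 := pow_le_pow_right₀ h (by norm_num)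
      linarith
  have h3 : |x| ^ 3 ≤ 1 + |x| ^ 6 := by
    rcases le_total |x| 1 with h | h
    · have := pow_le_one₀ (abs_nonneg x) h (n := 3)
      have := pow_nonneg (abs_nonneg x) 6
      linarith
    · have : |x| ^ 3 ≤ |x| ^ 6 := pow_le_pow_right₀ h (by norm_num)
      linarith
  have h1 : |x| ≤ 1 + |x| ^ 6 := by
    rcases le_total |x| 1 with h | h
    · have := pow_nonneg (abs_nonneg x) 6
      linarith
    · have : |x| ^ 1 ≤ |x| ^ 6 := pow_le_pow_right₀ h (by norm_num)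
      linarith
  have h6 : |x| ^ 6 = x ^ 6 := by
    rw [← abs_pow]; exact abs_of_nonneg (by positivity)
  rw [h6] at h5 h3 h1
  calc |6 * x ^ 5 - 4 * τ * x ^ 3 - 2 * t * x|
      ≤ |6 * x ^ 5 - 4 * τ * x ^ 3| + |2 * t * x| := abs_sub _ _
    _ ≤ |6 * x ^ 5| + |4 * τ * x ^ 3| + |2 * t * x| := by
        have := abs_sub (6 * x ^ 5) (4 * τ * x ^ 3)
        linarith
    _ = 6 * |x| ^ 5 + 4 * |τ| * |x| ^ 3 + 2 * |t| * |x| := by
        simp only [abs_mul, abs_pow]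
        norm_num
    _ ≤ 6 * (1 + x ^ 6) + 4 * |τ| * (1 + x ^ 6) + 2 * |t| * (1 + x ^ 6) := by
        have := abs_nonneg τ
        have := abs_nonneg t
        gcongr
    _ = _ := by ring

/-- a uniform bound for the integral of `|V'|` -/
noncomputable def D : ℝ := (6 + 4 * |τ| + 2 * |t|) * (1 + Q.mom 6)

theorem Er_dV {j : ℕ} (hj : 6 ≤ j) : Q.Er j (fun x => |dVf τ t x|) ≤ Q.D := by
  apply (Q.Er_mono j (dVf_abs (τ := τ) (t := t))).trans
  rw [Er_mul, Er_add, Er_one, Q.mom_eq hj]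
  exact le_rfl

/-- the integral of `(V' - c) exp (c x)` -/
noncomputable def psi (j : ℕ) (c : ℂ) : ℂ :=
  Q.Ec j (fun x => ((dVf τ t x : ℂ) - c) * Complex.exp (c * x))

theorem poly_zero (hb : PosSol τ t b) (j k : ℕ) (hk : k ≤ 2 * j + 9) :
    ∑ i, Q.w j i * (dVf τ t (Q.x j i) * Q.x j i ^ k - k * Q.x j i ^ (k - 1)) = 0 := by
  have h1 := (Q.orth j).pearson hb.1 τ t (by omega) (fun n hn => (hb.2 n hn).2) (X ^ k)
    (by rw [natDegree_X_pow]; exact hk)
  rw [← sub_eq_zero, ← map_sub] at h1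
  rw [← h1]
  change _ = ∑ i, Q.w j i * (dV τ t * X ^ k - derivative (X ^ k)).eval (Q.x j i)
  apply Finset.sum_congr rfl
  intro i _
  rw [eval_sub, eval_mul, dV_eval, derivative_X_pow]
  simp

theorem psi_taylor (hb : PosSol τ t b) (j : ℕ) (c : ℂ) :
    Q.Ec j (fun x => (dVf τ t x : ℂ) * (∑ k ∈ Finset.range (2 * j + 1),
      (c * x) ^ k / (k.factorial : ℂ)) - c * ∑ k ∈ Finset.range (2 * j),
      (c * x) ^ k / (k.factorial : ℂ)) = 0 := by
  have h1 : ∀ x : ℝ, (dVf τ t x : ℂ) * (∑ k ∈ Finset.range (2 * j + 1),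
      (c * x) ^ k / (k.factorial : ℂ)) - c * ∑ k ∈ Finset.range (2 * j),
      (c * x) ^ k / (k.factorial : ℂ) = ∑ k ∈ Finset.range (2 * j + 1),
        c ^ k / (k.factorial : ℂ) * ((dVf τ t x * x ^ k - k * x ^ (k - 1) : ℝ) : ℂ) := by
    intro x
    have e1 : c * ∑ k ∈ Finset.range (2 * j), (c * x) ^ k / (k.factorial : ℂ) =
        ∑ k ∈ Finset.range (2 * j + 1), c ^ k / (k.factorial : ℂ) * (k * x ^ (k - 1)) := by
      rw [Finset.sum_range_succ', Finset.mul_sum]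
      simp only [Nat.cast_zero, zero_mul, mul_zero, add_zero, Nat.add_sub_cancel]
      apply Finset.sum_congr rfl
      intro k _
      rw [Nat.factorial_succ, mul_pow]
      push_cast
      have h2 : (k : ℂ) + 1 ≠ 0 := by exact_mod_cast Nat.succ_ne_zero k
      have h3 : (k.factorial : ℂ) ≠ 0 := by exact_mod_cast Nat.factorial_ne_zero k
      field_simp
      ring
    rw [e1, Finset.mul_sum, ← Finset.sum_sub_distrib]
    apply Finset.sum_congr rfl
    intro k _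
    push_cast
    rw [mul_pow]
    ring
  unfold Ec
  simp_rw [h1, Finset.mul_sum]
  rw [Finset.sum_comm]
  apply Finset.sum_eq_zero
  intro k hk
  rw [Finset.mem_range] at hk
  have h2 := Q.poly_zero hb j k (by omega)
  calc _ = c ^ k / (k.factorial : ℂ) * ((∑ i, Q.w j i *
      (dVf τ t (Q.x j i) * Q.x j i ^ k - k * Q.x j i ^ (k - 1)) : ℝ) : ℂ) := by
        push_cast
        rw [Finset.mul_sum]
        apply Finset.sum_congr rfl
        intro i _
        ring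
    _ = 0 := by rw [h2]; simp

theorem psi_bound (hb : PosSol τ t b) {j : ℕ} (hj : 6 ≤ j) (c : ℂ) :
    ‖Q.psi j c‖ ≤ (2 * Q.D + ‖c‖) * rho ‖c‖ (1 + 2 * |τ| + 2 * |t|) j := by
  set ρ := rho ‖c‖ (1 + 2 * |τ| + 2 * |t|) j with hρ
  have hρ0 : 0 ≤ ρ := rho_nonneg (norm_nonneg c) j
  have h1 : Q.psi j c = ∑ i, (Q.w j i : ℂ) * ((dVf τ t (Q.x j i) : ℂ) *
      (Complex.exp (c * Q.x j i) - ∑ k ∈ Finset.range (2 * j + 1),
        (c * Q.x j i) ^ k / (k.factorial : ℂ)) - c * (Complex.exp (c * Q.x j i) -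
        ∑ k ∈ Finset.range (2 * j), (c * Q.x j i) ^ k / (k.factorial : ℂ))) := by
    have h2 := Q.psi_taylor hb j c
    unfold psi Ec at *
    rw [← sub_zero (∑ i, _), ← h2, ← Finset.sum_sub_distrib]
    apply Finset.sum_congr rfl
    intro i _
    ring
  have hz : ∀ i, ‖c * (Q.x j i : ℂ)‖ ≤
      2 * ‖c‖ * √((1 + 2 * |τ| + 2 * |t|) + (2 * j + 9 : ℕ)) := by
    intro i
    rw [norm_mul, Complex.norm_real, Real.norm_eq_abs]
    calc ‖c‖ * |Q.x j i| ≤ ‖c‖ * (2 * √((1 + 2 * |τ| + 2 * |t|) + (2 * j + 9 : ℕ))) :=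
          mul_le_mul_of_nonneg_left (Q.hx j i) (norm_nonneg c)
      _ = _ := by ring
  have hr : ∀ i, ‖c * (Q.x j i : ℂ)‖ ^ (2 * j) / ((2 * j).factorial : ℝ) *
      Real.exp ‖c * (Q.x j i : ℂ)‖ ≤ ρ := by
    intro i
    rw [hρ]
    unfold rho
    have := hz i
    gcongr
  have hr0 : ∀ i, ‖Complex.exp (c * Q.x j i) - ∑ k ∈ Finset.range (2 * j),
      (c * Q.x j i) ^ k / (k.factorial : ℂ)‖ ≤ ρ := fun i => (exp_tail _ _).trans (hr i)
  have hr1 : ∀ i, ‖Complex.exp (c * Q.x j i) - ∑ k ∈ Finset.range (2 * j + 1),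
      (c * Q.x j i) ^ k / (k.factorial : ℂ)‖ ≤ 2 * ρ := by
    intro i
    rw [Finset.sum_range_succ, ← sub_sub]
    apply (norm_sub_le _ _).trans
    have h3 : ‖(c * (Q.x j i : ℂ)) ^ (2 * j) / ((2 * j).factorial : ℂ)‖ ≤ ρ := by
      refine le_trans ?_ (hr i)
      rw [norm_div, norm_pow, Complex.norm_natCast]
      have h4 : 1 ≤ Real.exp ‖c * (Q.x j i : ℂ)‖ := Real.one_le_exp (norm_nonneg _)
      have h5 : 0 ≤ ‖c * (Q.x j i : ℂ)‖ ^ (2 * j) / ((2 * j).factorial : ℝ) := by positivity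
      nlinarith
    have := hr0 i
    linarith
  rw [h1]
  calc _ ≤ ∑ i, Q.w j i * (|dVf τ t (Q.x j i)| * (2 * ρ) + ‖c‖ * ρ) := by
        apply (norm_sum_le _ _).trans
        apply Finset.sum_le_sum
        intro i _
        rw [norm_mul, Complex.norm_real, Real.norm_of_nonneg (Q.hw j i)]
        apply mul_le_mul_of_nonneg_left _ (Q.hw j i)
        apply (norm_sub_le _ _).trans
        rw [norm_mul, norm_mul, Complex.norm_real, Real.norm_eq_abs]
        exact add_le_add (mul_le_mul_of_nonneg_left (hr1 i) (abs_nonneg _))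
          (mul_le_mul_of_nonneg_left (hr0 i) (norm_nonneg _))
    _ = 2 * ρ * Q.Er j (fun x => |dVf τ t x|) + ‖c‖ * ρ * Q.Er j (fun _ => 1) := by
        unfold Er
        rw [Finset.mul_sum, Finset.mul_sum, ← Finset.sum_add_distrib]
        apply Finset.sum_congr rfl
        intro i _
        ring
    _ ≤ 2 * ρ * Q.D + ‖c‖ * ρ * 1 := by
        rw [Er_one]
        have := Q.Er_dV hj
        gcongr
    _ = _ := by ring

theorem psi_tendsto (hb : PosSol τ t b) (c : ℂ) :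
    Tendsto (fun j => Q.psi j c) atTop (𝓝 0) := by
  have h1 : Tendsto (fun j => (2 * Q.D + ‖c‖) * rho ‖c‖ (1 + 2 * |τ| + 2 * |t|) j) atTop
      (𝓝 0) := by
    have := (rho_tendsto (a := ‖c‖) (C := 1 + 2 * |τ| + 2 * |t|) (norm_nonneg c)
      (by positivity)).const_mul (2 * Q.D + ‖c‖)
    rwa [mul_zero] at this
  apply squeeze_zero_norm' _ h1
  filter_upwards [eventually_ge_atTop 6] with j hj
  exact Q.psi_bound hb hj c

theorem psi_dom {j : ℕ} (hj : 6 ≤ j) (ξ : ℝ) :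
    ‖Q.psi j (2 * Real.pi * ξ * Complex.I)‖ ≤ Q.D + 2 * Real.pi * |ξ| := by
  unfold psi
  apply (Q.Ec_norm j _).trans
  have h1 : ∀ x : ℝ, ‖((dVf τ t x : ℂ) - 2 * Real.pi * ξ * Complex.I) *
      Complex.exp (2 * Real.pi * ξ * Complex.I * x)‖ ≤ |dVf τ t x| + (2 * Real.pi * |ξ|) * 1 := by
    intro x
    rw [norm_mul]
    have e1 : ‖Complex.exp (2 * Real.pi * ξ * Complex.I * x)‖ = 1 := by
      rw [show (2 * Real.pi * ξ * Complex.I * x : ℂ) = ((2 * Real.pi * ξ * x : ℝ) : ℂ) * Complex.I by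
        push_cast; ring]
      exact Complex.norm_exp_ofReal_mul_I _
    rw [e1, mul_one, mul_one]
    apply (norm_sub_le _ _).trans
    rw [Complex.norm_real, Real.norm_eq_abs]
    apply add_le_add le_rfl
    rw [norm_mul, norm_mul, norm_mul, Complex.norm_I, mul_one, Complex.norm_real, Complex.norm_real,
      Real.norm_eq_abs, Real.norm_eq_abs, abs_of_pos Real.pi_pos]
    norm_num
  apply (Q.Er_mono j h1).trans
  rw [Er_add, Er_mul, Er_one, mul_one]
  have := Q.Er_dV hj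
  linarith

end Quad

end Pool.Agent.R995.SF
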