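import Pool.Agent.R995.SF5

set_option autoImplicit false
set_option linter.unusedSimpArgs false
set_option linter.unusedVariables false
set_option linter.unusedSectionVars false

/-! # Smooth compactly supported test functions -/

namespace Pool.Agent.R995.SF

open Filter Topology MeasureTheory FourierTransform SchwartzMap
open scoped ContDiff

section fourier

variable {g : ℝ → ℂ} (h1 : HasCompactSupport g) (h2 : ContDiff ℝ ∞ g)

include h1 h2

theorem FT_int_pow (k : ℕ) : Integrable (fun ξ : ℝ => ‖ξ‖ ^ k * ‖𝓕 g ξ‖) := by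
  have h3 := (𝓕 (h1.toSchwartzMap h2)).integrable_pow_mul volume k
  exact h3

theorem FT_cont : Continuous (𝓕 g) := (𝓕 (h1.toSchwartzMap h2)).continuous

theorem FT_int : Integrable (𝓕 g) := (𝓕 (h1.toSchwartzMap h2)).integrable

theorem inversion (x : ℝ) :
    g x = ∫ ξ : ℝ, Complex.exp (2 * Real.pi * ξ * Complex.I * x) * 𝓕 g ξ := by
  have hi : Integrable g := (h1.toSchwartzMap h2).integrable
  have h3 := congrFun (h2.continuous.fourierInv_fourier_eq hi (FT_int h1 h2)) x
  rw [Real.fourierInv_eq'] at h3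
  rw [← h3]
  apply integral_congr_ae
  filter_upwards with ξ
  rw [smul_eq_mul]
  congr 2
  simp only [RCLike.inner_apply, conj_trivial]
  push_cast
  ring

theorem inversion_deriv (x : ℝ) :
    deriv g x = ∫ ξ : ℝ, Complex.exp (2 * Real.pi * ξ * Complex.I * x) *
      ((2 * Real.pi * ξ * Complex.I) * 𝓕 g ξ) := by
  have hi : Integrable g := (h1.toSchwartzMap h2).integrable
  have h1' : HasCompactSupport (deriv g) := h1.deriv
  have h2' : ContDiff ℝ ∞ (deriv g) := by
    have := (contDiff_infty_iff_deriv.1 h2).2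
    exact this
  have hi' : Integrable (deriv g) := (h1'.toSchwartzMap h2').integrable
  have h3 := inversion h1' h2' x
  rw [Real.fourier_deriv hi (h2.differentiable (by simp)) hi'] at h3
  rw [h3]
  apply integral_congr_ae
  filter_upwards with ξ
  rw [smul_eq_mul]
  ring

end fourier

namespace Quad

variable {τ t : ℝ} {b : ℕ → ℝ} (Q : Quad τ t b)

theorem Ec_eq_integral {g : ℝ → ℂ} (h1 : HasCompactSupport g) (h2 : ContDiff ℝ ∞ g) (j : ℕ) :
    Q.Ec j (fun x => (dVf τ t x : ℂ) * g x - deriv g x) =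
      ∫ ξ : ℝ, 𝓕 g ξ * Q.psi j (2 * Real.pi * ξ * Complex.I) := by
  have hc : ∀ x : ℝ, Continuous (fun ξ : ℝ => Complex.exp (2 * Real.pi * ξ * Complex.I * x)) := by
    intro x; fun_prop
  have hn : ∀ x ξ : ℝ, ‖Complex.exp (2 * Real.pi * ξ * Complex.I * x)‖ = 1 := by
    intro x ξ
    rw [show (2 * Real.pi * ξ * Complex.I * x : ℂ) = ((2 * Real.pi * ξ * x : ℝ) : ℂ) * Complex.I by
      push_cast; ring]
    exact Complex.norm_exp_ofReal_mul_I _
  have i0 : ∀ x : ℝ, Integrable (fun ξ : ℝ =>
      Complex.exp (2 * Real.pi * ξ * Complex.I * x) * 𝓕 g ξ) := by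
    intro x
    apply (FT_int h1 h2).mono ((hc x).mul (FT_cont h1 h2)).aestronglyMeasurable
    filter_upwards with ξ
    rw [Pi.mul_apply, norm_mul, hn, one_mul]
  have i1 : ∀ x : ℝ, Integrable (fun ξ : ℝ => Complex.exp (2 * Real.pi * ξ * Complex.I * x) *
      ((2 * Real.pi * ξ * Complex.I) * 𝓕 g ξ)) := by
    intro x
    have := ((FT_int_pow h1 h2 1).const_mul (2 * Real.pi))
    apply this.mono
    · apply Continuous.aestronglyMeasurable
      apply (hc x).mul
      apply Continuous.mul _ (FT_cont h1 h2)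
      fun_prop
    · filter_upwards with ξ
      rw [norm_mul, hn, one_mul, norm_mul, norm_mul, norm_mul, norm_mul, Complex.norm_I, mul_one,
        Complex.norm_real, Complex.norm_real, norm_mul, norm_mul, norm_mul, pow_one]
      simp only [norm_norm, Complex.norm_ofNat, Real.norm_ofNat]
      rw [mul_assoc]
  have e1 : ∀ ξ : ℝ, 𝓕 g ξ * Q.psi j (2 * Real.pi * ξ * Complex.I) =
      ∑ i, (Q.w j i : ℂ) * ((dVf τ t (Q.x j i) : ℂ) *
        (Complex.exp (2 * Real.pi * ξ * Complex.I * Q.x j i) * 𝓕 g ξ) -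
        Complex.exp (2 * Real.pi * ξ * Complex.I * Q.x j i) *
          ((2 * Real.pi * ξ * Complex.I) * 𝓕 g ξ)) := by
    intro ξ
    unfold psi Ec
    rw [Finset.mul_sum]
    apply Finset.sum_congr rfl
    intro i _
    ring
  simp_rw [e1]
  rw [integral_finsetSum]
  · unfold Ec
    apply Finset.sum_congr rfl
    intro i _
    rw [integral_const_mul, integral_sub ((i0 _).const_mul _) (i1 _), integral_const_mul,
      ← inversion h1 h2, ← inversion_deriv h1 h2]
  · intro i _
    exact (((i0 _).const_mul _).sub (i1 _)).const_mul _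

theorem tendsto_test (hb : PosSol τ t b) {g : ℝ → ℂ} (h1 : HasCompactSupport g)
    (h2 : ContDiff ℝ ∞ g) :
    Tendsto (fun j => Q.Ec j (fun x => (dVf τ t x : ℂ) * g x - deriv g x)) atTop (𝓝 0) := by
  simp_rw [Q.Ec_eq_integral h1 h2]
  have h0 : (0 : ℂ) = ∫ ξ : ℝ, (0 : ℂ) := by simp
  rw [h0]
  apply tendsto_integral_filter_of_dominated_convergence
    (fun ξ : ℝ => ‖𝓕 g ξ‖ * (Q.D + 2 * Real.pi * |ξ|))
  · filter_upwards with j
    apply Continuous.aestronglyMeasurable
    apply (FT_cont h1 h2).mul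
    unfold psi Ec
    fun_prop
  · filter_upwards [eventually_ge_atTop 6] with j hj
    filter_upwards with ξ
    rw [norm_mul]
    exact mul_le_mul_of_nonneg_left (Q.psi_dom hj ξ) (norm_nonneg _)
  · have h3 := (((FT_int_pow h1 h2 0).mul_const Q.D).add
      ((FT_int_pow h1 h2 1).mul_const (2 * Real.pi)))
    apply h3.congr
    filter_upwards with ξ
    simp only [Pi.add_apply, pow_zero, one_mul, pow_one, Real.norm_eq_abs]
    ring
  · filter_upwards with ξ
    have := (Q.psi_tendsto hb (2 * Real.pi * ξ * Complex.I)).const_mul (𝓕 g ξ)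
    rwa [mul_zero] at this

end Quad

end Pool.Agent.R995.SF
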