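import Pool.Agent.R995.SF6

set_option autoImplicit false
set_option linter.unusedSimpArgs false
set_option linter.unusedVariables false
set_option linter.unusedSectionVars false

/-! # Identification of the moments -/

namespace Pool.Agent.R995.SF

open Filter Topology MeasureTheory
open scoped ContDiff

/-- the weight -/
noncomputable def wt (τ t x : ℝ) : ℝ := Real.exp (-x ^ 6 + τ * x ^ 4 + t * x ^ 2)

/-- the moments of the weight -/
noncomputable def wm (τ t : ℝ) (k : ℕ) : ℝ := ∫ x : ℝ, x ^ k * wt τ t x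

theorem wt_pos (τ t x : ℝ) : 0 < wt τ t x := Real.exp_pos _

theorem wt_cont (τ t : ℝ) : Continuous (wt τ t) := by unfold wt; fun_prop

theorem wt_smooth (τ t : ℝ) : ContDiff ℝ ∞ (wt τ t) := by unfold wt; fun_prop

theorem wt_le (τ t : ℝ) : ∃ C : ℝ, ∀ x, wt τ t x ≤ C * Real.exp (-1 * x ^ 2) := by
  set Y : ℝ := |τ| + |t| + 2 with hY
  refine ⟨Real.exp (|τ| * Y ^ 2 + (|t| + 1) * Y), fun x => ?_⟩
  unfold wt
  rw [← Real.exp_add]
  apply Real.exp_le_exp.2
  have hτ := abs_nonneg τ
  have ht := abs_nonneg t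
  have hτ' := le_abs_self τ
  have ht' := le_abs_self t
  have key : ∀ y : ℝ, 0 ≤ y → -y ^ 3 + τ * y ^ 2 + (t + 1) * y ≤ |τ| * Y ^ 2 + (|t| + 1) * Y := by
    intro y hy
    have h0 : -y ^ 3 + τ * y ^ 2 + (t + 1) * y ≤ -y ^ 3 + |τ| * y ^ 2 + (|t| + 1) * y := by
      have := mul_le_mul_of_nonneg_right hτ' (sq_nonneg y)
      have := mul_le_mul_of_nonneg_right ht' hy
      linarith
    rcases le_total y Y with h | h
    · have h1 : y ^ 2 ≤ Y ^ 2 := pow_le_pow_left₀ hy h 2
      have h2 := mul_le_mul_of_nonneg_left h1 hτ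
      have h3 := mul_le_mul_of_nonneg_left h (by positivity : 0 ≤ |t| + 1)
      have h4 : 0 ≤ y ^ 3 := by positivity
      linarith
    · have h1 : 0 ≤ |τ| * Y ^ 2 + (|t| + 1) * Y := by positivity
      have h2 : -y ^ 3 + |τ| * y ^ 2 + (|t| + 1) * y ≤ 0 := by
        have h3 : |τ| * y ^ 2 + (|t| + 1) * y ≤ (|τ| + |t| + 1) * y ^ 2 := by
          have h5 : 1 ≤ y := by linarith
          have h4 : y ≤ y ^ 2 := by nlinarith
          have h6 := mul_le_mul_of_nonneg_left h4 (by positivity : 0 ≤ |t| + 1)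
          linarith
        have h7 : (|τ| + |t| + 1) * y ^ 2 ≤ y * y ^ 2 :=
          mul_le_mul_of_nonneg_right (by linarith) (sq_nonneg y)
        nlinarith
      linarith
  have h1 := key (x ^ 2) (sq_nonneg x)
  have e1 : -(x ^ 2) ^ 3 + τ * (x ^ 2) ^ 2 + (t + 1) * x ^ 2 =
      -x ^ 6 + τ * x ^ 4 + t * x ^ 2 + x ^ 2 := by ring
  rw [e1] at h1
  linarith

theorem wt_integrable (τ t : ℝ) (k : ℕ) : Integrable (fun x : ℝ => x ^ k * wt τ t x) := by
  obtain ⟨C, hC⟩ := wt_le τ t
  have h1 := (integrable_rpow_mul_exp_neg_mul_sq (b := 1) one_pos (s := (k : ℝ))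
    (by have : (0 : ℝ) ≤ k := Nat.cast_nonneg k
        linarith)).norm.const_mul C
  apply h1.mono'
  · exact ((continuous_pow k).mul (wt_cont τ t)).aestronglyMeasurable
  · filter_upwards with x
    rw [Real.rpow_natCast, norm_mul, norm_mul, Real.norm_of_nonneg (wt_pos τ t x).le,
      Real.norm_of_nonneg (Real.exp_pos _).le]
    calc ‖x ^ k‖ * wt τ t x ≤ ‖x ^ k‖ * (C * Real.exp (-1 * x ^ 2)) :=
          mul_le_mul_of_nonneg_left (hC x) (norm_nonneg _)
      _ = _ := by ring

theorem wm_zero_pos (τ t : ℝ) : 0 < wm τ t 0 := by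
  unfold wm
  rw [integral_pos_iff_support_of_nonneg]
  · have : Function.support (fun x : ℝ => x ^ 0 * wt τ t x) = Set.univ := by
      ext x
      simp [(wt_pos τ t x).ne']
    rw [this]
    simp
  · intro x
    have := (wt_pos τ t x).le
    simpa using this
  · exact wt_integrable τ t 0

theorem hasDerivAt_V (τ t x : ℝ) :
    HasDerivAt (fun x : ℝ => x ^ 6 - τ * x ^ 4 - t * x ^ 2) (dVf τ t x) x := by
  have h6 := hasDerivAt_pow 6 x
  have h4 := (hasDerivAt_pow 4 x).const_mul τ
  have h2 := (hasDerivAt_pow 2 x).const_mul t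
  refine ((h6.sub h4).sub h2).congr_deriv ?_
  unfold dVf
  norm_num
  ring

namespace Quad

variable {τ t : ℝ} {b : ℕ → ℝ} (Q : Quad τ t b)

theorem tendsto_real (hb : PosSol τ t b) {f : ℝ → ℝ} (h1 : HasCompactSupport f)
    (h2 : ContDiff ℝ ∞ f) (h3 : ∫ x, f x * wt τ t x = 0) :
    Tendsto (fun j => Q.Er j f) atTop (𝓝 0) := by
  obtain ⟨R, hR0, hR⟩ : ∃ R : ℝ, 0 < R ∧ ∀ x, f x ≠ 0 → -R ≤ x ∧ x ≤ R := by
    obtain ⟨R, hR⟩ := h1.isCompact.isBounded.subset_closedBall 0
    refine ⟨max R 1, by positivity, fun x hx => ?_⟩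
    have h4 := hR (subset_tsupport f hx)
    rw [Metric.mem_closedBall, Real.dist_eq, sub_zero] at h4
    exact abs_le.1 (h4.trans (le_max_left _ _))
  set F : ℝ → ℝ := fun x => f x * wt τ t x with hF
  have hFs : ContDiff ℝ ∞ F := h2.mul (wt_smooth τ t)
  have hFc : Continuous F := hFs.continuous
  set H : ℝ → ℝ := fun x => ∫ y in (-R)..x, F y with hH
  have hHd : ∀ x, HasDerivAt H (F x) x := fun x =>
    intervalIntegral.integral_hasDerivAt_right (hFc.intervalIntegrable _ _)
      (hFc.stronglyMeasurableAtFilter _ _) hFc.continuousAt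
  have hHs : ContDiff ℝ ∞ H := by
    rw [contDiff_infty_iff_deriv]
    refine ⟨fun x => (hHd x).differentiableAt, ?_⟩
    have : deriv H = F := funext fun x => (hHd x).deriv
    rw [this]
    exact hFs
  have hF0 : ∀ x, x < -R ∨ R < x → F x = 0 := by
    intro x hx
    by_contra hc
    have : f x ≠ 0 := left_ne_zero_of_mul hc
    have := hR x this
    rcases hx with hx | hx <;> linarith
  have hH0 : ∀ x, x < -R ∨ R < x → H x = 0 := by
    intro x hx
    rcases hx with hx | hx
    · simp only [hH]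
      rw [intervalIntegral.integral_symm, neg_eq_zero]
      apply intervalIntegral.integral_zero_ae
      have : ∀ᵐ y : ℝ, y ≠ -R := Measure.ae_ne volume (-R)
      filter_upwards [this] with y hy hy'
      rw [Set.uIoc_of_le hx.le] at hy'
      exact hF0 y (Or.inl (lt_of_le_of_ne hy'.2 hy))
    · simp only [hH]
      rw [intervalIntegral.integral_of_le (by linarith)]
      rw [← h3]
      rw [setIntegral_eq_integral_of_ae_compl_eq_zero]
      have : ∀ᵐ y : ℝ, y ≠ -R := Measure.ae_ne volume (-R)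
      filter_upwards [this] with y hy hy'
      apply hF0
      by_contra hc
      push Not at hc
      exact hy' ⟨lt_of_le_of_ne hc.1 (Ne.symm hy), by linarith [hc.2]⟩
  set G : ℝ → ℝ := fun x => -(Real.exp (x ^ 6 - τ * x ^ 4 - t * x ^ 2) * H x) with hG
  have hGs : ContDiff ℝ ∞ G := by
    apply ContDiff.neg
    apply ContDiff.mul _ hHs
    fun_prop
  have hGc : HasCompactSupport G := by
    apply HasCompactSupport.intro (isCompact_Icc (a := -R) (b := R))
    intro x hx
    have : x < -R ∨ R < x := by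
      by_contra hc
      push Not at hc
      exact hx ⟨hc.1, hc.2⟩
    simp only [hG, hH0 x this, mul_zero, neg_zero]
  have hGd : ∀ x, HasDerivAt G (dVf τ t x * G x - f x) x := by
    intro x
    have e1 := (hasDerivAt_V τ t x).exp
    have e2 := (e1.mul (hHd x)).neg
    refine e2.congr_deriv ?_
    simp only [hG, hF]
    have e3 : Real.exp (x ^ 6 - τ * x ^ 4 - t * x ^ 2) * wt τ t x = 1 := by
      unfold wt
      rw [← Real.exp_add]
      have : x ^ 6 - τ * x ^ 4 - t * x ^ 2 + (-x ^ 6 + τ * x ^ 4 + t * x ^ 2) = 0 := by ring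
      rw [this, Real.exp_zero]
    calc _ = dVf τ t x * -(Real.exp (x ^ 6 - τ * x ^ 4 - t * x ^ 2) * H x)
        - f x * (Real.exp (x ^ 6 - τ * x ^ 4 - t * x ^ 2) * wt τ t x) := by ring
      _ = _ := by rw [e3, mul_one]
  set g : ℝ → ℂ := fun x => (G x : ℂ) with hg
  have hgs : ContDiff ℝ ∞ g := Complex.ofRealCLM.contDiff.comp hGs
  have hgc : HasCompactSupport g := hGc.comp_left (g := fun x : ℝ => (x : ℂ)) (by simp)
  have hgd : ∀ x, deriv g x = ((dVf τ t x * G x - f x : ℝ) : ℂ) := fun x =>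
    ((hGd x).ofReal_comp).deriv
  have h5 := Q.tendsto_test hb hgc hgs
  have h6 : ∀ j, Q.Ec j (fun x => (dVf τ t x : ℂ) * g x - deriv g x) = (Q.Er j f : ℂ) := by
    intro j
    rw [← Ec_ofReal]
    congr 1
    funext x
    rw [hgd]
    simp only [hg]
    push_cast
    ring
  simp_rw [h6] at h5
  have h7 := (Complex.continuous_re.tendsto _).comp h5
  simpa [Function.comp_def] using h7

end Quad

end Pool.Agent.R995.SF
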