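import Pool.Agent.R995.SF7

set_option autoImplicit false
set_option linter.unusedSimpArgs false
set_option linter.unusedVariables false
set_option linter.unusedSectionVars false

/-! # Uniqueness of the positive solution -/

namespace Pool.Agent.R995.SF

open Filter Topology MeasureTheory Polynomial
open scoped ContDiff

/-- cut-off functions -/
noncomputable def bump (R : ℕ) : ContDiffBump (0 : ℝ) where
  rIn := R + 1
  rOut := R + 2
  rIn_pos := by positivity
  rIn_lt_rOut := by linarith

theorem bump_one (R : ℕ) {x : ℝ} (hx : |x| ≤ R + 1) : bump R x = 1 := by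
  apply (bump R).one_of_mem_closedBall
  rw [Metric.mem_closedBall, Real.dist_eq, sub_zero]
  exact hx

theorem bump_tail (R : ℕ) (x : ℝ) {k : ℕ} (hk : Even k) :
    |x ^ k * (1 - bump R x)| ≤ x ^ (k + 2) / (R + 1) ^ 2 := by
  have hxk : 0 ≤ x ^ k := hk.pow_nonneg x
  have hR : (0 : ℝ) < (R + 1) ^ 2 := by positivity
  by_cases hx : |x| ≤ R + 1
  · rw [bump_one R hx, sub_self, mul_zero, abs_zero, pow_add]
    positivity
  · push Not at hx
    have h1 : (R + 1 : ℝ) ^ 2 ≤ x ^ 2 := by
      rw [← sq_abs x]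
      exact pow_le_pow_left₀ (by positivity) hx.le 2
    have h2 : |1 - bump R x| ≤ 1 := by
      have h3 : 0 ≤ bump R x := (bump R).nonneg
      have h4 : bump R x ≤ 1 := (bump R).le_one
      rw [abs_le]; constructor <;> linarith
    rw [abs_mul, abs_of_nonneg hxk, pow_add, mul_div_assoc]
    apply mul_le_mul_of_nonneg_left _ hxk
    apply h2.trans
    rw [le_div_iff₀ hR, one_mul]
    exact h1

/-- truncated moments -/
noncomputable def cm (τ t : ℝ) (R k : ℕ) : ℝ := ∫ x : ℝ, x ^ k * bump R x * wt τ t x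

theorem cm_integrable (τ t : ℝ) (R k : ℕ) :
    Integrable (fun x : ℝ => x ^ k * bump R x * wt τ t x) := by
  apply (wt_integrable τ t k).mono
  · exact (((continuous_pow k).mul (bump R).continuous).mul (wt_cont τ t)).aestronglyMeasurable
  · filter_upwards with x
    have h3 : 0 ≤ bump R x := (bump R).nonneg
    have h4 : bump R x ≤ 1 := (bump R).le_one
    rw [norm_mul, norm_mul, norm_mul, Real.norm_of_nonneg h3]
    have h5 := norm_nonneg (x ^ k)
    have h6 := norm_nonneg (wt τ t x)
    apply mul_le_mul_of_nonneg_right _ h6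
    nlinarith

theorem cm_tendsto (τ t : ℝ) (k : ℕ) : Tendsto (fun R => cm τ t R k) atTop (𝓝 (wm τ t k)) := by
  unfold cm wm
  apply tendsto_integral_of_dominated_convergence (fun x => ‖x ^ k * wt τ t x‖)
  · intro R
    exact (cm_integrable τ t R k).aestronglyMeasurable
  · exact (wt_integrable τ t k).norm
  · intro R
    filter_upwards with x
    have h3 : 0 ≤ bump R x := (bump R).nonneg
    have h4 : bump R x ≤ 1 := (bump R).le_one
    rw [norm_mul, norm_mul, norm_mul, Real.norm_of_nonneg h3]
    have h5 := norm_nonneg (x ^ k)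
    have h6 := norm_nonneg (wt τ t x)
    apply mul_le_mul_of_nonneg_right _ h6
    nlinarith
  · filter_upwards with x
    apply tendsto_const_nhds.congr'
    filter_upwards [eventually_ge_atTop ⌈|x|⌉₊] with R hR
    rw [bump_one R, mul_one]
    have h1 := Nat.le_ceil |x|
    have h2 : (⌈|x|⌉₊ : ℝ) ≤ R := by exact_mod_cast hR
    linarith

namespace Quad

variable {τ t : ℝ} {b : ℕ → ℝ} (Q : Quad τ t b)

theorem mom_close (hb : PosSol τ t b) {k : ℕ} (hk : Even k) (R : ℕ) (hR : cm τ t R 0 ≠ 0) :
    |Q.mom k - cm τ t R k / cm τ t R 0| ≤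
      (Q.mom (k + 2) + |cm τ t R k / cm τ t R 0| * Q.mom 2) / (R + 1) ^ 2 := by
  set a := cm τ t R k / cm τ t R 0 with ha
  have h1 : HasCompactSupport (fun x : ℝ => (x ^ k - a) * bump R x) :=
    (bump R).hasCompactSupport.mul_left
  have h2 : ContDiff ℝ ∞ (fun x : ℝ => (x ^ k - a) * bump R x) := by
    apply ContDiff.mul
    · fun_prop
    · exact (bump R).contDiff
  have h3 : ∫ x, ((x ^ k - a) * bump R x) * wt τ t x = 0 := by
    have e1 : (fun x : ℝ => ((x ^ k - a) * bump R x) * wt τ t x) =
        fun x : ℝ => x ^ k * bump R x * wt τ t x - a * (x ^ 0 * bump R x * wt τ t x) := by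
      funext x; ring
    rw [e1, integral_sub (cm_integrable τ t R k) ((cm_integrable τ t R 0).const_mul a),
      integral_const_mul]
    change cm τ t R k - a * cm τ t R 0 = 0
    rw [ha, div_mul_cancel₀ _ hR, sub_self]
  have h4 := Q.tendsto_real hb h1 h2 h3
  have h5 : ∀ j, k + 2 ≤ j → |Q.mom k - a| ≤ |Q.Er j (fun x : ℝ => (x ^ k - a) * bump R x)| +
      (Q.mom (k + 2) + |a| * Q.mom 2) / (R + 1) ^ 2 := by
    intro j hj
    have e1 : Q.mom k - a = Q.Er j (fun x : ℝ => (x ^ k - a) * bump R x) +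
        Q.Er j (fun x => x ^ k * (1 - bump R x) - a * (x ^ 0 * (1 - bump R x))) := by
      rw [← Er_add]
      have e2 : (fun x : ℝ => (x ^ k - a) * bump R x + (x ^ k * (1 - bump R x)
          - a * (x ^ 0 * (1 - bump R x)))) = fun x => x ^ k - a * 1 := by
        funext x; ring
      rw [e2, Er_sub, Er_mul, Er_one, Q.mom_eq (by omega : k ≤ j), mul_one]
    rw [e1]
    apply (abs_add_le _ _).trans
    apply add_le_add le_rfl
    have e3 : |Q.Er j (fun x => x ^ k * (1 - bump R x) - a * (x ^ 0 * (1 - bump R x)))| ≤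
        Q.Er j (fun x => (1 / (R + 1) ^ 2) * x ^ (k + 2) + (|a| / (R + 1) ^ 2) * x ^ 2) := by
      unfold Er
      apply (Finset.abs_sum_le_sum_abs _ _).trans
      apply Finset.sum_le_sum
      intro i _
      rw [abs_mul, abs_of_nonneg (Q.hw j i)]
      apply mul_le_mul_of_nonneg_left _ (Q.hw j i)
      apply (abs_sub _ _).trans
      have e4 := bump_tail R (Q.x j i) hk
      have e5 := bump_tail R (Q.x j i) (k := 0) (by simp)
      rw [zero_add] at e5
      apply add_le_add
      · apply e4.trans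
        rw [div_eq_inv_mul, one_div]
      · rw [abs_mul]
        calc |a| * |Q.x j i ^ 0 * (1 - bump R (Q.x j i))| ≤ |a| * (Q.x j i ^ 2 / (R + 1) ^ 2) :=
              mul_le_mul_of_nonneg_left e5 (abs_nonneg a)
          _ = _ := by ring
    apply e3.trans
    rw [Er_add, Er_mul, Er_mul, Q.mom_eq (by omega : k + 2 ≤ j), Q.mom_eq (by omega : 2 ≤ j)]
    apply le_of_eq
    ring
  have h6 : Tendsto (fun j => |Q.Er j (fun x : ℝ => (x ^ k - a) * bump R x)| +
      (Q.mom (k + 2) + |a| * Q.mom 2) / (R + 1) ^ 2) atTop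
      (𝓝 (|0| + (Q.mom (k + 2) + |a| * Q.mom 2) / (R + 1) ^ 2)) :=
    h4.abs.add tendsto_const_nhds
  rw [abs_zero, zero_add] at h6
  apply ge_of_tendsto h6
  filter_upwards [eventually_ge_atTop (k + 2)] with j hj
  exact h5 j hj

/-- the even moments are those of the weight -/
theorem mom_even (hb : PosSol τ t b) {k : ℕ} (hk : Even k) :
    Q.mom k = wm τ t k / wm τ t 0 := by
  have h0 := wm_zero_pos τ t
  have h1 : Tendsto (fun R => cm τ t R k / cm τ t R 0) atTop (𝓝 (wm τ t k / wm τ t 0)) :=
    (cm_tendsto τ t k).div (cm_tendsto τ t 0) h0.ne'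
  have h2 : ∀ᶠ R in atTop, cm τ t R 0 ≠ 0 := by
    have := (cm_tendsto τ t 0).eventually_ne h0.ne'
    exact this
  have h3 : Tendsto (fun R : ℕ => ((R : ℝ) + 1) ^ 2) atTop atTop := by
    apply (tendsto_pow_atTop (two_ne_zero)).comp
    exact tendsto_atTop_add_const_right _ _ tendsto_natCast_atTop_atTop
  have h4 : Tendsto (fun R : ℕ => (Q.mom (k + 2) + |cm τ t R k / cm τ t R 0| * Q.mom 2) /
      ((R : ℝ) + 1) ^ 2) atTop (𝓝 0) :=
    (tendsto_const_nhds.add (h1.abs.mul_const _)).div_atTop h3
  have h5 : Tendsto (fun R => |Q.mom k - cm τ t R k / cm τ t R 0|) atTop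
      (𝓝 |Q.mom k - wm τ t k / wm τ t 0|) := (tendsto_const_nhds.sub h1).abs
  have h6 : |Q.mom k - wm τ t k / wm τ t 0| ≤ 0 := by
    apply le_of_tendsto_of_tendsto h5 h4
    filter_upwards [h2] with R hR
    exact Q.mom_close hb hk R hR
  have h7 := abs_nonpos_iff.1 h6
  linarith

theorem mom_odd (k : ℕ) (hk : Odd k) : Q.mom k = 0 := by
  obtain ⟨i, rfl⟩ := hk
  exact (Q.orth (2 * i + 1)).odd i (by omega)

end Quad

theorem wm_odd (τ t : ℝ) {k : ℕ} (hk : Odd k) : wm τ t k = 0 := by
  unfold wm
  have h1 : ∫ x : ℝ, (-x) ^ k * wt τ t (-x) = ∫ x : ℝ, x ^ k * wt τ t x :=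
    integral_neg_eq_self (fun x : ℝ => x ^ k * wt τ t x) volume
  have h2 : (fun x : ℝ => (-x) ^ k * wt τ t (-x)) = fun x => -(x ^ k * wt τ t x) := by
    funext x
    rw [hk.neg_pow]
    have : wt τ t (-x) = wt τ t x := by
      unfold wt
      congr 1
      ring
    rw [this]; ring
  rw [h2, integral_neg] at h1
  linarith

/-- integration against the weight, as a functional on polynomials -/
noncomputable def W (τ t : ℝ) : ℝ[X] →ₗ[ℝ] ℝ where
  toFun p := ∫ x : ℝ, p.eval x * wt τ t x
  map_add' p q := by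
    rw [← integral_add]
    · congr 1
      funext x
      rw [eval_add]; ring
    · exact poly_int p
    · exact poly_int q
  map_smul' c p := by
    rw [RingHom.id_apply, smul_eq_mul, ← integral_const_mul]
    congr 1
    funext x
    rw [eval_smul, smul_eq_mul]; ring
where
  poly_int (p : ℝ[X]) : Integrable (fun x : ℝ => p.eval x * wt τ t x) := by
    induction p using Polynomial.induction_on' with
    | add p q hp hq =>
      apply (hp.add hq).congr
      filter_upwards with x
      simp only [Pi.add_apply, eval_add]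
      ring
    | monomial n a =>
      apply ((wt_integrable τ t n).const_mul a).congr
      filter_upwards with x
      rw [eval_monomial]; ring

end Pool.Agent.R995.SF
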