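import Pool.Agent.R995.SF8

set_option autoImplicit false
set_option linter.unusedSimpArgs false
set_option linter.unusedVariables false
set_option linter.unusedSectionVars false

/-! # Existence and uniqueness -/

namespace Pool.Agent.R995.SF

open Filter Topology MeasureTheory Polynomial
open scoped ContDiff

theorem W_int (τ t : ℝ) (p : ℝ[X]) : Integrable (fun x : ℝ => p.eval x * wt τ t x) :=
  W.poly_int τ t p

theorem W_X_pow (τ t : ℝ) (k : ℕ) : W τ t (X ^ k) = wm τ t k := by
  change ∫ x : ℝ, (X ^ k : ℝ[X]).eval x * wt τ t x = wm τ t k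
  unfold wm
  simp

theorem W_eq_quad {τ t : ℝ} {b : ℕ → ℝ} (hb : PosSol τ t b) (Q : Quad τ t b) {j : ℕ} (p : ℝ[X])
    (hp : p.natDegree ≤ j) : W τ t p = wm τ t 0 * Q.Ep j p := by
  rw [map_eq_sum (W τ t) p (j + 1) (by omega), map_eq_sum (Q.Ep j) p (j + 1) (by omega),
    Finset.mul_sum]
  apply Finset.sum_congr rfl
  intro k hk
  rw [Finset.mem_range] at hk
  have h1 : Q.Ep j (X ^ k) = Q.mom k := by
    rw [← Q.mom_eq (by omega : k ≤ j), ← Quad.Er_poly]
    unfold Quad.Er
    simp
  rw [W_X_pow, h1]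
  rcases Nat.even_or_odd k with he | ho
  · rw [Q.mom_even hb he]
    have := (wm_zero_pos τ t).ne'
    field_simp
  · rw [Q.mom_odd k ho, wm_odd τ t ho, mul_zero, mul_zero]

/-- every positive solution generates the orthogonal polynomials of the weight -/
theorem PosSol.orthogonal {τ t : ℝ} {b : ℕ → ℝ} (hb : PosSol τ t b) (n m : ℕ) :
    W τ t (P b n * P b m) = if n = m then wm τ t 0 * h b n else 0 := by
  obtain ⟨Q⟩ := exists_quad hb
  have hdeg : (P b n * P b m).natDegree ≤ n + m := by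
    have h1 := natDegree_mul_le (p := P b n) (q := P b m)
    have h2 := P_natDegree b n
    have h3 := P_natDegree b m
    omega
  have h4 : Q.Ep (n + m) (P b n * P b m) = if n = m then h b n else 0 :=
    Q.ho (n + m) n m (by omega) (by omega)
  rw [W_eq_quad hb Q _ hdeg, h4]
  split_ifs <;> simp

theorem P_congr {b b' : ℕ → ℝ} (n : ℕ) :
    ((∀ i, 1 ≤ i → i < n → b i = b' i) → P b n = P b' n) ∧
      ((∀ i, 1 ≤ i → i < n + 1 → b i = b' i) → P b (n + 1) = P b' (n + 1)) := by
  induction n with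
  | zero => exact ⟨fun _ => rfl, fun _ => rfl⟩
  | succ n ih =>
    refine ⟨ih.2, fun h1 => ?_⟩
    rw [P_add_two, P_add_two, ih.2 (fun i hi hin => h1 i hi (by omega)),
      ih.1 (fun i hi hin => h1 i hi (by omega)), h1 (n + 1) (by omega) (by omega)]

theorem PosSol.unique {τ t : ℝ} {b b' : ℕ → ℝ} (hb : PosSol τ t b) (hb' : PosSol τ t b') :
    b = b' := by
  have key : ∀ n, (∀ i, i ≤ n → b i = b' i) ∧ h b n = h b' n := by
    intro n
    induction n with
    | zero =>
      refine ⟨fun i hi => ?_, rfl⟩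
      have : i = 0 := by omega
      rw [this, hb.1, hb'.1]
    | succ n ih =>
      have h1 : P b (n + 1) = P b' (n + 1) :=
        (P_congr (n + 1)).1 (fun i _ hi => ih.1 i (by omega))
      have h2 := hb.orthogonal (n + 1) (n + 1)
      have h3 := hb'.orthogonal (n + 1) (n + 1)
      rw [if_pos rfl] at h2 h3
      rw [h1, h3] at h2
      have h4 : h b (n + 1) = h b' (n + 1) :=
        (mul_left_cancel₀ (wm_zero_pos τ t).ne' h2).symm
      refine ⟨fun i hi => ?_, h4⟩
      rcases Nat.lt_or_ge i (n + 1) with hlt | hge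
      · exact ih.1 i (by omega)
      · have : i = n + 1 := by omega
        rw [this]
        rw [h_succ, h_succ, ih.2] at h4
        exact mul_right_cancel₀ (h_pos (fun n hn => (hb'.2 n hn).1) n).ne' h4
  funext n
  exact (key n).1 n le_rfl

/-! ### Existence -/

theorem W_pos (τ t : ℝ) {p : ℝ[X]} (hp : p ≠ 0) : 0 < W τ t (p * p) := by
  change 0 < ∫ x : ℝ, (p * p).eval x * wt τ t x
  rw [integral_pos_iff_support_of_nonneg]
  · have h1 : Function.support (fun x : ℝ => (p * p).eval x * wt τ t x) = {x | ¬ p.IsRoot x} := by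
      ext x
      simp [(wt_pos τ t x).ne', Polynomial.IsRoot]
    rw [h1]
    have h2 : {x : ℝ | p.IsRoot x}.Finite := p.finite_setOfPred_isRoot hp
    have h3 : volume {x : ℝ | p.IsRoot x} = 0 := h2.measure_zero volume
    have h4 : {x : ℝ | ¬ p.IsRoot x} = {x : ℝ | p.IsRoot x}ᶜ := rfl
    rw [h4]
    have h5 : volume ({x : ℝ | p.IsRoot x}ᶜ) = volume (Set.univ : Set ℝ) := by
      rw [Set.compl_eq_univ_sdiff, measure_sdiff_null h3]
    rw [h5]; simp
  · intro x
    simp only [Pi.zero_apply, eval_mul]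
    exact mul_nonneg (mul_self_nonneg _) (wt_pos τ t x).le
  · exact W_int τ t _

/-- integration by parts -/
theorem W_pearson (τ t : ℝ) (q : ℝ[X]) : W τ t (dV τ t * q) = W τ t (derivative q) := by
  have h1 : ∀ x : ℝ, HasDerivAt (fun x => q.eval x * wt τ t x)
      ((derivative q).eval x * wt τ t x - (dV τ t * q).eval x * wt τ t x) x := by
    intro x
    have e1 := q.hasDerivAt x
    have e2 : HasDerivAt (wt τ t) (-(dVf τ t x) * wt τ t x) x := by
      have e3 := (hasDerivAt_V τ t x).neg.exp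
      have e4 : (fun x : ℝ => Real.exp (-(x ^ 6 - τ * x ^ 4 - t * x ^ 2))) = wt τ t := by
        funext y
        unfold wt
        congr 1
        ring
      have e5 : (fun x : ℝ => Real.exp ((-fun x : ℝ => x ^ 6 - τ * x ^ 4 - t * x ^ 2) x)) =
          wt τ t := e4
      rw [e5] at e3
      refine e3.congr_deriv ?_
      have e6 : Real.exp ((-fun x : ℝ => x ^ 6 - τ * x ^ 4 - t * x ^ 2) x) = wt τ t x :=
        congrFun e5 x
      rw [e6]; ring
    refine (e1.mul e2).congr_deriv ?_
    rw [eval_mul, Quad.dV_eval]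
    ring
  have h2 := integral_eq_zero_of_hasDerivAt_of_integrable h1
    ((W_int τ t _).sub (W_int τ t _)) (W_int τ t q)
  rw [integral_sub (W_int τ t _) (W_int τ t _)] at h2
  change ∫ x : ℝ, (dV τ t * q).eval x * wt τ t x = ∫ x : ℝ, (derivative q).eval x * wt τ t x
  linarith

/-- the normalised functional -/
noncomputable def W0 (τ t : ℝ) : ℝ[X] →ₗ[ℝ] ℝ := (wm τ t 0)⁻¹ • W τ t

theorem W0_apply (τ t : ℝ) (p : ℝ[X]) : W0 τ t p = (wm τ t 0)⁻¹ * W τ t p := rfl

theorem W0_pos (τ t : ℝ) {p : ℝ[X]} (hp : p ≠ 0) : 0 < W0 τ t (p * p) := by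
  rw [W0_apply]
  exact mul_pos (inv_pos.2 (wm_zero_pos τ t)) (W_pos τ t hp)

/-- pairs of consecutive orthogonal polynomials -/
noncomputable def qq (τ t : ℝ) : ℕ → ℝ[X] × ℝ[X]
  | 0 => (1, X)
  | (n + 1) => ((qq τ t n).2, X * (qq τ t n).2 -
      C (W0 τ t ((qq τ t n).2 * (qq τ t n).2) / W0 τ t ((qq τ t n).1 * (qq τ t n).1))
        * (qq τ t n).1)

/-- the recurrence coefficients of the weight -/
noncomputable def beta (τ t : ℝ) : ℕ → ℝ
  | 0 => 0
  | (n + 1) => W0 τ t ((qq τ t n).2 * (qq τ t n).2) / W0 τ t ((qq τ t n).1 * (qq τ t n).1)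

theorem P_beta (τ t : ℝ) (n : ℕ) :
    P (beta τ t) n = (qq τ t n).1 ∧ P (beta τ t) (n + 1) = (qq τ t n).2 := by
  induction n with
  | zero => exact ⟨rfl, rfl⟩
  | succ n ih =>
    refine ⟨ih.2, ?_⟩
    rw [P_add_two, ih.1, ih.2]
    rfl

theorem P_ne_zero (b : ℕ → ℝ) (n : ℕ) : P b n ≠ 0 := by
  intro hc
  have := P_coeff b n
  rw [hc] at this
  simp at this

theorem beta_succ (τ t : ℝ) (n : ℕ) : beta τ t (n + 1) =
    W0 τ t (P (beta τ t) (n + 1) * P (beta τ t) (n + 1)) /
      W0 τ t (P (beta τ t) n * P (beta τ t) n) := by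
  rw [(P_beta τ t n).1, (P_beta τ t n).2]
  rfl

theorem beta_pos (τ t : ℝ) (n : ℕ) (hn : 1 ≤ n) : 0 < beta τ t n := by
  obtain ⟨m, rfl⟩ : ∃ m, n = m + 1 := ⟨n - 1, by omega⟩
  rw [beta_succ]
  exact div_pos (W0_pos τ t (P_ne_zero _ _)) (W0_pos τ t (P_ne_zero _ _))

theorem W0_h (τ t : ℝ) (n : ℕ) :
    W0 τ t (P (beta τ t) n * P (beta τ t) n) = h (beta τ t) n := by
  induction n with
  | zero =>
    rw [P_zero, mul_one, W0_apply]
    have h1 : W τ t 1 = wm τ t 0 := by rw [← W_X_pow, pow_zero]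
    rw [h1, inv_mul_cancel₀ (wm_zero_pos τ t).ne']
    rfl
  | succ n ih =>
    rw [h_succ, beta_succ, ← ih, div_mul_cancel₀]
    exact (W0_pos τ t (P_ne_zero _ _)).ne'

theorem W0_odd (τ t : ℝ) (b : ℕ → ℝ) (n : ℕ) : W0 τ t (X * (P b n * P b n)) = 0 := by
  rw [W0_apply]
  have h1 : W τ t (X * (P b n * P b n)) = 0 := by
    rw [map_eq_sum (W τ t) _ _ (Nat.lt_succ_self _)]
    apply Finset.sum_eq_zero
    intro k _
    rw [W_X_pow]
    rcases Nat.even_or_odd k with he | ho
    · rcases k with _ | k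
      · simp
      · rw [coeff_X_mul, coeff_mul]
        have h2 : ∑ x ∈ Finset.HasAntidiagonal.antidiagonal k,
            (P b n).coeff x.1 * (P b n).coeff x.2 = 0 := by
          apply Finset.sum_eq_zero
          rintro ⟨i, j⟩ hij
          rw [Finset.HasAntidiagonal.mem_antidiagonal] at hij
          simp only at hij ⊢
          rcases Nat.even_or_odd (n + j) with he' | ho'
          · rw [(P_parity b n).1 i, zero_mul]
            rw [Nat.odd_iff]
            rw [Nat.even_iff] at he he'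
            omega
          · rw [(P_parity b n).1 j ho', mul_zero]
        rw [h2, zero_mul]
    · rw [wm_odd τ t ho, mul_zero]
  rw [h1, mul_zero]

theorem beta_orth (τ t : ℝ) (M : ℕ) : Orth (W0 τ t) (beta τ t) M := by
  have hb : beta τ t 0 = 0 := rfl
  -- off-diagonal products vanish
  have key : ∀ n, ∀ m, m < n → W0 τ t (P (beta τ t) n * P (beta τ t) m) = 0 := by
    intro n
    induction n using Nat.strong_induction_on with
    | _ n ih =>
      intro m hm
      rcases n with _ | _ | n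
      · omega
      · have : m = 0 := by omega
        subst this
        have := W0_odd τ t (beta τ t) 0
        rw [P_zero] at this ⊢
        rw [show (0 + 1 : ℕ) = 1 from rfl, P_one]
        simpa using this
      · have e1 : P (beta τ t) (n + 1 + 1) * P (beta τ t) m =
            P (beta τ t) (n + 1) * (X * P (beta τ t) m)
            - C (beta τ t (n + 1)) * (P (beta τ t) n * P (beta τ t) m) := by
          rw [P_add_two]; ring
        rw [e1, map_sub, E_C_mul]
        rcases Nat.lt_trichotomy m n with h1 | h1 | h1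
        · rw [X_mul_P hb m, mul_add, map_add, mul_left_comm, E_C_mul, ih (n + 1) (by omega) _
            (by omega), ih (n + 1) (by omega) _ (by omega), ih n (by omega) _ h1]
          ring
        · subst h1
          rw [X_mul_P hb m, mul_add, map_add, mul_left_comm, E_C_mul, W0_h, ih (m + 1) (by omega) _
            (by omega), W0_h, h_succ]
          ring
        · have h2 : m = n + 1 := by omega
          subst h2
          have e2 : P (beta τ t) (n + 1) * (X * P (beta τ t) (n + 1)) =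
              X * (P (beta τ t) (n + 1) * P (beta τ t) (n + 1)) := by ring
          rw [e2, W0_odd, mul_comm (P (beta τ t) n), ih (n + 1) (by omega) n (by omega)]
          ring
  intro n m _ _
  split_ifs with hnm
  · rw [← hnm, W0_h]
  · rcases Nat.lt_or_gt_of_ne hnm with h1 | h1
    · rw [mul_comm, key m n h1]
    · exact key n m h1

theorem beta_posSol (τ t : ℝ) : PosSol τ t (beta τ t) := by
  refine ⟨rfl, fun n hn => ⟨beta_pos τ t n hn, ?_⟩⟩
  apply Orth.string_of_pearson (E := W0 τ t) (fun M => beta_orth τ t M) rfl τ t _ _ n hn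
  · intro m
    exact (h_pos (beta_pos τ t) m).ne'
  · intro q
    rw [W0_apply, W0_apply, W_pearson]

theorem beta_one (τ t : ℝ) : beta τ t 1 = wm τ t 2 / wm τ t 0 := by
  have h1 := W0_h τ t 1
  rw [P_one, h_succ] at h1
  rw [show h (beta τ t) 0 = 1 from rfl, mul_one] at h1
  rw [show (0 + 1 : ℕ) = 1 from rfl] at h1
  rw [← h1, W0_apply, ← sq, W_X_pow]
  ring

theorem beta_two (τ t : ℝ) : beta τ t 2 = wm τ t 4 / wm τ t 2 - wm τ t 2 / wm τ t 0 := by
  have h1 := W0_h τ t 2
  have h2 : P (beta τ t) 2 = X ^ 2 - C (beta τ t 1) := by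
    rw [show (2 : ℕ) = 0 + 2 from rfl, P_add_two, P_zero]
    rw [show (0 + 1 : ℕ) = 1 from rfl, P_one]
    ring
  have h3 : P (beta τ t) 2 * P (beta τ t) 2 = X ^ 4 - C (2 * beta τ t 1) * X ^ 2
      + C (beta τ t 1 ^ 2) * X ^ 0 := by
    rw [h2, C_mul, C_pow]
    have : (C 2 : ℝ[X]) = 2 := rfl
    rw [this]
    ring
  rw [h3, map_add, map_sub, E_C_mul, E_C_mul, W0_apply, W0_apply, W0_apply, W_X_pow, W_X_pow,
    W_X_pow] at h1
  have h4 : h (beta τ t) 2 = beta τ t 2 * beta τ t 1 := by
    rw [show (2 : ℕ) = 0 + 1 + 1 from rfl, h_succ, h_succ]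
    rw [show h (beta τ t) 0 = 1 from rfl, mul_one]
  have hw := (wm_zero_pos τ t).ne'
  have hb1 := (beta_pos τ t 1 le_rfl).ne'
  have hb1' := beta_one τ t
  have hw2 : wm τ t 2 ≠ 0 := by
    intro hc
    rw [hc, zero_div] at hb1'
    exact hb1 hb1'
  rw [h4, hb1'] at h1
  have h5 : beta τ t 2 * (wm τ t 2 / wm τ t 0) =
      wm τ t 4 / wm τ t 0 - (wm τ t 2 / wm τ t 0) ^ 2 := by
    rw [← h1]
    field_simp
    ring
  have h6 : wm τ t 2 / wm τ t 0 ≠ 0 := div_ne_zero hw2 hw
  apply mul_right_cancel₀ h6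
  rw [h5]
  field_simp

end Pool.Agent.R995.SF
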